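import Mathlib
import Pool.Agent.Work.MP_787500_nt.KT.Diag

/-!
The Kramer step for an arbitrary family of Lagrangian local conditions: definitions (fixed, do not change).

`G` is the global group over the smaller field, `ε` the quadratic character, `A` a representation of `G` with values
in the symplectic group of `F ^ n`, `F` a finite field of characteristic 2. A local condition is a space `L` of pairs
`(a, y)`, `y` a cocycle and the coboundary of `a` equal to `ε ∪ y`.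
-/

set_option autoImplicit false
set_option linter.unusedSectionVars false

namespace Pool.Agent.Work.MP_787500_nt.KI

open Matrix
open Pool.Agent.Work.MP_787500_nt.GP (A0 hf hf_add hf_zero hf_two hf_neg smul_hf eq_hf hf_inj IsAct d0 d1
  d2 tw cup11 cup21 cup12 cup01 cup02)
open Pool.Agent.Work.MP_787500_nt.KR (FSys Sm1 Sm2 IsChar Smooth Z1 Z2 B2 LocH Pair LDual GlobH IsTr PP)
open Pool.Agent.Work.MP_787500_nt.KT hiding Str Rel Sel KH Ai IsP cc ff TT
open Pool.Agent.Work.MP_787500_nt.KS (hfT hfT_apply rt)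

variable {F : Type*} [Field F] [Finite F] [CharP F 2] [Algebra (ZMod 2) F] {n : ℕ} [Sy F n]

section loc

variable {D : Type*} [Group D] (SD : FSys D) (iv : (D → D → A0) → A0)
  (A : D →* Matrix (Fin n) (Fin n) F) (ε : D → ZMod 2)
  (L : Submodule F ((D → Fin n → F) × (D → Fin n → F)))

/-- the second components -/
def Y2 : Submodule F (D → Fin n → F) := L.map (LinearMap.snd F (D → Fin n → F) (D → Fin n → F))

/-- the cocycles `r` with `(r, 0)` in `L` -/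
def R1 : Submodule F (D → Fin n → F) := L.comap (LinearMap.inl F (D → Fin n → F) (D → Fin n → F))

theorem mem_Y2 {y : D → Fin n → F} : y ∈ Y2 L ↔ ∃ a, (a, y) ∈ L := by
  unfold Y2
  rw [Submodule.mem_map]
  constructor
  · rintro ⟨⟨a, z⟩, h, rfl⟩
    exact ⟨a, h⟩
  · rintro ⟨a, h⟩
    exact ⟨(a, y), h, rfl⟩

theorem mem_R1 {r : D → Fin n → F} : r ∈ R1 L ↔ (r, 0) ∈ L := Iff.rfl

/-- A Lagrangian local condition. -/
structure LKr : Prop where
  coc : ∀ p ∈ L, Z1 SD (KT.act A) p.2 ∧ Sm1 SD p.1 ∧ IsLift (A : D → Matrix (Fin n) (Fin n) F) ε p.1 p.2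
  rel : ∀ r, (r, 0) ∈ L ↔ Z1 SD (KT.act A) r ∧ ∀ p ∈ L, iv (cup11 (KT.act A) BU r p.2) = 0
  cob : ∀ m : Fin n → F, ∃ a, (a, fun d => A d *ᵥ m + m) ∈ L
  symm : ∀ p ∈ L, ∀ q ∈ L, iv (fun s t => hfT (ee (p.1 s) (A s *ᵥ q.2 t) +
    ee (q.1 s) (A s *ᵥ p.2 t) + ε s • ee (p.2 t) (q.2 t))) = 0
  diag : ∀ p ∈ L, ∀ a, (a, kc A) ∈ L → ∀ α : F, iv (fun s t => hfT (α * ee (p.1 s) (A s *ᵥ p.2 t) +
    ε s • (α * qq (p.2 t)) + rt α * ee (a s) (A s *ᵥ p.2 t))) = 0
  kmem : ∃ a, (a, kc A) ∈ L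

/-- the value at the correction class -/
def LVal (t : ℕ) : Prop :=
  ∀ a, (a, kc A) ∈ L → ∀ α : F, iv (fun s t => hfT (α * ee (a s) (A s *ᵥ kc A t) +
    ε s • (α * mm (A t)))) = hf (Algebra.trace (ZMod 2) F α * (t : ZMod 2))

end loc

section glob

variable {G : Type*} [Group G] (S : FSys G) {I : Type*} {D : I → Type*} [∀ i, Group (D i)]
  (j : ∀ i, D i →* G) (A : G →* Matrix (Fin n) (Fin n) F) (ε : G → ZMod 2)
  (L : ∀ i, Submodule F ((D i → Fin n → F) × (D i → Fin n → F)))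

/-- the strict Selmer space -/
def Str : Submodule F (G → Fin n → F) where
  carrier := {y | Z1 S (KT.act A) y ∧ ∀ i, (fun d => y (j i d)) ∈ Y2 (L i)}
  add_mem' := fun h h' => ⟨(cocS S (A : G → Matrix (Fin n) (Fin n) F)).add_mem h.1 h'.1,
    fun i => (Y2 (L i)).add_mem (h.2 i) (h'.2 i)⟩
  zero_mem' := ⟨(cocS S (A : G → Matrix (Fin n) (Fin n) F)).zero_mem, fun i => (Y2 (L i)).zero_mem⟩
  smul_mem' := fun c _ h => ⟨(cocS S (A : G → Matrix (Fin n) (Fin n) F)).smul_mem c h.1,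
    fun i => (Y2 (L i)).smul_mem c (h.2 i)⟩

theorem mem_Str {y : G → Fin n → F} :
    y ∈ Str S j A L ↔ Z1 S (KT.act A) y ∧ ∀ i, (fun d => y (j i d)) ∈ Y2 (L i) := Iff.rfl

/-- the relaxed Selmer space -/
def Rel : Submodule F (G → Fin n → F) where
  carrier := {y | Z1 S (KT.act A) y ∧ ∀ i, (fun d => y (j i d)) ∈ R1 (L i)}
  add_mem' := fun h h' => ⟨(cocS S (A : G → Matrix (Fin n) (Fin n) F)).add_mem h.1 h'.1,
    fun i => (R1 (L i)).add_mem (h.2 i) (h'.2 i)⟩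
  zero_mem' := ⟨(cocS S (A : G → Matrix (Fin n) (Fin n) F)).zero_mem, fun i => (R1 (L i)).zero_mem⟩
  smul_mem' := fun c _ h => ⟨(cocS S (A : G → Matrix (Fin n) (Fin n) F)).smul_mem c h.1,
    fun i => (R1 (L i)).smul_mem c (h.2 i)⟩

theorem mem_Rel {y : G → Fin n → F} :
    y ∈ Rel S j A L ↔ Z1 S (KT.act A) y ∧ ∀ i, (fun d => y (j i d)) ∈ R1 (L i) := Iff.rfl

/-- the Selmer space over the quadratic extension -/
def Sel : Submodule F ((G → Fin n → F) × (G → Fin n → F)) where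
  carrier := {p | Z1 S (KT.act A) p.2 ∧ Sm1 S p.1 ∧
    IsLift (A : G → Matrix (Fin n) (Fin n) F) ε p.1 p.2 ∧
    ∀ i, ((fun d => p.1 (j i d)), fun d => p.2 (j i d)) ∈ L i}
  add_mem' := by
    rintro ⟨a, y⟩ ⟨a', y'⟩ ⟨h1, ⟨W, hW, h2⟩, h3, h4⟩ ⟨h1', ⟨W', hW', h2'⟩, h3', h4'⟩
    dsimp only at h1 h2 h3 h4 h1' h2' h3' h4'
    refine ⟨(cocS S (A : G → Matrix (Fin n) (Fin n) F)).add_mem h1 h1',
      ⟨W ⊓ W', S.inf hW hW', fun g w hw => ?_⟩, fun g h => ?_, fun i => (L i).add_mem (h4 i) (h4' i)⟩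
    · show a (g * w) + a' (g * w) = a g + a' g
      rw [h2 g w hw.1, h2' g w hw.2]
    · show a (g * h) + a' (g * h) = a g + a' g + A g *ᵥ (a h + a' h) +
        ε g • (A g *ᵥ (y h + y' h))
      rw [h3, h3', mulVec_add, mulVec_add, smul_add]
      abel
  zero_mem' := by
    obtain ⟨W, hW⟩ := S.ex
    refine ⟨(cocS S (A : G → Matrix (Fin n) (Fin n) F)).zero_mem, ⟨W, hW, fun _ _ _ => rfl⟩,
      fun g h => ?_, fun i => (L i).zero_mem⟩
    show (0 : Fin n → F) = 0 + A g *ᵥ 0 + ε g • (A g *ᵥ 0)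
    rw [mulVec_zero, smul_zero, add_zero, add_zero]
  smul_mem' := by
    rintro c ⟨a, y⟩ ⟨h1, ⟨W, hW, h2⟩, h3, h4⟩
    dsimp only at h1 h2 h3 h4
    refine ⟨(cocS S (A : G → Matrix (Fin n) (Fin n) F)).smul_mem c h1, ⟨W, hW, fun g w hw => ?_⟩,
      fun g h => ?_, fun i => (L i).smul_mem c (h4 i)⟩
    · show c • a (g * w) = c • a g
      rw [h2 g w hw]
    · show c • a (g * h) = c • a g + A g *ᵥ (c • a h) + ε g • (A g *ᵥ (c • y h))
      rw [h3, mulVec_smul, mulVec_smul, smul_add, smul_add, smul_comm c (ε g)]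

theorem mem_Sel {p : (G → Fin n → F) × (G → Fin n → F)} : p ∈ Sel S j A ε L ↔ Z1 S (KT.act A) p.2 ∧
    Sm1 S p.1 ∧ IsLift (A : G → Matrix (Fin n) (Fin n) F) ε p.1 p.2 ∧
    ∀ i, ((fun d => p.1 (j i d)), fun d => p.2 (j i d)) ∈ L i := Iff.rfl

end glob

section hyp

variable {G : Type*} [Group G] (S : FSys G) {I : Type*} [Fintype I] {D : I → Type*}
  [∀ i, Group (D i)] (SD : ∀ i, FSys (D i)) (j : ∀ i, D i →* G) (χ : G → ℤ_[2])
  (inv : ∀ i, (D i → D i → A0) → A0) (tr : ((G → G → G → A0) × (∀ i, D i → D i → A0)) →+ A0)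
  (A : G →* Matrix (Fin n) (Fin n) F) (ε : G → ZMod 2)
  (L : ∀ i, Submodule F ((D i → Fin n → F) × (D i → Fin n → F)))

/-- the hypotheses of the Kramer step -/
structure KH : Prop where
  glob : GlobH S SD j χ inv
  istr : IsTr S SD j χ inv tr
  pp : PP S SD j tr (KT.act A) (KT.act A) BU
  ld : ∀ i, LDual (SD i) (inv i) (KT.act (A.comp (j i))) (KT.act (A.comp (j i))) BU
  fin : Finite {x : G → Fin n → F // Z1 S (KT.act A) x}
  det : ∀ g, IsSp (A g)
  sm : Smooth S (KT.act A)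
  eadd : ∀ g h, ε (g * h) = ε g + ε h
  esm : Sm1 S ε
  loc : ∀ i, LKr (SD i) (inv i) (A.comp (j i)) (fun d => ε (j i d)) (L i)

end hyp

end Pool.Agent.Work.MP_787500_nt.KI
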