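import Mathlib
import Pool.Agent.Work.MP_787500_nt.KI.Defs
import Pool.Agent.Work.MP_787500_nt.QL.UrCob

/-!
The Kramer step, the local term at an inert place: the condition `zurL`, change of the cochains by coboundaries.
-/

set_option autoImplicit false
set_option linter.unusedSectionVars false

namespace Pool.Agent.Work.MP_787500_nt.KI

open Matrix
open Pool.Agent.Work.MP_787500_nt.GP (A0 hf hf_add hf_zero hf_two hf_neg smul_hf eq_hf hf_inj IsAct d0 d1
  d2 tw cup11)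
open Pool.Agent.Work.MP_787500_nt.KR (FSys Sm1 Sm2 IsChar Smooth Z1 Z2 B2 LocH Pair LDual z1s)
open Pool.Agent.Work.MP_787500_nt.KT hiding Str Rel Sel KH Ai IsP cc ff TT
open Pool.Agent.Work.MP_787500_nt.QL (TameF ur_cob fixP mem_fixP zI zI_mul zI_fix exists_ur coc_pow)
open Pool.Agent.Work.MP_787500_nt.KS (hfT hfT_apply hfT_sq hfT_two hfT_neg smul_hfT hfT_nondeg hfT_smul
  inv_zero zero_Z2 smul_F dF1 dF2 leib_chi sm_eps sm1_two sm1_one zmod2_cases hf_cup_Z2 d2_hfT)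

variable {F : Type*} [Field F] [Finite F] [CharP F 2] [Algebra (ZMod 2) F] {n : ℕ} [Sy F n]

section cond

variable {D : Type*} [Group D]

/-- the condition at an inert place: pairs whose restriction to inertia is a coboundary -/
def zurL (SD : FSys D) (A : D →* Matrix (Fin n) (Fin n) F) (ε : D → ZMod 2) (In : Subgroup D) :
    Submodule F ((D → Fin n → F) × (D → Fin n → F)) where
  carrier := {p | Z1 SD (KT.act A) p.2 ∧ Sm1 SD p.1 ∧
    IsLift (A : D → Matrix (Fin n) (Fin n) F) ε p.1 p.2 ∧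
    (∃ m : Fin n → F, ∀ i ∈ In, p.1 i = A i *ᵥ m + m) ∧
    ∃ m : Fin n → F, ∀ i ∈ In, p.2 i = A i *ᵥ m + m}
  add_mem' := by
    rintro ⟨a, y⟩ ⟨a', y'⟩ ⟨h1, ⟨W, hW, h2⟩, h3, ⟨m, hm⟩, k, hk⟩ ⟨h1', ⟨W', hW', h2'⟩, h3', ⟨m', hm'⟩, k', hk'⟩
    dsimp only at h1 h2 h3 hm hk h1' h2' h3' hm' hk'
    refine ⟨(cocS SD (A : D → Matrix (Fin n) (Fin n) F)).add_mem h1 h1',
      ⟨W ⊓ W', SD.inf hW hW', fun g w hw => ?_⟩, fun g h => ?_, ⟨m + m', fun i hi => ?_⟩,
      ⟨k + k', fun i hi => ?_⟩⟩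
    · show a (g * w) + a' (g * w) = a g + a' g
      rw [h2 g w hw.1, h2' g w hw.2]
    · show a (g * h) + a' (g * h) = a g + a' g + A g *ᵥ (a h + a' h) +
        ε g • (A g *ᵥ (y h + y' h))
      rw [h3, h3', mulVec_add, mulVec_add, smul_add]
      abel
    · show a i + a' i = _
      rw [hm i hi, hm' i hi, mulVec_add]
      abel
    · show y i + y' i = _
      rw [hk i hi, hk' i hi, mulVec_add]
      abel
  zero_mem' := by
    obtain ⟨W, hW⟩ := SD.ex
    refine ⟨(cocS SD (A : D → Matrix (Fin n) (Fin n) F)).zero_mem, ⟨W, hW, fun _ _ _ => rfl⟩,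
      fun g h => ?_, ⟨0, fun i _ => ?_⟩, ⟨0, fun i _ => ?_⟩⟩
    · show (0 : Fin n → F) = 0 + A g *ᵥ 0 + ε g • (A g *ᵥ 0)
      rw [mulVec_zero, smul_zero, add_zero, add_zero]
    · show (0 : Fin n → F) = _
      rw [mulVec_zero, add_zero]
    · show (0 : Fin n → F) = _
      rw [mulVec_zero, add_zero]
  smul_mem' := by
    rintro c ⟨a, y⟩ ⟨h1, ⟨W, hW, h2⟩, h3, ⟨m, hm⟩, k, hk⟩
    dsimp only at h1 h2 h3 hm hk
    refine ⟨(cocS SD (A : D → Matrix (Fin n) (Fin n) F)).smul_mem c h1,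
      ⟨W, hW, fun g w hw => ?_⟩, fun g h => ?_, ⟨c • m, fun i hi => ?_⟩, ⟨c • k, fun i hi => ?_⟩⟩
    · show c • a (g * w) = c • a g
      rw [h2 g w hw]
    · show c • a (g * h) = c • a g + A g *ᵥ (c • a h) + ε g • (A g *ᵥ (c • y h))
      rw [h3, mulVec_smul, mulVec_smul, smul_add, smul_add, smul_comm c (ε g)]
    · show c • a i = _
      rw [hm i hi, mulVec_smul, smul_add]
    · show c • y i = _
      rw [hk i hi, mulVec_smul, smul_add]

theorem mem_zurL {SD : FSys D} {A : D →* Matrix (Fin n) (Fin n) F} {ε : D → ZMod 2}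
    {In : Subgroup D} {p : (D → Fin n → F) × (D → Fin n → F)} :
    p ∈ zurL SD A ε In ↔ Z1 SD (KT.act A) p.2 ∧ Sm1 SD p.1 ∧
      IsLift (A : D → Matrix (Fin n) (Fin n) F) ε p.1 p.2 ∧
      (∃ m : Fin n → F, ∀ i ∈ In, p.1 i = A i *ᵥ m + m) ∧
      ∃ m : Fin n → F, ∀ i ∈ In, p.2 i = A i *ᵥ m + m := Iff.rfl

end cond

section alg

variable {D : Type*} [Group D] {A : D →* Matrix (Fin n) (Fin n) F} {ε : D → ZMod 2}
  {b κ : D → Fin n → F} {v p : Fin n → F} {m : D → F}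

/-- the 2-cochain whose invariant is the local term -/
def om (A : D →* Matrix (Fin n) (Fin n) F) (ε : D → ZMod 2) (b κ : D → Fin n → F) (m : D → F) :
    D → D → F := fun g h => ee (b g) (A g *ᵥ κ h) + ε g • m h

/-- the new cocycle -/
def ka (A : D →* Matrix (Fin n) (Fin n) F) (κ : D → Fin n → F) (v : Fin n → F) : D → Fin n → F :=
  fun g => κ g + (A g *ᵥ v + v)

/-- the new cochain -/
def ba (A : D →* Matrix (Fin n) (Fin n) F) (ε : D → ZMod 2) (b : D → Fin n → F)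
    (p v : Fin n → F) : D → Fin n → F :=
  fun g => b g + (A g *ᵥ p + p) + ε g • (A g *ᵥ v)

/-- the new secondary cochain -/
def ma (A : D →* Matrix (Fin n) (Fin n) F) (κ : D → Fin n → F) (m : D → F) (v : Fin n → F) :
    D → F :=
  fun g => m g + ee v (κ g) + ee (κ g) (A g *ᵥ v) + ee v (A g *ᵥ v)

theorem ka_co (hκ : IsCo A κ) (v : Fin n → F) : IsCo A (ka A κ v) := by
  intro g h
  unfold ka
  rw [hκ g h, map_mul, ← mulVec_mulVec, mulVec_add, mulVec_add]
  ext i
  simp only [Pi.add_apply]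
  linear_combination (norm := (ring_nf; reduce_mod_char!))

theorem ma_coc (hA : ∀ g, IsSp (A g)) (hκ : IsCo A κ)
    (hm : ∀ g h, dF1 m g h = ee (κ g) (A g *ᵥ κ h)) (g h : D) :
    dF1 (ma A κ m v) g h = ee (ka A κ v g) (A g *ᵥ ka A κ v h) := by
  have h1 := hm g h
  unfold dF1 at h1 ⊢
  unfold ma ka
  rw [hκ g h, map_mul, ← mulVec_mulVec]
  simp only [mulVec_add, ee_add_left, ee_add_right, ee_mulVec (hA g), ee_self]
  linear_combination (norm := (ring_nf; reduce_mod_char!)) h1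

/-- change of the cochains -/
theorem om_change (hA : ∀ g, IsSp (A g)) (hκ : IsCo A κ) (hb : IsLift A ε b κ) (g h : D) :
    om A ε (ba A ε b p v) (ka A κ v) (ma A κ m v) g h = om A ε b κ m g h +
      dF1 (fun g => ee (b g) (A g *ᵥ v) + ee p (ka A κ v g)) g h := by
  unfold om dF1 ba ma ka
  simp only [hb g h, hκ g h, map_mul, ← mulVec_mulVec, mulVec_add, ee_add_left, ee_add_right,
    ee_mulVec (hA g), ee_self, smul_F, smul_U, ee_smul_left, smul_add]
  linear_combination (norm := (ring_nf; reduce_mod_char!))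

theorem ba_lift (hε : ∀ g h, ε (g * h) = ε g + ε h) (hb : IsLift A ε b κ) :
    IsLift A ε (ba A ε b p v) (ka A κ v) := by
  intro g h
  unfold ba ka
  simp only [hb g h, hε, map_mul, mulVec_add, smul_add, add_smul, ← mulVec_mulVec, mulVec_smul]
  ext i
  simp only [Pi.add_apply, Pi.smul_apply, smul_U]
  linear_combination (norm := (ring_nf; reduce_mod_char!))

/-- the 2-cochain is a cocycle -/
theorem om_coc (hA : ∀ g, IsSp (A g)) (hε : ∀ g h, ε (g * h) = ε g + ε h) (hκ : IsCo A κ)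
    (hb : IsLift A ε b κ) (hm : ∀ g h, dF1 m g h = ee (κ g) (A g *ᵥ κ h)) (g h k : D) :
    dF2 (om A ε b κ m) g h k = 0 := by
  have h1 := leib_lift hA hb hκ g h k
  have h2 := leib_chi hε m g h k
  rw [hm] at h2
  unfold dF2 at h1 h2 ⊢
  unfold om
  dsimp only at h1 h2
  linear_combination (norm := (ring_nf; reduce_mod_char!)) h1 + h2

end alg

end Pool.Agent.Work.MP_787500_nt.KI
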