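import Mathlib
import Pool.Agent.Work.MP_787500_nt.KI.InertA

/-!
The Kramer step, the local term at an inert place: reduction to the cup product of two quadratic characters; every
cocycle in the condition has a lift.
-/

set_option autoImplicit false
set_option linter.unusedSectionVars false

namespace Pool.Agent.Work.MP_787500_nt.KI

open Matrix
open Pool.Agent.Work.MP_787500_nt.GP (A0 hf hf_add hf_zero hf_two hf_neg smul_hf eq_hf hf_inj IsAct d0 d1
  d2 tw cup11)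
open Pool.Agent.Work.MP_787500_nt.KR (FSys Sm1 Sm2 IsChar Smooth Z1 Z2 B2 LocH Pair LDual z1s)
open Pool.Agent.Work.MP_787500_nt.KT hiding Str Rel Sel KH Ai IsP cc ff TT
open Pool.Agent.Work.MP_787500_nt.QL (TameF ur_cob fixP mem_fixP zI zI_mul zI_fix exists_ur coc_pow)
open Pool.Agent.Work.MP_787500_nt.KS (hfT hfT_apply hfT_sq hfT_two hfT_neg smul_hfT hfT_nondeg hfT_smul
  inv_zero zero_Z2 smul_F dF1 dF2 leib_chi sm_eps sm1_two sm1_one zmod2_cases hf_cup_Z2 d2_hfT)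

variable {F : Type*} [Field F] [Finite F] [CharP F 2] [Algebra (ZMod 2) F] {n : ℕ} [Sy F n]
  {D : Type*} [Group D] {S : FSys D} {χ a : D → ℤ_[2]} {σ τ : D} {l : ℕ} {I : Subgroup D}
  {iv : (D → D → A0) → A0} {A : D →* Matrix (Fin n) (Fin n) F} {ε : D → ZMod 2}
  {b κ : D → Fin n → F} {v p : Fin n → F} {m : D → F}

/-- smooth functions of two smooth functions and the action -/
theorem sm2_ee (hs : Smooth S (KT.act (A : D → Matrix (Fin n) (Fin n) F))) (hb : Sm1 S b)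
    (hκ : Sm1 S κ) : Sm2 S (fun g h => ee (b g) (A g *ᵥ κ h)) := by
  obtain ⟨W, hW, h1⟩ := hb
  obtain ⟨W', hW', h2⟩ := hκ
  obtain ⟨V, hV, h3⟩ := smooth_A hs
  refine ⟨W ⊓ W' ⊓ V, S.inf (S.inf hW hW') hV, fun g h w hw w' hw' => ?_⟩
  beta_reduce
  rw [h1 g w hw.1.1, h2 h w' hw'.1.2, map_mul, h3 w hw.2, mul_one]

theorem om_Z2 (hχ : IsChar S χ) (hs : Smooth S (KT.act (A : D → Matrix (Fin n) (Fin n) F)))
    (hA : ∀ g, IsSp (A g)) (hε : ∀ g h, ε (g * h) = ε g + ε h) (hεs : Sm1 S ε) (hbs : Sm1 S b)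
    (hκs : Sm1 S κ) (hms : Sm1 S m) (hκ : IsCo A κ)
    (hb : IsLift A ε b κ) (hm : ∀ g h, dF1 m g h = ee (κ g) (A g *ᵥ κ h)) (α : F) :
    Z2 S (tw χ) (fun g h => hfT (α * om A ε b κ m g h)) := by
  constructor
  · obtain ⟨W, hW, h1⟩ := sm2_ee hs hbs hκs
    obtain ⟨W', hW', h2⟩ := sm_eps hεs hms
    refine ⟨W ⊓ W', S.inf hW hW', fun g h w hw w' hw' => ?_⟩
    have e1 := h1 g h w hw.1 w' hw'.1
    have e2 := h2 g h w hw.2 w' hw'.2
    dsimp only at e1 e2
    unfold om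
    beta_reduce
    rw [e1, e2]
  · intro x y z
    have h1 := d2_hfT (S := S) hχ (fun g h => α * om A ε b κ m g h)
    have h2 := congrFun (congrFun (congrFun h1 x) y) z
    refine h2.trans ?_
    have h3 := om_coc hA hε hκ hb hm x y z
    have h4 : dF2 (fun g h => α * om A ε b κ m g h) x y z = α * dF2 (om A ε b κ m) x y z := by
      unfold dF2
      ring
    rw [h4, h3, mul_zero, map_zero]

theorem iv_change (L : LocH S χ iv) (hs : Smooth S (KT.act (A : D → Matrix (Fin n) (Fin n) F)))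
    (hA : ∀ g, IsSp (A g)) (hε : ∀ g h, ε (g * h) = ε g + ε h) (hεs : Sm1 S ε) (hbs : Sm1 S b)
    (hκs : Sm1 S κ) (hms : Sm1 S m) (hκ : IsCo A κ)
    (hb : IsLift A ε b κ) (hm : ∀ g h, dF1 m g h = ee (κ g) (A g *ᵥ κ h)) (α : F) :
    iv (fun g h => hfT (α * om A ε b κ m g h)) =
      iv (fun g h => hfT (α * om A ε (ba A ε b p v) (ka A κ v) (ma A κ m v) g h)) := by
  obtain ⟨f, hf⟩ : ∃ f : D → F, f = fun g => ee (b g) (A g *ᵥ v) + ee p (ka A κ v g) := ⟨_, rfl⟩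
  have hfs : Sm1 S (fun g => hfT (α * f g)) := by
    obtain ⟨W, hW, h1⟩ := hbs
    obtain ⟨W', hW', h2⟩ := hκs
    obtain ⟨V, hV, h3⟩ := smooth_A hs
    refine ⟨W ⊓ W' ⊓ V, S.inf (S.inf hW hW') hV, fun g w hw => ?_⟩
    beta_reduce
    rw [hf]
    unfold ka
    beta_reduce
    rw [h1 g w hw.1.1, h2 g w hw.1.2, map_mul A g w, h3 w hw.2, mul_one]
  have e1 : (fun g h => hfT (α * om A ε (ba A ε b p v) (ka A κ v) (ma A κ m v) g h)) =
      fun g h => hfT (α * om A ε b κ m g h) + d1 (tw χ) (fun g => hfT (α * f g)) g h := by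
    funext g h
    rw [om_change hA hκ hb, mul_add, map_add]
    congr 1
    show _ = hfT (α * f g) + χ g • hfT (α * f h) - hfT (α * f (g * h))
    rw [smul_hfT (L.char.odd g), sub_eq_add_neg, hfT_neg, ← map_add, ← map_add, ← hf]
    congr 1
    unfold dF1
    ring
  rw [e1, L.add _ _ (om_Z2 L.char hs hA hε hεs hbs hκs hms hκ hb hm α)
    (KR.d1_tw_Z2 L.char hfs), L.cob _ hfs, add_zero]

/-! ### Lifts -/

section lift

/-- the action on pairs -/
def ap (A : D →* Matrix (Fin n) (Fin n) F) (ε : D → ZMod 2) (g : D)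
    (u : (Fin n → F) × (Fin n → F)) : (Fin n → F) × (Fin n → F) :=
  (A g *ᵥ (u.1 + ε g • u.2), A g *ᵥ u.2)

theorem ap_act (hε : ∀ g h, ε (g * h) = ε g + ε h) : IsAct (ap A ε) where
  one u := by
    have h1 : ε 1 = 0 := by
      have := hε 1 1
      rw [mul_one] at this
      exact left_eq_add.1 this
    unfold ap
    rw [map_one, one_mulVec, one_mulVec, h1, zero_smul, add_zero]
  mul g h u := by
    unfold ap
    refine Prod.ext ?_ ?_
    · show A (g * h) *ᵥ (u.1 + ε (g * h) • u.2) =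
        A g *ᵥ (A h *ᵥ (u.1 + ε h • u.2) + ε g • (A h *ᵥ u.2))
      rw [map_mul, hε, ← mulVec_mulVec, ← mulVec_smul, ← mulVec_add]
      congr 2
      rw [add_smul]
      abel
    · show A (g * h) *ᵥ u.2 = A g *ᵥ (A h *ᵥ u.2)
      rw [map_mul, mulVec_mulVec]
  add g u u' := by
    unfold ap
    refine Prod.ext ?_ ?_
    · show A g *ᵥ (u.1 + u'.1 + ε g • (u.2 + u'.2)) =
        A g *ᵥ (u.1 + ε g • u.2) + A g *ᵥ (u'.1 + ε g • u'.2)
      rw [← mulVec_add, smul_add]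
      congr 1
      abel
    · show A g *ᵥ (u.2 + u'.2) = A g *ᵥ u.2 + A g *ᵥ u'.2
      exact mulVec_add _ _ _

theorem exists_lift (h : TameF S χ a σ τ l I)
    (hs : Smooth S (KT.act (A : D → Matrix (Fin n) (Fin n) F)))
    (hε : ∀ g h, ε (g * h) = ε g + ε h) (hεs : Sm1 S ε) (hεI : ∀ d ∈ I, ε d = 0)
    {y : D → Fin n → F} (hy : Z1 S (KT.act A) y)
    (hyI : ∃ m : Fin n → F, ∀ i ∈ I, y i = A i *ᵥ m + m) : ∃ b, (b, y) ∈ zurL S A ε I := by
  obtain ⟨m, hm⟩ := hyI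
  have hA := isAct_act A
  -- the unramified part
  obtain ⟨y₀, hy₀⟩ : ∃ y₀ : D → Fin n → F, y₀ = fun g => y g + (A g *ᵥ m + m) := ⟨_, rfl⟩
  have hc0 : (fun g => A g *ᵥ m + m) ∈ cocS S (A : D → Matrix (Fin n) (Fin n) F) := by
    have h1 := KR.d0_Z1 hA hs m
    rw [mem_cocS]
    convert h1 using 1
    funext g
    rw [d0_act]
  have hz : y₀ ∈ zI S I hA := by
    refine ⟨?_, fun i hi => ?_⟩
    · rw [hy₀]
      exact (cocS S (A : D → Matrix (Fin n) (Fin n) F)).add_mem hy hc0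
    · rw [hy₀]
      show y i + (A i *ᵥ m + m) = 0
      rw [hm i hi]
      exact U_add_self _
  have hap := ap_act (A := A) hε
  have hsap : Smooth S (ap A ε) := by
    obtain ⟨V, hV, h1⟩ := smooth_A hs
    obtain ⟨W, hW, h2⟩ := hεs
    have h3 : ε 1 = 0 := by
      have := hε 1 1
      rw [mul_one] at this
      exact left_eq_add.1 this
    refine ⟨V ⊓ W, S.inf hV hW, fun w hw u => ?_⟩
    have h4 := h2 1 w hw.2
    rw [one_mul, h3] at h4
    unfold ap
    rw [h1 w hw.1, h4, zero_smul, add_zero, one_mulVec, one_mulVec]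
  obtain ⟨x, hx, hxI, hxσ⟩ := exists_ur (k := 1) h hap hsap
    (fun u => by
      rw [pow_one, two_nsmul]
      exact Prod.ext (U_add_self _) (U_add_self _))
    (v := ((0 : Fin n → F), y₀ σ)) (by
      intro i hi
      show (A i *ᵥ ((0 : Fin n → F) + ε i • y₀ σ), A i *ᵥ y₀ σ) = _
      have h1 : A i *ᵥ y₀ σ = y₀ σ := zI_fix h.In hz σ i hi
      rw [hεI i hi, zero_smul, add_zero, mulVec_zero, h1])
  have hx2 : ∀ g, (x g).2 = y₀ g := by
    have h1 : (fun g => (x g).2) ∈ zI S I hA := by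
      refine ⟨⟨?_, fun g k => ?_⟩, fun i hi => ?_⟩
      · obtain ⟨W, hW, h1⟩ := hx.1
        exact ⟨W, hW, fun g w hw => by
          beta_reduce
          rw [h1 g w hw]⟩
      · show (x (g * k)).2 = (x g).2 + A g *ᵥ (x k).2
        rw [hx.2 g k]
        rfl
      · show (x i).2 = 0
        rw [hxI i hi]
        rfl
    have h2 := (zI S I hA).sub_mem h1 hz
    intro g
    obtain ⟨W, hW, h3⟩ := h2.1.1
    obtain ⟨i, k, hk, hg⟩ := h.frob g W hW
    have e3 := h3 (σ ^ i * k) _ hg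
    rw [mul_inv_cancel_left] at e3
    have e4 : ((fun g => (x g).2) - y₀) σ = 0 := by
      show (x σ).2 - y₀ σ = 0
      rw [hxσ]
      exact sub_self _
    have e5 : ((fun g => (x g).2) - y₀) g = 0 := by
      rw [e3, zI_mul h2 _ hk, coc_pow hA h2.1.2, e4]
      exact Finset.sum_eq_zero fun k _ => hA.zero _
    exact sub_eq_zero.1 e5
  refine ⟨fun g => (x g).1 + ε g • (A g *ᵥ m), hy, ?_, ?_, ⟨0, fun i hi => ?_⟩, ⟨m, hm⟩⟩
  · obtain ⟨W, hW, h1⟩ := hx.1
    obtain ⟨W', hW', h2⟩ := hεs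
    obtain ⟨V, hV, h3⟩ := smooth_A hs
    refine ⟨W ⊓ W' ⊓ V, S.inf (S.inf hW hW') hV, fun g w hw => ?_⟩
    show (x (g * w)).1 + ε (g * w) • (A (g * w) *ᵥ m) = (x g).1 + ε g • (A g *ᵥ m)
    rw [h1 g w hw.1.1, h2 g w hw.1.2, map_mul, h3 w hw.2, mul_one]
  · intro g k
    have e1 : (x (g * k)).1 = (x g).1 + A g *ᵥ ((x k).1 + ε g • (x k).2) := by
      rw [hx.2 g k]
      rfl
    have e2 : y k = (x k).2 + (A k *ᵥ m + m) := by
      rw [hx2, hy₀]
      show y k = y k + (A k *ᵥ m + m) + (A k *ᵥ m + m)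
      rw [add_assoc, U_add_self, add_zero]
    show (x (g * k)).1 + ε (g * k) • (A (g * k) *ᵥ m) = (x g).1 + ε g • (A g *ᵥ m) +
      A g *ᵥ ((x k).1 + ε k • (A k *ᵥ m)) + ε g • (A g *ᵥ y k)
    rw [e1, e2, hε]
    simp only [map_mul, mulVec_add, smul_add, add_smul, ← mulVec_mulVec, mulVec_smul]
    ext j
    simp only [Pi.add_apply, Pi.smul_apply, smul_U]
    linear_combination (norm := (ring_nf; reduce_mod_char!))
  · show (x i).1 + ε i • (A i *ᵥ m) = _
    rw [hxI i hi, hεI i hi, zero_smul, mulVec_zero]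
    rfl

/-- THE RELAXED AND THE STRICT CONDITION AGREE -/
theorem R1_eq_Y2 (h : TameF S χ a σ τ l I)
    (hs : Smooth S (KT.act (A : D → Matrix (Fin n) (Fin n) F)))
    (hε : ∀ g h, ε (g * h) = ε g + ε h) (hεs : Sm1 S ε) (hεI : ∀ d ∈ I, ε d = 0) :
    R1 (zurL S A ε I) = Y2 (zurL S A ε I) := by
  ext y
  rw [mem_R1, mem_Y2]
  constructor
  · rintro ⟨-, h2, h3, h4, -⟩
    refine exists_lift h hs hε hεs hεI ⟨h2, fun g k => ?_⟩ h4
    have e := h3 g k
    dsimp only at e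
    rw [e]
    show y g + A g *ᵥ y k + ε g • (A g *ᵥ (0 : Fin n → F)) = y g + A g *ᵥ y k
    rw [mulVec_zero, smul_zero, add_zero]
  · rintro ⟨b, h1, -, -, -, h5⟩
    refine ⟨(cocS S (A : D → Matrix (Fin n) (Fin n) F)).zero_mem, h1.1, fun g k => ?_, h5,
      ⟨0, fun i _ => ?_⟩⟩
    · show y (g * k) = y g + A g *ᵥ y k + ε g • (A g *ᵥ (0 : Fin n → F))
      rw [mulVec_zero, smul_zero, add_zero]
      exact h1.2 g k
    · show (0 : Fin n → F) = _
      rw [mulVec_zero, add_zero]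

end lift

/-- the value at the correction class -/
theorem lval_of (h : TameF S χ a σ τ l I) (L : LocH S χ iv)
    (hs : Smooth S (KT.act (A : D → Matrix (Fin n) (Fin n) F))) (hA : ∀ g, IsSp (A g))
    (hε : ∀ g h, ε (g * h) = ε g + ε h) (hεs : Sm1 S ε) (hεI : ∀ d ∈ I, ε d = 0)
    {ψ : D → ZMod 2} (hψ : ∀ g h, ψ (g * h) = ψ g + ψ h) (hψs : Sm1 S ψ)
    (hψI : ∀ d ∈ I, ψ d = tauZ (A d)) {t : ℕ}
    (ht : iv (fun g h => hf (ε g * ψ h)) = hf (t : ZMod 2)) :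
    LVal iv A ε (zurL S A ε I) t := by
  rintro b ⟨hk, hbs, hb, ⟨p, hp⟩, v, hv⟩ α
  dsimp only at hk hbs hb hp hv
  have hκ : IsCo A (kc A) := fun g h => kk_coc hA g h
  have hm : ∀ g h, dF1 (fun g => mm (A g)) g h = ee (kc A g) (A g *ᵥ kc A h) := mm_coc hA
  have hms : Sm1 S (fun g => mm (A g)) := mm_sm hs
  -- the new cochains
  obtain ⟨b', hb'⟩ : ∃ b', b' = ba A ε b p v := ⟨_, rfl⟩
  obtain ⟨κ', hκ'⟩ : ∃ κ', κ' = ka A (kc A) v := ⟨_, rfl⟩
  obtain ⟨m', hm'⟩ : ∃ m', m' = ma A (kc A) (fun g => mm (A g)) v := ⟨_, rfl⟩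
  have c1 : IsCo A κ' := by
    rw [hκ']
    exact ka_co hκ v
  have c2 : IsLift A ε b' κ' := by
    rw [hb', hκ']
    exact ba_lift hε hb
  have c3 : ∀ g h, dF1 m' g h = ee (κ' g) (A g *ᵥ κ' h) := by
    rw [hm', hκ']
    exact ma_coc hA hκ hm
  -- smoothness
  obtain ⟨Wb, hWb, hb1⟩ := hbs
  obtain ⟨Wκ, hWκ, hκ1⟩ := hk.1
  obtain ⟨V, hV, hA1⟩ := smooth_A hs
  obtain ⟨Wε, hWε, hε1⟩ := hεs
  have s1 : Sm1 S κ' := ⟨Wκ ⊓ V, S.inf hWκ hV, fun g w hw => by
    rw [hκ']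
    unfold ka
    rw [hκ1 g w hw.1, map_mul, hA1 w hw.2, mul_one]⟩
  have s2 : Sm1 S b' := ⟨Wb ⊓ V ⊓ Wε, S.inf (S.inf hWb hV) hWε, fun g w hw => by
    rw [hb']
    unfold ba
    rw [hb1 g w hw.1.1, hε1 g w hw.2, map_mul, hA1 w hw.1.2, mul_one]⟩
  have s3 : Sm1 S m' := ⟨Wκ ⊓ V, S.inf hWκ hV, fun g w hw => by
    rw [hm']
    unfold ma
    beta_reduce
    rw [hκ1 g w hw.1, map_mul, hA1 w hw.2, mul_one]⟩
  -- values on inertia
  have i1 : ∀ d ∈ I, κ' d = 0 := by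
    intro d hd
    have h1 : kc A d = A d *ᵥ v + v := hv d hd
    rw [hκ']
    show kc A d + (A d *ᵥ v + v) = 0
    rw [h1]
    exact U_add_self _
  have i2 : ∀ d ∈ I, b' d = 0 := by
    intro d hd
    rw [hb']
    show b d + (A d *ᵥ p + p) + ε d • (A d *ᵥ v) = 0
    rw [hp d hd, hεI d hd, zero_smul, add_zero]
    exact U_add_self _
  have i3 : ∀ d ∈ I, m' d = algebraMap (ZMod 2) F (tauZ (A d)) := by
    intro d hd
    have h1 : kk (A d) = A d *ᵥ v + v := hv d hd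
    rw [tauZ_map (hA d) h1, hm']
    show mm (A d) + ee v (kc A d) + ee (kc A d) (A d *ᵥ v) + ee v (A d *ᵥ v) = _
    have h2 : ee (kc A d) (A d *ᵥ v) = ee v (A d *ᵥ v) := by
      show ee (kk (A d)) (A d *ᵥ v) = _
      rw [h1, ee_add_left, ee_self, zero_add]
    rw [h2, add_assoc, KT.add_self, add_zero, add_comm]
    rfl
  -- the inflated cochain
  obtain ⟨m₂, hm₂⟩ : ∃ m₂ : D → F, m₂ = fun g => m' g + algebraMap (ZMod 2) F (ψ g) := ⟨_, rfl⟩
  have c4 : ∀ g h, dF1 m₂ g h = ee (κ' g) (A g *ᵥ κ' h) := by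
    intro g h
    rw [← c3, hm₂]
    unfold dF1
    beta_reduce
    rw [hψ, map_add]
    linear_combination (norm := (ring_nf; reduce_mod_char!))
  have s4 : Sm1 S m₂ := by
    rw [hm₂]
    exact sm1_two s3 hψs (fun x y => x + algebraMap (ZMod 2) F y)
  have i4 : ∀ d ∈ I, m₂ d = 0 := by
    intro d hd
    rw [hm₂]
    beta_reduce
    rw [i3 d hd, hψI d hd, KT.add_self]
  have hεs : Sm1 S ε := ⟨Wε, hWε, hε1⟩
  have z2 : Z2 S (tw χ) (fun g h => hfT (α * om A ε b' κ' m₂ g h)) :=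
    om_Z2 L.char hs hA hε hεs s2 s1 s4 c1 c2 c4 α
  have hInv : ∀ g g' : D, ∀ d ∈ I, ∀ d' ∈ I, om A ε b' κ' m₂ (g * d) (g' * d') =
      om A ε b' κ' m₂ g g' := by
    intro g g' d hd d' hd'
    have k1 : b' (g * d) = b' g := by
      rw [c2, i2 d hd, i1 d hd, mulVec_zero, smul_zero, add_zero, add_zero]
    have k2 : κ' (g' * d') = κ' g' := by rw [c1, i1 d' hd', mulVec_zero, add_zero]
    have k3 : A d *ᵥ κ' g' = κ' g' := by
      have h1 : κ' (d * g') = A d *ᵥ κ' g' := by rw [c1, i1 d hd, zero_add]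
      have h2 : g'⁻¹ * d * g' ∈ I := by
        have := h.In.conj_mem d hd g'⁻¹
        rwa [inv_inv] at this
      have h3 : κ' (d * g') = κ' g' := by
        have e : d * g' = g' * (g'⁻¹ * d * g') := by group
        rw [e, c1, i1 _ h2, mulVec_zero, add_zero]
      rw [← h1, h3]
    have k4 : ε (g * d) = ε g := by rw [hε, hεI d hd, add_zero]
    have k5 : m₂ (g' * d') = m₂ g' := by
      have h1 := c4 g' d'
      unfold dF1 at h1
      rw [i4 d' hd', i1 d' hd', mulVec_zero, ee_zero_right, add_zero] at h1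
      have h2 := KT.add_self (m₂ g')
      linear_combination h1 - h2
    unfold om
    rw [k1, k2, k4, k5, map_mul, ← mulVec_mulVec, k3]
  obtain ⟨x, hx, e2⟩ := ur_cob h z2 (fun g g' d hd d' hd' => by rw [hInv g g' d hd d' hd'])
  have v2 : iv (fun g h => hfT (α * om A ε b' κ' m₂ g h)) = 0 := by
    rw [e2]
    exact L.cob x hx
  -- the cup product
  have z3 : Z2 S (tw χ) (fun g h => hf (ε g * (Algebra.trace (ZMod 2) F α * ψ h))) := by
    refine hf_cup_Z2 L.char hεs ?_ hε (fun g h => by rw [hψ, mul_add])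
    exact sm1_one hψs (fun y => Algebra.trace (ZMod 2) F α * y)
  have e3 : (fun g h => hfT (α * om A ε b' κ' m' g h)) = fun g h =>
      hfT (α * om A ε b' κ' m₂ g h) + hf (ε g * (Algebra.trace (ZMod 2) F α * ψ h)) := by
    funext g h
    have h1 : om A ε b' κ' m' g h = om A ε b' κ' m₂ g h + (ε g * ψ h) • (1 : F) := by
      unfold om
      rw [hm₂]
      beta_reduce
      rw [Algebra.algebraMap_eq_smul_one, smul_add, smul_smul]
      have h2 := KT.add_self ((ε g * ψ h) • (1 : F))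
      linear_combination -h2
    rw [h1, mul_add, map_add, mul_smul_comm, mul_one, hfT_smul]
    congr 2
    ring
  have e4 : (fun s t => hfT (α * ee (b s) (A s *ᵥ kc A t) + ε s • (α * mm (A t)))) =
      fun g h => hfT (α * om A ε b (kc A) (fun g => mm (A g)) g h) := by
    funext g h
    unfold om
    rw [mul_add, mul_smul_comm]
  rw [e4, iv_change (p := p) (v := v) L hs hA hε hεs ⟨Wb, hWb, hb1⟩ hk.1 hms hκ hb hm α, ← hb',
    ← hκ', ← hm', e3, L.add _ _ z2 z3, v2, zero_add]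
  rcases zmod2_cases (Algebra.trace (ZMod 2) F α) with h0 | h0
  · rw [h0]
    simp only [zero_mul, mul_zero, hf_zero]
    exact inv_zero L
  · rw [h0]
    simp only [one_mul]
    exact ht

end Pool.Agent.Work.MP_787500_nt.KI
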