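import Mathlib
import Pool.Agent.Work.MP_787500_nt.KI.InertB
import Pool.Agent.Work.MP_787500_nt.QP.N2
import Pool.Agent.Work.MP_787500_nt.QL.TameQ
import Pool.Agent.Work.MP_787500_nt.GA.LocBQ

/-!
The Kramer step, the local term at an inert place: the value is the Dickson invariant on inertia; the decomposition
groups over the rational numbers.
-/

set_option autoImplicit false
set_option linter.unusedSectionVars false

namespace Pool.Agent.Work.MP_787500_nt.KI

open Matrix NumberField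
open Pool.Agent.Work.MP_787500_nt.GP (A0 hf hf_add hf_zero hf_two hf_neg smul_hf eq_hf hf_inj IsAct d0 d1
  d2 tw cup11 TameD tame_gen iota)
open Pool.Agent.Work.MP_787500_nt.PA (homs)
open Pool.Agent.Work.MP_787500_nt.KR (FSys Sm1 Sm2 IsChar Smooth Z1 Z2 B2 LocH Pair LDual z1s big fullC two
  two_fullC two_le_big)
open Pool.Agent.Work.MP_787500_nt.KT hiding Str Rel Sel KH Ai IsP cc ff TT
open Pool.Agent.Work.MP_787500_nt.QL (TameF exists_tameQ_big)
open Pool.Agent.Work.MP_787500_nt.KS (hfT inv_zero zmod2_cases pad_mod pad_two mem_homs_two cup_z2)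
open Pool.Agent.Work.MP_787500_nt.HP (IsQ Spl IsP cyQ stb inr Alg QDat fsys)
open Pool.Agent.Work.MP_787500_nt.RQ (LocF)

universe u

section hom

variable {D : Type*} [Group D] {S : FSys D} {χ a : D → ℤ_[2]} {σ τ : D} {l : ℕ} {I : Subgroup D}

/-- a homomorphism of the inertia group to `ZMod 2` -/
theorem hom_I (h : TameF S χ a σ τ l I) {y : D → ZMod 2}
    (hy : ∀ g ∈ I, ∀ k ∈ I, y (g * k) = y g + y k) (hys : Sm1 S y) :
    ∀ g ∈ I, y g = PadicInt.toZMod (a g) * y τ := by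
  intro g hg
  obtain ⟨W, hW, hyW⟩ := hys
  have hWn := S.normal hW
  obtain ⟨N, hN⟩ := h.sep W hW
  obtain ⟨j, hj⟩ := GP.g1_nat (a g) (N + 1)
  have hy1 : y 1 = 0 := by
    have := hy 1 I.one_mem 1 I.one_mem
    rw [mul_one] at this
    exact left_eq_add.1 this
  have hpow : ∀ x ∈ I, ∀ k : ℕ, y (x ^ k) = (k : ZMod 2) * y x := by
    intro x hx k
    induction k with
    | zero => rw [pow_zero, hy1, Nat.cast_zero, zero_mul]
    | succ k ih => rw [pow_succ, hy _ (I.pow_mem hx k) _ hx, ih, Nat.cast_succ, add_mul, one_mul]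
  -- the remaining part
  obtain ⟨g', hg'⟩ : ∃ g', g' = (τ ^ j)⁻¹ * g := ⟨_, rfl⟩
  have e1 : τ ^ j * g' = g := by
    rw [hg']
    exact mul_inv_cancel_left _ _
  have hτj : τ ^ j ∈ I := I.pow_mem h.τI j
  have hgI : g' ∈ I := by
    rw [hg']
    exact I.mul_mem (I.inv_mem hτj) hg
  have e2 : a g' = a g - j := by
    have e := congrArg a e1
    rw [h.coc, (h.tau_pow j).1, (h.tau_pow j).2, one_mul] at e
    linear_combination e
  obtain ⟨p, hp1, hp2, hp3⟩ := hN g' (by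
    rw [h.Iχ g' hgI, sub_self]
    exact dvd_zero _) (by
    rw [e2]
    exact (pow_dvd_pow _ (Nat.le_succ N)).trans hj)
  -- an odd power of `g'` is in `W`
  have hPn := h.P_normal
  have hodd := h.odd_quot hW
  have hr : ∃ r : ℕ, Odd r ∧ p ^ r ∈ W := by
    refine ⟨_, hodd, ?_⟩
    have h1 : ((⟨p, hp1, hp2⟩ : h.P) : h.P ⧸ W.subgroupOf h.P) ^
        Nat.card (h.P ⧸ W.subgroupOf h.P) = 1 := pow_card_eq_one'
    rw [← QuotientGroup.mk_pow, QuotientGroup.eq_one_iff, Subgroup.mem_subgroupOf] at h1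
    exact h1
  obtain ⟨r, hro, hr⟩ := hr
  have h4 : g' ^ r ∈ W := by
    have h5 : ((g' : D) : D ⧸ W) = ((p : D) : D ⧸ W) := (QuotientGroup.eq.2 hp3).symm
    have h6 : ((g' ^ r : D) : D ⧸ W) = ((p ^ r : D) : D ⧸ W) := by
      rw [QuotientGroup.mk_pow, QuotientGroup.mk_pow, h5]
    rw [(QuotientGroup.eq_one_iff _).2 hr] at h6
    exact (QuotientGroup.eq_one_iff _).1 h6
  have h5 : y g' = 0 := by
    have h6 := hyW 1 _ h4
    rw [one_mul, hy1, hpow g' hgI, (ZMod.natCast_eq_one_iff_odd).2 hro, one_mul] at h6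
    exact h6
  have h6 : PadicInt.toZMod (a g) = ((j : ℕ) : ZMod 2) := by
    have h7 : (2 : ℤ_[2]) ∣ a g - j := (dvd_pow_self _ (Nat.succ_ne_zero N)).trans hj
    rw [← pad_mod, map_sub, map_natCast, sub_eq_zero] at h7
    exact h7
  rw [← e1, hy _ hτj _ hgI, h5, add_zero, hpow τ h.τI, e1, h6]

variable {F : Type*} [Field F] [Finite F] [CharP F 2] [Algebra (ZMod 2) F] {n : ℕ} [Sy F n]
  {iv : (D → D → A0) → A0} {A : D →* Matrix (Fin n) (Fin n) F} {ε : D → ZMod 2}

open scoped Classical in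
/-- THE VALUE AT THE CORRECTION CLASS -/
theorem lval_inert (h : TameF S χ a σ τ l I) (L : LocH S χ iv)
    (hs : Smooth S (KT.act (A : D → Matrix (Fin n) (Fin n) F))) (hA : ∀ g, IsSp (A g))
    (hε : ∀ g h, ε (g * h) = ε g + ε h) (hεs : Sm1 S ε) (hεI : ∀ d ∈ I, ε d = 0)
    {ψ : D → ZMod 2} (hψ : ∀ g h, ψ (g * h) = ψ g + ψ h) (hψs : Sm1 S ψ)
    (hψI : ∃ d ∈ I, ψ d = 1) (hv : iv (fun g h => hf (ε g * ψ h)) = hf 1) :
    LVal iv A ε (zurL S A ε I) (if ∃ d ∈ I, tauZ (A d) ≠ 0 then 1 else 0) := by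
  intro b hb
  obtain ⟨-, -, -, -, v, hv'⟩ := id hb
  -- the Dickson invariant is a homomorphism on inertia
  have ht : ∀ g ∈ I, ∀ k ∈ I, tauZ (A (g * k)) = tauZ (A g) + tauZ (A k) := by
    intro g hg k hk
    exact tauZ_mul (A := A.comp I.subtype) (fun g => hA g) (v := v) (fun g => hv' g g.2) ⟨g, hg⟩
      ⟨k, hk⟩
  have hts : Sm1 S (fun g => tauZ (A g)) := by
    obtain ⟨V, hV, h3⟩ := smooth_A hs
    exact ⟨V, hV, fun g w hw => by
      beta_reduce
      rw [map_mul, h3 w hw, mul_one]⟩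
  have e1 := hom_I h (y := fun g => tauZ (A g)) ht hts
  have e2 := hom_I h (y := ψ) (fun g _ k _ => hψ g k) hψs
  by_cases hex : ∃ d ∈ I, tauZ (A d) ≠ 0
  · rw [if_pos hex]
    have h1 : tauZ (A τ) = 1 := by
      obtain ⟨d, hd, h0⟩ := hex
      rcases zmod2_cases (tauZ (A τ)) with h2 | h2
      · have h3 := e1 d hd
        rw [h2, mul_zero] at h3
        exact absurd h3 h0
      · exact h2
    have h2 : ψ τ = 1 := by
      obtain ⟨d, hd, h0⟩ := hψI
      rcases zmod2_cases (ψ τ) with h2 | h2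
      · have h3 := e2 d hd
        rw [h2, mul_zero, h0] at h3
        exact absurd h3 one_ne_zero
      · exact h2
    refine lval_of h L hs hA hε hεs hεI hψ hψs (fun d hd => ?_) (t := 1)
      (by rw [hv, Nat.cast_one]) b hb
    have h3 := e1 d hd
    have h4 := e2 d hd
    rw [h3, h4, h1, h2]
  · rw [if_neg hex]
    push Not at hex
    have hz : (fun g h => hf (ε g * (0 : ZMod 2))) = fun (_ _ : D) => (0 : A0) := by
      funext g h
      rw [mul_zero, hf_zero]
    refine lval_of h L hs hA hε hεs hεI (ψ := fun _ => 0) (fun _ _ => (add_zero _).symm) ?_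
      (fun d hd => (hex d hd).symm) (t := 0) (by rw [hz, inv_zero L, Nat.cast_zero, hf_zero]) b hb
    obtain ⟨V, hV, -⟩ := smooth_A hs
    exact ⟨V, hV, fun _ _ _ => rfl⟩

end hom

/-! ## The decomposition groups over the rational numbers -/

section rat

variable {Ω : Type u} [Field Ω] [CharZero Ω] [IsAlgClosed Ω] {c : Ω ≃+* Ω} {T : Finset ℕ}
  {P : ℕ → Ideal (𝓞 Ω)} {inv : ∀ w : Option T, (stb (HP.PP P w) → stb (HP.PP P w) → A0) → A0}

/-- a ramified quadratic character of the decomposition group and its cup product with an unramified character -/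
theorem exists_psi (hQ : QDat c T P inv) (l : T)
    {ivF : (stb (P l) → stb (P l) → A0) → A0} (hF : LocF (stb (P l)) (inv (some l)) ivF)
    {ε : stb (P l) → ZMod 2} (hε : ε ∈ homs (fsys (stb (P l))) (⊤ : Subgroup (stb (P l))))
    (hεI : ∀ d ∈ (inr (P l)).subgroupOf (stb (P l)), ε d = 0) (hε1 : ∃ d, ε d ≠ 0) :
    ∃ ψ ∈ homs (fsys (stb (P l))) (⊤ : Subgroup (stb (P l))),
      (∃ d ∈ (inr (P l)).subgroupOf (stb (P l)), ψ d = 1) ∧
      ivF (fun g h => hf (ε g * ψ h)) = hf 1 := by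
  obtain ⟨a, u, σ, τ, hu, hτ, -, hT, hinv⟩ := hQ.tame l
  have hτI : τ ∈ (inr (P l)).subgroupOf (stb (P l)) := hτ
  obtain ⟨ψ, hψ⟩ : ∃ ψ : stb (P l) → ZMod 2, ψ = fun g => PadicInt.toZMod (a g) := ⟨_, rfl⟩
  have hψh : ψ ∈ homs (fsys (stb (P l))) (⊤ : Subgroup (stb (P l))) := by
    refine ⟨?_, fun g hg => absurd trivial hg, fun g _ k _ => ?_⟩
    · obtain ⟨W, hW, h1⟩ := hT.c1 1
      refine ⟨W, hW, fun g w hw => ?_⟩
      have h2 := h1 g w hw
      rw [pow_one, ← pad_mod, map_sub, sub_eq_zero] at h2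
      rw [hψ]
      exact h2
    · rw [hψ]
      show PadicInt.toZMod (a (g * k)) = PadicInt.toZMod (a g) + PadicInt.toZMod (a k)
      have h2 : PadicInt.toZMod (cyQ ((g : stb (P l)) : Ω ≃+* Ω)) = (1 : ZMod 2) := by
        have h3 := (pad_mod _).2 (hT.char.odd g)
        rw [map_sub, map_one, sub_eq_zero] at h3
        exact h3
      rw [hT.coc, map_add, map_mul, h2, one_mul]
  have hψτ : ψ τ = 1 := by
    rw [hψ]
    show PadicInt.toZMod (a τ) = 1
    rw [hT.τa, map_one]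
  have headd : ∀ g h, ε (g * h) = ε g + ε h := fun g h => hε.2.2 g trivial h trivial
  have he1 : ε 1 = 0 := by
    have := headd 1 1
    rw [mul_one] at this
    exact left_eq_add.1 this
  have hetau : ∀ i : ℕ, ε (τ ^ i) = 0 := fun i => hεI _ (Subgroup.pow_mem _ hτI i)
  have hesig : ε σ = 1 := by
    rcases zmod2_cases (ε σ) with h0 | h0
    · exfalso
      obtain ⟨d, hd⟩ := hε1
      obtain ⟨W, hW, h1⟩ := hε.1
      obtain ⟨i, j, hij⟩ := tame_gen hT hW d
      have h2 := h1 (τ ^ j * σ ^ i) _ hij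
      rw [mul_inv_cancel_left, headd, hetau, zero_add] at h2
      have h3 : ε (σ ^ i) = 0 := by
        clear h2 hij
        induction i with
        | zero => rw [pow_zero, he1]
        | succ i ih => rw [pow_succ, headd, ih, h0, add_zero]
      exact hd (h2.trans h3)
    · exact h0
  refine ⟨ψ, hψh, ⟨τ, hτI, hψτ⟩, ?_⟩
  have h2 := cup_z2 hT.char hε hψh
  refine (hF.ext _ h2).trans ((hinv _).trans ?_)
  have h3 : iota σ τ l (fun g h => hf (ε g * ψ h)) = hf 1 := by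
    unfold iota
    have h4 : ∑ i ∈ Finset.Ico 1 (l : ℕ), hf (ε (τ ^ i) * ψ τ) = 0 :=
      Finset.sum_eq_zero fun i _ => by rw [hetau, zero_mul, hf_zero]
    show hf (ε σ * ψ τ) - hf (ε (τ ^ (l : ℕ)) * ψ σ) - ∑ i ∈ Finset.Ico 1 (l : ℕ), hf (ε (τ ^ i) * ψ τ) = _
    rw [h4, hesig, hψτ, hetau, zero_mul, hf_zero, sub_zero, sub_zero, mul_one]
  show u • iota σ τ (l : ℕ) (fun g h => hf (ε g * ψ h)) = hf 1
  rw [h3]
  exact smul_hf (pad_two hu) _

theorem homs_sm1 {C : Subgroup (Ω ≃+* Ω)} {ψ : C → ZMod 2} (h : ψ ∈ homs (fsys C) (⊤ : Subgroup C))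
    (N : Subgroup C) : Sm1 (big (fullC C) N) ψ := by
  obtain ⟨⟨W, hW, h1⟩, -, -⟩ := h
  rw [← two_fullC] at hW
  exact ⟨W, two_le_big _ N hW, h1⟩

variable {F : Type*} [Field F] [Finite F] [CharP F 2] [Algebra (ZMod 2) F] {n : ℕ} [Sy F n]

open scoped Classical in
/-- THE INERT PLACES: the value at the correction class -/
theorem lval_Q (halg : Alg Ω) (hP : IsP T P) (hQ : QDat c T P inv) (l : T)
    {ivF : (stb (P l) → stb (P l) → A0) → A0} (hF : LocF (stb (P l)) (inv (some l)) ivF)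
    (N : Subgroup (stb (P l))) {A : stb (P l) →* Matrix (Fin n) (Fin n) F}
    (hs : Smooth (big (fullC (stb (P l))) N) (KT.act (A : stb (P l) → Matrix (Fin n) (Fin n) F)))
    (hA : ∀ g, IsSp (A g))
    {ε : stb (P l) → ZMod 2} (hε : ε ∈ homs (fsys (stb (P l))) (⊤ : Subgroup (stb (P l))))
    (hεI : ∀ d ∈ (inr (P l)).subgroupOf (stb (P l)), ε d = 0) (hε1 : ∃ d, ε d ≠ 0) :
    LVal ivF A ε (zurL (big (fullC (stb (P l))) N) A ε ((inr (P l)).subgroupOf (stb (P l))))
      (if ∃ d ∈ (inr (P l)).subgroupOf (stb (P l)), tauZ (A d) ≠ 0 then 1 else 0) := by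
  obtain ⟨a, σ, τ, h⟩ := exists_tameQ_big halg (hP.prime l l.2) (hP.odd l l.2)
    (hP.isPrime l (Or.inl l.2)) (hP.mem l (Or.inl l.2)) N
  obtain ⟨ψ, hψ, hψI, hv⟩ := exists_psi hQ l hF hε hεI hε1
  exact lval_inert h (GA.locH_big hF.loc N) hs hA (fun g h => hε.2.2 g trivial h trivial)
    (homs_sm1 hε N) hεI (fun g h => hψ.2.2 g trivial h trivial) (homs_sm1 hψ N) hψI hv

/-- THE INERT PLACES: the relaxed and the strict condition agree -/
theorem R1_Q (halg : Alg Ω) (hP : IsP T P) (l : T)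
    (N : Subgroup (stb (P l))) {A : stb (P l) →* Matrix (Fin n) (Fin n) F}
    (hs : Smooth (big (fullC (stb (P l))) N) (KT.act (A : stb (P l) → Matrix (Fin n) (Fin n) F)))
    {ε : stb (P l) → ZMod 2} (hε : ε ∈ homs (fsys (stb (P l))) (⊤ : Subgroup (stb (P l))))
    (hεI : ∀ d ∈ (inr (P l)).subgroupOf (stb (P l)), ε d = 0) :
    R1 (zurL (big (fullC (stb (P l))) N) A ε ((inr (P l)).subgroupOf (stb (P l)))) =
      Y2 (zurL (big (fullC (stb (P l))) N) A ε ((inr (P l)).subgroupOf (stb (P l)))) := by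
  obtain ⟨a, σ, τ, h⟩ := exists_tameQ_big halg (hP.prime l l.2) (hP.odd l l.2)
    (hP.isPrime l (Or.inl l.2)) (hP.mem l (Or.inl l.2)) N
  exact R1_eq_Y2 h hs (fun g h => hε.2.2 g trivial h trivial) (homs_sm1 hε N) hεI

end rat

end Pool.Agent.Work.MP_787500_nt.KI
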