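import Mathlib
import Pool.Agent.Work.MP_787500_nt.KI.Defs

/-!
# Module Form (size M): the form on the strict Selmer space

Model: KT/Form, with an arbitrary family `r` of local lifts instead of `cc`. `tr_eval`, `tr_loc`: as in KT/Form, KT/Ker. `TT_indep`: the difference is
`tr (0, (r - r') ∪ z) = ∑ inv i ((r i - r' i) ∪ z)` (`tr_loc`), and `(r i - r' i, 0) ∈ L i`, so `LKr.rel` with `z|D i ∈ Y2 (L i)`. `TT_symm`: `tr_eval` with
`b g h = ε g • ee (y h) (z h)` (`leib_chi`, `ee_coc`): the local terms are those of `LKr.symm` for `(r i, y|D i)`, `(s i, z|D i)`; the local cochain is a cocycle: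
`leib_lift` twice and `leib_chi`, `ee_coc`.
-/

set_option autoImplicit false
set_option linter.unusedSectionVars false

namespace Pool.Agent.Work.MP_787500_nt.KI

open Matrix
open Pool.Agent.Work.MP_787500_nt.GP (A0 hf hf_add hf_zero hf_two hf_neg smul_hf eq_hf hf_inj IsAct d0 d1
  d2 tw cup11 cup21 cup12 cup01 cup02)
open Pool.Agent.Work.MP_787500_nt.KR (FSys Sm1 Sm2 IsChar Smooth Z1 Z2 B2 LocH Pair LDual GlobH IsTr PP)

open Pool.Agent.Work.MP_787500_nt.KT hiding Str Rel Sel KH Ai IsP cc ff TT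
open Pool.Agent.Work.MP_787500_nt.KS (hfT hfT_apply hfT_sq hfT_two hfT_neg smul_hfT hfT_nondeg hfT_smul
  inv_zero zero_Z2 smul_F dF1 dF2 leib_chi rt rt_sq ext_factor ext_sum d2_hfT sm_eps sm1_one sm1_two
  zmod2_cases hfT_eps_sq hf_cup_Z2 exists_mul hfT_eq trace_trick sym_rank)

variable {F : Type*} [Field F] [Finite F] [CharP F 2] [Algebra (ZMod 2) F] {n : ℕ} [Sy F n]
  {G : Type*} [Group G] {S : FSys G} {I : Type*} [Fintype I] {D : I → Type*}
  [∀ i, Group (D i)] {SD : ∀ i, FSys (D i)} {j : ∀ i, D i →* G} {χ : G → ℤ_[2]}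
  {inv : ∀ i, (D i → D i → A0) → A0} {tr : ((G → G → G → A0) × (∀ i, D i → D i → A0)) →+ A0}
  {A : G →* Matrix (Fin n) (Fin n) F} {ε : G → ZMod 2}
  {L : ∀ i, Submodule F ((D i → Fin n → F) × (D i → Fin n → F))}

theorem KH.det_i (H : KH S SD j χ inv tr A ε L) (i : I) (d : D i) : IsSp (A.comp (j i) d) := H.det _

theorem KH.sm_i (H : KH S SD j χ inv tr A ε L) (i : I) : Smooth (SD i) (KT.act (A.comp (j i))) :=
  H.sm.comp (H.glob.jsm i)

theorem KH.res_Z1 (H : KH S SD j χ inv tr A ε L) (i : I) {z : G → Fin n → F}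
    (hz : Z1 S (KT.act A) z) : Z1 (SD i) (KT.act (A.comp (j i))) (fun d => z (j i d)) :=
  KR.Z1.comp (H.glob.jsm i) hz

/-- `r` is a family of local lifts of `y` -/
def IsR (j : ∀ i, D i →* G) (L : ∀ i, Submodule F ((D i → Fin n → F) × (D i → Fin n → F)))
    (r : ∀ i, D i → Fin n → F) (y : G → Fin n → F) : Prop :=
  ∀ i, (r i, fun d => y (j i d)) ∈ L i

/-- the form -/
noncomputable def TT (j : ∀ i, D i →* G)
    (tr : ((G → G → G → A0) × (∀ i, D i → D i → A0)) →+ A0) (A : G →* Matrix (Fin n) (Fin n) F)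
    (ε : G → ZMod 2) (r : ∀ i, D i → Fin n → F) (y z : G → Fin n → F) : A0 :=
  tr (fun g h k => hfT (ε g • ee (y h) (A h *ᵥ z k)),
    fun i u v => hfT (ee (r i u) (A (j i u) *ᵥ z (j i v))))

theorem tr_eval (H : KH S SD j χ inv tr A ε L) {b : G → G → F} (hb : Sm2 S b)
    (c : ∀ i, D i → D i → F)
    (hc : ∀ i, Z2 (SD i) (tw fun d => χ (j i d)) (fun u v => hfT (c i u v + b (j i u) (j i v)))) :
    tr (fun g h k => hfT (dF2 b g h k), fun i u v => hfT (c i u v)) =
      ∑ i, inv i (fun u v => hfT (c i u v + b (j i u) (j i v))) := by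
  rw [← d2_hfT H.glob.char]
  have h1 : ∀ i, (fun u v => hfT (c i u v) - hfT (b (j i u) (j i v))) =
      fun u v => hfT (c i u v + b (j i u) (j i v)) := by
    intro i
    funext u v
    rw [map_add, sub_eq_add_neg, hfT_neg]
  have hb' : Sm2 S (fun g h => hfT (b g h)) := by
    obtain ⟨W, hW, h2⟩ := hb
    exact ⟨W, hW, fun g h w hw w' hw' => by
      beta_reduce
      rw [h2 g h w hw w' hw']⟩
  have h3 := H.istr (fun g h => hfT (b g h)) (fun i u v => hfT (c i u v)) hb' (fun i => by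
    rw [h1 i]
    exact hc i)
  rw [h3]
  exact Finset.sum_congr rfl fun i _ => by rw [h1 i]

theorem tr_loc (H : KH S SD j χ inv tr A ε L) {c : ∀ i, D i → D i → A0}
    (hc : ∀ i, Z2 (SD i) (tw fun d => χ (j i d)) (c i)) :
    tr (0, c) = ∑ i, inv i (c i) := by
  have hsm : Sm2 S (fun _ _ : G => (0 : A0)) := by
    obtain ⟨W, hW⟩ := S.ex
    exact ⟨W, hW, fun _ _ _ _ _ _ => rfl⟩
  have h := H.istr (fun _ _ => 0) c hsm (fun i => by
    have e : (fun u v => c i u v - 0) = c i := by funext u v; rw [sub_zero]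
    rw [e]
    exact hc i)
  have h1 : d2 (tw χ) (fun _ _ : G => (0 : A0)) = 0 := by
    funext a b c
    simp [d2, tw]
  rw [h1] at h
  rw [h]
  refine Finset.sum_congr rfl fun i _ => ?_
  have e : (fun u v => c i u v - 0) = c i := by funext u v; rw [sub_zero]
  rw [e]

theorem exists_R {y : G → Fin n → F} (hy : y ∈ Str S j A L) : ∃ r, IsR j L r y := by
  have h : ∀ i, ∃ a, (a, fun d => y (j i d)) ∈ L i := fun i => (mem_Y2 (L i)).mp (hy.2 i)
  choose r hr using h
  exact ⟨r, hr⟩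

theorem IsR.add {r r' : ∀ i, D i → Fin n → F} {y y' : G → Fin n → F} (h : IsR j L r y)
    (h' : IsR j L r' y') : IsR j L (r + r') (y + y') :=
  fun i => (L i).add_mem (h i) (h' i)

theorem IsR.smul {r : ∀ i, D i → Fin n → F} {y : G → Fin n → F} (h : IsR j L r y) (c : F) :
    IsR j L (c • r) (c • y) :=
  fun i => (L i).smul_mem c (h i)

theorem TT_add_left (r r' : ∀ i, D i → Fin n → F) (y y' z : G → Fin n → F) :
    TT j tr A ε (r + r') (y + y') z = TT j tr A ε r y z + TT j tr A ε r' y' z := by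
  unfold TT
  rw [← map_add]
  congr 1
  refine Prod.ext ?_ ?_
  · funext g h k
    show hfT (ε g • ee (y h + y' h) _) = hfT (ε g • ee (y h) _) + hfT (ε g • ee (y' h) _)
    rw [ee_add_left, smul_add, map_add]
  · funext i u v
    show hfT (ee (r i u + r' i u) _) = hfT (ee (r i u) _) + hfT (ee (r' i u) _)
    rw [ee_add_left, map_add]

theorem TT_add_right (r : ∀ i, D i → Fin n → F) (y z z' : G → Fin n → F) :
    TT j tr A ε r y (z + z') = TT j tr A ε r y z + TT j tr A ε r y z' := by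
  unfold TT
  rw [← map_add]
  congr 1
  refine Prod.ext ?_ ?_
  · funext g h k
    show hfT (ε g • ee (y h) (A h *ᵥ (z k + z' k))) = hfT (ε g • ee (y h) (A h *ᵥ z k)) +
      hfT (ε g • ee (y h) (A h *ᵥ z' k))
    rw [mulVec_add, ee_add_right, smul_add, map_add]
  · funext i u v
    show hfT (ee (r i u) (A (j i u) *ᵥ (z (j i v) + z' (j i v)))) =
      hfT (ee (r i u) (A (j i u) *ᵥ z (j i v))) + hfT (ee (r i u) (A (j i u) *ᵥ z' (j i v)))
    rw [mulVec_add, ee_add_right, map_add]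

theorem TT_smul (c : F) (r : ∀ i, D i → Fin n → F) (y z : G → Fin n → F) :
    TT j tr A ε (c • r) (c • y) z = TT j tr A ε r y (c • z) := by
  unfold TT
  congr 1
  refine Prod.ext ?_ ?_
  · funext g h k
    show hfT (ε g • ee (c • y h) (A h *ᵥ z k)) = hfT (ε g • ee (y h) (A h *ᵥ (c • z k)))
    rw [mulVec_smul, ee_smul_left, ee_smul_right]
  · funext i u v
    show hfT (ee (c • r i u) (A (j i u) *ᵥ z (j i v))) =
      hfT (ee (r i u) (A (j i u) *ᵥ (c • z (j i v))))
    rw [mulVec_smul, ee_smul_left, ee_smul_right]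

theorem TT_indep (H : KH S SD j χ inv tr A ε L) {r r' : ∀ i, D i → Fin n → F}
    {y z : G → Fin n → F} (h : IsR j L r y) (h' : IsR j L r' y) (hz : z ∈ Str S j A L) :
    TT j tr A ε r y z = TT j tr A ε r' y z := by
  have hd : ∀ i, (r i - r' i, (0 : D i → Fin n → F)) ∈ L i := by
    intro i
    have h1 := (L i).sub_mem (h i) (h' i)
    have h2 : (r i, fun d => y (j i d)) - (r' i, fun d => y (j i d)) =
        (r i - r' i, (0 : D i → Fin n → F)) := Prod.ext rfl (sub_self _)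
    rwa [h2] at h1
  have hrel := fun i => ((H.loc i).rel (r i - r' i)).mp (hd i)
  have hcup : ∀ i, cup11 (KT.act (A.comp (j i))) BU (r i - r' i) (fun d => z (j i d)) =
      fun u v => hfT (ee (r i u) (A (j i u) *ᵥ z (j i v))) -
        hfT (ee (r' i u) (A (j i u) *ᵥ z (j i v))) := by
    intro i
    funext u v
    show BU (r i u - r' i u) (A (j i u) *ᵥ z (j i v)) = _
    rw [map_sub]
    rfl
  rw [← sub_eq_zero]
  have e : TT j tr A ε r y z - TT j tr A ε r' y z =
      tr ((0 : G → G → G → A0), fun i => cup11 (KT.act (A.comp (j i))) BU (r i - r' i)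
        (fun d => z (j i d))) := by
    unfold TT
    rw [← map_sub]
    congr 1
    refine Prod.ext (sub_self _) ?_
    funext i
    exact (hcup i).symm
  rw [e, tr_loc H (fun i => KR.cup11_Z2 (pair_BU (H.glob.loc i).char (H.det_i i) (H.sm_i i))
    (hrel i).1 (H.res_Z1 i hz.1))]
  refine Finset.sum_eq_zero fun i _ => ?_
  obtain ⟨a, ha⟩ := (mem_Y2 (L i)).mp (hz.2 i)
  exact (hrel i).2 _ ha

private theorem dF2_add (b b' : G → G → F) (g h k : G) :
    dF2 (fun g h => b g h + b' g h) g h k = dF2 b g h k + dF2 b' g h k := by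
  unfold dF2
  ring

private theorem loc_Z2 {E : Type*} [Group E] {SE : FSys E} {ψ : E → ℤ_[2]} (hψ : IsChar SE ψ)
    {B : E →* Matrix (Fin n) (Fin n) F} (hB : ∀ d, IsSp (B d)) (hsB : Smooth SE (KT.act B))
    {η : E → ZMod 2} (hη : ∀ g h, η (g * h) = η g + η h) (hηs : Sm1 SE η)
    {r s y z : E → Fin n → F} (hr1 : Sm1 SE r) (hr2 : IsLift B η r y) (hs1 : Sm1 SE s)
    (hs2 : IsLift B η s z) (hy : Z1 SE (KT.act B) y) (hz : Z1 SE (KT.act B) z) :
    Z2 SE (tw ψ) (fun u v => hfT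
      (ee (r u) (B u *ᵥ z v) + ee (s u) (B u *ᵥ y v) + η u • ee (y v) (z v))) := by
  have hyc : IsCo B y := hy.2
  have hzc : IsCo B z := hz.2
  constructor
  · obtain ⟨W1, hW1, k1⟩ := hr1
    obtain ⟨W2, hW2, k2⟩ := hs1
    obtain ⟨W3, hW3, k3⟩ := hy.1
    obtain ⟨W4, hW4, k4⟩ := hz.1
    obtain ⟨W5, hW5, k5⟩ := smooth_A hsB
    obtain ⟨W6, hW6, k6⟩ := hηs
    refine ⟨W1 ⊓ (W2 ⊓ (W3 ⊓ (W4 ⊓ (W5 ⊓ W6)))), SE.inf hW1 (SE.inf hW2
      (SE.inf hW3 (SE.inf hW4 (SE.inf hW5 hW6)))), fun g h w hw w' hw' => ?_⟩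
    obtain ⟨a1, a2, a3, a4, a5, a6⟩ := hw
    obtain ⟨b1, b2, b3, b4, b5, b6⟩ := hw'
    have m7 : B (g * w) = B g := by rw [map_mul, k5 w a5, mul_one]
    beta_reduce
    rw [k1 g w a1, k2 g w a2, k3 h w' b3, k4 h w' b4, k6 g w a6, m7]
  · intro a b c
    rw [d2_hfT hψ]
    show hfT (dF2 (fun u v => (ee (r u) (B u *ᵥ z v) + ee (s u) (B u *ᵥ y v)) +
      η u • ee (y v) (z v)) a b c) = 0
    rw [dF2_add (fun u v => ee (r u) (B u *ᵥ z v) + ee (s u) (B u *ᵥ y v))
      (fun u v => η u • ee (y v) (z v)), dF2_add (fun u v => ee (r u) (B u *ᵥ z v))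
        (fun u v => ee (s u) (B u *ᵥ y v)), leib_lift hB hr2 hzc a b c,
      leib_lift hB hs2 hyc a b c, leib_chi hη (fun d => ee (y d) (z d)) a b c,
      ee_coc hB hyc hzc b c, ← smul_add, map_add]
    exact hfT_two _

private theorem TT_neg (r : ∀ i, D i → Fin n → F) (y z : G → Fin n → F) :
    -TT j tr A ε r y z = TT j tr A ε r y z := by
  have hneg : TT j tr A ε r y z + TT j tr A ε r y z = 0 := by
    unfold TT
    rw [← map_add, ← map_zero tr]
    congr 1
    refine Prod.ext ?_ ?_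
    · funext g h k
      exact hfT_two _
    · funext i u v
      exact hfT_two _
  exact (eq_neg_of_add_eq_zero_left hneg).symm

private theorem loc_Z2' (H : KH S SD j χ inv tr A ε L) {r s : ∀ i, D i → Fin n → F}
    {y z : G → Fin n → F} (hy : Z1 S (KT.act A) y) (hz : Z1 S (KT.act A) z) (hr : IsR j L r y)
    (hs : IsR j L s z) (i : I) : Z2 (SD i) (tw fun d => χ (j i d)) (fun u v => hfT
      (ee (r i u) (A (j i u) *ᵥ z (j i v)) + ee (s i u) (A (j i u) *ᵥ y (j i v)) +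
        ε (j i u) • ee (y (j i v)) (z (j i v)))) := by
  obtain ⟨-, hr1, hr2⟩ := (H.loc i).coc _ (hr i)
  obtain ⟨-, hs1, hs2⟩ := (H.loc i).coc _ (hs i)
  exact loc_Z2 (B := A.comp (j i)) (η := fun d => ε (j i d)) (y := fun d => y (j i d))
    (z := fun d => z (j i d)) (H.glob.loc i).char (H.det_i i) (H.sm_i i)
    (fun g h => by rw [map_mul, H.eadd]) (H.esm.comp (H.glob.jsm i)) hr1 hr2 hs1 hs2
    (H.res_Z1 i hy) (H.res_Z1 i hz)

private theorem loc_inv_aux {E : Type*} [Group E] {SE : FSys E} {iv : (E → E → A0) → A0}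
    {B : E →* Matrix (Fin n) (Fin n) F} {η : E → ZMod 2}
    {M : Submodule F ((E → Fin n → F) × (E → Fin n → F))} (hK : LKr SE iv B η M)
    {r s y z : E → Fin n → F} (hr : (r, y) ∈ M) (hs : (s, z) ∈ M) :
    iv (fun u v => hfT
      (ee (r u) (B u *ᵥ z v) + ee (s u) (B u *ᵥ y v) + η u • ee (y v) (z v))) = 0 :=
  hK.symm (r, y) hr (s, z) hs

private theorem loc_inv (H : KH S SD j χ inv tr A ε L) {r s : ∀ i, D i → Fin n → F}
    {y z : G → Fin n → F} (hr : IsR j L r y)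
    (hs : IsR j L s z) (i : I) : inv i (fun u v => hfT
      (ee (r i u) (A (j i u) *ᵥ z (j i v)) + ee (s i u) (A (j i u) *ᵥ y (j i v)) +
        ε (j i u) • ee (y (j i v)) (z (j i v)))) = 0 :=
  loc_inv_aux (B := A.comp (j i)) (η := fun d => ε (j i d)) (y := fun d => y (j i d))
    (z := fun d => z (j i d)) (H.loc i) (hr i) (hs i)

theorem TT_symm (H : KH S SD j χ inv tr A ε L) {r s : ∀ i, D i → Fin n → F}
    {y z : G → Fin n → F} (hy : Z1 S (KT.act A) y) (hz : Z1 S (KT.act A) z) (hr : IsR j L r y)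
    (hs : IsR j L s z) : TT j tr A ε r y z = TT j tr A ε s z y := by
  rw [← sub_eq_zero, sub_eq_add_neg, TT_neg]
  unfold TT
  rw [← map_add]
  have hsm : Sm2 S (fun g h => ε g • ee (y h) (z h)) :=
    sm_eps H.esm (sm1_two hy.1 hz.1 ee)
  have h4 := tr_eval H hsm (fun i u v => ee (r i u) (A (j i u) *ᵥ z (j i v)) +
    ee (s i u) (A (j i u) *ᵥ y (j i v))) (loc_Z2' H hy hz hr hs)
  rw [Finset.sum_eq_zero fun i _ => loc_inv H hr hs i] at h4
  rw [← h4]
  congr 1
  refine Prod.ext ?_ ?_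
  · funext g h k
    show hfT (ε g • ee (y h) (A h *ᵥ z k)) + hfT (ε g • ee (z h) (A h *ᵥ y k)) =
      hfT (dF2 (fun g h => ε g • ee (y h) (z h)) g h k)
    rw [← map_add, leib_chi H.eadd (fun h => ee (y h) (z h)), ee_coc H.det hy.2 hz.2, smul_add]
  · funext i u v
    show hfT _ + hfT _ = hfT _
    rw [map_add]

end Pool.Agent.Work.MP_787500_nt.KI
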