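import Mathlib
import Pool.Agent.Work.MP_787500_nt.KI.Form

/-!
# Module DiagK (size M): the diagonal and the value at the correction class

Model: KT/Diag (`TT_diag`, `TT_kk`). `TT_diag`: `tr_eval` with `b g h = ε g • (α * qq (y h))` (`hfT (ε • (α * ee (k, A y) ^ 2)) = hfT (ε • (rt α * ee (k, A y)))`,
`hfT_eps_sq`): the local terms are those of `LKr.diag` for `p = (r i, y|D i)`, `a = v i` (`ee (α • r) .. = α * ee r ..`). `TT_kk`: `tr_eval` with `b g h = ε g • (α * mm (A h))` (`mm_coc`):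
the local terms are those of `LVal`. The local cochains are cocycles: `leib_lift`, `leib_chi`, `qq_coc`, `mm_coc`. `kc (A.comp (j i)) = fun d => kc A (j i d)` is `rfl`.
-/

set_option autoImplicit false
set_option linter.unusedSectionVars false

namespace Pool.Agent.Work.MP_787500_nt.KI

open Matrix
open Pool.Agent.Work.MP_787500_nt.GP (A0 hf hf_add hf_zero hf_two hf_neg smul_hf eq_hf hf_inj IsAct d0 d1
  d2 tw cup11 cup21 cup12 cup01 cup02)
open Pool.Agent.Work.MP_787500_nt.KR (FSys Sm1 Sm2 IsChar Smooth Z1 Z2 B2 LocH Pair LDual GlobH IsTr PP)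

open Pool.Agent.Work.MP_787500_nt.KT hiding Str Rel Sel KH Ai IsP cc ff TT
open Pool.Agent.Work.MP_787500_nt.KS (hfT hfT_apply hfT_sq hfT_two hfT_neg smul_hfT hfT_nondeg hfT_smul
  inv_zero zero_Z2 smul_F dF1 dF2 leib_chi rt rt_sq ext_factor ext_sum d2_hfT sm_eps sm1_one sm1_two
  zmod2_cases hfT_eps_sq hf_cup_Z2 exists_mul hfT_eq trace_trick sym_rank)

variable {F : Type*} [Field F] [Finite F] [CharP F 2] [Algebra (ZMod 2) F] {n : ℕ} [Sy F n]
  {G : Type*} [Group G] {S : FSys G} {I : Type*} [Fintype I] {D : I → Type*}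
  [∀ i, Group (D i)] {SD : ∀ i, FSys (D i)} {j : ∀ i, D i →* G} {χ : G → ℤ_[2]}
  {inv : ∀ i, (D i → D i → A0) → A0} {tr : ((G → G → G → A0) × (∀ i, D i → D i → A0)) →+ A0}
  {A : G →* Matrix (Fin n) (Fin n) F} {ε : G → ZMod 2}
  {L : ∀ i, Submodule F ((D i → Fin n → F) × (D i → Fin n → F))}

section local_

variable {E : Type*} [Group E] {SE : FSys E}

private theorem sm2_cup {A : E →* Matrix (Fin n) (Fin n) F} (hs : Smooth SE (KT.act A))
    {a z : E → Fin n → F} (ha : Sm1 SE a) (hz : Sm1 SE z) :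
    Sm2 SE (fun u w => ee (a u) (A u *ᵥ z w)) := by
  obtain ⟨W, hW, h1⟩ := smooth_A hs
  obtain ⟨W', hW', h2⟩ := ha
  obtain ⟨W'', hW'', h3⟩ := hz
  refine ⟨W ⊓ (W' ⊓ W''), SE.inf hW (SE.inf hW' hW''), fun g h w hw w' hw' => ?_⟩
  beta_reduce
  rw [h2 g w hw.2.1, h3 h w' hw'.2.2, map_mul, h1 w hw.1, mul_one]

private theorem sm2_two {b c : E → E → F} (hb : Sm2 SE b) (hc : Sm2 SE c) (f : F → F → F) :
    Sm2 SE (fun u w => f (b u w) (c u w)) := by
  obtain ⟨W, hW, h1⟩ := hb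
  obtain ⟨W', hW', h2⟩ := hc
  refine ⟨W ⊓ W', SE.inf hW hW', fun g h w hw w' hw' => ?_⟩
  beta_reduce
  rw [h1 g h w hw.1 w' hw'.1, h2 g h w hw.2 w' hw'.2]

private theorem Z2_hfT {χ : E → ℤ_[2]} (hχ : IsChar SE χ) {b : E → E → F} (hb : Sm2 SE b)
    (h : ∀ g h k, hfT (dF2 b g h k) = 0) : Z2 SE (tw χ) (fun u v => hfT (b u v)) := by
  constructor
  · obtain ⟨W, hW, h1⟩ := hb
    refine ⟨W, hW, fun g h w hw w' hw' => ?_⟩
    beta_reduce
    rw [h1 g h w hw w' hw']
  · intro a b' c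
    rw [d2_hfT hχ]
    exact h a b' c

private theorem dF2_comb (b c d : E → E → F) (α β : F) (g h k : E) :
    dF2 (fun g h => α * b g h + c g h + β * d g h) g h k =
      α * dF2 b g h k + dF2 c g h k + β * dF2 d g h k := by
  unfold dF2
  ring

/-- the coboundary of the local term of the diagonal -/
private theorem diag_dF2 {A : E →* Matrix (Fin n) (Fin n) F} (hA : ∀ g, IsSp (A g))
    {ε : E → ZMod 2} (he : ∀ g h, ε (g * h) = ε g + ε h) {r v y : E → Fin n → F}
    (hy : IsCo A y) (hr : IsLift A ε r y) (hv : IsLift A ε v (kc A)) (α : F) (g h k : E) :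
    hfT (dF2 (fun s t => α * ee (r s) (A s *ᵥ y t) + ε s • (α * qq (y t)) +
      rt α * ee (v s) (A s *ᵥ y t)) g h k) = 0 := by
  have hrt : rt α ^ 2 = α := rt_sq α
  rw [dF2_comb (fun s t => ee (r s) (A s *ᵥ y t)) (fun s t => ε s • (α * qq (y t)))
    (fun s t => ee (v s) (A s *ᵥ y t)), leib_lift hA hr hy, leib_lift hA hv hy,
    leib_chi he (fun h => α * qq (y h))]
  have h8 : dF1 (fun h => α * qq (y h)) h k =
      α * ee (y h) (A h *ᵥ y k) + α * ee (kk (A h)) (A h *ᵥ y k) ^ 2 := by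
    rw [← mul_add, ← qq_coc hA hy]
    unfold dF1
    ring
  rw [h8]
  show hfT (α * ε g • ee (y h) (A h *ᵥ y k) +
    ε g • (α * ee (y h) (A h *ᵥ y k) + α * ee (kk (A h)) (A h *ᵥ y k) ^ 2) +
      rt α * ε g • ee (kk (A h)) (A h *ᵥ y k)) = 0
  have h9 : α * ε g • ee (y h) (A h *ᵥ y k) +
      ε g • (α * ee (y h) (A h *ᵥ y k) + α * ee (kk (A h)) (A h *ᵥ y k) ^ 2) +
        rt α * ε g • ee (kk (A h)) (A h *ᵥ y k) =
      ε g • (rt α * ee (kk (A h)) (A h *ᵥ y k)) ^ 2 +
        ε g • (rt α * ee (kk (A h)) (A h *ᵥ y k)) := by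
    rw [mul_pow, hrt]
    simp only [smul_F]
    linear_combination (norm := (ring_nf; reduce_mod_char!))
  rw [h9, map_add, ← hfT_eps_sq]
  exact hfT_two _

/-- the coboundary of the local term of the value at the correction class -/
private theorem val_dF2 {A : E →* Matrix (Fin n) (Fin n) F} (hA : ∀ g, IsSp (A g))
    {ε : E → ZMod 2} (he : ∀ g h, ε (g * h) = ε g + ε h) {v : E → Fin n → F}
    (hv : IsLift A ε v (kc A)) (α : F) (g h k : E) :
    hfT (dF2 (fun s t => α * ee (v s) (A s *ᵥ kc A t) + ε s • (α * mm (A t))) g h k) = 0 := by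
  have h1 := dF2_comb (fun s t => ee (v s) (A s *ᵥ kc A t)) (fun s t => ε s • (α * mm (A t)))
    (fun _ _ => 0) α 0 g h k
  simp only [mul_zero, add_zero, zero_mul] at h1
  rw [h1, leib_lift hA hv (z := kc A) (kk_coc hA), leib_chi he (fun h => α * mm (A h))]
  have h2 : dF1 (fun h => α * mm (A h)) h k = α * ee (kk (A h)) (A h *ᵥ kk (A k)) := by
    rw [← mm_coc hA]
    unfold dF1
    ring
  rw [h2]
  have h3 : α * ε g • ee (kc A h) (A h *ᵥ kc A k) +
      ε g • (α * ee (kk (A h)) (A h *ᵥ kk (A k))) = 0 := by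
    show α * ε g • ee (kk (A h)) (A h *ᵥ kk (A k)) +
      ε g • (α * ee (kk (A h)) (A h *ᵥ kk (A k))) = 0
    simp only [smul_F]
    linear_combination (norm := (ring_nf; reduce_mod_char!))
  rw [h3, map_zero]

end local_

theorem kc_Str (H : KH S SD j χ inv tr A ε L) : kc A ∈ Str S j A L := by
  refine ⟨kc_Z1 H.det H.sm, fun i => ?_⟩
  obtain ⟨a, ha⟩ := (H.loc i).kmem
  exact (mem_Y2 (L i)).2 ⟨a, ha⟩

theorem TT_diag (H : KH S SD j χ inv tr A ε L) {r v : ∀ i, D i → Fin n → F}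
    {y : G → Fin n → F} (hy : Z1 S (KT.act A) y) (hr : IsR j L r y) (hv : IsR j L v (kc A))
    (α : F) : TT j tr A ε (α • r) (α • y) y = TT j tr A ε (rt α • v) (rt α • kc A) y := by
  have hrt : rt α ^ 2 = α := rt_sq α
  rw [← sub_eq_zero]
  have hneg : TT j tr A ε (rt α • v) (rt α • kc A) y +
      TT j tr A ε (rt α • v) (rt α • kc A) y = 0 := by
    unfold TT
    rw [← map_add, ← map_zero tr]
    congr 1
    refine Prod.ext ?_ ?_
    · funext g h k
      exact hfT_two _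
    · funext i u v
      exact hfT_two _
  have h3 := (eq_neg_of_add_eq_zero_left hneg).symm
  rw [sub_eq_add_neg, h3]
  unfold TT
  rw [← map_add]
  have hsm : Sm2 S (fun g h => ε g • (α * qq (y h))) :=
    sm_eps H.esm (sm1_one hy.1 (fun u => α * qq u))
  have hco : ∀ i, IsCo (A.comp (j i)) (fun d => y (j i d)) := fun i => (H.res_Z1 i hy).2
  have hadd : ∀ i, ∀ g h : D i, ε (j i (g * h)) = ε (j i g) + ε (j i h) := fun i g h => by
    rw [map_mul, H.eadd]
  have hloc : ∀ i, (fun u w => hfT ((α * ee (r i u) (A (j i u) *ᵥ y (j i w)) +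
      rt α * ee (v i u) (A (j i u) *ᵥ y (j i w))) + ε (j i u) • (α * qq (y (j i w))))) =
      fun u w => hfT (α * ee (r i u) (A.comp (j i) u *ᵥ y (j i w)) +
        ε (j i u) • (α * qq (y (j i w))) + rt α * ee (v i u) (A.comp (j i) u *ᵥ y (j i w))) := by
    intro i
    funext u w
    rw [add_right_comm]
    rfl
  have h4 := tr_eval H hsm (fun i u w => α * ee (r i u) (A (j i u) *ᵥ y (j i w)) +
      rt α * ee (v i u) (A (j i u) *ᵥ y (j i w))) (fun i => by
    rw [hloc i]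
    have c1 := (H.loc i).coc _ (hr i)
    have c2 := (H.loc i).coc _ (hv i)
    have s1 := sm2_cup (H.sm_i i) c1.2.1 (H.res_Z1 i hy).1
    have s2 := sm2_cup (H.sm_i i) c2.2.1 (H.res_Z1 i hy).1
    have s3 : Sm2 (SD i) (fun u w => ε (j i u) • (α * qq (y (j i w)))) :=
      sm_eps (H.esm.comp (H.glob.jsm i)) (sm1_one (H.res_Z1 i hy).1 (fun u => α * qq u))
    refine Z2_hfT (H.glob.loc i).char ?_ (diag_dF2 (A := A.comp (j i)) (H.det_i i)
      (ε := fun d => ε (j i d)) (hadd i) (hco i) c1.2.2 c2.2.2 α)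
    exact sm2_two (sm2_two s1 s3 (fun x y => α * x + y)) s2 (fun x y => x + rt α * y))
  refine Eq.trans ?_ (h4.trans ?_)
  · congr 1
    refine Prod.ext ?_ ?_
    · funext g h k
      show hfT (ε g • ee (α • y h) (A h *ᵥ y k)) + hfT (ε g • ee (rt α • kk (A h)) (A h *ᵥ y k)) =
        hfT (dF2 (fun g h => ε g • (α * qq (y h))) g h k)
      have h8 : dF1 (fun h => α * qq (y h)) h k =
          α * ee (y h) (A h *ᵥ y k) + α * ee (kk (A h)) (A h *ᵥ y k) ^ 2 := by
        rw [← mul_add, ← qq_coc H.det hy.2]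
        unfold dF1
        ring
      rw [hfT_eps_sq (ε g) (ee (rt α • kk (A h)) (A h *ᵥ y k)), ee_smul_left, ee_smul_left, mul_pow,
        hrt, ← map_add, leib_chi H.eadd (fun h => α * qq (y h)), h8, smul_add]
    · funext i u w
      show hfT (ee (α • r i u) (A (j i u) *ᵥ y (j i w))) +
        hfT (ee (rt α • v i u) (A (j i u) *ᵥ y (j i w))) = _
      rw [ee_smul_left, ee_smul_left, ← map_add]
  · refine Finset.sum_eq_zero fun i _ => ?_
    rw [hloc i]
    exact (H.loc i).diag _ (hr i) _ (hv i) α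

theorem TT_kk (H : KH S SD j χ inv tr A ε L) {t : I → ℕ}
    (ht : ∀ i, LVal (inv i) (A.comp (j i)) (fun d => ε (j i d)) (L i) (t i))
    {v : ∀ i, D i → Fin n → F} (hv : IsR j L v (kc A)) (α : F) :
    TT j tr A ε (α • v) (α • kc A) (kc A) =
      hf (Algebra.trace (ZMod 2) F α * ((∑ i, t i : ℕ) : ZMod 2)) := by
  have hkc := kc_Z1 H.det H.sm
  have hsm : Sm2 S (fun g h => ε g • (α * mm (A h))) :=
    sm_eps H.esm (sm1_one (mm_sm H.sm) (fun u => α * u))
  have hadd : ∀ i, ∀ g h : D i, ε (j i (g * h)) = ε (j i g) + ε (j i h) := fun i g h => by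
    rw [map_mul, H.eadd]
  have h4 := tr_eval H hsm (fun i u w => α * ee (v i u) (A (j i u) *ᵥ kc A (j i w))) (fun i => by
    have c2 := (H.loc i).coc _ (hv i)
    have s2 := sm2_cup (H.sm_i i) c2.2.1 (H.res_Z1 i hkc).1
    have s3 : Sm2 (SD i) (fun u w => ε (j i u) • (α * mm (A (j i w)))) :=
      sm_eps (H.esm.comp (H.glob.jsm i)) (sm1_one (mm_sm (H.sm_i i)) (fun u => α * u))
    exact Z2_hfT (H.glob.loc i).char (sm2_two s2 s3 (fun x y => α * x + y))
      (val_dF2 (A := A.comp (j i)) (H.det_i i) (ε := fun d => ε (j i d)) (hadd i) c2.2.2 α))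
  have h5 : TT j tr A ε (α • v) (α • kc A) (kc A) =
      tr (fun g h k => hfT (dF2 (fun g h => ε g • (α * mm (A h))) g h k),
        fun i u w => hfT (α * ee (v i u) (A (j i u) *ᵥ kc A (j i w)))) := by
    unfold TT
    congr 1
    refine Prod.ext ?_ ?_
    · funext g h k
      show hfT (ε g • ee (α • kk (A h)) (A h *ᵥ kk (A k))) =
        hfT (dF2 (fun g h => ε g • (α * mm (A h))) g h k)
      rw [leib_chi H.eadd (fun h => α * mm (A h)), ee_smul_left, ← mm_coc H.det]
      congr 2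
      unfold dF1
      ring
    · funext i u w
      show hfT (ee (α • v i u) (A (j i u) *ᵥ kc A (j i w))) = _
      rw [ee_smul_left]
  rw [h5, h4]
  have h6 : ∀ i, inv i (fun u w => hfT (α * ee (v i u) (A (j i u) *ᵥ kc A (j i w)) +
      ε (j i u) • (α * mm (A (j i w))))) =
      hf (Algebra.trace (ZMod 2) F α * ((t i : ℕ) : ZMod 2)) := fun i => ht i (v i) (hv i) α
  rw [Finset.sum_congr rfl fun i _ => h6 i]
  have h7 : ∀ s : Finset I, ∑ i ∈ s, hf (Algebra.trace (ZMod 2) F α * ((t i : ℕ) : ZMod 2)) =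
      hf (Algebra.trace (ZMod 2) F α * ((∑ i ∈ s, t i : ℕ) : ZMod 2)) := by
    intro s
    classical
    induction s using Finset.induction_on with
    | empty => rw [Finset.sum_empty, Finset.sum_empty, Nat.cast_zero, mul_zero, hf_zero]
    | insert a s ha ih =>
      rw [Finset.sum_insert ha, Finset.sum_insert ha, ih, ← hf_add, ← mul_add, ← Nat.cast_add]
  exact h7 Finset.univ

end Pool.Agent.Work.MP_787500_nt.KI
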