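import Mathlib
import Pool.Agent.Work.MP_787500_nt.KI.Form
import Pool.Agent.Work.MP_787500_nt.KT.Ext
import Pool.Agent.Work.MP_787500_nt.KT.Ker

/-!
# Module KerK (size M): the radical of the form is the image of the Selmer space

Model: KT/Ker. `exists_loc`: copy of `KT.exists_loc` (KT/Ext; its proof uses only `glob`, `ld`, `det`, `sm`). `im_of_TT`: `exists_loc` for `Y i = Y2 (L i)` and `z ↦ TT r y z` gives `s i`
orthogonal to `Y2 (L i)`, so `(s i, 0) ∈ L i` (`LKr.rel`). `H.pp` for `F = ε g • (A g *ᵥ y h)` (`obst_Z2` of KT/Ker) and the local cochains `r i - s i`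
(`d (r i) = ε ∪ y` by `LKr.coc`): a global `a` with `a|D i = r i - s i + coboundary`, and coboundaries are in `R1 (L i)` (`LKr.rel`, `inv_cob_left`). `TT_of_im`: by `TT_indep` one may take
`r i = a|D i`; then `tr_eval` with `b g h = ee (a g) (A g *ᵥ z h)` (`leib_lift`): the local terms are 0.
-/

set_option autoImplicit false
set_option linter.unusedSectionVars false

namespace Pool.Agent.Work.MP_787500_nt.KI

open Matrix
open Pool.Agent.Work.MP_787500_nt.GP (A0 hf hf_add hf_zero hf_two hf_neg smul_hf eq_hf hf_inj IsAct d0 d1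
  d2 tw cup11 cup21 cup12 cup01 cup02)
open Pool.Agent.Work.MP_787500_nt.KR (FSys Sm1 Sm2 IsChar Smooth Z1 Z2 B2 LocH Pair LDual GlobH IsTr PP)

open Pool.Agent.Work.MP_787500_nt.KT hiding Str Rel Sel KH Ai IsP cc ff TT
open Pool.Agent.Work.MP_787500_nt.KS (hfT hfT_apply hfT_sq hfT_two hfT_neg smul_hfT hfT_nondeg hfT_smul
  inv_zero zero_Z2 smul_F dF1 dF2 leib_chi rt rt_sq ext_factor ext_sum d2_hfT sm_eps sm1_one sm1_two
  zmod2_cases hfT_eps_sq hf_cup_Z2 exists_mul hfT_eq trace_trick sym_rank)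

variable {F : Type*} [Field F] [Finite F] [CharP F 2] [Algebra (ZMod 2) F] {n : ℕ} [Sy F n]
  {G : Type*} [Group G] {S : FSys G} {I : Type*} [Fintype I] {D : I → Type*}
  [∀ i, Group (D i)] {SD : ∀ i, FSys (D i)} {j : ∀ i, D i →* G} {χ : G → ℤ_[2]}
  {inv : ∀ i, (D i → D i → A0) → A0} {tr : ((G → G → G → A0) × (∀ i, D i → D i → A0)) →+ A0}
  {A : G →* Matrix (Fin n) (Fin n) F} {ε : G → ZMod 2}
  {L : ∀ i, Submodule F ((D i → Fin n → F) × (D i → Fin n → F))}

/-- restriction of cocycles -/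
private def resK (H : KH S SD j χ inv tr A ε L) (i : I) :
    cocS S (A : G → Matrix (Fin n) (Fin n) F) →ₗ[F]
      cocS (SD i) (A.comp (j i) : D i → Matrix (Fin n) (Fin n) F) where
  toFun z := ⟨fun d => z.1 (j i d), H.res_Z1 i z.2⟩
  map_add' _ _ := rfl
  map_smul' _ _ := rfl

theorem exists_loc (H : KH S SD j χ inv tr A ε L)
    (Y : ∀ i, Submodule F (D i → Fin n → F)) (hB : ∀ i, cobS (A.comp (j i)) ≤ Y i)
    (φ : cocS S (A : G → Matrix (Fin n) (Fin n) F) →+ A0)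
    (hφ : ∀ z : cocS S (A : G → Matrix (Fin n) (Fin n) F),
      (∀ i, (fun d => z.1 (j i d)) ∈ Y i) → φ z = 0) :
    ∃ s : ∀ i, D i → Fin n → F, (∀ i, Z1 (SD i) (KT.act (A.comp (j i))) (s i)) ∧
      (∀ i, ∀ y ∈ Y i, Z1 (SD i) (KT.act (A.comp (j i))) y →
        inv i (cup11 (KT.act (A.comp (j i))) BU (s i) y) = 0) ∧
      ∀ z : cocS S (A : G → Matrix (Fin n) (Fin n) F), φ z =
        ∑ i, inv i (cup11 (KT.act (A.comp (j i))) BU (s i) (fun d => z.1 (j i d))) := by
  obtain ⟨ψ, h1, h2⟩ := ext_sum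
    (Z := fun i => cocS (SD i) (A.comp (j i) : D i → Matrix (Fin n) (Fin n) F))
    (fun i => (resK H i).toAddMonoidHom)
    (fun i => ((Y i).toAddSubgroup.comap
      (cocS (SD i) (A.comp (j i) : D i → Matrix (Fin n) (Fin n) F)).subtype.toAddMonoidHom)) φ hφ
  have key : ∀ i, ∃ s : cocS (SD i) (A.comp (j i) : D i → Matrix (Fin n) (Fin n) F),
      ∀ z, ψ i z = inv i (cup11 (KT.act (A.comp (j i))) BU s.1 z.1) := by
    intro i
    refine local_rep (H.glob.loc i) (H.det_i i) (H.sm_i i) (H.ld i) (ψ i) ?_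
    rintro z ⟨m, hm⟩
    exact h1 i z (hB i ⟨m, hm⟩)
  choose s hs using key
  refine ⟨fun i => (s i).1, fun i => (s i).2, fun i y hy hy' => ?_, fun z => ?_⟩
  · rw [← hs i ⟨y, hy'⟩]
    exact h1 i ⟨y, hy'⟩ hy
  · rw [h2]
    refine Finset.sum_congr rfl fun i _ => ?_
    rw [hs]
    rfl

/-- the obstruction cocycle -/
private theorem obst (H : KH S SD j χ inv tr A ε L) {y : G → Fin n → F}
    (hy : Z1 S (KT.act A) y) : Z2 S (KT.act A) (fun g h => ε g • (A g *ᵥ y h)) := by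
  constructor
  · obtain ⟨W, hW, h1⟩ := H.esm
    obtain ⟨W', hW', h2⟩ := hy.1
    obtain ⟨W'', hW'', h3⟩ := smooth_A H.sm
    refine ⟨W ⊓ (W' ⊓ W''), S.inf hW (S.inf hW' hW''), fun g h w hw w' hw' => ?_⟩
    beta_reduce
    rw [h1 g w hw.1, h2 h w' hw'.2.1, map_mul, h3 w hw.2.2, mul_one]
  · intro a b c
    show A a *ᵥ (ε b • (A b *ᵥ y c)) - ε (a * b) • (A (a * b) *ᵥ y c) +
      ε a • (A a *ᵥ y (b * c)) - ε a • (A a *ᵥ y b) = 0
    have h1 : y (b * c) = y b + A b *ᵥ y c := hy.2 b c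
    rw [U_sub, U_sub, h1, H.eadd, map_mul, mulVec_smul, mulVec_add, ← mulVec_mulVec, add_smul,
      smul_add]
    have h2 := U_add_self (ε b • (A a *ᵥ (A b *ᵥ y c)))
    have h3 := U_add_self (ε a • (A a *ᵥ (A b *ᵥ y c)))
    have h4 := U_add_self (ε a • (A a *ᵥ y b))
    calc _ = (ε b • (A a *ᵥ (A b *ᵥ y c)) + ε b • (A a *ᵥ (A b *ᵥ y c))) +
        (ε a • (A a *ᵥ (A b *ᵥ y c)) + ε a • (A a *ᵥ (A b *ᵥ y c))) +
        (ε a • (A a *ᵥ y b) + ε a • (A a *ᵥ y b)) := by abel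
      _ = 0 := by rw [h2, h3, h4]; simp

private theorem cob_Z1' (H : KH S SD j χ inv tr A ε L) (i : I) {x : D i → Fin n → F}
    (hx : x ∈ cobS (A.comp (j i))) : Z1 (SD i) (KT.act (A.comp (j i))) x := by
  obtain ⟨m, hm⟩ := hx
  have h := KR.d0_Z1 (isAct_act (A.comp (j i))) (H.sm_i i) m
  convert h using 1
  funext g
  rw [d0_act, hm]

private theorem cob_mem (H : KH S SD j χ inv tr A ε L) (i : I) {x : D i → Fin n → F}
    (hx : x ∈ cobS (A.comp (j i))) : (x, (0 : D i → Fin n → F)) ∈ L i :=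
  ((H.loc i).rel x).2 ⟨cob_Z1' H i hx, fun p hp =>
    inv_cob_left (H.glob.loc i) (H.det_i i) (H.sm_i i) hx ((H.loc i).coc p hp).1⟩

theorem im_of_TT (H : KH S SD j χ inv tr A ε L) {r : ∀ i, D i → Fin n → F} {y : G → Fin n → F}
    (hy : y ∈ Str S j A L) (hr : IsR j L r y)
    (h : ∀ z ∈ Str S j A L, TT j tr A ε r y z = 0) :
    ∃ a, (a, y) ∈ Sel S j A ε L := by
  have hyZ : Z1 S (KT.act A) y := hy.1
  have hB : ∀ i, cobS (A.comp (j i)) ≤ Y2 (L i) := by
    rintro i x ⟨m, hm⟩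
    obtain ⟨a, ha⟩ := (H.loc i).cob m
    refine (mem_Y2 (L i)).2 ⟨a, ?_⟩
    have e : x = fun d => A.comp (j i) d *ᵥ m + m := funext hm
    rw [e]
    exact ha
  let φ : cocS S (A : G → Matrix (Fin n) (Fin n) F) →+ A0 :=
    AddMonoidHom.mk' (fun z => TT j tr A ε r y z.1) (fun z z' => TT_add_right r y z.1 z'.1)
  obtain ⟨s, hs1, hs2, hs3⟩ := exists_loc H (fun i => Y2 (L i)) hB φ (fun z hz =>
    h z.1 ⟨z.2, hz⟩)
  have hcoc := fun i => (H.loc i).coc _ (hr i)
  have hpp := H.pp (fun g h => ε g • (A g *ᵥ y h)) (fun i d => r i d - s i d) (obst H hyZ)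
    (fun i => sm1_two (hcoc i).2.1 (hs1 i).1 (fun u v => u - v))
    (fun i a b => by
      show r i a - s i a + A (j i a) *ᵥ (r i b - s i b) - (r i (a * b) - s i (a * b)) = _
      have h1 : s i (a * b) = s i a + A (j i a) *ᵥ s i b := (hs1 i).2 a b
      have h2 : r i (a * b) = r i a + A (j i a) *ᵥ r i b +
        ε (j i a) • (A (j i a) *ᵥ y (j i b)) := (hcoc i).2.2 a b
      show _ = ε (j i a) • (A (j i a) *ᵥ y (j i b))
      rw [mulVec_sub, h1, h2]
      have h3 := U_neg (ε (j i a) • (A (j i a) *ᵥ y (j i b)))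
      calc _ = -(ε (j i a) • (A (j i a) *ᵥ y (j i b))) := by abel
        _ = _ := h3)
    (fun x hx => by
      have h1 : (fun i => cup11 (KT.act fun d => A (j i d)) BU (fun d => r i d - s i d)
          (fun d => x (j i d))) = (fun i u v => hfT (ee (r i u) (A (j i u) *ᵥ x (j i v)))) -
          (fun i => cup11 (KT.act (A.comp (j i))) BU (s i) (fun d => x (j i d))) := by
        funext i u v
        show BU (r i u - s i u) (A (j i u) *ᵥ x (j i v)) =
          hfT (ee (r i u) (A (j i u) *ᵥ x (j i v))) - BU (s i u) (A (j i u) *ᵥ x (j i v))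
        rw [map_sub, AddMonoidHom.sub_apply]
        rfl
      have h2 : cup21 (KT.act A) BU (fun g h => ε g • (A g *ᵥ y h)) x =
          fun g h k => hfT (ε g • ee (y h) (A h *ᵥ x k)) := by
        funext g h k
        show hfT (ee (ε g • (A g *ᵥ y h)) (A (g * h) *ᵥ x k)) =
          hfT (ε g • ee (y h) (A h *ᵥ x k))
        rw [map_mul, ← mulVec_mulVec, smul_U, smul_F, ee_smul_left, ee_mulVec (H.det _)]
      rw [h2]
      have h3 : ((fun g h k => hfT (ε g • ee (y h) (A h *ᵥ x k))), fun i =>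
          cup11 (KT.act fun d => A (j i d)) BU (fun d => r i d - s i d) (fun d => x (j i d))) =
          ((fun g h k => hfT (ε g • ee (y h) (A h *ᵥ x k))),
            fun i u v => hfT (ee (r i u) (A (j i u) *ᵥ x (j i v)))) -
          ((0 : G → G → G → A0), fun i => cup11 (KT.act (A.comp (j i))) BU (s i)
            (fun d => x (j i d))) := by
        rw [h1]
        refine Prod.ext ?_ rfl
        exact (sub_zero _).symm
      have h4 : tr ((0 : G → G → G → A0), fun i => cup11 (KT.act (A.comp (j i))) BU (s i)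
          (fun d => x (j i d))) = TT j tr A ε r y x := by
        rw [tr_loc H (fun i => KR.cup11_Z2 (pair_BU (H.glob.loc i).char (H.det_i i) (H.sm_i i))
          (hs1 i) (H.res_Z1 i hx))]
        exact (hs3 ⟨x, hx⟩).symm
      refine (congrArg tr h3).trans ?_
      rw [map_sub, h4]
      exact sub_self _)
  obtain ⟨a, Yv, ha1, ha2, ha3⟩ := hpp
  refine ⟨a, hyZ, ha1, fun g h => ?_, fun i => ?_⟩
  · have h1 : ε g • (A g *ᵥ y h) = a g + A g *ᵥ a h - a (g * h) := congrFun (congrFun ha2 g) h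
    show a (g * h) = a g + A g *ᵥ a h + ε g • (A g *ᵥ y h)
    rw [h1, U_sub, ← add_assoc, U_add_self, zero_add]
  · have h1 : ∀ d, a (j i d) = r i d + s i d + (A (j i d) *ᵥ Yv i + Yv i) := by
      intro d
      have h2 : r i d - s i d = a (j i d) - d0 (KT.act fun d => A (j i d)) (Yv i) d := ha3 i d
      have h4 : d0 (KT.act fun d => A (j i d)) (Yv i) d = A (j i d) *ᵥ Yv i + Yv i :=
        d0_act (fun d => A (j i d)) (Yv i) d
      rw [h4, U_sub, U_sub] at h2
      rw [h2, add_assoc, U_add_self, add_zero]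
    have m1 := hr i
    have m2 : (s i, (0 : D i → Fin n → F)) ∈ L i := ((H.loc i).rel (s i)).2 ⟨hs1 i, fun p hp =>
      hs2 i p.2 ((mem_Y2 (L i)).2 ⟨p.1, hp⟩) ((H.loc i).coc p hp).1⟩
    have m3 := cob_mem H i (x := fun d => A (j i d) *ᵥ Yv i + Yv i) ⟨Yv i, fun d => rfl⟩
    have m4 := (L i).add_mem ((L i).add_mem m1 m2) m3
    convert m4 using 1
    refine Prod.ext ?_ ?_
    · funext d
      exact h1 d
    · show (fun d => y (j i d)) = (fun d => y (j i d)) + 0 + 0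
      rw [add_zero, add_zero]

theorem TT_of_im (H : KH S SD j χ inv tr A ε L) {r : ∀ i, D i → Fin n → F}
    {a y z : G → Fin n → F} (ha : (a, y) ∈ Sel S j A ε L) (hz : z ∈ Str S j A L)
    (hr : IsR j L r y) : TT j tr A ε r y z = 0 := by
  obtain ⟨hy, hsa, hlift, hL⟩ := ha
  dsimp only at hy hsa hlift hL
  have hzZ : Z1 S (KT.act A) z := hz.1
  rw [TT_indep H hr (r' := fun i d => a (j i d)) hL hz]
  have hsm : Sm2 S (fun g h => ee (a g) (A g *ᵥ z h)) := by
    obtain ⟨W, hW, h1⟩ := hsa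
    obtain ⟨W', hW', h2⟩ := hzZ.1
    obtain ⟨W'', hW'', h3⟩ := smooth_A H.sm
    refine ⟨W ⊓ (W' ⊓ W''), S.inf hW (S.inf hW' hW''), fun g h w hw w' hw' => ?_⟩
    beta_reduce
    rw [h1 g w hw.1, h2 h w' hw'.2.1, map_mul, h3 w hw.2.2, mul_one]
  have hloc : ∀ i, (fun u v => hfT (ee (a (j i u)) (A (j i u) *ᵥ z (j i v)) +
      ee (a (j i u)) (A (j i u) *ᵥ z (j i v)))) = fun _ _ => (0 : A0) := by
    intro i
    funext u v
    rw [map_add]
    exact hfT_two _
  have h1 := tr_eval H hsm (fun i u v => ee (a (j i u)) (A (j i u) *ᵥ z (j i v))) (fun i => by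
    rw [hloc i]
    exact zero_Z2)
  have h2 : TT j tr A ε (fun i d => a (j i d)) y z =
      tr (fun g h k => hfT (dF2 (fun g h => ee (a g) (A g *ᵥ z h)) g h k),
        fun i u v => hfT (ee (a (j i u)) (A (j i u) *ᵥ z (j i v)))) := by
    unfold TT
    congr 2
    funext g h k
    rw [leib_lift H.det hlift hzZ.2]
  rw [h2, h1]
  refine Finset.sum_eq_zero fun i _ => ?_
  rw [hloc i]
  exact inv_zero (H.glob.loc i)

end Pool.Agent.Work.MP_787500_nt.KI
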