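import Mathlib
import Pool.Agent.Work.MP_787500_nt.KI.KerK
import Pool.Agent.Work.MP_787500_nt.KT.RelC

/-!
# Module Wil (size M-L): the relaxed and the strict Selmer space

Model: KT/RelC (`locN`, `betaN`, `relN_iso`, `relN_max`, `rel_str`), now with ALL places. Let `P = Π i, cocS (SD i) (A.comp (j i))`, `C` the coboundaries, `beta x y = ∑ i, inv i (x i ∪ y i)` on `P`
(symmetric, radical `C`), `g : cocS S A → P` the restriction, `Λ = C ⊔ range g`. `Λ` is its own annihilator (reciprocity `H.glob.recip`, and `KerK.exists_loc` + `H.pp`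
as in `relN_max`). Let `R = Π R1 (L i)`, `Y = Π Y2 (L i)` (in `P`, both contain `C`). `R` is the annihilator of `Y` (`LKr.rel`), so
`dim R + dim Y = dim P + dim C`, `dim (Λ ⊓ R) + dim (Λ ⊔ Y) = dim P + dim C` (the annihilator of `Λ ⊓ R` is `Λ ⊔ Y`; `GP.card_perp` or
`LinearMap.BilinForm` on the quotient `P / C`), `2 dim Λ = dim P + dim C`, hence `2 dim (Λ ⊓ R) - 2 dim (Λ ⊓ Y) = dim R - dim Y`. The kernel of `g` is in both spaces, and
`Λ ⊓ R = C ⊔ g (Rel)`, `Λ ⊓ Y = C ⊔ g (Str)`, `C ⊓ g (Rel) = C ⊓ range g = C ⊓ g (Str)`.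
-/

set_option autoImplicit false
set_option linter.unusedSectionVars false

namespace Pool.Agent.Work.MP_787500_nt.KI

open Matrix
open Pool.Agent.Work.MP_787500_nt.GP (A0 hf hf_add hf_zero hf_two hf_neg smul_hf eq_hf hf_inj IsAct d0 d1
  d2 tw cup11 cup21 cup12 cup01 cup02 perpL card_perp)
open Pool.Agent.Work.MP_787500_nt.KR (FSys Sm1 Sm2 IsChar Smooth Z1 Z2 B2 LocH Pair LDual GlobH IsTr PP)

open Pool.Agent.Work.MP_787500_nt.KT hiding Str Rel Sel KH Ai IsP cc ff TT
open Pool.Agent.Work.MP_787500_nt.KS (hfT hfT_apply hfT_sq hfT_two hfT_neg smul_hfT hfT_nondeg hfT_smul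
  inv_zero zero_Z2 smul_F dF1 dF2 leib_chi rt rt_sq ext_factor ext_sum d2_hfT sm_eps sm1_one sm1_two
  zmod2_cases hfT_eps_sq hf_cup_Z2 exists_mul hfT_eq trace_trick sym_rank)

variable {F : Type*} [Field F] [Finite F] [CharP F 2] [Algebra (ZMod 2) F] {n : ℕ} [Sy F n]
  {G : Type*} [Group G] {S : FSys G} {I : Type*} [Fintype I] {D : I → Type*}
  [∀ i, Group (D i)] {SD : ∀ i, FSys (D i)} {j : ∀ i, D i →* G} {χ : G → ℤ_[2]}
  {inv : ∀ i, (D i → D i → A0) → A0} {tr : ((G → G → G → A0) × (∀ i, D i → D i → A0)) →+ A0}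
  {A : G →* Matrix (Fin n) (Fin n) F} {ε : G → ZMod 2}
  {L : ∀ i, Submodule F ((D i → Fin n → F) × (D i → Fin n → F))}

/-- the local cocycles at all places -/
private abbrev LocA (SD : ∀ i, FSys (D i)) (j : ∀ i, D i →* G)
    (A : G →* Matrix (Fin n) (Fin n) F) : Type _ :=
  ∀ i, cocS (SD i) (A.comp (j i) : D i → Matrix (Fin n) (Fin n) F)

/-- the families of local cocycles in given subspaces -/
private def locS (SD : ∀ i, FSys (D i)) (j : ∀ i, D i →* G) (A : G →* Matrix (Fin n) (Fin n) F)
    (W : ∀ i, Submodule F (D i → Fin n → F)) : Submodule F (LocA SD j A) where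
  carrier := {x | ∀ i, (x i).1 ∈ W i}
  add_mem' := fun h h' i => (W i).add_mem (h i) (h' i)
  zero_mem' := fun i => (W i).zero_mem
  smul_mem' := fun c _ h i => (W i).smul_mem c (h i)

private theorem finrank_locS (hfin : ∀ i, Finite (cocS (SD i)
    (A.comp (j i) : D i → Matrix (Fin n) (Fin n) F)))
    (W : ∀ i, Submodule F (D i → Fin n → F))
    (hW : ∀ i, W i ≤ cocS (SD i) (A.comp (j i) : D i → Matrix (Fin n) (Fin n) F)) :
    Module.finrank F (locS SD j A W) = ∑ i, Module.finrank F (W i) := by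
  have hf : ∀ i, Finite (W i) := fun i =>
    Finite.of_injective (Submodule.inclusion (hW i)) (Submodule.inclusion_injective (hW i))
  have hfd : ∀ i, Module.Finite F (W i) := fun i => Module.Finite.of_finite
  let e : locS SD j A W ≃ₗ[F] (∀ i, W i) :=
    { toFun := fun x i => ⟨(x.1 i).1, x.2 i⟩
      invFun := fun w => ⟨fun i => ⟨(w i).1, hW i (w i).2⟩, fun i => (w i).2⟩
      left_inv := fun _ => rfl
      right_inv := fun _ => rfl
      map_add' := fun _ _ => rfl
      map_smul' := fun _ _ => rfl }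
  rw [e.finrank_eq, Module.finrank_pi_fintype F]

/-- dimension count -/
private theorem count {V P : Type*} [AddCommGroup V] [Module F V] [AddCommGroup P] [Module F P]
    [FiniteDimensional F V] [FiniteDimensional F P] (g : V →ₗ[F] P) (C T : Submodule F P)
    (h : C ≤ T) :
    Module.finrank F ((C ⊔ LinearMap.range g) ⊓ T : Submodule F P) +
      Module.finrank F (C ⊓ LinearMap.range g : Submodule F P) +
      Module.finrank F (LinearMap.ker g) =
      Module.finrank F C + Module.finrank F (T.comap g) := by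
  have h1 : (C ⊔ LinearMap.range g) ⊓ T = C ⊔ (T.comap g).map g := by
    rw [sup_inf_assoc_of_le _ h, Submodule.map_comap_eq]
  have h2 : C ⊓ (T.comap g).map g = C ⊓ LinearMap.range g := by
    rw [Submodule.map_comap_eq, inf_comm (LinearMap.range g) T, ← inf_assoc, inf_eq_left.2 h]
  have h3 := Submodule.finrank_sup_add_finrank_inf_eq C ((T.comap g).map g)
  rw [h2, ← h1] at h3
  have h4 := LinearMap.finrank_range_add_finrank_ker (g.domRestrict (T.comap g))
  have h5 : LinearMap.range (g.domRestrict (T.comap g)) = (T.comap g).map g := by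
    ext x
    constructor
    · rintro ⟨z, rfl⟩
      exact ⟨z.1, z.2, rfl⟩
    · rintro ⟨z, hz, rfl⟩
      exact ⟨⟨z, hz⟩, rfl⟩
  have h6 : Module.finrank F (LinearMap.ker (g.domRestrict (T.comap g))) =
      Module.finrank F (LinearMap.ker g) := by
    have h7 : (LinearMap.ker (g.domRestrict (T.comap g))).map (T.comap g).subtype =
        LinearMap.ker g := by
      ext z
      rw [Submodule.mem_map]
      constructor
      · rintro ⟨w, hw, rfl⟩
        exact hw
      · intro hz
        refine ⟨⟨z, ?_⟩, hz, rfl⟩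
        rw [Submodule.mem_comap, LinearMap.mem_ker.1 hz]
        exact T.zero_mem
    rw [← h7, Submodule.finrank_map_subtype_eq]
  rw [h5, h6] at h4
  omega

/-- localization -/
private def resA (H : KH S SD j χ inv tr A ε L) :
    cocS S (A : G → Matrix (Fin n) (Fin n) F) →ₗ[F] LocA SD j A where
  toFun z i := ⟨fun d => z.1 (j i d), H.res_Z1 i z.2⟩
  map_add' _ _ := rfl
  map_smul' _ _ := rfl

/-- the sum of the local pairings -/
private noncomputable def betaA (H : KH S SD j χ inv tr A ε L) :
    LocA SD j A →+ LocA SD j A →+ A0 :=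
  AddMonoidHom.mk' (fun x => AddMonoidHom.mk' (fun y =>
      ∑ i, inv i (cup11 (KT.act (A.comp (j i))) BU (x i).1 (y i).1))
      (fun y y' => by
        rw [← Finset.sum_add_distrib]
        refine Finset.sum_congr rfl fun i _ => ?_
        exact inv_add_right (H.glob.loc i) (H.det_i i) (H.sm_i i) (x i).2 (y i).2 (y' i).2))
    (fun x x' => by
      refine DFunLike.ext _ _ fun y => ?_
      show (∑ i, inv i (cup11 (KT.act (A.comp (j i))) BU ((x + x') i).1 (y i).1)) =
        (∑ i, inv i (cup11 (KT.act (A.comp (j i))) BU (x i).1 (y i).1)) +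
        ∑ i, inv i (cup11 (KT.act (A.comp (j i))) BU (x' i).1 (y i).1)
      rw [← Finset.sum_add_distrib]
      refine Finset.sum_congr rfl fun i _ => ?_
      exact inv_add_left (H.glob.loc i) (H.det_i i) (H.sm_i i) (x i).2 (x' i).2 (y i).2)

private theorem betaA_apply (H : KH S SD j χ inv tr A ε L) (x y : LocA SD j A) :
    betaA H x y = ∑ i, inv i (cup11 (KT.act (A.comp (j i))) BU (x i).1 (y i).1) := rfl

private theorem betaA_symm (H : KH S SD j χ inv tr A ε L) (x y : LocA SD j A) :
    betaA H x y = betaA H y x := by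
  rw [betaA_apply, betaA_apply]
  exact Finset.sum_congr rfl fun i _ =>
    inv_symm (H.glob.loc i) (H.det_i i) (H.sm_i i) (x i).2 (y i).2

private theorem betaA_cob (H : KH S SD j χ inv tr A ε L) {x : LocA SD j A}
    (hx : x ∈ locS SD j A (fun i => cobS (A.comp (j i)))) (y : LocA SD j A) :
    betaA H x y = 0 := by
  rw [betaA_apply]
  exact Finset.sum_eq_zero fun i _ =>
    inv_cob_left (H.glob.loc i) (H.det_i i) (H.sm_i i) (hx i) (y i).2

open scoped Classical in
private theorem betaA_single (H : KH S SD j χ inv tr A ε L) (x : LocA SD j A) (i : I)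
    (y : cocS (SD i) (A.comp (j i) : D i → Matrix (Fin n) (Fin n) F)) :
    betaA H x (Pi.single i y) = inv i (cup11 (KT.act (A.comp (j i))) BU (x i).1 y.1) := by
  rw [betaA_apply, Finset.sum_eq_single i]
  · rw [Pi.single_eq_same]
  · intro i' _ hne
    rw [Pi.single_eq_of_ne hne]
    exact inv_cob_right (H.glob.loc i') (H.det_i i') (H.sm_i i') (x i').2
      ⟨0, fun g => by rw [mulVec_zero, add_zero]; rfl⟩
  · intro h
    exact absurd (Finset.mem_univ _) h

private theorem betaA_ker (H : KH S SD j χ inv tr A ε L) {x : LocA SD j A}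
    (hx : ∀ y, betaA H x y = 0) : x ∈ locS SD j A (fun i => cobS (A.comp (j i))) := by
  classical
  intro i
  obtain ⟨m, hm⟩ := (H.ld i).one (x i).1 (x i).2 (fun y hy => by
    rw [← betaA_single H x i ⟨y, hy⟩]
    exact hx _)
  exact ⟨m, fun g => by rw [hm, d0_act]⟩

private theorem resA_iso (H : KH S SD j χ inv tr A ε L)
    (z z' : cocS S (A : G → Matrix (Fin n) (Fin n) F)) : betaA H (resA H z) (resA H z') = 0 := by
  have P : Pair S χ (KT.act A) (KT.act A) (BU : (Fin n → F) →+ (Fin n → F) →+ A0) :=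
    pair_BU H.glob.char H.det H.sm
  exact H.glob.recip _ (KR.cup11_Z2 P z.2 z'.2)

private theorem resA_max (H : KH S SD j χ inv tr A ε L) {s : LocA SD j A}
    (hs : ∀ z, betaA H s (resA H z) = 0) :
    ∃ z, s - resA H z ∈ locS SD j A (fun i => cobS (A.comp (j i))) := by
  have hz0 : Z2 S (KT.act A) (fun _ _ => (0 : Fin n → F)) := by
    obtain ⟨W, hW⟩ := S.ex
    refine ⟨⟨W, hW, fun _ _ _ _ _ _ => rfl⟩, fun a b c => ?_⟩
    show A a *ᵥ 0 - 0 + 0 - 0 = 0
    rw [mulVec_zero]
    simp
  have hpp := H.pp (fun _ _ => 0) (fun i => (s i).1) hz0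
    (fun i => (s i).2.1)
    (fun i a b => by
      show (s i).1 a + A (j i a) *ᵥ (s i).1 b - (s i).1 (a * b) = 0
      have h2 : (s i).1 (a * b) = (s i).1 a + A (j i a) *ᵥ (s i).1 b := (s i).2.2 a b
      rw [h2, sub_self])
    (fun x hx => by
      have h1 : cup21 (KT.act A) BU (fun _ _ => (0 : Fin n → F)) x = 0 := by
        funext a b c
        show BU 0 _ = 0
        rw [map_zero]
        rfl
      have h2 : (cup21 (KT.act A) BU (fun _ _ => (0 : Fin n → F)) x,
          fun i => cup11 (KT.act fun d => A (j i d)) BU (s i).1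
          (fun d => x (j i d))) = ((0 : G → G → G → A0), fun i => cup11 (KT.act (A.comp (j i))) BU
          (s i).1 (fun d => x (j i d))) := Prod.ext h1 rfl
      refine (congrArg tr h2).trans ?_
      rw [tr_loc H (fun i => KR.cup11_Z2 (pair_BU (H.glob.loc i).char (H.det_i i) (H.sm_i i))
        (s i).2 (H.res_Z1 i hx))]
      exact hs ⟨x, hx⟩)
  obtain ⟨a, Yv, ha1, ha2, ha3⟩ := hpp
  have haZ : Z1 S (KT.act A) a := by
    refine ⟨ha1, fun g h => ?_⟩
    have h1 : (0 : Fin n → F) = a g + KT.act A g (a h) - a (g * h) := congrFun (congrFun ha2 g) h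
    exact (sub_eq_zero.1 h1.symm).symm
  refine ⟨⟨a, haZ⟩, fun i => ⟨Yv i, fun d => ?_⟩⟩
  have h2 : (s i).1 d = a (j i d) - d0 (KT.act fun d => A (j i d)) (Yv i) d := ha3 i d
  have h4 : d0 (KT.act fun d => A (j i d)) (Yv i) d = A (j i d) *ᵥ Yv i + Yv i :=
    d0_act (fun d => A (j i d)) (Yv i) d
  show (s i).1 d - a (j i d) = A (j i d) *ᵥ Yv i + Yv i
  rw [h2, h4, U_sub, U_sub]
  have h6 := U_add_self (a (j i d))
  calc _ = (a (j i d) + a (j i d)) + (A (j i d) *ᵥ Yv i + Yv i) := by abel
    _ = _ := by rw [h6, zero_add]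

set_option maxHeartbeats 1000000 in
open scoped Classical in
theorem rel_str (H : KH S SD j χ inv tr A ε L) :
    2 * Module.finrank F (Rel S j A L) + ∑ i, Module.finrank F (Y2 (L i)) =
      2 * Module.finrank F (Str S j A L) + ∑ i, Module.finrank F (R1 (L i)) := by
  have hf0 : Finite (cocS S (A : G → Matrix (Fin n) (Fin n) F)) := H.fin
  have hf3 : ∀ i, Finite (cocS (SD i) (A.comp (j i) : D i → Matrix (Fin n) (Fin n) F)) :=
    fun i => (H.ld i).fin
  have hfL : Finite (LocA SD j A) := Pi.finite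
  have hfd : FiniteDimensional F (LocA SD j A) := Module.Finite.of_finite
  have hfd0 : FiniteDimensional F (cocS S (A : G → Matrix (Fin n) (Fin n) F)) :=
    Module.Finite.of_finite
  -- the subspaces
  let C : Submodule F (LocA SD j A) := locS SD j A (fun i => cobS (A.comp (j i)))
  let R : Submodule F (LocA SD j A) := locS SD j A (fun i => R1 (L i))
  let Y : Submodule F (LocA SD j A) := locS SD j A (fun i => Y2 (L i))
  have hCR : C ≤ R := by
    intro x hx i
    refine ((H.loc i).rel _).2 ⟨(x i).2, fun p hp => ?_⟩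
    exact inv_cob_left (H.glob.loc i) (H.det_i i) (H.sm_i i) (hx i) ((H.loc i).coc p hp).1
  have hCY : C ≤ Y := by
    intro x hx i
    obtain ⟨m, hm⟩ := hx i
    obtain ⟨a, ha⟩ := (H.loc i).cob m
    refine (mem_Y2 (L i)).2 ⟨a, ?_⟩
    have h1 : (x i).1 = fun d => A.comp (j i) d *ᵥ m + m := funext hm
    rw [h1]
    exact ha
  let Λ : Submodule F (LocA SD j A) := C ⊔ LinearMap.range (resA H)
  have hΛ : ∀ x, x ∈ Λ ↔ ∃ z, x - resA H z ∈ C := by
    intro x
    rw [Submodule.mem_sup]
    constructor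
    · rintro ⟨c, hc, _, ⟨z, rfl⟩, rfl⟩
      exact ⟨z, by rwa [add_sub_cancel_right]⟩
    · rintro ⟨z, hz⟩
      exact ⟨_, hz, _, ⟨z, rfl⟩, sub_add_cancel _ _⟩
  have hpΛ : ∀ s, (∀ x ∈ Λ, betaA H x s = 0) ↔ s ∈ Λ := by
    intro s
    constructor
    · intro hs
      refine (hΛ s).2 (resA_max H fun z => ?_)
      rw [betaA_symm]
      exact hs (resA H z) ((hΛ _).2 ⟨z, by rw [sub_self]; exact C.zero_mem⟩)
    · intro hs x hx
      obtain ⟨z, hz⟩ := (hΛ s).1 hs
      obtain ⟨z', hz'⟩ := (hΛ x).1 hx
      have h1 : betaA H x s = betaA H (x - resA H z') s + betaA H (resA H z') s := by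
        rw [← AddMonoidHom.add_apply, ← map_add, sub_add_cancel]
      have h2 : betaA H (resA H z') s =
          betaA H (resA H z') (s - resA H z) + betaA H (resA H z') (resA H z) := by
        rw [← map_add, sub_add_cancel]
      rw [h1, betaA_cob H hz', zero_add, h2, betaA_symm, betaA_cob H hz, zero_add, resA_iso]
  have hpY : ∀ s, (∀ x ∈ Y, betaA H x s = 0) ↔ s ∈ R := by
    intro s
    constructor
    · intro hs i
      refine ((H.loc i).rel _).2 ⟨(s i).2, fun p hp => ?_⟩
      have h1 := hs (Pi.single i ⟨p.2, ((H.loc i).coc p hp).1⟩) (fun i' => by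
        by_cases hi : i' = i
        · subst hi
          rw [Pi.single_eq_same]
          exact (mem_Y2 _).2 ⟨p.1, hp⟩
        · rw [Pi.single_eq_of_ne hi]
          exact (Y2 (L i')).zero_mem)
      rw [betaA_symm, betaA_single] at h1
      exact h1
    · intro hs x hx
      rw [betaA_symm, betaA_apply]
      refine Finset.sum_eq_zero fun i _ => ?_
      obtain ⟨a, ha⟩ := (mem_Y2 _).1 (hx i)
      exact (((H.loc i).rel _).1 (hs i)).2 _ ha
  have hflip : (betaA H).flip = betaA H := by
    refine DFunLike.ext _ _ fun x => DFunLike.ext _ _ fun y => ?_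
    rw [AddMonoidHom.flip_apply, betaA_symm]
  have htop : perpL (betaA H).flip ⊤ = C.toAddSubgroup := by
    rw [hflip]
    ext x
    constructor
    · intro hx
      refine betaA_ker H fun y => ?_
      rw [betaA_symm]
      exact hx y trivial
    · intro hx y _
      rw [betaA_symm]
      exact betaA_cob H hx y
  have hc1 : 1 < Nat.card F := Finite.one_lt_card
  have hpow : ∀ N : Submodule F (LocA SD j A),
      Nat.card N.toAddSubgroup = Nat.card F ^ Module.finrank F N := fun N =>
    Module.natCard_eq_pow_finrank (K := F) (V := N)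
  have hpow' : Nat.card (LocA SD j A) = Nat.card F ^ Module.finrank F (LocA SD j A) :=
    Module.natCard_eq_pow_finrank
  have key : ∀ N N' : Submodule F (LocA SD j A), C ≤ N →
      (∀ s, (∀ x ∈ N, betaA H x s = 0) ↔ s ∈ N') →
      Module.finrank F N + Module.finrank F N' =
        Module.finrank F (LocA SD j A) + Module.finrank F C := by
    intro N N' hN hN'
    have h1 : perpL (betaA H) N.toAddSubgroup = N'.toAddSubgroup := by
      ext s
      exact hN' s
    have hcard := card_perp (betaA H) N.toAddSubgroup fun a ha => hN (betaA_ker H ha)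
    rw [h1, htop, hpow N, hpow N', hpow C, hpow', ← pow_add, ← pow_add] at hcard
    exact Nat.pow_right_injective hc1 hcard
  have k1 := key Λ Λ le_sup_left hpΛ
  have k2 := key Y R hCY hpY
  have k3 := key (Λ ⊔ Y) (Λ ⊓ R) (hCY.trans le_sup_right) (fun s => by
    rw [Submodule.mem_inf, ← hpΛ, ← hpY]
    constructor
    · intro h
      exact ⟨fun x hx => h x (Submodule.mem_sup_left hx), fun x hx => h x (Submodule.mem_sup_right hx)⟩
    · rintro ⟨h, h'⟩ x hx
      obtain ⟨u, hu, v, hv, rfl⟩ := Submodule.mem_sup.1 hx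
      have h1 : betaA H (u + v) s = betaA H u s + betaA H v s := by
        rw [AddMonoidHom.map_add, AddMonoidHom.add_apply]
      rw [h1, h u hu, h' v hv, add_zero])
  have k4 := Submodule.finrank_sup_add_finrank_inf_eq Λ Y
  have k5 := count (resA H) C R hCR
  have k6 := count (resA H) C Y hCY
  have k7 : Module.finrank F (R.comap (resA H)) = Module.finrank F (Rel S j A L) := by
    have e : (R.comap (resA H)).map (cocS S (A : G → Matrix (Fin n) (Fin n) F)).subtype =
        Rel S j A L := by
      ext z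
      rw [Submodule.mem_map]
      constructor
      · rintro ⟨w, hw, rfl⟩
        exact ⟨w.2, hw⟩
      · rintro ⟨h, h'⟩
        exact ⟨⟨z, h⟩, h', rfl⟩
    rw [← e, Submodule.finrank_map_subtype_eq]
  have k8 : Module.finrank F (Y.comap (resA H)) = Module.finrank F (Str S j A L) := by
    have e : (Y.comap (resA H)).map (cocS S (A : G → Matrix (Fin n) (Fin n) F)).subtype =
        Str S j A L := by
      ext z
      rw [Submodule.mem_map]
      constructor
      · rintro ⟨w, hw, rfl⟩
        exact ⟨w.2, hw⟩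
      · rintro ⟨h, h'⟩
        exact ⟨⟨z, h⟩, h', rfl⟩
    rw [← e, Submodule.finrank_map_subtype_eq]
  have k9 : Module.finrank F R = ∑ i, Module.finrank F (R1 (L i)) :=
    finrank_locS hf3 _ fun i r hr => (((H.loc i).rel r).1 hr).1
  have k10 : Module.finrank F Y = ∑ i, Module.finrank F (Y2 (L i)) :=
    finrank_locS hf3 _ fun i y hy => by
      obtain ⟨a, ha⟩ := (mem_Y2 _).1 hy
      exact ((H.loc i).coc _ ha).1
  rw [← k9, ← k10, ← k7, ← k8]
  have k5' : Module.finrank F (Λ ⊓ R : Submodule F (LocA SD j A)) +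
      Module.finrank F (C ⊓ LinearMap.range (resA H) : Submodule F (LocA SD j A)) +
      Module.finrank F (LinearMap.ker (resA H)) =
      Module.finrank F C + Module.finrank F (R.comap (resA H)) := k5
  have k6' : Module.finrank F (Λ ⊓ Y : Submodule F (LocA SD j A)) +
      Module.finrank F (C ⊓ LinearMap.range (resA H) : Submodule F (LocA SD j A)) +
      Module.finrank F (LinearMap.ker (resA H)) =
      Module.finrank F C + Module.finrank F (Y.comap (resA H)) := k6
  clear k5 k6
  omega

end Pool.Agent.Work.MP_787500_nt.KI
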