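import Mathlib
import Pool.Agent.Work.MP_787500_nt.KI.Defs
import Pool.Agent.Work.MP_787500_nt.QS.Th
import Pool.Agent.Work.MP_787500_nt.QS.KQ
import Pool.Agent.Work.MP_787500_nt.KS.V10

/-!
# Module OfLag (size M-L): Lagrangian conditions for `U × U` give conditions for pairs

The module `U × U` of QS/KQ for the action `KT.act (A.comp e)` of `G` on `U = F ^ n` and the form `b (x, x') = BU x (A c x')`. The map `(x, x') ↦ (a, y) = (x, x + A c x')` transforms the action `ac2` into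
`σ (a, y) = (A σ (a + ε σ y), A σ y)`, `ε = ep e`. So a cocycle `x` of `U × U` is a pair `(a, y)`, `y` a cocycle, `IsLift A ε a y`.
* `coc`: `hY.coc`.
* pairing: `pB (be2 b)` of `(a, y)(s)` and `s (a', y')(t)` is `ee (a s) (A s y' t) + ee (y s) (A s (a' t + ε s • y' t))` (after `hfT`).
* `rel`: for `(r, 0)` the pairing with `(a', y')` is `ee (r s) (A s y' t)`: `hY.self`.
* `cob`: `Lag.cob` (QS/Th) for `m = (0, A c m)`.
* `symm`: `hY.self` (isotropy) for `p`, `q`, and the coboundary of `ee (p.2) (q.1)`: `d (s, t) = ee (p2 s) (A q1 t) + ε ee (p2 s) (A q2 t) + ee (A p2 t) (q1 s) + ε ee (p2 t) (q2 t)`.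
* `diag`: `hY.iso α` for `p`: `Zq` is (after `hfT`) `α (ee (a s) (A s a t) + ee (a s) (A s y t) + ε ee (a s) (A s y t) + ε ee (a t) (y t))`; add the coboundary of `α qq (a)`:
  it becomes `α (ee (a s) (A s y t) + ε qq (y t) + ee (kk (A s)) (A s (a t + ε y t)) ^ 2)`, and `hfT (α z ^ 2) = hfT (rt α * z)`; by the isotropy for `(a_k, k)` and `p`:
  `inv (rt α * ee (k s) (A s (a t + ε y t))) = inv (rt α * ee (a_k s) (A s y t))` (`rt α • p ∈ L`).
* `kmem`: first, for `y ∈ Z1` orthogonal to `R1 L` there is `a` with `(a, y) ∈ L`: (1) `LDual.two` (`F = ε ∪ y`; for `z` fixed, `inv (z ∪ ε ∪ y) = inv ((ε z) ∪ y)` and `(ε z, 0)` is the cocycle of the coboundary of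
  `m = (0, A c z)`, so in `L`) gives a lift `a₀`; (2) the functional `(a', y') ↦ B ((a₀, y), (a', y'))` on `L` factors through `Y2 L` (`y` is orthogonal to `R1 L`) and vanishes on the coboundaries; extend it to
  `Z1` (`KS.ext_factor`) and represent it by `r` (`KT.local_rep`): `(a₀ + r, y)` is orthogonal to `L`: `hY.self`. Second, `k` is orthogonal to `R1 L`: `KT.inv_kc`: `inv (k ∪ r) = inv (r ∪ r)`, and for
  `(r, 0) ∈ L`: `hY.iso 1`: `Zq` is `ee (r s) (A s r t)`.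
* `sel_LY`: the map on global cocycles.
-/

set_option autoImplicit false
set_option linter.unusedSectionVars false

namespace Pool.Agent.Work.MP_787500_nt.KI

open Matrix
open Pool.Agent.Work.MP_787500_nt.GP (A0 hf hf_add hf_zero hf_two hf_neg smul_hf eq_hf hf_inj IsAct d0 d1
  d2 tw cup11 cup21 cup12 cup01 cup02)
open Pool.Agent.Work.MP_787500_nt.KR (FSys Sm1 Sm2 IsChar Smooth Z1 Z2 B2 LocH Pair LDual GlobH IsTr PP)

open Pool.Agent.Work.MP_787500_nt.KT hiding Str Rel Sel KH Ai IsP cc ff TT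
open Pool.Agent.Work.MP_787500_nt.KS (hfT hfT_apply hfT_sq hfT_two hfT_neg smul_hfT hfT_nondeg hfT_smul
  inv_zero zero_Z2 smul_F dF1 dF2 leib_chi rt rt_sq ext_factor ext_sum d2_hfT sm_eps sm1_one sm1_two
  zmod2_cases hfT_eps_sq hf_cup_Z2 exists_mul hfT_eq trace_trick sym_rank)

open Pool.Agent.Work.MP_787500_nt.QS (Two ac2 be2 la2 Lag HQ selQ QM pB Zq)
open Pool.Agent.Work.MP_787500_nt.KS (ep)

variable {F : Type*} [Field F] [Finite F] [CharP F 2] [Algebra (ZMod 2) F] {n : ℕ} [Sy F n]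

section

variable {G Γ : Type*} [Group G] [Group Γ] {e : G →* Γ} {c : Γ} {κ : G →* G}

/-- the form on `U` over the quadratic field -/
noncomputable def bC (A : Γ →* Matrix (Fin n) (Fin n) F) (c : Γ) :
    (Fin n → F) →+ (Fin n → F) →+ A0 :=
  AddMonoidHom.mk' (fun x => (BU x).comp
    (AddMonoidHom.mk' (fun y => A c *ᵥ y) (fun y z => mulVec_add _ _ _)))
    (fun x y => by
      refine DFunLike.ext _ _ fun z => ?_
      show BU (x + y) (A c *ᵥ z) = BU x (A c *ᵥ z) + BU y (A c *ᵥ z)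
      rw [map_add, AddMonoidHom.add_apply])

theorem bC_apply (A : Γ →* Matrix (Fin n) (Fin n) F) (c : Γ) (x y : Fin n → F) :
    bC A c x y = hfT (ee x (A c *ᵥ y)) := rfl

/-- the condition for pairs of a condition for `U × U` -/
def LY (A : Γ →* Matrix (Fin n) (Fin n) F) (c : Γ) {P : Type*}
    (Y : Submodule F (P → (Fin n → F) × (Fin n → F))) :
    Submodule F ((P → Fin n → F) × (P → Fin n → F)) where
  carrier := {p | (fun d => (p.1 d, A c *ᵥ (p.1 d + p.2 d))) ∈ Y}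
  add_mem' := by
    intro p q hp hq
    have h := Y.add_mem hp hq
    have e1 : (fun d => ((p + q).1 d, A c *ᵥ ((p + q).1 d + (p + q).2 d))) =
        (fun d => (p.1 d, A c *ᵥ (p.1 d + p.2 d))) + fun d => (q.1 d, A c *ᵥ (q.1 d + q.2 d)) := by
      funext d
      refine Prod.ext rfl ?_
      show A c *ᵥ (p.1 d + q.1 d + (p.2 d + q.2 d)) =
        A c *ᵥ (p.1 d + p.2 d) + A c *ᵥ (q.1 d + q.2 d)
      rw [← mulVec_add]
      congr 1
      abel
    show (fun d => ((p + q).1 d, A c *ᵥ ((p + q).1 d + (p + q).2 d))) ∈ Y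
    rw [e1]
    exact h
  zero_mem' := by
    have e1 : (fun _ : P => ((0 : Fin n → F), A c *ᵥ ((0 : Fin n → F) + 0))) = 0 := by
      funext d
      refine Prod.ext rfl ?_
      show A c *ᵥ ((0 : Fin n → F) + 0) = 0
      rw [add_zero, mulVec_zero]
    show (fun _ : P => ((0 : Fin n → F), A c *ᵥ ((0 : Fin n → F) + 0))) ∈ Y
    rw [e1]
    exact Y.zero_mem
  smul_mem' := by
    intro a p hp
    have h := Y.smul_mem a hp
    have e1 : (fun d => ((a • p).1 d, A c *ᵥ ((a • p).1 d + (a • p).2 d))) =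
        a • fun d => (p.1 d, A c *ᵥ (p.1 d + p.2 d)) := by
      funext d
      refine Prod.ext rfl ?_
      show A c *ᵥ (a • p.1 d + a • p.2 d) = a • (A c *ᵥ (p.1 d + p.2 d))
      rw [← smul_add, mulVec_smul]
    show (fun d => ((a • p).1 d, A c *ᵥ ((a • p).1 d + (a • p).2 d))) ∈ Y
    rw [e1]
    exact h

theorem mem_LY {A : Γ →* Matrix (Fin n) (Fin n) F} {P : Type*}
    {Y : Submodule F (P → (Fin n → F) × (Fin n → F))} {p : (P → Fin n → F) × (P → Fin n → F)} :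
    p ∈ LY A c Y ↔ (fun d => (p.1 d, A c *ᵥ (p.1 d + p.2 d))) ∈ Y := Iff.rfl

variable {A : Γ →* Matrix (Fin n) (Fin n) F}

/-! ## Coordinates -/

/-- the change of coordinates -/
private def cv (A : Γ →* Matrix (Fin n) (Fin n) F) (c : Γ) (p : (Fin n → F) × (Fin n → F)) :
    (Fin n → F) × (Fin n → F) := (p.1, A c *ᵥ (p.1 + p.2))

private theorem cc_vec (X : Two e c κ) (m : Fin n → F) : A c *ᵥ (A c *ᵥ m) = m := by
  rw [mulVec_mulVec, ← map_mul, X.cc, map_one, one_mulVec]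

private theorem ep_e' (g : G) : ep e (e g) = 0 := if_pos ⟨g, rfl⟩

private theorem ep_ec' (X : Two e c κ) (g : G) : ep e (e g * c) = 1 :=
  if_neg fun ⟨g', h⟩ => X.out g g' h

private theorem cv_add (p q : (Fin n → F) × (Fin n → F)) : cv A c (p + q) = cv A c p + cv A c q := by
  refine Prod.ext rfl ?_
  show A c *ᵥ (p.1 + q.1 + (p.2 + q.2)) = A c *ᵥ (p.1 + p.2) + A c *ᵥ (q.1 + q.2)
  rw [← mulVec_add]
  congr 1
  abel

private theorem cv_smul (a : F) (p : (Fin n → F) × (Fin n → F)) : cv A c (a • p) = a • cv A c p := by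
  refine Prod.ext rfl ?_
  show A c *ᵥ (a • p.1 + a • p.2) = a • (A c *ᵥ (p.1 + p.2))
  rw [← smul_add, mulVec_smul]

private theorem cv_inj (X : Two e c κ) {p q : (Fin n → F) × (Fin n → F)} (h : cv A c p = cv A c q) :
    p = q := by
  have h1 : (cv A c p).1 = (cv A c q).1 := congrArg Prod.fst h
  have h2 : (cv A c p).2 = (cv A c q).2 := congrArg Prod.snd h
  change p.1 = q.1 at h1
  change A c *ᵥ (p.1 + p.2) = A c *ᵥ (q.1 + q.2) at h2
  have h3 := congrArg (fun m => A c *ᵥ m) h2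
  beta_reduce at h3
  rw [cc_vec X, cc_vec X, h1] at h3
  exact Prod.ext h1 (add_left_cancel h3)

private theorem cv_surj (X : Two e c κ) (v : (Fin n → F) × (Fin n → F)) :
    cv A c (v.1, v.1 + A c *ᵥ v.2) = v := by
  refine Prod.ext rfl ?_
  show A c *ᵥ (v.1 + (v.1 + A c *ᵥ v.2)) = v.2
  rw [← add_assoc, U_add_self, zero_add, cc_vec X]

private theorem ac_cv (X : Two e c κ) (σ : Γ) (p : (Fin n → F) × (Fin n → F)) :
    ac2 e c κ (KT.act (A.comp e)) σ (cv A c p) =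
      cv A c (A σ *ᵥ (p.1 + ep e σ • p.2), A σ *ᵥ p.2) := by
  rcases X.cases σ with ⟨g, rfl⟩ | ⟨g, rfl⟩
  · rw [X.ac_e, ep_e', zero_smul, add_zero]
    refine Prod.ext rfl ?_
    show A (e (κ g)) *ᵥ (A c *ᵥ (p.1 + p.2)) = A c *ᵥ (A (e g) *ᵥ p.1 + A (e g) *ᵥ p.2)
    rw [← mulVec_add, X.kap, map_mul, map_mul, ← mulVec_mulVec, ← mulVec_mulVec, cc_vec X]
  · rw [X.ac_ec, ep_ec' X, one_smul]
    refine Prod.ext ?_ ?_
    · show A (e g) *ᵥ (A c *ᵥ (p.1 + p.2)) = A (e g * c) *ᵥ (p.1 + p.2)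
      rw [mulVec_mulVec, map_mul]
    · show A (e (κ g)) *ᵥ p.1 = A c *ᵥ (A (e g * c) *ᵥ (p.1 + p.2) + A (e g * c) *ᵥ p.2)
      rw [← mulVec_add, add_assoc, U_add_self, add_zero, X.kap, map_mul, map_mul, map_mul,
        ← mulVec_mulVec, ← mulVec_mulVec, ← mulVec_mulVec]

private theorem be_cv (X : Two e c κ) (p q : (Fin n → F) × (Fin n → F)) :
    be2 (bC A c) (cv A c p) (cv A c q) = hfT (ee p.1 (q.1 + q.2)) := by
  rw [QS.be2_apply, bC_apply]
  show hfT (ee p.1 (A c *ᵥ (A c *ᵥ (q.1 + q.2)))) = _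
  rw [cc_vec X]

private theorem pB_cv (X : Two e c κ) (p q : (Fin n → F) × (Fin n → F)) :
    pB (be2 (bC A c)) (cv A c p) (cv A c q) = hfT (ee p.1 q.2 + ee p.2 q.1) := by
  rw [QS.pB_apply, be_cv X, be_cv X, sub_eq_add_neg, hfT_neg, ← map_add]
  congr 1
  simp only [ee_add_right, ee_comm q.1 p.1, ee_comm q.1 p.2]
  linear_combination (norm := (ring_nf; reduce_mod_char!))

private theorem la_cv (X : Two e c κ) (hsp : ∀ g, IsSp (A g)) (α : F) (σ : Γ)
    (p : (Fin n → F) × (Fin n → F)) :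
    la2 e c κ (KT.act (A.comp e)) (bC A c) α σ (cv A c p) = hfT (ep e σ • (α * ee p.1 p.2)) := by
  rcases X.cases σ with ⟨g, rfl⟩ | ⟨g, rfl⟩
  · rw [X.la_e, ep_e', zero_smul, map_zero]
  · have h0 : ¬∃ g', e g' = e g * c := fun ⟨g', h⟩ => X.out g g' h
    unfold la2
    rw [if_neg h0, ac_cv X, ← cv_smul, be_cv X, ep_ec' X, one_smul, one_smul]
    congr 1
    show ee (α • (A (e g * c) *ᵥ (p.1 + p.2))) (A (e g * c) *ᵥ (p.1 + p.2) + A (e g * c) *ᵥ p.2) = _
    rw [ee_smul_left, ← mulVec_add, ee_mulVec (hsp _)]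
    simp only [ee_add_left, ee_add_right, ee_self, zero_add, add_zero]

/-! ## The quadratic module -/

section local_place

variable {P : Type*} [Group P] {T : FSys P} {jp : P →* Γ} {χq : Γ → ℤ_[2]} {iv : (P → P → A0) → A0}

private theorem ep_jp (hes : Sm1 T fun d => ep e (jp d)) : ∃ W, T.mem W ∧ ∀ w ∈ W, ep e (jp w) = 0 := by
  obtain ⟨W, hW, h1⟩ := hes
  refine ⟨W, hW, fun w hw => ?_⟩
  have h2 : ep e (jp (1 * w)) = ep e (jp 1) := h1 1 w hw
  rw [one_mul, map_one, ← map_one e, ep_e'] at h2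
  exact h2

private theorem ep_mul' (X : Two e c κ) (σ τ : Γ) : ep e (σ * τ) = ep e σ + ep e τ := by
  rcases X.cases σ with ⟨g, rfl⟩ | ⟨g, rfl⟩ <;> rcases X.cases τ with ⟨k, rfl⟩ | ⟨k, rfl⟩
  · rw [← map_mul, ep_e', ep_e', ep_e', add_zero]
  · rw [← mul_assoc, ← map_mul, ep_ec' X, ep_e', ep_ec' X, zero_add]
  · have h2 : e g * c * e k = e (g * κ k) * c := by
      rw [map_mul, X.kap]
      calc e g * c * e k = e g * c * e k * (c * c) := by rw [X.cc, mul_one]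
        _ = e g * (c * e k * c) * c := by group
    rw [h2, ep_ec' X, ep_ec' X, ep_e', add_zero]
  · have h2 : e g * c * (e k * c) = e (g * κ k) := by
      rw [map_mul, X.kap]
      group
    rw [h2, ep_ec' X, ep_ec' X, ep_e']
    decide

private theorem qm_loc (X : Two e c κ) (hχ : IsChar T fun d => χq (jp d)) (hsp : ∀ g, IsSp (A g))
    (hsm : Smooth T (KT.act (A.comp jp))) (hes : Sm1 T fun d => ep e (jp d)) :
    QM T (fun d => χq (jp d)) F (fun d => ac2 e c κ (KT.act (A.comp e)) (jp d)) (be2 (bC A c))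
      (fun (a : F) d => la2 e c κ (KT.act (A.comp e)) (bC A c) a (jp d)) where
  act := (X.act (isAct_act (A.comp e))).comp jp
  lin g a m := X.lin (fun g a m => mulVec_smul (A (e g)) a m) (jp g) a m
  sm := by
    obtain ⟨W, hW, h1⟩ := smooth_A hsm
    obtain ⟨W', hW', h2⟩ := ep_jp (e := e) hes
    refine ⟨W ⊓ W', T.inf hW hW', fun w hw v => ?_⟩
    have h3 : A (jp w) = 1 := h1 w hw.1
    beta_reduce
    rw [← cv_surj (A := A) X v, ac_cv X, h2 w hw.2, h3, zero_smul, add_zero, one_mulVec, one_mulVec]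
  bal a v w := by
    rw [QS.be2_apply, QS.be2_apply, bC_apply, bC_apply]
    show hfT (ee (a • v.1) (A c *ᵥ w.2)) = hfT (ee v.1 (A c *ᵥ (a • w.2)))
    rw [mulVec_smul, ee_smul_left, ee_smul_right]
  quad a g v w := by
    beta_reduce
    rw [← cv_surj (A := A) X v, ← cv_surj (A := A) X w]
    generalize ((v.1, v.1 + A c *ᵥ v.2) : (Fin n → F) × (Fin n → F)) = p
    generalize ((w.1, w.1 + A c *ᵥ w.2) : (Fin n → F) × (Fin n → F)) = q
    rw [← cv_add, la_cv X hsp, la_cv X hsp, la_cv X hsp, ac_cv X, ac_cv X, ← cv_smul, ← cv_smul,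
      be_cv X, be_cv X, smul_hfT (hχ.odd g), sub_eq_add_neg, hfT_neg, ← map_add, ← map_add, ← map_add]
    congr 1
    show ep e (jp g) • (a * ee (p.1 + q.1) (p.2 + q.2)) = ep e (jp g) • (a * ee p.1 p.2) +
      ep e (jp g) • (a * ee q.1 q.2) + (ee (a • (A (jp g) *ᵥ (p.1 + ep e (jp g) • p.2)))
        (A (jp g) *ᵥ (q.1 + ep e (jp g) • q.2) + A (jp g) *ᵥ q.2) + ee (a • p.1) (q.1 + q.2))
    rw [← mulVec_add, ee_smul_left, ee_mulVec (hsp _), ee_smul_left]
    rcases zmod2_cases (ep e (jp g)) with h | h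
    · simp only [h, zero_smul, zero_add, add_zero]
      linear_combination (norm := (ring_nf; reduce_mod_char!))
    · simp only [h, one_smul, ee_add_left, ee_add_right, ee_comm p.2 p.1, ee_comm q.1 p.1,
        ee_comm q.2 p.1, ee_comm q.1 p.2, ee_comm q.2 p.2, ee_comm q.2 q.1]
      linear_combination (norm := (ring_nf; reduce_mod_char!))
  coc a g h v := by
    beta_reduce
    rw [← cv_surj (A := A) X v]
    generalize ((v.1, v.1 + A c *ᵥ v.2) : (Fin n → F) × (Fin n → F)) = p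
    rw [la_cv X hsp, ac_cv X, la_cv X hsp, la_cv X hsp, smul_hfT (hχ.odd g), ← map_add, map_mul,
      ep_mul' X]
    congr 1
    show (ep e (jp g) + ep e (jp h)) • (a * ee p.1 p.2) = ep e (jp h) • (a * ee p.1 p.2) +
      ep e (jp g) • (a * ee (A (jp h) *ᵥ (p.1 + ep e (jp h) • p.2)) (A (jp h) *ᵥ p.2))
    rw [ee_mulVec (hsp _), ee_add_left, add_smul]
    have h1 : ee (ep e (jp h) • p.2) p.2 = 0 := by
      rw [smul_U, ee_smul_left, ee_self, mul_zero]
    rw [h1, add_zero, add_comm]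
  lsm a := by
    obtain ⟨W', hW', h2⟩ := ep_jp (e := e) hes
    refine ⟨W', hW', fun w hw v => ?_⟩
    beta_reduce
    rw [← cv_surj (A := A) X v, la_cv X hsp, h2 w hw, zero_smul, map_zero]
  nd v hv := by
    rw [← cv_surj (A := A) X v] at hv ⊢
    generalize ((v.1, v.1 + A c *ᵥ v.2) : (Fin n → F) × (Fin n → F)) = p at hv ⊢
    have h1 : p.1 = 0 := by
      refine BU_nondeg fun y => ?_
      have h4 := hv (cv A c (0, y))
      rw [pB_cv X] at h4
      have h5 : hfT (ee p.1 y + ee p.2 (0 : Fin n → F)) = 0 := h4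
      rw [ee_zero_right, add_zero] at h5
      exact h5
    have h2 : p.2 = 0 := by
      refine BU_nondeg fun y => ?_
      have h4 := hv (cv A c (y, 0))
      rw [pB_cv X] at h4
      have h5 : hfT (ee p.1 (0 : Fin n → F) + ee p.2 y) = 0 := h4
      rw [ee_zero_right, zero_add] at h5
      exact h5
    have h3 : p = 0 := Prod.ext h1 h2
    rw [h3]
    refine Prod.ext rfl ?_
    show A c *ᵥ ((0 : Fin n → F) + 0) = 0
    rw [add_zero, mulVec_zero]

/-! ## Cocycles -/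

private theorem cup_cv (X : Two e c κ) (p q : (P → Fin n → F) × (P → Fin n → F)) (s t : P) :
    cup11 (fun d => ac2 e c κ (KT.act (A.comp e)) (jp d)) (pB (be2 (bC A c)))
      (fun d => cv A c (p.1 d, p.2 d)) (fun d => cv A c (q.1 d, q.2 d)) s t =
    hfT (ee (p.1 s) (A (jp s) *ᵥ q.2 t) +
      ee (p.2 s) (A (jp s) *ᵥ (q.1 t + ep e (jp s) • q.2 t))) := by
  show pB (be2 (bC A c)) (cv A c (p.1 s, p.2 s))
    (ac2 e c κ (KT.act (A.comp e)) (jp s) (cv A c (q.1 t, q.2 t))) = _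
  rw [ac_cv X, pB_cv X]

private theorem Zq_cv (X : Two e c κ) (hsp : ∀ g, IsSp (A g)) (α : F)
    (p : (P → Fin n → F) × (P → Fin n → F)) (s t : P) :
    Zq (fun d => ac2 e c κ (KT.act (A.comp e)) (jp d)) (be2 (bC A c))
      (fun (a : F) d => la2 e c κ (KT.act (A.comp e)) (bC A c) a (jp d)) α
      (fun d => cv A c (p.1 d, p.2 d)) s t =
    hfT (α * (ee (p.1 s) (A (jp s) *ᵥ p.1 t) + ee (p.1 s) (A (jp s) *ᵥ p.2 t) +
      ep e (jp s) • ee (p.1 s) (A (jp s) *ᵥ p.2 t)) +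
      ep e (jp s) • (α * ee (p.1 t) (p.2 t))) := by
  show be2 (bC A c) (α • cv A c (p.1 s, p.2 s))
    (ac2 e c κ (KT.act (A.comp e)) (jp s) (cv A c (p.1 t, p.2 t))) +
    la2 e c κ (KT.act (A.comp e)) (bC A c) α (jp s) (cv A c (p.1 t, p.2 t)) = _
  rw [← cv_smul, ac_cv X, be_cv X, la_cv X hsp, ← map_add]
  congr 1
  show ee (α • p.1 s) (A (jp s) *ᵥ (p.1 t + ep e (jp s) • p.2 t) + A (jp s) *ᵥ p.2 t) +
    ep e (jp s) • (α * ee (p.1 t) (p.2 t)) = _
  rw [ee_smul_left, mulVec_add, ee_add_right, ee_add_right, smul_U (ep e (jp s)) (p.2 t), mulVec_smul,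
    ee_smul_right, smul_F (ep e (jp s)) (ee (p.1 s) (A (jp s) *ᵥ p.2 t))]
  ring

private theorem Z1_cv (X : Two e c κ) (p : (P → Fin n → F) × (P → Fin n → F)) :
    Z1 T (fun d => ac2 e c κ (KT.act (A.comp e)) (jp d)) (fun d => cv A c (p.1 d, p.2 d)) ↔
      Z1 T (KT.act (A.comp jp)) p.2 ∧ Sm1 T p.1 ∧
        IsLift (A.comp jp : P → Matrix (Fin n) (Fin n) F) (fun d => ep e (jp d)) p.1 p.2 := by
  have key : ∀ s t, (fun d => cv A c (p.1 d, p.2 d)) (s * t) =
      (fun d => cv A c (p.1 d, p.2 d)) s + ac2 e c κ (KT.act (A.comp e)) (jp s)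
        ((fun d => cv A c (p.1 d, p.2 d)) t) ↔
      (p.1 (s * t) = p.1 s + A (jp s) *ᵥ (p.1 t + ep e (jp s) • p.2 t) ∧
        p.2 (s * t) = p.2 s + A (jp s) *ᵥ p.2 t) := by
    intro s t
    beta_reduce
    rw [ac_cv X, ← cv_add]
    constructor
    · intro h
      have h1 := cv_inj X h
      exact ⟨congrArg Prod.fst h1, congrArg Prod.snd h1⟩
    · rintro ⟨h1, h2⟩
      exact congrArg (cv A c) (Prod.ext h1 h2)
  have hl : ∀ s t, p.1 s + A (jp s) *ᵥ (p.1 t + ep e (jp s) • p.2 t) =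
      p.1 s + A (jp s) *ᵥ p.1 t + ep e (jp s) • (A (jp s) *ᵥ p.2 t) := by
    intro s t
    rw [mulVec_add, smul_U (ep e (jp s)) (p.2 t), mulVec_smul, smul_U (ep e (jp s)) (A (jp s) *ᵥ p.2 t),
      add_assoc]
  constructor
  · rintro ⟨⟨W, hW, h1⟩, h2⟩
    have h3 : ∀ g, ∀ w ∈ W, p.1 (g * w) = p.1 g ∧ p.2 (g * w) = p.2 g := by
      intro g w hw
      have h4 := cv_inj X (h1 g w hw)
      exact ⟨congrArg Prod.fst h4, congrArg Prod.snd h4⟩
    refine ⟨⟨⟨W, hW, fun g w hw => (h3 g w hw).2⟩, fun s t => ((key s t).1 (h2 s t)).2⟩,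
      ⟨W, hW, fun g w hw => (h3 g w hw).1⟩, fun s t => ?_⟩
    rw [((key s t).1 (h2 s t)).1, hl]
    rfl
  · rintro ⟨⟨⟨W, hW, h1⟩, h2⟩, ⟨W', hW', h1'⟩, h3⟩
    refine ⟨⟨W ⊓ W', T.inf hW hW', fun g w hw => ?_⟩, fun s t => (key s t).2 ⟨?_, h2 s t⟩⟩
    · beta_reduce
      rw [h1 g w hw.1, h1' g w hw.2]
    · rw [hl]
      exact h3 s t

private theorem iv_cobF (L : LocH T (fun d => χq (jp d)) iv) {f f' : P → P → F} {z : P → F}
    (hf : Z2 T (tw fun d => χq (jp d)) fun s t => hfT (f s t)) (hz : Sm1 T z)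
    (h : ∀ s t, f' s t = f s t + dF1 z s t) :
    Z2 T (tw fun d => χq (jp d)) (fun s t => hfT (f' s t)) ∧
    iv (fun s t => hfT (f' s t)) = iv (fun s t => hfT (f s t)) := by
  have hz' : Sm1 T fun g => hfT (z g) := sm1_one hz hfT
  have e1 : (fun s t => hfT (f' s t)) = fun s t => (fun s t => hfT (f s t)) s t +
      d1 (tw fun d => χq (jp d)) (fun g => hfT (z g)) s t := by
    funext s t
    show hfT (f' s t) = hfT (f s t) + (hfT (z s) + χq (jp s) • hfT (z t) - hfT (z (s * t)))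
    rw [h, smul_hfT (L.char.odd s), sub_eq_add_neg, hfT_neg]
    show hfT (f s t + (z s + z t + z (s * t))) = _
    rw [map_add, map_add, map_add]
  have h2 := KR.d1_tw_Z2 L.char hz'
  rw [e1, L.add _ _ hf h2, L.cob _ hz', add_zero]
  exact ⟨KR.Z2.add (KR.isAct_tw L.char) hf h2, rfl⟩

private theorem sub_U (u v : Fin n → F) : u - v = u + v := by
  ext i
  rw [Pi.sub_apply, Pi.add_apply, sub_eq_add_neg, CharTwo.neg_eq]

private theorem cv_sub (p q : (Fin n → F) × (Fin n → F)) : cv A c p - cv A c q = cv A c (p + q) := by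
  refine Prod.ext (sub_U _ _) ?_
  show A c *ᵥ (p.1 + p.2) - A c *ᵥ (q.1 + q.2) = A c *ᵥ (p.1 + q.1 + (p.2 + q.2))
  rw [sub_U, ← mulVec_add]
  congr 1
  abel

private theorem d0_cv (X : Two e c κ) (a m : Fin n → F) :
    d0 (fun d => ac2 e c κ (KT.act (A.comp e)) (jp d)) (cv A c (a, m)) =
      fun d => cv A c (A (jp d) *ᵥ (a + ep e (jp d) • m) + a, A (jp d) *ᵥ m + m) := by
  funext d
  show ac2 e c κ (KT.act (A.comp e)) (jp d) (cv A c (a, m)) - cv A c (a, m) = _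
  rw [ac_cv X, cv_sub]
  rfl

private theorem exists_pair (X : Two e c κ) (y : P → (Fin n → F) × (Fin n → F)) :
    ∃ p : (P → Fin n → F) × (P → Fin n → F), (fun d => cv A c (p.1 d, p.2 d)) = y :=
  ⟨(fun d => (y d).1, fun d => (y d).1 + A c *ᵥ (y d).2), funext fun d => cv_surj X (y d)⟩

private theorem z1_zero : Z1 T (KT.act (A.comp jp)) (0 : P → Fin n → F) :=
  (cocS T (A.comp jp : P → Matrix (Fin n) (Fin n) F)).zero_mem

private theorem lift_zero {r : P → Fin n → F} :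
    IsLift (A.comp jp : P → Matrix (Fin n) (Fin n) F) (fun d => ep e (jp d)) r 0 ↔
      ∀ s t, r (s * t) = r s + A (jp s) *ᵥ r t := by
  refine forall₂_congr fun s t => ?_
  show r (s * t) = r s + A (jp s) *ᵥ r t + ep e (jp s) • (A (jp s) *ᵥ (0 : Fin n → F)) ↔ _
  rw [mulVec_zero, smul_zero, add_zero]

section lag

private theorem cup11_Z2' (Lc : LocH T (fun d => χq (jp d)) iv) (hA : ∀ g, IsSp ((A.comp jp) g))
    (hs : Smooth T (KT.act (A.comp jp))) {x y : P → Fin n → F}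
    (hx : Z1 T (KT.act (A.comp jp)) x) (hy : Z1 T (KT.act (A.comp jp)) y) :
    Z2 T (tw fun d => χq (jp d)) (cup11 (KT.act (A.comp jp)) BU x y) :=
  KR.cup11_Z2 (pair_BU Lc.char hA hs) hx hy

variable {Y : Submodule F (P → (Fin n → F) × (Fin n → F))}

private theorem cup_r (X : Two e c κ) (r : P → Fin n → F) (p : (P → Fin n → F) × (P → Fin n → F)) :
    cup11 (fun d => ac2 e c κ (KT.act (A.comp e)) (jp d)) (pB (be2 (bC A c)))
      (fun d => cv A c (r d, (0 : P → Fin n → F) d)) (fun d => cv A c (p.1 d, p.2 d)) =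
    cup11 (KT.act (A.comp jp)) BU r p.2 := by
  funext s t
  rw [cup_cv X (r, 0) p]
  show hfT (ee (r s) (A (jp s) *ᵥ p.2 t) + ee (0 : Fin n → F) _) = hfT (ee (r s) (A (jp s) *ᵥ p.2 t))
  rw [ee_zero_left, add_zero]

/-- a cocycle that is orthogonal to the `r` with `(r, 0)` in the condition lifts -/
private theorem exists_lift (X : Two e c κ) (Lc : LocH T (fun d => χq (jp d)) iv)
    (hsp : ∀ g, IsSp (A g)) (hsm : Smooth T (KT.act (A.comp jp)))
    (hes : Sm1 T fun d => ep e (jp d)) (ld : LDual T iv (KT.act (A.comp jp)) (KT.act (A.comp jp)) BU)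
    (hY : Lag T iv (fun d => ac2 e c κ (KT.act (A.comp e)) (jp d)) (be2 (bC A c))
      (fun (a : F) d => la2 e c κ (KT.act (A.comp e)) (bC A c) a (jp d)) Y)
    {y : P → Fin n → F} (hy : Z1 T (KT.act (A.comp jp)) y)
    (hp : ∀ r, (r, (0 : P → Fin n → F)) ∈ LY A c Y → iv (cup11 (KT.act (A.comp jp)) BU r y) = 0) :
    ∃ a, (a, y) ∈ LY A c Y := by
  have Q := qm_loc X Lc.char hsp hsm hes
  have hspi : ∀ g, IsSp ((A.comp jp) g) := fun g => hsp _
  have hcb : ∀ a m : Fin n → F, (fun d => A (jp d) *ᵥ (a + ep e (jp d) • m) + a,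
      fun d => A (jp d) *ᵥ m + m) ∈ LY A c Y := by
    intro a m
    have h1 := QS.Lag.cob Lc Q hY (cv A c (a, m))
    rw [d0_cv X] at h1
    exact h1
  -- a lift
  obtain ⟨a₀, ha₀, hF⟩ := ld.two (fun s t => ep e (jp s) • (A (jp s) *ᵥ y t)) (by
    constructor
    · obtain ⟨W, hW, h1⟩ := hes
      obtain ⟨W', hW', h2⟩ := hy.1
      obtain ⟨W'', hW'', h3⟩ := smooth_A hsm
      refine ⟨W ⊓ (W' ⊓ W''), T.inf hW (T.inf hW' hW''), fun g h w hw w' hw' => ?_⟩
      have h4 : A (jp w) = 1 := h3 w hw.2.2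
      have h5 : ep e (jp (g * w)) = ep e (jp g) := h1 g w hw.1
      beta_reduce
      rw [h5, h2 h w' hw'.2.1, map_mul, map_mul, h4, mul_one]
    · intro s t k
      show A (jp s) *ᵥ (ep e (jp t) • (A (jp t) *ᵥ y k)) - ep e (jp (s * t)) • (A (jp (s * t)) *ᵥ y k) +
        ep e (jp s) • (A (jp s) *ᵥ y (t * k)) - ep e (jp s) • (A (jp s) *ᵥ y t) = 0
      have h1 : y (t * k) = y t + A (jp t) *ᵥ y k := hy.2 t k
      rw [sub_U, sub_U, h1, map_mul, map_mul, ep_mul' X, smul_U (ep e (jp t)) (A (jp t) *ᵥ y k),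
        mulVec_smul, ← smul_U (ep e (jp t)), mulVec_add, ← mulVec_mulVec, add_smul, smul_add]
      have h2 := U_add_self (ep e (jp t) • (A (jp s) *ᵥ (A (jp t) *ᵥ y k)))
      have h3 := U_add_self (ep e (jp s) • (A (jp s) *ᵥ (A (jp t) *ᵥ y k)))
      have h4 := U_add_self (ep e (jp s) • (A (jp s) *ᵥ y t))
      calc _ = (ep e (jp t) • (A (jp s) *ᵥ (A (jp t) *ᵥ y k)) +
            ep e (jp t) • (A (jp s) *ᵥ (A (jp t) *ᵥ y k))) +
          (ep e (jp s) • (A (jp s) *ᵥ (A (jp t) *ᵥ y k)) +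
            ep e (jp s) • (A (jp s) *ᵥ (A (jp t) *ᵥ y k))) +
          (ep e (jp s) • (A (jp s) *ᵥ y t) + ep e (jp s) • (A (jp s) *ᵥ y t)) := by abel
        _ = 0 := by rw [h2, h3, h4]; simp) (by
    intro z hz
    have h1 : (fun d => ep e (jp d) • z, (0 : P → Fin n → F)) ∈ LY A c Y := by
      have h2 := hcb 0 z
      have h3 : ((fun d => A (jp d) *ᵥ ((0 : Fin n → F) + ep e (jp d) • z) + 0,
          fun d => A (jp d) *ᵥ z + z) : (P → Fin n → F) × (P → Fin n → F)) =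
          (fun d => ep e (jp d) • z, 0) := by
        refine Prod.ext (funext fun d => ?_) (funext fun d => ?_)
        · have h4 : A (jp d) *ᵥ z = z := hz d
          show A (jp d) *ᵥ ((0 : Fin n → F) + ep e (jp d) • z) + 0 = ep e (jp d) • z
          rw [zero_add, add_zero, smul_U (ep e (jp d)) z, mulVec_smul, h4]
        · have h4 : A (jp d) *ᵥ z = z := hz d
          show A (jp d) *ᵥ z + z = 0
          rw [h4, U_add_self]
      rw [h3] at h2
      exact h2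
    have h2 := hp _ h1
    have h3 : cup11 (KT.act (A.comp jp)) BU (fun d => ep e (jp d) • z) y =
        cup02 BU z fun s t => ep e (jp s) • (A (jp s) *ᵥ y t) := by
      funext s t
      show hfT (ee (ep e (jp s) • z) (A (jp s) *ᵥ y t)) =
        hfT (ee z (ep e (jp s) • (A (jp s) *ᵥ y t)))
      rw [smul_U (ep e (jp s)) z, smul_U (ep e (jp s)) (A (jp s) *ᵥ y t), ee_smul_left,
        ee_smul_right]
    rw [← h3]
    exact h2)
  have hlift : IsLift (A.comp jp : P → Matrix (Fin n) (Fin n) F) (fun d => ep e (jp d)) a₀ y := by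
    intro s t
    have h1 := congrFun (congrFun hF s) t
    have h2 : ep e (jp s) • (A (jp s) *ᵥ y t) = a₀ s + A (jp s) *ᵥ a₀ t - a₀ (s * t) := h1
    show a₀ (s * t) = a₀ s + A (jp s) *ᵥ a₀ t + ep e (jp s) • (A (jp s) *ᵥ y t)
    rw [h2, sub_U, ← add_assoc, U_add_self, zero_add]
  have hZ0 : Z1 T (fun d => ac2 e c κ (KT.act (A.comp e)) (jp d))
      (fun d => cv A c (a₀ d, y d)) := (Z1_cv X (a₀, y)).2 ⟨hy, ha₀, hlift⟩
  have hZp : ∀ p ∈ LY A c Y, Z1 T (fun d => ac2 e c κ (KT.act (A.comp e)) (jp d))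
      (fun d => cv A c (p.1 d, p.2 d)) := fun p hp => hY.coc _ hp
  -- the functional
  let φ : LY A c Y →+ A0 := AddMonoidHom.mk' (fun p =>
    iv (cup11 (fun d => ac2 e c κ (KT.act (A.comp e)) (jp d)) (pB (be2 (bC A c)))
      (fun d => cv A c (a₀ d, y d)) (fun d => cv A c (p.1.1 d, p.1.2 d)))) (fun p q => by
      rw [← Lc.add _ _ (KR.cup11_Z2 Q.pair hZ0 (hZp _ p.2)) (KR.cup11_Z2 Q.pair hZ0 (hZp _ q.2))]
      congr 1
      funext s t
      show pB (be2 (bC A c)) _ (ac2 e c κ (KT.act (A.comp e)) (jp s)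
        (cv A c (p.1.1 t + q.1.1 t, p.1.2 t + q.1.2 t))) =
        pB (be2 (bC A c)) _ (ac2 e c κ (KT.act (A.comp e)) (jp s) (cv A c (p.1.1 t, p.1.2 t))) +
        pB (be2 (bC A c)) _ (ac2 e c κ (KT.act (A.comp e)) (jp s) (cv A c (q.1.1 t, q.1.2 t)))
      rw [← map_add, ← Q.act.add, ← cv_add]
      rfl)
  have hφ : ∀ p : LY A c Y, φ p =
      iv (cup11 (fun d => ac2 e c κ (KT.act (A.comp e)) (jp d)) (pB (be2 (bC A c)))
      (fun d => cv A c (a₀ d, y d)) (fun d => cv A c (p.1.1 d, p.1.2 d))) := fun _ => rfl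
  have hφ2 : ∀ p, φ p + φ p = 0 := by
    intro p
    rw [hφ, ← Lc.add _ _ (KR.cup11_Z2 Q.pair hZ0 (hZp _ p.2)) (KR.cup11_Z2 Q.pair hZ0 (hZp _ p.2))]
    have h1 : (fun s t => cup11 (fun d => ac2 e c κ (KT.act (A.comp e)) (jp d)) (pB (be2 (bC A c)))
        (fun d => cv A c (a₀ d, y d)) (fun d => cv A c (p.1.1 d, p.1.2 d)) s t +
        cup11 (fun d => ac2 e c κ (KT.act (A.comp e)) (jp d)) (pB (be2 (bC A c)))
        (fun d => cv A c (a₀ d, y d)) (fun d => cv A c (p.1.1 d, p.1.2 d)) s t) =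
        fun _ _ => (0 : A0) := by
      funext s t
      rw [cup_cv X (a₀, y) p.1]
      exact hfT_two _
    rw [h1, KS.inv_zero Lc]
  let R : LY A c Y →+ cocS T (A.comp jp : P → Matrix (Fin n) (Fin n) F) :=
    AddMonoidHom.mk' (fun p => ⟨p.1.2, ((Z1_cv X p.1).1 (hZp _ p.2)).1⟩) (fun _ _ => rfl)
  have hker : ∀ p, R p = 0 → φ p = 0 := by
    intro p hp0
    have h1 : p.1.2 = 0 := congrArg Subtype.val hp0
    have h2 : (p.1.1, (0 : P → Fin n → F)) ∈ LY A c Y := by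
      have h3 := p.2
      have h4 : p.1 = (p.1.1, 0) := Prod.ext rfl h1
      rw [h4] at h3
      exact h3
    have h3 := hp _ h2
    have hZr := hZp _ h2
    rw [hφ, QS.iv_symm Lc Q hZ0 (hZp _ p.2)]
    have h4 : (fun d => cv A c (p.1.1 d, p.1.2 d)) =
        fun d => cv A c (p.1.1 d, (0 : P → Fin n → F) d) := by rw [h1]
    rw [h4, cup_r X p.1.1 (a₀, y)]
    exact h3
  obtain ⟨ψ, hψ⟩ := KS.ext_factor R φ hker
  obtain ⟨r, hr⟩ := local_rep Lc hspi hsm ld ψ (by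
    rintro z ⟨m, hm⟩
    have h1 := hcb 0 m
    have h2 : R ⟨_, h1⟩ = z := Subtype.ext (funext fun d => (hm d).symm)
    rw [← h2, hψ, hφ, QS.iv_symm Lc Q hZ0 (hZp _ h1)]
    have h3 : (fun d => cv A c (A (jp d) *ᵥ ((0 : Fin n → F) + ep e (jp d) • m) + 0,
        A (jp d) *ᵥ m + m)) =
        d0 (fun d => ac2 e c κ (KT.act (A.comp e)) (jp d)) (cv A c (0, m)) := (d0_cv X 0 m).symm
    beta_reduce
    rw [h3]
    exact QS.iv_cup_d0 Lc Q hZ0 _)
  refine ⟨a₀ + r.1, ?_⟩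
  have hrZ : Z1 T (KT.act (A.comp jp)) r.1 := r.2
  have hZr : Z1 T (fun d => ac2 e c κ (KT.act (A.comp e)) (jp d))
      (fun d => cv A c (r.1 d, (0 : P → Fin n → F) d)) :=
    (Z1_cv X (r.1, 0)).2 ⟨z1_zero, hrZ.1, lift_zero.2 hrZ.2⟩
  have hsum : (fun d => cv A c ((a₀ + r.1) d, y d)) =
      (fun d => cv A c (a₀ d, y d)) + fun d => cv A c (r.1 d, (0 : P → Fin n → F) d) := by
    funext d
    show cv A c (a₀ d + r.1 d, y d) = cv A c (a₀ d, y d) + cv A c (r.1 d, 0)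
    rw [← cv_add, Prod.mk_add_mk, add_zero]
  show (fun d => cv A c ((a₀ + r.1) d, y d)) ∈ Y
  rw [hsum]
  have hZs : Z1 T (fun d => ac2 e c κ (KT.act (A.comp e)) (jp d))
      ((fun d => cv A c (a₀ d, y d)) + fun d => cv A c (r.1 d, (0 : P → Fin n → F) d)) := by
    rw [← hsum]
    refine (Z1_cv X (a₀ + r.1, y)).2 ⟨hy, sm1_two ha₀ hrZ.1 (fun u v => u + v), fun s t => ?_⟩
    have h1 := hlift s t
    have h2 := hrZ.2 s t
    show a₀ (s * t) + r.1 (s * t) = a₀ s + r.1 s + A (jp s) *ᵥ (a₀ t + r.1 t) +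
      ep e (jp s) • (A (jp s) *ᵥ y t)
    have h1' : a₀ (s * t) = a₀ s + A (jp s) *ᵥ a₀ t + ep e (jp s) • (A (jp s) *ᵥ y t) := h1
    have h2' : r.1 (s * t) = r.1 s + A (jp s) *ᵥ r.1 t := h2
    rw [h1', h2', mulVec_add]
    abel
  refine (hY.self _ hZs).2 fun x hx => ?_
  obtain ⟨p, rfl⟩ := exists_pair (A := A) X x
  have hpL : p ∈ LY A c Y := hx
  have h1 : cup11 (fun d => ac2 e c κ (KT.act (A.comp e)) (jp d)) (pB (be2 (bC A c)))
      ((fun d => cv A c (a₀ d, y d)) + fun d => cv A c (r.1 d, (0 : P → Fin n → F) d))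
      (fun d => cv A c (p.1 d, p.2 d)) = fun s t =>
      cup11 (fun d => ac2 e c κ (KT.act (A.comp e)) (jp d)) (pB (be2 (bC A c)))
        (fun d => cv A c (a₀ d, y d)) (fun d => cv A c (p.1 d, p.2 d)) s t +
      cup11 (KT.act (A.comp jp)) BU r.1 p.2 s t := by
    funext s t
    rw [← cup_r X r.1 p]
    show pB (be2 (bC A c)) (cv A c (a₀ s, y s) + cv A c (r.1 s, 0)) _ = _
    rw [map_add]
    rfl
  rw [h1, Lc.add _ _ (KR.cup11_Z2 Q.pair hZ0 (hZp _ hpL))
    (cup11_Z2' Lc hspi hsm hrZ ((Z1_cv X p).1 (hZp _ hpL)).1)]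
  have h2 := hφ2 ⟨p, hpL⟩
  have h3 := hr (R ⟨p, hpL⟩)
  rw [hψ] at h3
  have h4 : φ ⟨p, hpL⟩ = iv (cup11 (KT.act (A.comp jp)) BU r.1 p.2) := h3
  rw [← h4]
  exact h2

end lag

end local_place

theorem lkr_of_lag (X : Two e c κ) {P : Type*} [Group P] {T : FSys P} {jp : P →* Γ}
    {χq : Γ → ℤ_[2]} {iv : (P → P → A0) → A0} (Lc : LocH T (fun d => χq (jp d)) iv)
    (hsp : ∀ g, IsSp (A g)) (hsm : Smooth T (KT.act (A.comp jp)))
    (hes : Sm1 T fun d => ep e (jp d)) (ld : LDual T iv (KT.act (A.comp jp)) (KT.act (A.comp jp)) BU)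
    {Y : Submodule F (P → (Fin n → F) × (Fin n → F))}
    (hY : Lag T iv (fun d => ac2 e c κ (KT.act (A.comp e)) (jp d)) (be2 (bC A c))
      (fun (a : F) d => la2 e c κ (KT.act (A.comp e)) (bC A c) a (jp d)) Y) :
    LKr T iv (A.comp jp) (fun d => ep e (jp d)) (LY A c Y) := by
  have Q := qm_loc X Lc.char hsp hsm hes
  have hspi : ∀ g, IsSp ((A.comp jp) g) := fun g => hsp _
  have hZp : ∀ p ∈ LY A c Y, Z1 T (fun d => ac2 e c κ (KT.act (A.comp e)) (jp d))
      (fun d => cv A c (p.1 d, p.2 d)) := fun p hp => hY.coc _ hp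
  have hcc : ∀ p ∈ LY A c Y, Z1 T (KT.act (A.comp jp)) p.2 ∧ Sm1 T p.1 ∧
      IsLift (A.comp jp : P → Matrix (Fin n) (Fin n) F) (fun d => ep e (jp d)) p.1 p.2 :=
    fun p hp => (Z1_cv X p).1 (hZp p hp)
  have hrel : ∀ r, (r, (0 : P → Fin n → F)) ∈ LY A c Y → Z1 T (KT.act (A.comp jp)) r :=
    fun r hr => ⟨(hcc _ hr).2.1, lift_zero.1 (hcc _ hr).2.2⟩
  refine ⟨hcc, fun r => ⟨fun hr => ⟨hrel r hr, fun p hp => ?_⟩, ?_⟩, fun m => ?_,
    fun p hp q hq => ?_, fun p hp a ha α => ?_, ?_⟩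
  · have h1 := (hY.self _ (hZp _ hr)).1 hr _ hp
    have h2 := cup_r (A := A) (jp := jp) X r p
    rw [← h2]
    exact h1
  · rintro ⟨hrZ, h⟩
    show (fun d => cv A c (r d, (0 : P → Fin n → F) d)) ∈ Y
    refine (hY.self _ ((Z1_cv X (r, 0)).2 ⟨z1_zero, hrZ.1, lift_zero.2 hrZ.2⟩)).2 fun y hy => ?_
    obtain ⟨p, rfl⟩ := exists_pair (A := A) X y
    have h1 := h p hy
    rw [← cup_r X r p] at h1
    exact h1
  · have h1 := QS.Lag.cob Lc Q hY (cv A c (0, m))
    rw [d0_cv X] at h1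
    exact ⟨_, h1⟩
  · have h1 := (hY.self _ (hZp _ hp)).1 hp _ hq
    have h2 := KR.cup11_Z2 Q.pair (hZp _ hp) (hZp _ hq)
    have e1 : cup11 (fun d => ac2 e c κ (KT.act (A.comp e)) (jp d)) (pB (be2 (bC A c)))
        (fun d => cv A c (p.1 d, p.2 d)) (fun d => cv A c (q.1 d, q.2 d)) = fun s t =>
        hfT (ee (p.1 s) (A (jp s) *ᵥ q.2 t) +
          ee (p.2 s) (A (jp s) *ᵥ (q.1 t + ep e (jp s) • q.2 t))) := by
      funext s t
      exact cup_cv X p q s t
    have h1' : iv (fun s t => hfT (ee (p.1 s) (A (jp s) *ᵥ q.2 t) +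
        ee (p.2 s) (A (jp s) *ᵥ (q.1 t + ep e (jp s) • q.2 t)))) = 0 := by
      rw [← e1]
      exact h1
    rw [e1] at h2
    have h3 := iv_cobF (z := fun g => ee (p.2 g) (q.1 g)) (f' := fun s t =>
      ee (p.1 s) (A (jp s) *ᵥ q.2 t) + ee (q.1 s) (A (jp s) *ᵥ p.2 t) +
        ep e (jp s) • ee (p.2 t) (q.2 t)) Lc h2
      (sm1_two (hcc p hp).1.1 (hcc q hq).2.1 fun u v => ee u v) (fun s t => by
      have hp2 : p.2 (s * t) = p.2 s + A (jp s) *ᵥ p.2 t := (hcc p hp).1.2 s t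
      have hq1 : q.1 (s * t) = q.1 s + A (jp s) *ᵥ q.1 t + ep e (jp s) • (A (jp s) *ᵥ q.2 t) :=
        (hcc q hq).2.2 s t
      unfold dF1
      beta_reduce
      rw [hp2, hq1, mulVec_add, smul_U (ep e (jp s)) (q.2 t), mulVec_smul,
        smul_U (ep e (jp s)) (A (jp s) *ᵥ q.2 t), smul_F]
      simp only [ee_add_left, ee_add_right, ee_smul_right, ee_mulVec (hsp _),
        ee_comm (A (jp s) *ᵥ p.2 t) (q.1 s)]
      linear_combination (norm := (ring_nf; reduce_mod_char!)))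
    exact h3.2.trans h1'
  · have h1 := hY.iso α _ hp
    have h2 := QS.Zq_Z2 Lc.char Q (hZp _ hp) α
    have e1 : Zq (fun d => ac2 e c κ (KT.act (A.comp e)) (jp d)) (be2 (bC A c))
        (fun (a : F) d => la2 e c κ (KT.act (A.comp e)) (bC A c) a (jp d)) α
        (fun d => cv A c (p.1 d, p.2 d)) = fun s t =>
        hfT (α * (ee (p.1 s) (A (jp s) *ᵥ p.1 t) + ee (p.1 s) (A (jp s) *ᵥ p.2 t) +
          ep e (jp s) • ee (p.1 s) (A (jp s) *ᵥ p.2 t)) +
          ep e (jp s) • (α * ee (p.1 t) (p.2 t))) := by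
      funext s t
      exact Zq_cv X hsp α p s t
    rw [e1] at h2
    have h1' : iv (fun s t => hfT (α * (ee (p.1 s) (A (jp s) *ᵥ p.1 t) +
        ee (p.1 s) (A (jp s) *ᵥ p.2 t) + ep e (jp s) • ee (p.1 s) (A (jp s) *ᵥ p.2 t)) +
        ep e (jp s) • (α * ee (p.1 t) (p.2 t)))) = 0 := by
      rw [← e1]
      exact h1
    have h3 := iv_cobF (z := fun g => α * qq (p.1 g)) (f' := fun s t =>
      α * ee (p.1 s) (A (jp s) *ᵥ p.2 t) + ep e (jp s) • (α * qq (p.2 t)) +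
        α * ee (kk (A (jp s))) (A (jp s) *ᵥ (p.1 t + ep e (jp s) • p.2 t)) ^ 2) Lc h2
      (sm1_one (hcc p hp).2.1 fun u => α * qq u) (fun s t => by
      have hp1 : p.1 (s * t) = p.1 s + A (jp s) *ᵥ (p.1 t + ep e (jp s) • p.2 t) := by
        have h4 : p.1 (s * t) = p.1 s + A (jp s) *ᵥ p.1 t + ep e (jp s) • (A (jp s) *ᵥ p.2 t) :=
          (hcc p hp).2.2 s t
        rw [h4, mulVec_add, smul_U (ep e (jp s)) (p.2 t), mulVec_smul,
          smul_U (ep e (jp s)) (A (jp s) *ᵥ p.2 t), add_assoc]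
      have h5 := qq_mulVec (hsp (jp s)) (p.1 t + ep e (jp s) • p.2 t)
      unfold dF1
      beta_reduce
      rw [hp1, qq_add (p.1 s)]
      rcases zmod2_cases (ep e (jp s)) with h | h
      · rw [h] at h5 ⊢
        simp only [zero_smul, add_zero] at h5 ⊢
        linear_combination (norm := (ring_nf; reduce_mod_char!)) α * h5
      · rw [h] at h5 ⊢
        simp only [one_smul] at h5 ⊢
        have h6 := qq_add (p.1 t) (p.2 t)
        have h7 : ee (p.1 s) (A (jp s) *ᵥ (p.1 t + p.2 t)) =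
            ee (p.1 s) (A (jp s) *ᵥ p.1 t) + ee (p.1 s) (A (jp s) *ᵥ p.2 t) := by
          rw [mulVec_add, ee_add_right]
        rw [h7]
        linear_combination (norm := (ring_nf; reduce_mod_char!)) α * h5 + α * h6)
    have h4 : (fun s t => hfT (α * ee (p.1 s) (A (jp s) *ᵥ p.2 t) + ep e (jp s) • (α * qq (p.2 t)) +
        α * ee (kk (A (jp s))) (A (jp s) *ᵥ (p.1 t + ep e (jp s) • p.2 t)) ^ 2)) = fun s t =>
        hfT (α * ee (p.1 s) (A (jp s) *ᵥ p.2 t) + ep e (jp s) • (α * qq (p.2 t)) +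
        rt α * ee (kk (A (jp s))) (A (jp s) *ᵥ (p.1 t + ep e (jp s) • p.2 t))) := by
      funext s t
      rw [map_add hfT, map_add hfT (α * ee (p.1 s) (A (jp s) *ᵥ p.2 t) + _)]
      congr 1
      have h5 : α * ee (kk (A (jp s))) (A (jp s) *ᵥ (p.1 t + ep e (jp s) • p.2 t)) ^ 2 =
          (rt α * ee (kk (A (jp s))) (A (jp s) *ᵥ (p.1 t + ep e (jp s) • p.2 t))) ^ 2 := by
        rw [mul_pow, rt_sq]
      rw [h5, hfT_sq]
    have h5 := h3.2.trans h1'
    have h6 := h3.1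
    rw [h4] at h5 h6
    have hq : rt α • p ∈ LY A c Y := (LY A c Y).smul_mem _ hp
    have h7 := (hY.self _ (hZp _ ha)).1 ha _ hq
    have h8 := KR.cup11_Z2 Q.pair (hZp _ ha) (hZp _ hq)
    have e2 : cup11 (fun d => ac2 e c κ (KT.act (A.comp e)) (jp d)) (pB (be2 (bC A c)))
        (fun d => cv A c ((a, kc (A.comp jp)).1 d, (a, kc (A.comp jp)).2 d))
        (fun d => cv A c ((rt α • p).1 d, (rt α • p).2 d)) = fun s t =>
        hfT (rt α * ee (a s) (A (jp s) *ᵥ p.2 t) +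
          rt α * ee (kk (A (jp s))) (A (jp s) *ᵥ (p.1 t + ep e (jp s) • p.2 t))) := by
      funext s t
      rw [cup_cv X (a, kc (A.comp jp)) (rt α • p) s t]
      congr 1
      show ee (a s) (A (jp s) *ᵥ (rt α • p.2 t)) +
        ee (kk (A (jp s))) (A (jp s) *ᵥ (rt α • p.1 t + ep e (jp s) • (rt α • p.2 t))) = _
      rw [smul_comm (ep e (jp s)) (rt α), ← smul_add, mulVec_smul, mulVec_smul, ee_smul_right,
        ee_smul_right]
    rw [e2] at h8
    have h7' : iv (fun s t => hfT (rt α * ee (a s) (A (jp s) *ᵥ p.2 t) +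
          rt α * ee (kk (A (jp s))) (A (jp s) *ᵥ (p.1 t + ep e (jp s) • p.2 t)))) = 0 := by
      rw [← e2]
      exact h7
    have h9 := Lc.add _ _ h6 h8
    rw [h5, h7', add_zero] at h9
    rw [← h9]
    congr 1
    funext s t
    rw [← map_add]
    congr 1
    show α * ee (p.1 s) (A (jp s) *ᵥ p.2 t) + ep e (jp s) • (α * qq (p.2 t)) +
      rt α * ee (a s) (A (jp s) *ᵥ p.2 t) = _
    linear_combination (norm := (ring_nf; reduce_mod_char!))
  · refine exists_lift X Lc hsp hsm hes ld hY (kc_Z1 hspi hsm) fun r hr => ?_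
    have hrZ := hrel r hr
    rw [inv_symm Lc hspi hsm hrZ (kc_Z1 hspi hsm), inv_kc Lc hspi hsm hrZ]
    have h1 := hY.iso 1 _ hr
    have e1 : Zq (fun d => ac2 e c κ (KT.act (A.comp e)) (jp d)) (be2 (bC A c))
        (fun (a : F) d => la2 e c κ (KT.act (A.comp e)) (bC A c) a (jp d)) 1
        (fun d => cv A c ((r, (0 : P → Fin n → F)).1 d, (r, (0 : P → Fin n → F)).2 d)) =
        cup11 (KT.act (A.comp jp)) BU r r := by
      funext s t
      rw [Zq_cv X hsp 1 (r, 0) s t]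
      show hfT (1 * (ee (r s) (A (jp s) *ᵥ r t) + ee (r s) (A (jp s) *ᵥ (0 : Fin n → F)) +
        ep e (jp s) • ee (r s) (A (jp s) *ᵥ (0 : Fin n → F))) +
        ep e (jp s) • (1 * ee (r t) (0 : Fin n → F))) = hfT (ee (r s) (A (jp s) *ᵥ r t))
      rw [mulVec_zero, ee_zero_right, ee_zero_right, mul_zero, smul_zero, add_zero, add_zero,
        add_zero, one_mul]
    rw [← e1]
    exact h1

theorem sel_LY (X : Two e c κ) {Sq : FSys Γ} {I : Type*} {D : I → Type*} [∀ i, Group (D i)]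
    {j : ∀ i, D i →* Γ} (hsm : Smooth Sq (KT.act A)) (hes : Sm1 Sq (ep e))
    (act : IsAct (ac2 e c κ (KT.act (A.comp e))))
    (lin : ∀ g (a : F) m, ac2 e c κ (KT.act (A.comp e)) g (a • m) =
      a • ac2 e c κ (KT.act (A.comp e)) g m)
    (Y : ∀ i, Submodule F (D i → (Fin n → F) × (Fin n → F))) :
    Nonempty (selQ Sq j act lin Y ≃ₗ[F] Sel Sq j A (ep e) fun i => LY A c (Y i)) := by
  have hcoord : ∀ p : (Γ → Fin n → F) × (Γ → Fin n → F),
      (fun g => cv A c (p.1 g, p.2 g)) ∈ selQ Sq j act lin Y ↔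
        p ∈ Sel Sq j A (ep e) fun i => LY A c (Y i) := by
    intro p
    rw [QS.mem_selQ, mem_Sel]
    have h1 := Z1_cv (T := Sq) (jp := MonoidHom.id Γ) (A := A) X p
    have h2 : (Z1 Sq (ac2 e c κ (KT.act (A.comp e))) fun g => cv A c (p.1 g, p.2 g)) ↔
        Z1 Sq (KT.act A) p.2 ∧ Sm1 Sq p.1 ∧
        IsLift (A : Γ → Matrix (Fin n) (Fin n) F) (ep e) p.1 p.2 := h1
    rw [h2, and_assoc, and_assoc]
    rfl
  let Φ : ((Γ → Fin n → F) × (Γ → Fin n → F)) ≃ₗ[F] (Γ → (Fin n → F) × (Fin n → F)) :=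
    { toFun := fun p g => cv A c (p.1 g, p.2 g)
      map_add' := fun p q => funext fun g => cv_add (A := A) (c := c) (p.1 g, p.2 g) (q.1 g, q.2 g)
      map_smul' := fun a p => funext fun g => cv_smul (A := A) (c := c) a (p.1 g, p.2 g)
      invFun := fun x => (fun g => (x g).1, fun g => (x g).1 + A c *ᵥ (x g).2)
      left_inv := fun p => by
        refine Prod.ext rfl (funext fun g => ?_)
        show p.1 g + A c *ᵥ (A c *ᵥ (p.1 g + p.2 g)) = p.2 g
        rw [cc_vec X, ← add_assoc, U_add_self, zero_add]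
      right_inv := fun x => funext fun g => cv_surj X (x g) }
  have hmap : (Sel Sq j A (ep e) fun i => LY A c (Y i)).map
      (Φ : ((Γ → Fin n → F) × (Γ → Fin n → F)) →ₗ[F] (Γ → (Fin n → F) × (Fin n → F))) =
      selQ Sq j act lin Y := by
    ext x
    rw [Submodule.mem_map]
    constructor
    · rintro ⟨p, hp, rfl⟩
      exact (hcoord p).2 hp
    · intro hx
      refine ⟨Φ.symm x, (hcoord _).1 ?_, Φ.apply_symm_apply x⟩
      have h3 : (fun g => cv A c ((Φ.symm x).1 g, (Φ.symm x).2 g)) = x := Φ.apply_symm_apply x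
      rw [h3]
      exact hx
  exact ⟨(Φ.ofSubmodules _ _ hmap).symm⟩

end

end Pool.Agent.Work.MP_787500_nt.KI
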