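import Mathlib
import Pool.Agent.Work.MP_787500_nt.KI.OfLag
import Pool.Agent.Work.MP_787500_nt.KI.MainK
import Pool.Agent.Work.MP_787500_nt.QS.Change
import Pool.Agent.Work.MP_787500_nt.QP.M3

/-!
# THE PARITY OVER THE RATIONAL NUMBERS AT THE LEVEL ONE

`LocPar`: a Lagrangian condition for `U × U` at a place has the local contribution `δ`, computed with a reference condition. `par_of_loc`: the dimension of the Selmer space of `U × U` is congruent modulo 2
to the sum of the local contributions.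
-/

set_option autoImplicit false
set_option linter.unusedSectionVars false

namespace Pool.Agent.Work.MP_787500_nt.KI

open Matrix
open Pool.Agent.Work.MP_787500_nt.GP (A0 hf hf_add hf_zero hf_two hf_neg smul_hf eq_hf hf_inj IsAct d0 d1
  d2 tw cup11 cup21 cup12 cup01 cup02 EvPow)
open Pool.Agent.Work.MP_787500_nt.KR (FSys Sm1 Sm2 IsChar Smooth Z1 Z2 B2 LocH Pair LDual GlobH IsTr PP)

open Pool.Agent.Work.MP_787500_nt.KT hiding Str Rel Sel KH Ai IsP cc ff TT
open Pool.Agent.Work.MP_787500_nt.QS (Two ac2 be2 la2 Lag HQ selQ QM pB Zq change_Q)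
open Pool.Agent.Work.MP_787500_nt.KS (ep)

universe v

variable {F : Type v} [Field F] [Finite F] [CharP F 2] [Algebra (ZMod 2) F] {n : ℕ} [Sy F n]

section

variable {G Γ : Type*} [Group G] [Group Γ] {e : G →* Γ} {c : Γ} {κ : G →* G}

/-- The contribution `δ` of a condition `Y` for `U × U` at a place. -/
def LocPar {P : Type*} [Group P] (T : FSys P) (jp : P →* Γ) (iv : (P → P → A0) → A0) (e : G →* Γ)
    (c : Γ) (κ : G →* G) (A : Γ →* Matrix (Fin n) (Fin n) F)
    (Y : Submodule F (P → (Fin n → F) × (Fin n → F))) (δ : ℕ) : Prop :=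
  ∃ (Y₀ : Submodule F (P → (Fin n → F) × (Fin n → F))) (t : ℕ) (m : ℤ),
    Lag T iv (fun d => ac2 e c κ (KT.act (A.comp e)) (jp d)) (be2 (bC A c))
      (fun (a : F) d => la2 e c κ (KT.act (A.comp e)) (bC A c) a (jp d)) Y₀ ∧
    LVal iv (A.comp jp) (fun d => ep e (jp d)) (LY A c Y₀) t ∧
    (Module.finrank F (R1 (LY A c Y₀)) : ℤ) = Module.finrank F (Y2 (LY A c Y₀)) + 2 * m ∧
    Even (m + t + Module.finrank F Y + Module.finrank F ↥(Y ⊓ Y₀) + δ)

variable {A : Γ →* Matrix (Fin n) (Fin n) F} {Sq : FSys Γ} {I : Type*} [Fintype I] {D : I → Type*}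
  [∀ i, Group (D i)] {SD : ∀ i, FSys (D i)} {j : ∀ i, D i →* Γ} {χq : Γ → ℤ_[2]}
  {inv : ∀ i, (D i → D i → A0) → A0} {tr : ((Γ → Γ → Γ → A0) × (∀ i, D i → D i → A0)) →+ A0}

theorem finite_res : Finite (IsLocalRing.ResidueField F) :=
  Finite.of_surjective _ IsLocalRing.residue_surjective

theorem card_res : Nat.card (IsLocalRing.ResidueField F) = Nat.card F :=
  (Nat.card_eq_of_bijective (IsLocalRing.residue F)
    ⟨(IsLocalRing.residue F).injective, IsLocalRing.residue_surjective⟩).symm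

/-- THE PARITY FROM THE LOCAL CONTRIBUTIONS. -/
theorem par_of_loc (H : HQ.{v} Sq SD j χq inv tr) (X : Two e c κ) (hsp : ∀ g, IsSp (A g))
    (hsm : Smooth Sq (KT.act A)) (hes : Sm1 Sq (ep e))
    (hQM : QM Sq χq F (ac2 e c κ (KT.act (A.comp e))) (be2 (bC A c))
      (la2 e c κ (KT.act (A.comp e)) (bC A c)))
    {Y : ∀ i, Submodule F (D i → (Fin n → F) × (Fin n → F))}
    (hY : ∀ i, Lag (SD i) (inv i) (fun d => ac2 e c κ (KT.act (A.comp e)) (j i d)) (be2 (bC A c))
      (fun (a : F) d => la2 e c κ (KT.act (A.comp e)) (bC A c) a (j i d)) (Y i)) {δ : I → ℕ}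
    (hloc : ∀ i, LocPar (SD i) (j i) (inv i) e c κ A (Y i) (δ i)) :
    FiniteDimensional F (selQ Sq j hQM.act hQM.lin Y) ∧
      Even (Module.finrank F (selQ Sq j hQM.act hQM.lin Y) + ∑ i, δ i) := by
  classical
  have hpair : Pair Sq χq (KT.act A) (KT.act A) BU := pair_BU H.glob.char hsp hsm
  have hjs : ∀ i W, Sq.mem W → ∃ W', (SD i).mem W' ∧ ∀ w ∈ W', j i w ∈ W := H.glob.jsm
  have hsmi : ∀ i, Smooth (SD i) (KT.act (A.comp (j i))) := fun i => hsm.comp (hjs i)
  have hesi : ∀ i, Sm1 (SD i) fun d => ep e (j i d) := by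
    intro i
    obtain ⟨W, hW, h1⟩ := hes
    obtain ⟨W', hW', h2⟩ := hjs i W hW
    refine ⟨W', hW', fun g w hw => ?_⟩
    beta_reduce
    rw [map_mul, h1 _ _ (h2 w hw)]
  have hldi : ∀ i, LDual (SD i) (inv i) (KT.act (A.comp (j i))) (KT.act (A.comp (j i))) BU :=
    fun i => H.ld i hpair
  choose Y₀ t m hY₀ ht hm hev using hloc
  have hKH : KI.KH Sq SD j χq inv tr A (ep e) fun i => LY A c (Y₀ i) :=
    { glob := H.glob
      istr := H.istr
      pp := H.pp hpair
      ld := hldi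
      fin := H.fin hpair
      det := hsp
      sm := hsm
      eadd := QP.ep_add2 X
      esm := hes
      loc := fun i => lkr_of_lag X (H.glob.loc i) hsp (hsmi i) (hesi i) (hldi i) (hY₀ i) }
  obtain ⟨hfd, hk⟩ := kramer hKH ht hm
  obtain ⟨E⟩ := sel_LY X (D := D) (j := j) hsm hes hQM.act hQM.lin Y₀
  have hfd₀ : FiniteDimensional F (selQ Sq j hQM.act hQM.lin Y₀) := Module.Finite.equiv E.symm
  have hfin : Finite {x : Γ → (Fin n → F) × (Fin n → F) //
      Z1 Sq (ac2 e c κ (KT.act (A.comp e))) x} := H.fin hQM.pair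
  have hfinS : Finite (selQ Sq j hQM.act hQM.lin Y) :=
    Finite.of_injective (fun x : selQ Sq j hQM.act hQM.lin Y =>
      (⟨x.1, x.2.1⟩ : {x : Γ → (Fin n → F) × (Fin n → F) //
        Z1 Sq (ac2 e c κ (KT.act (A.comp e))) x})) fun x y h => Subtype.ext (by simpa using h)
  have hfdS : FiniteDimensional F (selQ Sq j hQM.act hQM.lin Y) := Module.Finite.of_finite
  refine ⟨hfdS, ?_⟩
  have hfinL : ∀ i, Finite {x : D i → (Fin n → F) × (Fin n → F) //
      Z1 (SD i) (fun d => ac2 e c κ (KT.act (A.comp e)) (j i d)) x} := fun i =>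
    (H.ld i hQM.pair).fin
  have hfinY : ∀ i, Finite (Y i) := fun i =>
    Finite.of_injective (fun x : Y i => (⟨x.1, (hY i).coc x.1 x.2⟩ :
      {x : D i → (Fin n → F) × (Fin n → F) //
        Z1 (SD i) (fun d => ac2 e c κ (KT.act (A.comp e)) (j i d)) x})) fun x y h =>
      Subtype.ext (by simpa using h)
  have := finite_res (F := F)
  obtain ⟨k, hk2⟩ := change_Q H hQM hY hY₀
  have hfinY2 : ∀ i, Finite ↥(Y i ⊓ Y₀ i) := fun i =>
    Finite.of_injective (fun x : ↥(Y i ⊓ Y₀ i) => (⟨x.1, x.2.1⟩ : Y i)) fun x y h =>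
      Subtype.ext (by simpa using h)
  have hfin₀ : Finite (selQ Sq j hQM.act hQM.lin Y₀) :=
    Finite.of_injective (fun x : selQ Sq j hQM.act hQM.lin Y₀ =>
      (⟨x.1, x.2.1⟩ : {x : Γ → (Fin n → F) × (Fin n → F) //
        Z1 Sq (ac2 e c κ (KT.act (A.comp e))) x})) fun x y h => Subtype.ext (by simpa using h)
  have hq1 : 1 < Nat.card F := Finite.one_lt_card
  have hprod : ∏ i, (Nat.card ↥(Y i ⊓ Y₀ i) * Nat.card (Y i)) = Nat.card F ^
      ∑ i, (Module.finrank F ↥(Y i ⊓ Y₀ i) + Module.finrank F (Y i)) := by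
    rw [← Finset.prod_pow_eq_pow_sum]
    refine Finset.prod_congr rfl fun i _ => ?_
    rw [Module.natCard_eq_pow_finrank (K := F) (V := ↥(Y i ⊓ Y₀ i)),
      Module.natCard_eq_pow_finrank (K := F) (V := Y i), pow_add]
  rw [card_res, hprod, Module.natCard_eq_pow_finrank (K := F) (V := selQ Sq j hQM.act hQM.lin Y),
    Module.natCard_eq_pow_finrank (K := F) (V := selQ Sq j hQM.act hQM.lin Y₀), ← pow_add,
    ← pow_add] at hk2
  have hk3 := Nat.pow_right_injective hq1 hk2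
  have hs0 : Module.finrank F (selQ Sq j hQM.act hQM.lin Y₀) =
      Module.finrank F (Sel Sq j A (ep e) fun i => LY A c (Y₀ i)) := E.finrank_eq
  have hsum : Even (∑ i, ((m i : ℤ) + t i + Module.finrank F (Y i) +
      Module.finrank F ↥(Y i ⊓ Y₀ i) + δ i)) :=
    Finset.sum_induction _ Even (fun a b ha hb => ha.add hb) Even.zero fun i _ => hev i
  rw [hs0] at hk3
  obtain ⟨r, hr⟩ := hk
  obtain ⟨r', hr'⟩ := hsum
  have e1 : ∑ i, ((m i : ℤ) + t i + Module.finrank F (Y i) +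
      Module.finrank F ↥(Y i ⊓ Y₀ i) + δ i) = (∑ i, (m i + (t i : ℤ))) +
      (∑ i, ((Module.finrank F ↥(Y i ⊓ Y₀ i) : ℤ) + Module.finrank F (Y i))) +
      ∑ i, (δ i : ℤ) := by
    rw [← Finset.sum_add_distrib, ← Finset.sum_add_distrib]
    exact Finset.sum_congr rfl fun i _ => by ring
  rw [e1] at hr'
  have hk4 : (Module.finrank F (selQ Sq j hQM.act hQM.lin Y) : ℤ) +
      Module.finrank F (Sel Sq j A (ep e) fun i => LY A c (Y₀ i)) +
      ∑ i, ((Module.finrank F ↥(Y i ⊓ Y₀ i) : ℤ) + Module.finrank F (Y i)) = 2 * k := by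
    exact_mod_cast hk3
  rw [← Int.even_coe_nat]
  push_cast
  set a : ℤ := (Module.finrank F (selQ Sq j hQM.act hQM.lin Y) : ℤ)
  set b : ℤ := (Module.finrank F (Sel Sq j A (ep e) fun i => LY A c (Y₀ i)) : ℤ)
  set x1 := ∑ i, (m i + (t i : ℤ))
  set x2 := ∑ i, ((Module.finrank F ↥(Y i ⊓ Y₀ i) : ℤ) + Module.finrank F (Y i))
  set x3 := ∑ i, (δ i : ℤ)
  refine ⟨r' + k - r - x2, ?_⟩
  omega

end

end Pool.Agent.Work.MP_787500_nt.KI
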