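import Mathlib
import Pool.Agent.Work.MP_787500_nt.KI.InertB
import Pool.Agent.Work.MP_787500_nt.KI.OfLag
import Pool.Agent.Work.MP_787500_nt.QL.LagQ

/-!
The Kramer step, the inert places: the condition `zurL` comes from the cocycles of `U × U` whose restriction to inertia
is a coboundary.
-/

set_option autoImplicit false
set_option linter.unusedSectionVars false

namespace Pool.Agent.Work.MP_787500_nt.KI

open Matrix
open Pool.Agent.Work.MP_787500_nt.GP (A0 hf IsAct d0 d1 d2 tw cup11)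
open Pool.Agent.Work.MP_787500_nt.KR (FSys Sm1 Sm2 IsChar Smooth Z1 Z2 B2 LocH Pair LDual GlobH IsTr PP)
open Pool.Agent.Work.MP_787500_nt.KT hiding Str Rel Sel KH Ai IsP cc ff TT
open Pool.Agent.Work.MP_787500_nt.KS (hfT smul_F ep)
open Pool.Agent.Work.MP_787500_nt.QS (Two ac2 be2 la2 Lag HQ selQ QM pB Zq)
open Pool.Agent.Work.MP_787500_nt.QL (zurM mem_zurM mem_zur)

variable {F : Type*} [Field F] [Finite F] [CharP F 2] [Algebra (ZMod 2) F] {n : ℕ} [Sy F n]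
  {G Γ : Type*} [Group G] [Group Γ] {e : G →* Γ} {c : Γ} {κ : G →* G}
  {A : Γ →* Matrix (Fin n) (Fin n) F}

/-- the change of coordinates -/
def th (A : Γ →* Matrix (Fin n) (Fin n) F) (c : Γ) (u : (Fin n → F) × (Fin n → F)) :
    (Fin n → F) × (Fin n → F) := (u.1, A c *ᵥ (u.1 + u.2))

theorem A_cc (X : Two e c κ) (m : Fin n → F) : A c *ᵥ (A c *ᵥ m) = m := by
  rw [mulVec_mulVec, ← map_mul, X.cc, map_one, one_mulVec]

theorem th_inj (X : Two e c κ) {u u' : (Fin n → F) × (Fin n → F)} (h : th A c u = th A c u') :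
    u = u' := by
  have h1 : (th A c u).1 = (th A c u').1 := by rw [h]
  have h2 : (th A c u).2 = (th A c u').2 := by rw [h]
  change u.1 = u'.1 at h1
  change A c *ᵥ (u.1 + u.2) = A c *ᵥ (u'.1 + u'.2) at h2
  have h3 := congrArg (fun m => A c *ᵥ m) h2
  simp only [A_cc X] at h3
  rw [h1] at h3
  exact Prod.ext h1 (add_left_cancel h3)

theorem th_surj (X : Two e c κ) (v : (Fin n → F) × (Fin n → F)) : ∃ u, th A c u = v := by
  refine ⟨(v.1, v.1 + A c *ᵥ v.2), Prod.ext rfl ?_⟩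
  show A c *ᵥ (v.1 + (v.1 + A c *ᵥ v.2)) = v.2
  rw [← add_assoc, U_add_self, zero_add, A_cc X]

theorem th_add (u u' : (Fin n → F) × (Fin n → F)) : th A c (u + u') = th A c u + th A c u' := by
  refine Prod.ext rfl ?_
  show A c *ᵥ (u.1 + u'.1 + (u.2 + u'.2)) = A c *ᵥ (u.1 + u.2) + A c *ᵥ (u'.1 + u'.2)
  rw [← mulVec_add]
  congr 1
  abel

theorem th_sub (u u' : (Fin n → F) × (Fin n → F)) : th A c (u - u') = th A c u - th A c u' := by
  have h := th_add (A := A) (c := c) (u - u') u'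
  rw [sub_add_cancel] at h
  rw [h, add_sub_cancel_right]

theorem ep_out (X : Two e c κ) (g : G) : ep e (e g * c) = 1 := if_neg fun ⟨g', h⟩ => X.out g g' h

/-- the action in the new coordinates -/
theorem ac2_th (X : Two e c κ) (s : Γ) (u : (Fin n → F) × (Fin n → F)) :
    ac2 e c κ (KT.act (A.comp e)) s (th A c u) = th A c (ap A (ep e) s u) := by
  rcases X.cases s with ⟨g, rfl⟩ | ⟨g, rfl⟩
  · rw [X.ac_e]
    have h0 : ep e (e g) = 0 := if_pos ⟨g, rfl⟩
    refine Prod.ext ?_ ?_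
    · show A (e g) *ᵥ u.1 = A (e g) *ᵥ (u.1 + ep e (e g) • u.2)
      rw [h0, zero_smul, add_zero]
    · show A (e (κ g)) *ᵥ (A c *ᵥ (u.1 + u.2)) =
        A c *ᵥ (A (e g) *ᵥ (u.1 + ep e (e g) • u.2) + A (e g) *ᵥ u.2)
      rw [h0, zero_smul, add_zero, ← mulVec_add, X.kap, map_mul, map_mul, ← mulVec_mulVec,
        ← mulVec_mulVec, A_cc X]
  · rw [X.ac_ec]
    have h1 : ep e (e g * c) = 1 := ep_out X g
    refine Prod.ext ?_ ?_
    · show A (e g) *ᵥ (A c *ᵥ (u.1 + u.2)) = A (e g * c) *ᵥ (u.1 + ep e (e g * c) • u.2)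
      rw [h1, one_smul, map_mul, mulVec_mulVec]
    · show A (e (κ g)) *ᵥ u.1 =
        A c *ᵥ (A (e g * c) *ᵥ (u.1 + ep e (e g * c) • u.2) + A (e g * c) *ᵥ u.2)
      rw [h1, one_smul, ← mulVec_add, add_assoc, U_add_self, add_zero, X.kap]
      simp only [map_mul, ← mulVec_mulVec]

section

variable {P : Type*} [Group P] {T : FSys P} {jp : P →* Γ}

theorem Z1_th (X : Two e c κ) {x : P → (Fin n → F) × (Fin n → F)} :
    Z1 T (fun d => ac2 e c κ (KT.act (A.comp e)) (jp d)) (fun d => th A c (x d)) ↔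
      Z1 T (ap (A.comp jp) fun d => ep e (jp d)) x := by
  constructor
  · rintro ⟨⟨W, hW, h1⟩, h2⟩
    refine ⟨⟨W, hW, fun g w hw => th_inj (A := A) X (h1 g w hw)⟩, fun g k => th_inj (A := A) X ?_⟩
    have h3 : th A c (x (g * k)) = th A c (x g) +
        ac2 e c κ (KT.act (A.comp e)) (jp g) (th A c (x k)) := h2 g k
    rw [h3, ac2_th X, ← th_add]
    rfl
  · rintro ⟨⟨W, hW, h1⟩, h2⟩
    refine ⟨⟨W, hW, fun g w hw => ?_⟩, fun g k => ?_⟩
    · beta_reduce
      rw [h1 g w hw]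
    · show th A c (x (g * k)) = th A c (x g) +
        ac2 e c κ (KT.act (A.comp e)) (jp g) (th A c (x k))
      rw [h2 g k, th_add, ac2_th X]
      rfl

theorem Z1_ap {B : P →* Matrix (Fin n) (Fin n) F} {ε : P → ZMod 2}
    {x : P → (Fin n → F) × (Fin n → F)} : Z1 T (ap B ε) x ↔ Z1 T (KT.act B) (fun d => (x d).2) ∧
      Sm1 T (fun d => (x d).1) ∧
      IsLift (B : P → Matrix (Fin n) (Fin n) F) ε (fun d => (x d).1) (fun d => (x d).2) := by
  constructor
  · rintro ⟨⟨W, hW, h1⟩, h2⟩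
    refine ⟨⟨⟨W, hW, fun g w hw => ?_⟩, fun g k => ?_⟩, ⟨W, hW, fun g w hw => ?_⟩, fun g k => ?_⟩
    · beta_reduce
      rw [h1 g w hw]
    · exact congrArg Prod.snd (h2 g k)
    · beta_reduce
      rw [h1 g w hw]
    · have h3 : (x (g * k)).1 = (x g).1 + B g *ᵥ ((x k).1 + ε g • (x k).2) :=
        congrArg Prod.fst (h2 g k)
      beta_reduce
      rw [h3, mulVec_add, mulVec_smul, add_assoc]
  · rintro ⟨⟨⟨W, hW, h1⟩, h2⟩, ⟨W', hW', h3⟩, h4⟩
    refine ⟨⟨W ⊓ W', T.inf hW hW', fun g w hw => Prod.ext (h3 g w hw.2) (h1 g w hw.1)⟩,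
      fun g k => Prod.ext ?_ (h2 g k)⟩
    have h5 : (x (g * k)).1 = (x g).1 + (B g *ᵥ (x k).1 + ε g • (B g *ᵥ (x k).2)) := by
      have h6 := h4 g k
      beta_reduce at h6
      rw [h6]
      simp only [add_assoc]
    show (x (g * k)).1 = (x g).1 + B g *ᵥ ((x k).1 + ε g • (x k).2)
    rw [h5, mulVec_add, mulVec_smul]

/-- THE CONDITION AT THE INERT PLACES -/
theorem LY_zur (X : Two e c κ) {In : Subgroup P} (hIn : ∀ d ∈ In, ep e (jp d) = 0)
    (act : IsAct fun d => ac2 e c κ (KT.act (A.comp e)) (jp d))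
    (lin : ∀ (d : P) (a : F) m, ac2 e c κ (KT.act (A.comp e)) (jp d) (a • m) =
      a • ac2 e c κ (KT.act (A.comp e)) (jp d) m) :
    LY A c (zurM T In act lin) = zurL T (A.comp jp) (fun d => ep e (jp d)) In := by
  ext p
  rw [mem_LY, mem_zurM, mem_zur, mem_zurL]
  have e1 : (fun d => (p.1 d, A c *ᵥ (p.1 d + p.2 d))) = fun d => th A c (p.1 d, p.2 d) := rfl
  have e2 : ∀ i ∈ In, ∀ u : (Fin n → F) × (Fin n → F), ac2 e c κ (KT.act (A.comp e)) (jp i)
      (th A c u) = th A c (A (jp i) *ᵥ u.1, A (jp i) *ᵥ u.2) := by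
    intro i hi u
    rw [ac2_th X]
    unfold ap
    rw [hIn i hi, zero_smul, add_zero]
  have e3 : ∀ w v : Fin n → F, w - v = w + v := by
    intro w v
    rw [sub_eq_iff_eq_add, add_assoc, U_add_self, add_zero]
  rw [e1, Z1_th X, Z1_ap]
  constructor
  · rintro ⟨⟨h1, h2, h3⟩, m, hm⟩
    obtain ⟨u, rfl⟩ := th_surj (A := A) X m
    have h4 : ∀ i ∈ In, (p.1 i, p.2 i) = ((A (jp i) *ᵥ u.1, A (jp i) *ᵥ u.2) - u) := by
      intro i hi
      refine th_inj (A := A) X ?_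
      have h5 : th A c (p.1 i, p.2 i) =
          ac2 e c κ (KT.act (A.comp e)) (jp i) (th A c u) - th A c u := hm i hi
      rw [h5, th_sub, ← e2 i hi]
    refine ⟨h1, h2, h3, ⟨u.1, fun i hi => ?_⟩, ⟨u.2, fun i hi => ?_⟩⟩
    · have h5 := congrArg Prod.fst (h4 i hi)
      rw [← e3]
      exact h5
    · have h5 := congrArg Prod.snd (h4 i hi)
      rw [← e3]
      exact h5
  · rintro ⟨h1, h2, h3, ⟨m, hm⟩, k, hk⟩
    refine ⟨⟨h1, h2, h3⟩, th A c (m, k), fun i hi => ?_⟩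
    show th A c (p.1 i, p.2 i) = ac2 e c κ (KT.act (A.comp e)) (jp i) (th A c (m, k)) - th A c (m, k)
    rw [e2 i hi, ← th_sub, hm i hi, hk i hi]
    congr 1
    refine Prod.ext ?_ ?_
    · exact (e3 _ _).symm
    · exact (e3 _ _).symm

end

end Pool.Agent.Work.MP_787500_nt.KI
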