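import Mathlib
import Pool.Agent.Work.MP_787500_nt.KI.Par
import Pool.Agent.Work.MP_787500_nt.KI.InertD
import Pool.Agent.Work.MP_787500_nt.QP.M2

/-!
# The contributions of the ramified places and of infinity

`locPar_ram`, `locPar_inf`: the condition `urY` has the contribution `0` at a ramified place where inertia acts trivially, and `n / 2` at
infinity.
-/

set_option autoImplicit false
set_option linter.unusedSectionVars false

namespace Pool.Agent.Work.MP_787500_nt.KI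

open Matrix
open Pool.Agent.Work.MP_787500_nt.GP (A0 hf hf_add hf_zero IsAct cup11 tw cup11 d1)
open Pool.Agent.Work.MP_787500_nt.KR (FSys Sm1 Sm2 IsChar Smooth Z1 Z2 LocH LDual cup11_Z2)
open Pool.Agent.Work.MP_787500_nt.KT hiding Str Rel Sel KH Ai IsP cc ff TT
open Pool.Agent.Work.MP_787500_nt.KS (ep hfT hfT_smul hfT_neg zmod2_cases inv_zero hf_cup_Z2 sm_eps
  sm1_one smul_F)
open Pool.Agent.Work.MP_787500_nt.QS (Two ac2 be2 la2 Lag HQ selQ QM pB Zq urY mem_urY)
open Pool.Agent.Work.MP_787500_nt.QP (cob_coc RamPl InfPl)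

universe v

variable {F : Type v} [Field F] [Finite F] [CharP F 2] [Algebra (ZMod 2) F] {n : ℕ} [Sy F n]

section lval

variable {P : Type*} [Group P] {T : FSys P} {χ : P → ℤ_[2]} {iv : (P → P → A0) → A0}
  {A : P →* Matrix (Fin n) (Fin n) F} {ε : P → ZMod 2}
  {L : Submodule F ((P → Fin n → F) × (P → Fin n → F))}

/-- THE VALUE at a place where the correction class is a coboundary. -/
theorem lval_cob (Lc : LocH T χ iv) (hA : ∀ g, IsSp (A g)) (hsm : Smooth T (KT.act A))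
    (headd : ∀ g h, ε (g * h) = ε g + ε h) (hes : Sm1 T ε) {v : Fin n → F}
    (hv : ∀ g, kk (A g) = A g *ᵥ v + v) {t : ℕ}
    (htau : iv (fun d d' => hf (ε d * (Module.finrank F (fixv (A d')) : ZMod 2))) = hf (t : ZMod 2))
    (hL : ∀ p ∈ L, Z1 T (KT.act A) p.2 ∧ Sm1 T p.1 ∧
      IsLift (A : P → Matrix (Fin n) (Fin n) F) ε p.1 p.2) : LVal iv A ε L t := by
  intro a ha α
  obtain ⟨h1, h2, h3⟩ := hL _ ha
  have hP := pair_BU Lc.char hA hsm
  -- the cocycle `r`
  obtain ⟨r, hr⟩ : ∃ r : P → Fin n → F, ∀ g, a g = r g + ε g • (A g *ᵥ v) :=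
    ⟨fun g => a g - ε g • (A g *ᵥ v), fun g => (sub_add_cancel _ _).symm⟩
  have h4 := lift_cob hA headd hv
  have hr2 : ∀ g h, r (g * h) = r g + A g *ᵥ r h := by
    intro g h
    have e1 := h3 g h
    have e2 := h4 g h
    dsimp only at e1 e2
    rw [hr, hr g, hr h, e2, mulVec_add] at e1
    have e3 : kc A h = kk (A h) := rfl
    rw [e3] at e1
    exact add_right_cancel (b := ε g • (A g *ᵥ v) + A g *ᵥ ε h • (A h *ᵥ v) +
      ε g • (A g *ᵥ kk (A h))) (by rw [e1]; abel)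
  obtain ⟨W, hW, hAW⟩ := smooth_A hsm
  have hrs : Sm1 T r := by
    obtain ⟨W₁, hW₁, k1⟩ := h2
    obtain ⟨W₂, hW₂, k2⟩ := hes
    refine ⟨W ⊓ (W₁ ⊓ W₂), T.inf hW (T.inf hW₁ hW₂), fun g w hw => ?_⟩
    have e1 : a (g * w) = a g := k1 g w hw.2.1
    rw [hr, hr g, k2 g w hw.2.2] at e1
    have e2 : A (g * w) = A g := by rw [map_mul, hAW w hw.1, mul_one]
    rw [e2] at e1
    exact add_right_cancel e1
  have hrz : Z1 T (KT.act A) r := ⟨hrs, hr2⟩
  have hαr : Z1 T (KT.act A) (α • r) :=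
    (cocS T (A : P → Matrix (Fin n) (Fin n) F)).smul_mem α hrz
  -- the two summands
  have hZ2 : Z2 T (tw χ) (fun d d' => hf (ε d * (Algebra.trace (ZMod 2) F α * tauZ (A d')))) := by
    refine hf_cup_Z2 Lc.char hes ?_ headd (fun g h => ?_)
    · refine ⟨W, hW, fun g w hw => ?_⟩
      beta_reduce
      rw [map_mul, hAW w hw, mul_one]
    · rw [← mul_add, tauZ_mul hA hv]
  have e1 : (fun s t => hfT (α * ee (a s) (A s *ᵥ kc A t) + ε s • (α * mm (A t)))) =
      fun s t => cup11 (KT.act A) BU (α • r) (kc A) s t +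
        hf (ε s * (Algebra.trace (ZMod 2) F α * tauZ (A t))) := by
    funext s t
    have e2 : hf (ε s * (Algebra.trace (ZMod 2) F α * tauZ (A t))) =
        hfT (ε s • (α * (ee v (kk (A t)) + mm (A t)))) := by
      rw [← tauZ_map (hA _) (hv t), hfT_smul, mul_comm α, ← Algebra.smul_def, map_smul,
        smul_eq_mul, mul_comm (tauZ _)]
    rw [e2]
    show _ = hfT (ee (α • r s) (A s *ᵥ kc A t)) + _
    rw [← map_add]
    congr 1
    have e3 : ee (ε s • (A s *ᵥ v)) (A s *ᵥ kc A t) = ε s • ee v (kc A t) :=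
      cup_lift_cob (z := kc A) hA s t
    rw [hr s, ee_add_left, e3, ee_smul_left, mul_add, mul_add, smul_add]
    have e4 : kc A t = kk (A t) := rfl
    rw [e4, mul_smul_comm]
    ring
  rw [e1, Lc.add _ _ (cup11_Z2 hP hαr h1) hZ2]
  have e5 : iv (cup11 (KT.act A) BU (α • r) (kc A)) = 0 := by
    rw [inv_symm Lc hA hsm hαr h1]
    exact inv_cob_left Lc hA hsm ⟨v, hv⟩ hαr
  rw [e5, zero_add]
  rcases zmod2_cases (Algebra.trace (ZMod 2) F α) with h | h
  · rw [h]
    simp only [zero_mul, mul_zero, hf_zero]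
    exact inv_zero Lc
  · rw [h]
    simp only [one_mul]
    exact htau

end lval

section ur

variable {G Γ : Type*} [Group G] [Group Γ] {e : G →* Γ} {c : Γ} {κ : G →* G}
  {A : Γ →* Matrix (Fin n) (Fin n) F} {P : Type*} [Group P] {T : FSys P} {jp : P →* Γ}
  {χ : P → ℤ_[2]} {iv : (P → P → A0) → A0}

/-- the pairs of the condition `urY` -/
theorem mem_LY_ur (X : Two e c κ) {In : Set P}
    (act : IsAct fun d => ac2 e c κ (KT.act (A.comp e)) (jp d))
    (lin : ∀ (d : P) (a : F) m, ac2 e c κ (KT.act (A.comp e)) (jp d) (a • m) =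
      a • ac2 e c κ (KT.act (A.comp e)) (jp d) m)
    {p : (P → Fin n → F) × (P → Fin n → F)} :
    p ∈ LY A c (urY T act lin In) ↔ (Z1 T (KT.act (A.comp jp)) p.2 ∧ Sm1 T p.1 ∧
      IsLift (A.comp jp : P → Matrix (Fin n) (Fin n) F) (fun d => ep e (jp d)) p.1 p.2) ∧
      ∀ d ∈ In, p.1 d = 0 ∧ p.2 d = 0 := by
  rw [mem_LY, mem_urY]
  have e1 : (fun d => (p.1 d, A c *ᵥ (p.1 d + p.2 d))) = fun d => th A c (p.1 d, p.2 d) := rfl
  rw [e1, Z1_th X, Z1_ap]
  refine and_congr Iff.rfl (forall_congr' fun d => forall_congr' fun _ => ?_)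
  constructor
  · intro h
    have h1 : th A c (p.1 d, p.2 d) = th A c (0, 0) := by
      refine h.trans (Prod.ext rfl ?_)
      show (0 : Fin n → F) = A c *ᵥ (0 + 0)
      rw [add_zero, mulVec_zero]
    have h2 := th_inj (A := A) X h1
    exact ⟨congrArg Prod.fst h2, congrArg Prod.snd h2⟩
  · rintro ⟨h1, h2⟩
    refine Prod.ext h1 ?_
    show A c *ᵥ (p.1 d + p.2 d) = 0
    rw [h1, h2, add_zero, mulVec_zero]

/-- the contribution of the condition `urY`, general form -/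
theorem locPar_ur (X : Two e c κ) (Lc : LocH T χ iv) (hsp : ∀ g, IsSp (A g))
    (hsm : Smooth T (KT.act (A.comp jp))) (hes : Sm1 T fun d => ep e (jp d)) {In : Set P}
    (act : IsAct fun d => ac2 e c κ (KT.act (A.comp e)) (jp d))
    (lin : ∀ (d : P) (a : F) m, ac2 e c κ (KT.act (A.comp e)) (jp d) (a • m) =
      a • ac2 e c κ (KT.act (A.comp e)) (jp d) m)
    (hY : Lag T iv (fun d => ac2 e c κ (KT.act (A.comp e)) (jp d)) (be2 (bC A c))
      (fun (a : F) d => la2 e c κ (KT.act (A.comp e)) (bC A c) a (jp d)) (urY T act lin In))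
    {g₀ : P} (hcyc : ∀ d, ∃ m : ℕ, A (jp d) = A (jp g₀) ^ m) {t m : ℕ}
    (htau : iv (fun d d' => hf (ep e (jp d) * (Module.finrank F (fixv (A (jp d'))) : ZMod 2))) =
      hf (t : ZMod 2))
    (hIn : ∀ d ∈ In, A (jp d) = 1 ∧ ep e (jp d) = 0)
    (hunr : ∀ a y : P → Fin n → F, Z1 T (KT.act (A.comp jp)) y → Sm1 T a →
      IsLift (A.comp jp : P → Matrix (Fin n) (Fin n) F) (fun d => ep e (jp d)) a y →
      ((∀ d ∈ In, a d = 0) ↔ ∃ p : Fin n → F, ∀ d, y d = A (jp d) *ᵥ p + p))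
    (hnum : Module.finrank F (cocS T (A.comp jp : P → Matrix (Fin n) (Fin n) F)) =
      Module.finrank F (cobS (A.comp jp : P → Matrix (Fin n) (Fin n) F)) + 2 * m) {δ : ℕ}
    (hδ : Even (m + t + δ)) : LocPar T jp iv e c κ A (urY T act lin In) δ := by
  obtain ⟨v, hv⟩ := kk_cob_cyclic (A := A.comp jp) (fun g => hsp _) g₀ hcyc
  have hadd : ∀ g h, ep e (jp (g * h)) = ep e (jp g) + ep e (jp h) := fun g h => by
    rw [map_mul, QP.ep_add2 X]
  have hz0 : Z1 T (KT.act (A.comp jp)) (0 : P → Fin n → F) :=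
    (cocS T (A.comp jp : P → Matrix (Fin n) (Fin n) F)).zero_mem
  have hlift0 : ∀ r : P → Fin n → F, Z1 T (KT.act (A.comp jp)) r →
      IsLift (A.comp jp : P → Matrix (Fin n) (Fin n) F) (fun d => ep e (jp d)) r 0 := by
    intro r hr g h
    show r (g * h) = r g + A (jp g) *ᵥ r h + ep e (jp g) • (A (jp g) *ᵥ 0)
    rw [mulVec_zero, smul_zero, add_zero]
    exact hr.2 g h
  refine ⟨urY T act lin In, t, m, hY, ?_, ?_, ?_⟩
  · exact lval_cob Lc (fun g => hsp _) hsm hadd hes hv htau fun p hp =>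
      ((mem_LY_ur X act lin).1 hp).1
  · have hR : R1 (LY A c (urY T act lin In)) =
        cocS T (A.comp jp : P → Matrix (Fin n) (Fin n) F) := by
      ext r
      rw [mem_R1, mem_LY_ur X]
      constructor
      · rintro ⟨⟨-, h2, h3⟩, -⟩
        refine ⟨h2, fun g h => ?_⟩
        have h4 := h3 g h
        dsimp only at h4
        rw [h4]
        show r g + _ + _ • (_ *ᵥ 0) = _
        rw [mulVec_zero, smul_zero, add_zero]
        rfl
      · intro hr
        have hr' : Z1 T (KT.act (A.comp jp)) r := hr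
        refine ⟨⟨hz0, hr'.1, hlift0 r hr'⟩, fun d hd => ⟨?_, rfl⟩⟩
        refine (hunr r 0 hz0 hr'.1 (hlift0 r hr')).2 ⟨0, fun d => ?_⟩ d hd
        rw [mulVec_zero, add_zero]
        rfl
    have hYY : Y2 (LY A c (urY T act lin In)) =
        cobS (A.comp jp : P → Matrix (Fin n) (Fin n) F) := by
      ext y
      rw [mem_Y2]
      constructor
      · rintro ⟨a, ha⟩
        obtain ⟨⟨h1, h2, h3⟩, h4⟩ := (mem_LY_ur X act lin).1 ha
        exact (hunr a y h1 h2 h3).1 fun d hd => (h4 d hd).1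
      · rintro ⟨p, hp⟩
        have h1 : Z1 T (KT.act (A.comp jp)) y := cob_coc hsm ⟨p, hp⟩
        refine ⟨fun g => ep e (jp g) • (A (jp g) *ᵥ p), (mem_LY_ur X act lin).2
          ⟨⟨h1, ?_, lift_cob (A := A.comp jp) (fun g => hsp _) hadd hp⟩, fun d hd => ⟨?_, ?_⟩⟩⟩
        · obtain ⟨W, hW, k1⟩ := smooth_A hsm
          obtain ⟨W', hW', k2⟩ := hes
          refine ⟨W ⊓ W', T.inf hW hW', fun g w hw => ?_⟩
          have k3 : A (jp w) = 1 := k1 w hw.1
          have k4 : ep e (jp (g * w)) = ep e (jp g) := k2 g w hw.2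
          show ep e (jp (g * w)) • (A (jp (g * w)) *ᵥ p) = ep e (jp g) • (A (jp g) *ᵥ p)
          rw [k4, map_mul, map_mul, k3, mul_one]
        · show ep e (jp d) • (A (jp d) *ᵥ p) = 0
          rw [(hIn d hd).2, zero_smul]
        · have h5 := hp d
          have h6 : (A.comp jp : P → Matrix (Fin n) (Fin n) F) d = 1 := (hIn d hd).1
          rw [h6, one_mulVec] at h5
          show y d = 0
          rw [h5]
          ext i
          exact add_self (p i)
    rw [hR, hYY, hnum]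
    push_cast
    ring
  · rw [inf_idem]
    obtain ⟨r, hr⟩ := hδ
    refine ⟨r + Module.finrank F (urY T act lin In), ?_⟩
    omega

/-- THE CONTRIBUTION OF A RAMIFIED PLACE. -/
theorem locPar_ram (X : Two e c κ) {χq : Γ → ℤ_[2]} (Lc : LocH T χ iv) (hsp : ∀ g, IsSp (A g))
    (hsm : Smooth T (KT.act (A.comp jp))) (hes : Sm1 T fun d => ep e (jp d)) {In : Set P}
    {J : Subgroup P} (R : RamPl T jp iv χq (ep e) In J) (hJ : ∀ d ∈ J, A (jp d) = 1)
    (act : IsAct fun d => ac2 e c κ (KT.act (A.comp e)) (jp d))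
    (lin : ∀ (d : P) (a : F) m, ac2 e c κ (KT.act (A.comp e)) (jp d) (a • m) =
      a • ac2 e c κ (KT.act (A.comp e)) (jp d) m)
    (hY : Lag T iv (fun d => ac2 e c κ (KT.act (A.comp e)) (jp d)) (be2 (bC A c))
      (fun (a : F) d => la2 e c κ (KT.act (A.comp e)) (bC A c) a (jp d)) (urY T act lin In)) :
    LocPar T jp iv e c κ A (urY T act lin In) 0 := by
  obtain ⟨⟨g₀, h1⟩, m, h2, h3⟩ := R.num hsm hJ hsp
  exact locPar_ur X Lc hsp hsm hes act lin hY h1 h3
    (fun d hd => ⟨hJ d ((R.mem d).1 hd).1, ((R.mem d).1 hd).2⟩)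
    (fun a y hy ha hc => R.unr hsm hJ hy ha hc) h2 ⟨m, by ring⟩

/-- THE CONTRIBUTION OF INFINITY. -/
theorem locPar_inf (X : Two e c κ) {χq : Γ → ℤ_[2]} (Lc : LocH T χ iv) (hsp : ∀ g, IsSp (A g))
    (hsm : Smooth T (KT.act (A.comp jp))) (hes : Sm1 T fun d => ep e (jp d)) {In : Set P}
    {t₀ : P} (R : InfPl T jp iv χq c In t₀)
    (act : IsAct fun d => ac2 e c κ (KT.act (A.comp e)) (jp d))
    (lin : ∀ (d : P) (a : F) m, ac2 e c κ (KT.act (A.comp e)) (jp d) (a • m) =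
      a • ac2 e c κ (KT.act (A.comp e)) (jp d) m)
    (hY : Lag T iv (fun d => ac2 e c κ (KT.act (A.comp e)) (jp d)) (be2 (bC A c))
      (fun (a : F) d => la2 e c κ (KT.act (A.comp e)) (bC A c) a (jp d)) (urY T act lin In)) :
    LocPar T jp iv e c κ A (urY T act lin In) (n / 2) := by
  have h0 : ep e (1 : Γ) = 0 := by
    rw [← map_one e]
    exact QP.ep_e 1
  obtain ⟨⟨g₀, h1⟩, m, r, h2, h3, h4⟩ := R.num h0 (QP.ep_c X) (A := A)
  refine locPar_ur X Lc hsp hsm hes act lin hY h1 h4 (fun d hd => ?_)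
    (fun a y hy ha hc => R.unr (QP.ep_c X) hy hc) h2 h3
  rw [R.mem d hd, map_one, map_one]
  exact ⟨rfl, h0⟩

end ur

end Pool.Agent.Work.MP_787500_nt.KI
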