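import Mathlib
import Pool.Agent.Work.MP_787500_nt.KI.Par
import Pool.Agent.Work.MP_787500_nt.QP.M2

/-!
# The distance of a condition from a self-annihilating condition

`exists_locForm`: the form over `F` on the local cocycles; `dist_even`.
-/

set_option autoImplicit false
set_option linter.unusedSectionVars false

namespace Pool.Agent.Work.MP_787500_nt.KI

open Matrix
open Pool.Agent.Work.MP_787500_nt.GP (A0 hf IsAct cup11)
open Pool.Agent.Work.MP_787500_nt.KR (FSys Sm1 IsChar Smooth Z1 LocH LDual)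
open Pool.Agent.Work.MP_787500_nt.KT hiding Str Rel Sel KH Ai IsP cc ff TT
open Pool.Agent.Work.MP_787500_nt.KS (ann mem_ann finrank_ann ann_ann ker_le_ann trace_trick hfT hfT_nondeg)
open Pool.Agent.Work.MP_787500_nt.QP (cob_coc)

section la

variable {F : Type*} [Field F] {W : Type*} [AddCommGroup W] [Module F W] [FiniteDimensional F W]

theorem ann_sup {b : W →ₗ[F] W →ₗ[F] F} (A B : Submodule F W) :
    ann b (A ⊔ B) = ann b A ⊓ ann b B := by
  ext x
  constructor
  · intro h
    exact ⟨fun y hy => h y (Submodule.mem_sup_left hy), fun y hy => h y (Submodule.mem_sup_right hy)⟩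
  · rintro ⟨h1, h2⟩ y hy
    obtain ⟨u, hu, v, hv, rfl⟩ := Submodule.mem_sup.1 hy
    rw [map_add, h1 u hu, h2 v hv, add_zero]

/-- the parity of the distance, linear algebra -/
theorem la_dist {b : W →ₗ[F] W →ₗ[F] F} (hs : ∀ x y, b x y = b y x) {A X : Submodule F W}
    (hA : LinearMap.ker b ≤ A) (hX : ann b X = X) :
    Even (Module.finrank F A + Module.finrank F (ann b A) + Module.finrank F ↥(A ⊓ X) +
      Module.finrank F ↥(ann b A ⊓ X) + Module.finrank F A + Module.finrank F X) := by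
  have h1 := finrank_ann hs hA
  have hXk : LinearMap.ker b ≤ X := by
    rw [← hX]
    exact ker_le_ann X
  have h2 := finrank_ann hs hXk
  rw [hX] at h2
  have h3 := finrank_ann hs (N := A ⊔ X) (hA.trans le_sup_left)
  rw [ann_sup, hX] at h3
  have h4 := Submodule.finrank_sup_add_finrank_inf_eq A X
  exact ⟨Module.finrank F X + Module.finrank F ↥(A ⊓ X) + Module.finrank F X, by omega⟩

end la

variable {F : Type*} [Field F] [Finite F] [CharP F 2] [Algebra (ZMod 2) F] {n : ℕ} [Sy F n]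

variable {D : Type*} [Group D] {SD : FSys D} {χ : D → ℤ_[2]} {inv : (D → D → A0) → A0}
  {A : D →* Matrix (Fin n) (Fin n) F}

/-- the form on the local cocycles -/
theorem exists_locForm (L : LocH SD χ inv) (hA : ∀ g, IsSp (A g))
    (hs : Smooth SD (KT.act (A : D → Matrix (Fin n) (Fin n) F)))
    (ld : LDual SD inv (KT.act (A : D → Matrix (Fin n) (Fin n) F))
      (KT.act (A : D → Matrix (Fin n) (Fin n) F)) (BU : (Fin n → F) →+ (Fin n → F) →+ A0)) :
    ∃ b : cocS SD (A : D → Matrix (Fin n) (Fin n) F) →ₗ[F]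
        cocS SD (A : D → Matrix (Fin n) (Fin n) F) →ₗ[F] F,
      (∀ x y, b x y = b y x) ∧
      (∀ x : cocS SD (A : D → Matrix (Fin n) (Fin n) F), x ∈ LinearMap.ker b ↔
        x.1 ∈ cobS (A : D → Matrix (Fin n) (Fin n) F)) ∧
      ∀ (Y : Submodule F (D → Fin n → F)), Y ≤ cocS SD (A : D → Matrix (Fin n) (Fin n) F) →
        ∀ x : cocS SD (A : D → Matrix (Fin n) (Fin n) F),
        (∀ y ∈ Y.comap (cocS SD (A : D → Matrix (Fin n) (Fin n) F)).subtype, b x y = 0) ↔
          ∀ y ∈ Y, inv (cup11 (KT.act (A : D → Matrix (Fin n) (Fin n) F)) BU x.1 y) = 0 := by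
  let τ : cocS SD (A : D → Matrix (Fin n) (Fin n) F) →+
      cocS SD (A : D → Matrix (Fin n) (Fin n) F) →+ A0 :=
    AddMonoidHom.mk' (fun z => AddMonoidHom.mk' (fun t =>
        inv (cup11 (KT.act (A : D → Matrix (Fin n) (Fin n) F)) BU z.1 t.1))
        (fun t t' => inv_add_right L hA hs z.2 t.2 t'.2))
      (fun z z' => by
        refine DFunLike.ext _ _ fun t => ?_
        exact inv_add_left L hA hs z.2 z'.2 t.2)
  have hτ : ∀ z t, τ z t = inv (cup11 (KT.act (A : D → Matrix (Fin n) (Fin n) F)) BU z.1 t.1) :=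
    fun _ _ => rfl
  have hbal : ∀ (c : F) y z, τ (c • y) z = τ y (c • z) := by
    intro c y z
    rw [hτ, hτ]
    congr 1
    exact cup_smul c y.1 z.1
  obtain ⟨b, hb⟩ := trace_trick τ hbal
  have hone : ∀ y z, τ y z = hfT (b y z) := by
    intro y z
    have := hb 1 y z
    rwa [one_smul, one_mul] at this
  have hsym : ∀ x y, b x y = b y x := by
    intro x y
    rw [← sub_eq_zero]
    refine hfT_nondeg fun a => ?_
    rw [mul_sub, map_sub, ← hb, ← hb, hbal, sub_eq_zero, hτ, hτ]
    exact inv_symm L hA hs x.2 (a • y).2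
  refine ⟨b, hsym, fun x => ?_, fun Y hY x => ?_⟩
  · rw [LinearMap.mem_ker]
    constructor
    · intro h
      obtain ⟨m, hm⟩ := ld.one x.1 x.2 fun y hy => by
        have h1 := hone x ⟨y, hy⟩
        rw [h, LinearMap.zero_apply, map_zero, hτ] at h1
        exact h1
      exact ⟨m, fun g => by rw [hm, d0_act]⟩
    · rintro h
      refine LinearMap.ext fun y => ?_
      rw [LinearMap.zero_apply]
      refine hfT_nondeg fun a => ?_
      rw [← hb, hbal, hτ]
      exact inv_cob_left L hA hs h (a • y).2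
  · constructor
    · intro h y hy
      have h1 := hone x ⟨y, hY hy⟩
      rw [h ⟨y, hY hy⟩ hy, map_zero, hτ] at h1
      exact h1
    · intro h y hy
      refine hfT_nondeg fun a => ?_
      rw [← hb, hbal, hτ]
      exact h _ (Y.smul_mem a hy)

/-- THE PARITY OF THE DISTANCE. -/
theorem dist_even (L : LocH SD χ inv) (hA : ∀ g, IsSp (A g))
    (hs : Smooth SD (KT.act (A : D → Matrix (Fin n) (Fin n) F)))
    (ld : LDual SD inv (KT.act (A : D → Matrix (Fin n) (Fin n) F))
      (KT.act (A : D → Matrix (Fin n) (Fin n) F)) (BU : (Fin n → F) →+ (Fin n → F) →+ A0))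
    {Y Y' X : Submodule F (D → Fin n → F)}
    (hY : Y ≤ cocS SD (A : D → Matrix (Fin n) (Fin n) F))
    (hcob : cobS (A : D → Matrix (Fin n) (Fin n) F) ≤ Y)
    (hY' : ∀ x, x ∈ Y' ↔ Z1 SD (KT.act (A : D → Matrix (Fin n) (Fin n) F)) x ∧
      ∀ y ∈ Y, inv (cup11 (KT.act (A : D → Matrix (Fin n) (Fin n) F)) BU x y) = 0)
    (hX : ∀ x, x ∈ X ↔ Z1 SD (KT.act (A : D → Matrix (Fin n) (Fin n) F)) x ∧
      ∀ y ∈ X, inv (cup11 (KT.act (A : D → Matrix (Fin n) (Fin n) F)) BU x y) = 0) :
    Even (Module.finrank F Y + Module.finrank F Y' + Module.finrank F ↥(Y ⊓ X) +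
      Module.finrank F ↥(Y' ⊓ X) + Module.finrank F Y + Module.finrank F X) := by
  have hfin : Finite (cocS SD (A : D → Matrix (Fin n) (Fin n) F)) := ld.fin
  have hfd : FiniteDimensional F (cocS SD (A : D → Matrix (Fin n) (Fin n) F)) := Module.Finite.of_finite
  obtain ⟨b, hb1, hb2, hb3⟩ := exists_locForm L hA hs ld
  have hXZ : X ≤ cocS SD (A : D → Matrix (Fin n) (Fin n) F) := fun x hx => ((hX x).1 hx).1
  have hY'Z : Y' ≤ cocS SD (A : D → Matrix (Fin n) (Fin n) F) := fun x hx => ((hY' x).1 hx).1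
  have hr : ∀ N : Submodule F (D → Fin n → F), N ≤ cocS SD (A : D → Matrix (Fin n) (Fin n) F) →
      Module.finrank F (N.comap (cocS SD (A : D → Matrix (Fin n) (Fin n) F)).subtype) = Module.finrank F N := fun N hN =>
    (Submodule.comapSubtypeEquivOfLe hN).finrank_eq
  have e1 : ann b (Y.comap (cocS SD (A : D → Matrix (Fin n) (Fin n) F)).subtype) = Y'.comap (cocS SD (A : D → Matrix (Fin n) (Fin n) F)).subtype := by
    ext x
    refine (hb3 Y hY x).trans ?_
    rw [Submodule.mem_comap, Submodule.coe_subtype, hY']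
    exact ⟨fun h => ⟨x.2, h⟩, fun h => h.2⟩
  have e2 : ann b (X.comap (cocS SD (A : D → Matrix (Fin n) (Fin n) F)).subtype) = X.comap (cocS SD (A : D → Matrix (Fin n) (Fin n) F)).subtype := by
    ext x
    refine (hb3 X hXZ x).trans ?_
    rw [Submodule.mem_comap, Submodule.coe_subtype, hX]
    exact ⟨fun h => ⟨x.2, h⟩, fun h => h.2⟩
  have h1 := la_dist hb1 (A := Y.comap (cocS SD (A : D → Matrix (Fin n) (Fin n) F)).subtype) (X := X.comap (cocS SD (A : D → Matrix (Fin n) (Fin n) F)).subtype)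
    (fun x hx => hcob ((hb2 x).1 hx)) e2
  rw [e1, ← Submodule.comap_inf, ← Submodule.comap_inf, hr Y hY, hr Y' hY'Z,
    hr (Y ⊓ X) (inf_le_left.trans hY), hr (Y' ⊓ X) (inf_le_left.trans hY'Z), hr X hXZ] at h1
  exact h1

end Pool.Agent.Work.MP_787500_nt.KI
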