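import Mathlib
import Pool.Agent.Work.MP_787500_nt.KI.Dist

/-!
# The contribution of a place that splits

`locPar_split`: for a condition `prY Λ Λ'` at a place whose group comes from the quadratic field the contribution is
`finrank Λ + N`, `2 N = finrank Z¹ + finrank B¹`.
-/

set_option autoImplicit false
set_option linter.unusedSectionVars false

namespace Pool.Agent.Work.MP_787500_nt.KI

open Matrix
open Pool.Agent.Work.MP_787500_nt.GP (A0 hf IsAct cup11 tw)
open Pool.Agent.Work.MP_787500_nt.KR (FSys Sm1 IsChar Smooth Z1 Z2 LocH LDual cup11_Z2)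
open Pool.Agent.Work.MP_787500_nt.KT hiding Str Rel Sel KH Ai IsP cc ff TT
open Pool.Agent.Work.MP_787500_nt.KS (ep hfT hfT_neg)
open Pool.Agent.Work.MP_787500_nt.QS (Two ac2 be2 la2 Lag HQ selQ QM pB Zq pB_apply be2_apply prY
  mem_prY)
open Pool.Agent.Work.MP_787500_nt.QP (cob_coc c_e ep_e exists_locLag)

universe v

variable {F : Type v} [Field F] [Finite F] [CharP F 2] [Algebra (ZMod 2) F] {n : ℕ} [Sy F n]
  {G Γ : Type*} [Group G] [Group Γ] {e : G →* Γ} {c : Γ} {κ : G →* G}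
  {A : Γ →* Matrix (Fin n) (Fin n) F}

theorem A_inv (X : Two e c κ) (u : Fin n → F) : A c *ᵥ (A c *ᵥ u) = u := by
  rw [mulVec_mulVec, ← map_mul, X.cc, map_one, one_mulVec]

theorem A_kap (X : Two e c κ) (g : G) (u : Fin n → F) :
    A c *ᵥ (A (e (κ g)) *ᵥ u) = A (e g) *ᵥ (A c *ᵥ u) := by
  rw [mulVec_mulVec, mulVec_mulVec, ← map_mul, ← map_mul, c_e X, X.kk]

/-- multiplication by `A c` -/
def mc (X : Two e c κ) (A : Γ →* Matrix (Fin n) (Fin n) F) (P : Type*) :
    (P → Fin n → F) ≃ₗ[F] (P → Fin n → F) where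
  toFun z d := A c *ᵥ z d
  invFun z d := A c *ᵥ z d
  map_add' z z' := funext fun d => mulVec_add _ _ _
  map_smul' a z := by
    funext d
    show A c *ᵥ (a • z d) = a • (A c *ᵥ z d)
    rw [mulVec_smul]
  left_inv z := funext fun d => A_inv X _
  right_inv z := funext fun d => A_inv X _

theorem mc_apply (X : Two e c κ) {P : Type*} (z : P → Fin n → F) (d : P) :
    mc X A P z d = A c *ᵥ z d := rfl

theorem mc_mc (X : Two e c κ) {P : Type*} (z : P → Fin n → F) : mc X A P (mc X A P z) = z :=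
  funext fun _ => A_inv X _

theorem finrank_mc (X : Two e c κ) {P : Type*} (N : Submodule F (P → Fin n → F)) :
    Module.finrank F (N.comap (mc X A P : (P → Fin n → F) →ₗ[F] (P → Fin n → F))) =
      Module.finrank F N := by
  have h : N.comap (mc X A P : (P → Fin n → F) →ₗ[F] (P → Fin n → F)) =
      N.map ((mc X A P).symm : (P → Fin n → F) →ₗ[F] (P → Fin n → F)) :=
    Submodule.comap_equiv_eq_map_symm _ _
  rw [h]
  exact LinearEquiv.finrank_map_eq _ _

theorem finrank_prY {P : Type*} (M M' : Submodule F (P → Fin n → F)) [FiniteDimensional F M]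
    [FiniteDimensional F M'] :
    Module.finrank F (prY M M') = Module.finrank F M + Module.finrank F M' := by
  have E : prY M M' ≃ₗ[F] M × M' :=
    { toFun := fun x => (⟨_, x.2.1⟩, ⟨_, x.2.2⟩)
      map_add' := fun _ _ => rfl
      map_smul' := fun _ _ => rfl
      invFun := fun y => ⟨fun d => (y.1.1 d, y.2.1 d), y.1.2, y.2.2⟩
      left_inv := fun _ => rfl
      right_inv := fun _ => rfl }
  rw [E.finrank_eq, Module.finrank_prod]

section split

variable {P : Type*} [Group P] {T : FSys P} {jj : P →* G} {χ : P → ℤ_[2]} {iv : (P → P → A0) → A0}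

theorem z1_split (X : Two e c κ) {x : P → (Fin n → F) × (Fin n → F)} :
    Z1 T (fun d => ac2 e c κ (KT.act (A.comp e)) ((e.comp jj) d)) x ↔
      Z1 T (KT.act (A.comp (e.comp jj))) (fun d => (x d).1) ∧
      Z1 T (KT.act (A.comp (e.comp jj))) (mc X A P fun d => (x d).2) := by
  have hac : ∀ d v, ac2 e c κ (KT.act (A.comp e)) ((e.comp jj) d) v =
      (A (e (jj d)) *ᵥ v.1, A (e (κ (jj d))) *ᵥ v.2) := fun d v => X.ac_e (jj d) v
  have hinj : ∀ u v : Fin n → F, A c *ᵥ u = A c *ᵥ v → u = v := fun u v h => by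
    rw [← A_inv (A := A) X u, h, A_inv X]
  constructor
  · rintro ⟨⟨W, hW, h1⟩, h2⟩
    refine ⟨⟨⟨W, hW, fun g w hw => by simp only [h1 g w hw]⟩, fun g h => ?_⟩,
      ⟨⟨W, hW, fun g w hw => by simp only [mc_apply, h1 g w hw]⟩, fun g h => ?_⟩⟩
    · have h3 : x (g * h) = x g + (A (e (jj g)) *ᵥ (x h).1, A (e (κ (jj g))) *ᵥ (x h).2) := by
        rw [← hac]
        exact h2 g h
      exact congrArg Prod.fst h3
    · have h3 : x (g * h) = x g + (A (e (jj g)) *ᵥ (x h).1, A (e (κ (jj g))) *ᵥ (x h).2) := by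
        rw [← hac]
        exact h2 g h
      have h4 : (x (g * h)).2 = (x g).2 + A (e (κ (jj g))) *ᵥ (x h).2 := congrArg Prod.snd h3
      show A c *ᵥ (x (g * h)).2 = A c *ᵥ (x g).2 + A (e (jj g)) *ᵥ (A c *ᵥ (x h).2)
      rw [h4, mulVec_add, A_kap X]
  · rintro ⟨⟨⟨W, hW, h1⟩, h2⟩, ⟨⟨W', hW', h1'⟩, h2'⟩⟩
    refine ⟨⟨W ⊓ W', T.inf hW hW', fun g w hw => Prod.ext (h1 g w hw.1) (hinj _ _ (h1' g w hw.2))⟩,
      fun g h => ?_⟩
    show x (g * h) = x g + ac2 e c κ (KT.act (A.comp e)) ((e.comp jj) g) (x h)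
    rw [hac]
    refine Prod.ext (h2 g h) (hinj _ _ ?_)
    rw [Prod.snd_add, mulVec_add, A_kap X]
    exact h2' g h

theorem pair_split (X : Two e c κ) (L : LocH T χ iv) (hsp : ∀ g, IsSp (A g))
    (hsm : Smooth T (KT.act (A.comp (e.comp jj)))) {x y : P → (Fin n → F) × (Fin n → F)}
    (hx1 : Z1 T (KT.act (A.comp (e.comp jj))) (fun d => (x d).1))
    (hx2 : Z1 T (KT.act (A.comp (e.comp jj))) (mc X A P fun d => (x d).2))
    (hy1 : Z1 T (KT.act (A.comp (e.comp jj))) (fun d => (y d).1))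
    (hy2 : Z1 T (KT.act (A.comp (e.comp jj))) (mc X A P fun d => (y d).2)) :
    iv (cup11 (fun d => ac2 e c κ (KT.act (A.comp e)) ((e.comp jj) d)) (pB (be2 (bC A c))) x y) =
      iv (cup11 (KT.act (A.comp (e.comp jj))) BU (fun d => (x d).1) (mc X A P fun d => (y d).2)) +
      iv (cup11 (KT.act (A.comp (e.comp jj))) BU (mc X A P fun d => (x d).2) (fun d => (y d).1)) := by
  have hp := pair_BU L.char (A := A.comp (e.comp jj)) (fun g => hsp _) hsm
  rw [← L.add _ _ (cup11_Z2 hp hx1 hy2) (cup11_Z2 hp hx2 hy1)]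
  congr 1
  funext s t
  have hac : ac2 e c κ (KT.act (A.comp e)) ((e.comp jj) s) (y t) =
      (A (e (jj s)) *ᵥ (y t).1, A (e (κ (jj s))) *ᵥ (y t).2) := X.ac_e (jj s) (y t)
  show pB (be2 (bC A c)) (x s) (ac2 e c κ (KT.act (A.comp e)) ((e.comp jj) s) (y t)) =
    hfT (ee (x s).1 (A (e (jj s)) *ᵥ (A c *ᵥ (y t).2))) +
      hfT (ee (A c *ᵥ (x s).2) (A (e (jj s)) *ᵥ (y t).1))
  rw [hac, pB_apply, be2_apply, be2_apply, bC_apply, bC_apply, A_kap X, sub_eq_add_neg, hfT_neg,
    ee_comm (A (e (jj s)) *ᵥ (y t).1)]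

theorem zq_split (X : Two e c κ) (a : F) (x : P → (Fin n → F) × (Fin n → F)) :
    Zq (fun d => ac2 e c κ (KT.act (A.comp e)) ((e.comp jj) d)) (be2 (bC A c))
      (fun (a : F) d => la2 e c κ (KT.act (A.comp e)) (bC A c) a ((e.comp jj) d)) a x =
    cup11 (KT.act (A.comp (e.comp jj))) BU (a • fun d => (x d).1) (mc X A P fun d => (x d).2) := by
  funext s t
  have hac : ac2 e c κ (KT.act (A.comp e)) ((e.comp jj) s) (x t) =
      (A (e (jj s)) *ᵥ (x t).1, A (e (κ (jj s))) *ᵥ (x t).2) := X.ac_e (jj s) (x t)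
  have hla : la2 e c κ (KT.act (A.comp e)) (bC A c) a ((e.comp jj) s) (x t) = 0 :=
    X.la_e (bC A c) a (jj s) (x t)
  show be2 (bC A c) (a • x s) (ac2 e c κ (KT.act (A.comp e)) ((e.comp jj) s) (x t)) +
    la2 e c κ (KT.act (A.comp e)) (bC A c) a ((e.comp jj) s) (x t) =
    hfT (ee (a • (x s).1) (A (e (jj s)) *ᵥ (A c *ᵥ (x t).2)))
  rw [hac, hla, add_zero, be2_apply, bC_apply, A_kap X, Prod.smul_fst]

/-- THE CONTRIBUTION OF A PLACE THAT SPLITS. -/
theorem locPar_split (X : Two e c κ) (L : LocH T χ iv) (hsp : ∀ g, IsSp (A g))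
    (hsm : Smooth T (KT.act (A.comp (e.comp jj))))
    (ld : LDual T iv (KT.act (A.comp (e.comp jj))) (KT.act (A.comp (e.comp jj)))
      (BU : (Fin n → F) →+ (Fin n → F) →+ A0)) {M M' : Submodule F (P → Fin n → F)}
    (hY : Lag T iv (fun d => ac2 e c κ (KT.act (A.comp e)) ((e.comp jj) d)) (be2 (bC A c))
      (fun (a : F) d => la2 e c κ (KT.act (A.comp e)) (bC A c) a ((e.comp jj) d)) (prY M M')) {N : ℕ}
    (hN : Module.finrank F (cocS T (A.comp (e.comp jj) : P → Matrix (Fin n) (Fin n) F)) +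
      Module.finrank F (cobS (A.comp (e.comp jj) : P → Matrix (Fin n) (Fin n) F)) = 2 * N) {δ : ℕ}
    (hδ : Even (Module.finrank F M + N + δ)) :
    LocPar T (e.comp jj) iv e c κ A (prY M M') δ := by
  have hB : ∀ g, IsSp ((A.comp (e.comp jj)) g) := fun g => hsp _
  obtain ⟨X₀, hX1, hX2, hX3⟩ := exists_locLag L hB hsm ld ⟨N, by omega⟩
  have hXZ : ∀ x ∈ X₀, Z1 T (KT.act (A.comp (e.comp jj))) x := fun x hx => ((hX1 x).1 hx).1
  have hfinZ : Finite (cocS T (A.comp (e.comp jj) : P → Matrix (Fin n) (Fin n) F)) := ld.fin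
  have hfdZ : FiniteDimensional F (cocS T (A.comp (e.comp jj) : P → Matrix (Fin n) (Fin n) F)) :=
    Module.Finite.of_finite
  have hz0 : Z1 T (KT.act (A.comp (e.comp jj))) (0 : P → Fin n → F) :=
    (cocS T (A.comp (e.comp jj) : P → Matrix (Fin n) (Fin n) F)).zero_mem
  have hfd : ∀ N : Submodule F (P → Fin n → F),
      N ≤ cocS T (A.comp (e.comp jj) : P → Matrix (Fin n) (Fin n) F) → FiniteDimensional F N :=
    fun N hN => Submodule.finiteDimensional_of_le hN
  have hiv0 : ∀ y : P → Fin n → F,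
      iv (cup11 (KT.act (A.comp (e.comp jj))) BU (0 : P → Fin n → F) y) = 0 := by
    intro y
    have e1 : cup11 (KT.act (A.comp (e.comp jj))) BU (0 : P → Fin n → F) y = fun _ _ => 0 := by
      funext s t
      show BU 0 _ = 0
      rw [map_zero, AddMonoidHom.zero_apply]
    rw [e1, KS.inv_zero L]
  have hiv0' : ∀ y : P → Fin n → F,
      iv (cup11 (KT.act (A.comp (e.comp jj))) BU y (0 : P → Fin n → F)) = 0 := by
    intro y
    have e1 : cup11 (KT.act (A.comp (e.comp jj))) BU y (0 : P → Fin n → F) = fun _ _ => 0 := by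
      funext s t
      show BU _ (_ *ᵥ 0) = 0
      rw [mulVec_zero, map_zero]
    rw [e1, KS.inv_zero L]
  -- the reference condition
  set X' := X₀.comap (mc X A P : (P → Fin n → F) →ₗ[F] (P → Fin n → F)) with hX'
  have hmX' : ∀ z, z ∈ X' ↔ mc X A P z ∈ X₀ := fun z => Iff.rfl
  have hlag0 : Lag T iv (fun d => ac2 e c κ (KT.act (A.comp e)) ((e.comp jj) d)) (be2 (bC A c))
      (fun (a : F) d => la2 e c κ (KT.act (A.comp e)) (bC A c) a ((e.comp jj) d)) (prY X₀ X') := by
    refine ⟨fun x hx => (z1_split X).2 ⟨hXZ _ hx.1, hXZ _ hx.2⟩, fun x hx => ?_, fun a x hx => ?_⟩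
    · obtain ⟨hx1, hx2⟩ := (z1_split X).1 hx
      constructor
      · intro h y hy
        rw [pair_split X L hsp hsm hx1 hx2 (hXZ _ hy.1) (hXZ _ hy.2),
          ((hX1 _).1 h.1).2 _ ((hmX' _).1 hy.2), ((hX1 _).1 ((hmX' _).1 h.2)).2 _ hy.1, add_zero]
      · intro h
        refine ⟨(hX1 _).2 ⟨hx1, fun y hy => ?_⟩, (hX1 _).2 ⟨hx2, fun y hy => ?_⟩⟩
        · have h1 := h (fun d => (0, mc X A P y d)) ⟨X₀.zero_mem, by
            show mc X A P (mc X A P y) ∈ X₀
            rw [mc_mc X]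
            exact hy⟩
          rw [pair_split X L hsp hsm hx1 hx2 hz0 (by
            show Z1 T _ (mc X A P (mc X A P y))
            rw [mc_mc X]
            exact hXZ _ hy)] at h1
          have h2 := hiv0' (mc X A P fun d => (x d).2)
          have e2 : (mc X A P fun d => ((fun d => ((0 : Fin n → F), mc X A P y d)) d).2) = y :=
            mc_mc X y
          rw [e2] at h1
          exact (add_eq_left.2 h2).symm.trans h1
        · have h1 := h (fun d => (y d, 0)) ⟨hy, by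
            show mc X A P 0 ∈ X₀
            rw [map_zero]
            exact X₀.zero_mem⟩
          rw [pair_split X L hsp hsm hx1 hx2 (hXZ _ hy) (by
            show Z1 T _ (mc X A P 0)
            rw [map_zero]
            exact hz0)] at h1
          have h2 := hiv0' (fun d => (x d).1)
          have e2 : (mc X A P fun d => ((fun d => (y d, (0 : Fin n → F))) d).2) = 0 :=
            map_zero (mc X A P)
          rw [e2] at h1
          exact (add_eq_right.2 h2).symm.trans h1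
    · rw [zq_split X]
      exact ((hX1 _).1 (X₀.smul_mem a hx.1)).2 _ hx.2
  -- the condition of pairs
  have hLY : ∀ p, p ∈ LY A c (prY X₀ X') ↔ p.1 ∈ X₀ ∧ p.2 ∈ X₀ := by
    intro p
    rw [mem_LY, mem_prY]
    have e1 : (mc X A P fun d => A c *ᵥ (p.1 d + p.2 d)) = p.1 + p.2 := by
      funext d
      show A c *ᵥ (A c *ᵥ (p.1 d + p.2 d)) = p.1 d + p.2 d
      rw [A_inv X]
    have e2 : ((fun d => A c *ᵥ (p.1 d + p.2 d)) ∈ X') ↔ p.1 + p.2 ∈ X₀ := by
      rw [hmX', e1]
    refine ⟨fun h => ⟨h.1, ?_⟩, fun h => ⟨h.1, e2.2 (X₀.add_mem h.1 h.2)⟩⟩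
    have h3 := X₀.sub_mem (e2.1 h.2) h.1
    rwa [add_sub_cancel_left] at h3
  have hR1 : R1 (LY A c (prY X₀ X')) = X₀ := by
    ext r
    rw [mem_R1, hLY]
    exact ⟨fun h => h.1, fun h => ⟨h, X₀.zero_mem⟩⟩
  have hY2 : Y2 (LY A c (prY X₀ X')) = X₀ := by
    ext y
    rw [mem_Y2]
    constructor
    · rintro ⟨a, h⟩
      exact ((hLY _).1 h).2
    · intro h
      exact ⟨0, (hLY _).2 ⟨X₀.zero_mem, h⟩⟩
  -- the condition `M'`
  have hM : ∀ x ∈ M, Z1 T (KT.act (A.comp (e.comp jj))) x := by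
    intro x hx
    have h1 := hY.coc (fun d => (x d, 0)) ⟨hx, M'.zero_mem⟩
    exact ((z1_split X).1 h1).1
  have hM' : ∀ x ∈ M', Z1 T (KT.act (A.comp (e.comp jj))) (mc X A P x) := by
    intro x hx
    have h1 := hY.coc (fun d => (0, x d)) ⟨M.zero_mem, hx⟩
    exact ((z1_split X).1 h1).2
  set M'' := M'.comap (mc X A P : (P → Fin n → F) →ₗ[F] (P → Fin n → F)) with hM''
  have hmM'' : ∀ z, z ∈ M'' ↔ mc X A P z ∈ M' := fun z => Iff.rfl
  have hperp : ∀ x, x ∈ M'' ↔ Z1 T (KT.act (A.comp (e.comp jj))) x ∧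
      ∀ y ∈ M, iv (cup11 (KT.act (A.comp (e.comp jj))) BU x y) = 0 := by
    intro x
    constructor
    · intro hx
      have hx1 : Z1 T (KT.act (A.comp (e.comp jj))) x := by
        have h1 := hM' _ ((hmM'' x).1 hx)
        rwa [mc_mc X] at h1
      refine ⟨hx1, fun y hy => ?_⟩
      have h2 : (fun d => ((0 : Fin n → F), mc X A P x d)) ∈ prY M M' := ⟨M.zero_mem, hx⟩
      have h3 := (hY.self _ (hY.coc _ h2)).1 h2 (fun d => (y d, 0)) ⟨hy, M'.zero_mem⟩
      rw [pair_split X L hsp hsm hz0 (by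
        show Z1 T _ (mc X A P (mc X A P x))
        rw [mc_mc X]
        exact hx1) (hM y hy) (by
        show Z1 T _ (mc X A P 0)
        rw [map_zero]
        exact hz0)] at h3
      have e2 : (mc X A P fun d => ((fun d => ((0 : Fin n → F), mc X A P x d)) d).2) = x :=
        mc_mc X x
      rw [e2] at h3
      have h4 := hiv0 (mc X A P fun d => ((fun d => (y d, (0 : Fin n → F))) d).2)
      exact (add_eq_right.2 h4).symm.trans h3
    · rintro ⟨hx1, hx2⟩
      have hz : Z1 T (fun d => ac2 e c κ (KT.act (A.comp e)) ((e.comp jj) d))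
          (fun d => ((0 : Fin n → F), mc X A P x d)) := (z1_split X).2 ⟨hz0, by
        show Z1 T _ (mc X A P (mc X A P x))
        rw [mc_mc X]
        exact hx1⟩
      refine ((hY.self _ hz).2 fun y hy => ?_).2
      rw [pair_split X L hsp hsm hz0 (by
        show Z1 T _ (mc X A P (mc X A P x))
        rw [mc_mc X]
        exact hx1) (hM _ hy.1) (hM' _ hy.2)]
      have e2 : (mc X A P fun d => ((fun d => ((0 : Fin n → F), mc X A P x d)) d).2) = x :=
        mc_mc X x
      rw [e2]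
      have h4 := hiv0 (mc X A P fun d => (y d).2)
      exact (add_eq_right.2 h4).trans (hx2 _ hy.1)
  have hcob : cobS (A.comp (e.comp jj) : P → Matrix (Fin n) (Fin n) F) ≤ M := by
    intro x hx
    have hx1 : Z1 T (KT.act (A.comp (e.comp jj))) x := cob_coc hsm hx
    have hz : Z1 T (fun d => ac2 e c κ (KT.act (A.comp e)) ((e.comp jj) d))
        (fun d => (x d, (0 : Fin n → F))) := (z1_split X).2 ⟨hx1, by
      show Z1 T _ (mc X A P 0)
      rw [map_zero]
      exact hz0⟩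
    refine ((hY.self _ hz).2 fun y hy => ?_).1
    rw [pair_split X L hsp hsm hx1 (by
      show Z1 T _ (mc X A P 0)
      rw [map_zero]
      exact hz0) (hM _ hy.1) (hM' _ hy.2)]
    have e2 : (mc X A P fun d => ((fun d => (x d, (0 : Fin n → F))) d).2) = 0 :=
      map_zero (mc X A P)
    rw [e2, hiv0, add_zero]
    exact inv_cob_left L hB hsm hx (hM' _ hy.2)
  have hev := dist_even L hB hsm ld (fun x hx => hM x hx) hcob hperp hX1
  refine ⟨prY X₀ X', 0, 0, hlag0, ?_, ?_, ?_⟩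
  · intro a ha α
    obtain ⟨h1, h2⟩ := (hLY _).1 ha
    rw [Nat.cast_zero, mul_zero, GP.hf_zero]
    have e1 : (fun s t => hfT (α * ee (a s) ((A.comp (e.comp jj)) s *ᵥ kc (A.comp (e.comp jj)) t) +
        ep e ((e.comp jj) s) • (α * mm ((A.comp (e.comp jj)) t)))) =
        cup11 (KT.act (A.comp (e.comp jj))) BU (α • a) (kc (A.comp (e.comp jj))) := by
      funext s t
      have h3 : ep e ((e.comp jj) s) = 0 := ep_e (jj s)
      rw [h3, zero_smul, add_zero]
      show _ = hfT (ee (α • a s) ((A.comp (e.comp jj)) s *ᵥ kc (A.comp (e.comp jj)) t))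
      rw [ee_smul_left]
    rw [e1]
    exact ((hX1 _).1 (X₀.smul_mem α h1)).2 _ h2
  · rw [hR1, hY2, mul_zero, add_zero]
  · have hinf : prY M M' ⊓ prY X₀ X' = prY (M ⊓ X₀) (M' ⊓ X') := by
      ext x
      exact ⟨fun h => ⟨⟨h.1.1, h.2.1⟩, ⟨h.1.2, h.2.2⟩⟩, fun h => ⟨⟨h.1.1, h.2.1⟩, ⟨h.1.2, h.2.2⟩⟩⟩
    have hfM := hfd M hM
    have hfX := hfd X₀ hXZ
    have hfM'' := hfd M'' fun x hx => ((hperp x).1 hx).1
    have e3 : Module.finrank F M'' = Module.finrank F M' := finrank_mc X M'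
    have e4 : Module.finrank F ↥(M'' ⊓ X₀) = Module.finrank F ↥(M' ⊓ X') := by
      have e5 : (M' ⊓ X').comap (mc X A P : (P → Fin n → F) →ₗ[F] (P → Fin n → F)) = M'' ⊓ X₀ := by
        ext x
        show (mc X A P x ∈ M' ∧ mc X A P (mc X A P x) ∈ X₀) ↔ (mc X A P x ∈ M' ∧ x ∈ X₀)
        rw [mc_mc X]
      rw [← finrank_mc (A := A) X (M' ⊓ X'), e5]
    have hfM' : FiniteDimensional F M' := by
      have h5 : M' = M''.map (mc X A P : (P → Fin n → F) →ₗ[F] (P → Fin n → F)) := by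
        ext x
        constructor
        · intro hx
          exact ⟨mc X A P x, by
            show mc X A P (mc X A P x) ∈ M'
            rwa [mc_mc X], mc_mc X x⟩
        · rintro ⟨y, hy, rfl⟩
          exact hy
      rw [h5]
      infer_instance
    have hfX' : FiniteDimensional F ↥(M' ⊓ X') := Submodule.finiteDimensional_of_le inf_le_left
    have hfMX : FiniteDimensional F ↥(M ⊓ X₀) := Submodule.finiteDimensional_of_le inf_le_left
    rw [hinf, finrank_prY, finrank_prY, ← e4, ← e3]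
    obtain ⟨r, hr⟩ := hev
    obtain ⟨r', hr'⟩ := hδ
    have hX4 : Module.finrank F X₀ = N := by omega
    rw [hX4] at hr
    push_cast
    refine ⟨(r : ℤ) + r' - Module.finrank F M - N, ?_⟩
    omega

end split

end Pool.Agent.Work.MP_787500_nt.KI
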