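import Mathlib
import Pool.Agent.Work.MP_787500_nt.KI.Par
import Pool.Agent.Work.MP_787500_nt.QP.M7
import Pool.Agent.Work.MP_787500_nt.QP.Ext

/-!
# Transport to coordinates

* `SIso`, `tra`, `lag_tra`, `qm_tra`, `card_selQ_tra`: transport of quadratic modules over `O` to modules over the residue field `F`.
* `Crd`, `exists_crd`: coordinates of a residual module `M` with an involution `C` (`QP.InvC`).
* `LocM`: the local contribution of a condition for `M × M`; `par_M`: THE PARITY for `M × M`.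
-/

set_option autoImplicit false
set_option linter.unusedSectionVars false

namespace Pool.Agent.Work.MP_787500_nt.KI

open Matrix
open Pool.Agent.Work.MP_787500_nt.GP (A0 hf smul_hf IsAct d0 tw cup11 EvPow)
open Pool.Agent.Work.MP_787500_nt.KR (FSys Z1 Z2 Sm1 Smooth IsChar LocH LDual d0_Z1 SDualF)
open Pool.Agent.Work.MP_787500_nt.KS (ep hfT hfT_nondeg trace_trick hfT_two)
open Pool.Agent.Work.MP_787500_nt.KT hiding Str Rel Sel KH Ai IsP cc ff TT
open Pool.Agent.Work.MP_787500_nt.QS (Two ac2 be2 la2 Lag HQ selQ QM pB Zq be2_apply pB_apply)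
open Pool.Agent.Work.MP_787500_nt.QP (InvC ExtQ extQ_of exq exq_c exists_form2 syOf syOf_ee mat
  mat_mulVec c_e)

universe u v

section tra

variable {O F : Type*} [CommRing O] [CommRing F] [Algebra O F] {V V' : Type*} [AddCommGroup V]
  [Module O V] [AddCommGroup V'] [Module F V']

/-- an isomorphism, linear for `O → F` -/
structure SIso (O F : Type*) [CommRing O] [CommRing F] [Algebra O F] {V V' : Type*}
    [AddCommGroup V] [Module O V] [AddCommGroup V'] [Module F V'] (f : V ≃+ V') : Prop where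
  surj : Function.Surjective (algebraMap O F)
  smul : ∀ (a : O) v, f (a • v) = algebraMap O F a • f v

variable {f : V ≃+ V'}

theorem SIso.symm_smul (hf : SIso O F f) (a : O) (v : V') :
    f.symm (algebraMap O F a • v) = a • f.symm v := by
  apply f.injective
  rw [f.apply_symm_apply, hf.smul, f.apply_symm_apply]

/-- the transport of a condition -/
def tra (hf : SIso O F f) {P : Type*} (Y : Submodule O (P → V)) : Submodule F (P → V') where
  carrier := {x | (fun d => f.symm (x d)) ∈ Y}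
  add_mem' := by
    intro x y hx hy
    have h := Y.add_mem hx hy
    show (fun d => f.symm (x d + y d)) ∈ Y
    simp only [map_add]
    exact h
  zero_mem' := by
    show (fun _ => f.symm 0) ∈ Y
    rw [map_zero]
    exact Y.zero_mem
  smul_mem' := by
    intro a x hx
    obtain ⟨a, rfl⟩ := hf.surj a
    have h := Y.smul_mem a hx
    show (fun d => f.symm (algebraMap O F a • x d)) ∈ Y
    simp only [hf.symm_smul]
    exact h

theorem mem_tra (hf : SIso O F f) {P : Type*} {Y : Submodule O (P → V)} {x : P → V'} :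
    x ∈ tra hf Y ↔ (fun d => f.symm (x d)) ∈ Y := Iff.rfl

theorem map_tra (hf : SIso O F f) {P : Type*} {Y : Submodule O (P → V)} {x : P → V} :
    (fun d => f (x d)) ∈ tra hf Y ↔ x ∈ Y := by
  rw [mem_tra]
  simp only [f.symm_apply_apply]

/-- functions -/
def fnA (f : V ≃+ V') (P : Type*) : (P → V) ≃ (P → V') where
  toFun x d := f (x d)
  invFun x d := f.symm (x d)
  left_inv _ := funext fun _ => f.symm_apply_apply _
  right_inv _ := funext fun _ => f.apply_symm_apply _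

theorem card_tra (hf : SIso O F f) {P : Type*} (Y : Submodule O (P → V)) :
    Nat.card (tra hf Y) = Nat.card Y :=
  (Nat.card_congr ((fnA f P).subtypeEquiv fun _ => (map_tra hf).symm)).symm

theorem tra_inf (hf : SIso O F f) {P : Type*} (Y Y' : Submodule O (P → V)) :
    tra hf (Y ⊓ Y') = tra hf Y ⊓ tra hf Y' := rfl

section act

variable {P : Type*} [Group P] {T : FSys P} {ρ : P → V → V} {ρ' : P → V' → V'}

theorem z1_tra (hact : ∀ g v, f (ρ g v) = ρ' g (f v)) {x : P → V} :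
    Z1 T ρ' (fun d => f (x d)) ↔ Z1 T ρ x := by
  constructor
  · rintro ⟨⟨W, hW, h1⟩, h2⟩
    refine ⟨⟨W, hW, fun g w hw => f.injective (h1 g w hw)⟩, fun a b => f.injective ?_⟩
    rw [map_add, hact]
    exact h2 a b
  · rintro ⟨⟨W, hW, h1⟩, h2⟩
    refine ⟨⟨W, hW, fun g w hw => congrArg f (h1 g w hw)⟩, fun a b => ?_⟩
    show f (x (a * b)) = f (x a) + ρ' a (f (x b))
    rw [h2, map_add, hact]

variable {iv : (P → P → A0) → A0} {β : V →+ V →+ A0} {β' : V' →+ V' →+ A0} {l : O → P → V → A0}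
  {l' : F → P → V' → A0} {χ : P → ℤ_[2]}

/-- TRANSPORT OF LAGRANGIAN CONDITIONS. -/
theorem lag_tra (hf : SIso O F f) (hact : ∀ g v, f (ρ g v) = ρ' g (f v))
    (hβ : ∀ v w, β v w = β' (f v) (f w))
    (hl : ∀ a g v, l a g v = l' (algebraMap O F a) g (f v)) {Y : Submodule O (P → V)}
    (h : Lag T iv ρ β l Y) : Lag T iv ρ' β' l' (tra hf Y) := by
  have hsurj : ∀ x : P → V', ∃ y : P → V, x = fun d => f (y d) := fun x =>
    ⟨fun d => f.symm (x d), funext fun d => (f.apply_symm_apply _).symm⟩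
  have hc : ∀ x y : P → V, cup11 ρ' (pB β') (fun d => f (x d)) (fun d => f (y d)) =
      cup11 ρ (pB β) x y := fun x y => by
    funext s t
    simp only [cup11, pB_apply, hβ, hact]
  refine ⟨fun x hx => ?_, fun x hx => ?_, fun a x hx => ?_⟩
  · obtain ⟨x, rfl⟩ := hsurj x
    exact (z1_tra hact).2 (h.coc _ ((map_tra hf).1 hx))
  · obtain ⟨x, rfl⟩ := hsurj x
    rw [map_tra hf, h.self _ ((z1_tra hact).1 hx)]
    constructor
    · intro h1 y hy
      obtain ⟨y, rfl⟩ := hsurj y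
      rw [hc]
      exact h1 _ ((map_tra hf).1 hy)
    · intro h1 y hy
      rw [← hc]
      exact h1 _ ((map_tra hf).2 hy)
  · obtain ⟨x, rfl⟩ := hsurj x
    obtain ⟨a, rfl⟩ := hf.surj a
    have hz : Zq ρ' β' l' (algebraMap O F a) (fun d => f (x d)) = Zq ρ β l a x := by
      funext s t
      simp only [Zq, hβ, hl, hact, hf.smul]
    rw [hz]
    exact h.iso a _ ((map_tra hf).1 hx)

theorem qm_tra (hf : SIso O F f) (hact : ∀ g v, f (ρ g v) = ρ' g (f v))
    (hβ : ∀ v w, β v w = β' (f v) (f w))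
    (hl : ∀ a g v, l a g v = l' (algebraMap O F a) g (f v))
    (h : QM T χ O ρ β l) : QM T χ F ρ' β' l' := by
  have hs := f.surjective
  refine
    { act := ⟨fun v => ?_, fun a b v => ?_, fun g v w => ?_⟩
      lin := fun g a v => ?_
      sm := ?_
      bal := fun a v w => ?_
      quad := fun a g v w => ?_
      coc := fun a g k v => ?_
      lsm := fun a => ?_
      nd := fun v hv => ?_ }
  · obtain ⟨v, rfl⟩ := hs v
    rw [← hact, h.act.one]
  · obtain ⟨v, rfl⟩ := hs v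
    rw [← hact, h.act.mul, ← hact, ← hact]
  · obtain ⟨v, rfl⟩ := hs v
    obtain ⟨w, rfl⟩ := hs w
    rw [← map_add, ← hact, ← hact, ← hact, h.act.add, map_add]
  · obtain ⟨v, rfl⟩ := hs v
    obtain ⟨a, rfl⟩ := hf.surj a
    rw [← hf.smul, ← hact, ← hact, h.lin, hf.smul]
  · obtain ⟨W, hW, h1⟩ := h.sm
    refine ⟨W, hW, fun w hw v => ?_⟩
    obtain ⟨v, rfl⟩ := hs v
    rw [← hact, h1 w hw]
  · obtain ⟨v, rfl⟩ := hs v
    obtain ⟨w, rfl⟩ := hs w
    obtain ⟨a, rfl⟩ := hf.surj a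
    rw [← hf.smul, ← hf.smul, ← hβ, ← hβ, h.bal]
  · obtain ⟨v, rfl⟩ := hs v
    obtain ⟨w, rfl⟩ := hs w
    obtain ⟨a, rfl⟩ := hf.surj a
    rw [← map_add, ← hact, ← hact, ← hf.smul, ← hf.smul, ← hβ, ← hβ, ← hl, ← hl, ← hl, h.quad]
  · obtain ⟨v, rfl⟩ := hs v
    obtain ⟨a, rfl⟩ := hf.surj a
    rw [← hact, ← hl, ← hl, ← hl, h.coc]
  · obtain ⟨a, rfl⟩ := hf.surj a
    obtain ⟨W, hW, h1⟩ := h.lsm a
    refine ⟨W, hW, fun w hw v => ?_⟩
    obtain ⟨v, rfl⟩ := hs v
    rw [← hl, h1 w hw]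
  · obtain ⟨v, rfl⟩ := hs v
    have h1 := h.nd v fun w => by
      have h2 := hv (f w)
      rw [pB_apply] at h2
      rw [pB_apply, hβ, hβ]
      exact h2
    rw [h1, map_zero]

end act

section sel

variable {Γ : Type*} [Group Γ] {Sq : FSys Γ} {I : Type*} {D : I → Type*} [∀ i, Group (D i)]
  {j : ∀ i, D i →* Γ} {ρ : Γ → V → V} {ρ' : Γ → V' → V'}

theorem card_selQ_tra (hf : SIso O F f) (hact : ∀ g v, f (ρ g v) = ρ' g (f v)) (act : IsAct ρ)
    (lin : ∀ g (a : O) m, ρ g (a • m) = a • ρ g m) (act' : IsAct ρ')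
    (lin' : ∀ g (a : F) m, ρ' g (a • m) = a • ρ' g m) (Y : ∀ i, Submodule O (D i → V)) :
    Nat.card (selQ Sq j act' lin' fun i => tra hf (Y i)) = Nat.card (selQ Sq j act lin Y) := by
  refine (Nat.card_congr ((fnA f Γ).subtypeEquiv fun x => ?_)).symm
  show (Z1 Sq ρ x ∧ ∀ i, (fun d => x (j i d)) ∈ Y i) ↔
    (Z1 Sq ρ' (fun g => f (x g)) ∧ ∀ i, (fun d => f (x (j i d))) ∈ tra hf (Y i))
  rw [z1_tra hact]
  refine and_congr Iff.rfl (forall_congr' fun i => ?_)
  exact (map_tra hf (x := fun d => x (j i d))).symm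

end sel

end tra

section crd

variable {F : Type v} [Field F] [Finite F] [CharP F 2] [Algebra (ZMod 2) F] {n : ℕ} {M : Type*}
  [AddCommGroup M] {G Γ : Type*} [Group G] [Group Γ] {O : Type*} [CommRing O] [Algebra O F]
  [Module O M]

/-- Coordinates of a residual module `M` with the involution `C`. -/
structure Crd [Sy F n] (e : G →* Γ) (c : Γ) (O : Type*) [CommRing O] [Algebra O F] [Module O M]
    (ρ : G → M → M) (b : M →+ M →+ A0) (C : M → M)
    (L : M ≃+ (Fin n → F)) (A : Γ →* Matrix (Fin n) (Fin n) F) : Prop where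
  iso : SIso O F L
  sp : ∀ σ, IsSp (A σ)
  ae : ∀ g m, A (e g) *ᵥ L m = L (ρ g m)
  ac : ∀ m, A c *ᵥ L m = L (C m)
  fr : ∀ x y, b x y = bC A c (L x) (L y)

/-- the coordinates of `M × M` -/
def f2 (L : M ≃+ (Fin n → F)) : M × M ≃+ (Fin n → F) × (Fin n → F) := L.prodCongr L

theorem f2_apply (L : M ≃+ (Fin n → F)) (v : M × M) : f2 L v = (L v.1, L v.2) := rfl

theorem siso_f2 {L : M ≃+ (Fin n → F)} (hL : SIso O F L) : SIso O F (f2 L) where
  surj := hL.surj
  smul a v := Prod.ext (hL.smul a v.1) (hL.smul a v.2)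

section rel

variable [Sy F n] {e : G →* Γ} {c : Γ} {κ : G →* G} {ρ : G → M → M} {b : M →+ M →+ A0} {C : M → M}
  {L : M ≃+ (Fin n → F)} {A : Γ →* Matrix (Fin n) (Fin n) F}

theorem Crd.act2 (hc : Crd e c O ρ b C L A) (X : Two e c κ) (σ : Γ) (v : M × M) :
    f2 L (ac2 e c κ ρ σ v) = ac2 e c κ (KT.act (A.comp e)) σ (f2 L v) := by
  rcases X.cases σ with ⟨g, rfl⟩ | ⟨g, rfl⟩
  · rw [X.ac_e, X.ac_e]
    exact Prod.ext (hc.ae g _).symm (hc.ae (κ g) _).symm
  · rw [X.ac_ec, X.ac_ec]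
    exact Prod.ext (hc.ae g _).symm (hc.ae (κ g) _).symm

theorem Crd.be (hc : Crd e c O ρ b C L A) (v w : M × M) :
    be2 b v w = be2 (bC A c) (f2 L v) (f2 L w) := by
  rw [be2_apply, be2_apply]
  exact hc.fr _ _

theorem Crd.la (hc : Crd e c O ρ b C L A) (X : Two e c κ) (a : O) (σ : Γ) (v : M × M) :
    la2 e c κ ρ b a σ v =
      la2 e c κ (KT.act (A.comp e)) (bC A c) (algebraMap O F a) σ (f2 L v) := by
  classical
  unfold la2
  by_cases h : ∃ g, e g = σ
  · rw [if_pos h, if_pos h]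
  · rw [if_neg h, if_neg h, hc.be, (siso_f2 hc.iso).smul, hc.act2 X]

theorem card_of_iso (hr : Nat.card M = Nat.card (Fin n → F)) : Nat.card M = Nat.card F ^ n := by
  rw [hr, Module.natCard_eq_pow_finrank (K := F), Module.finrank_fin_fun]

end rel

/-- The contribution `δ` of a condition `Y` for `M × M` at a place. -/
def LocM {P : Type*} [Group P] (T : FSys P) (jp : P →* Γ) (iv : (P → P → A0) → A0) (e : G →* Γ)
    (c : Γ) (κ : G →* G) (F : Type v) [Field F] [Finite F] [CharP F 2] [Algebra (ZMod 2) F]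
    [Algebra O F] (ρ : G → M → M) (b : M →+ M →+ A0) (C : M → M) (Y : Submodule O (P → M × M))
    (δ : ℕ) : Prop :=
  ∀ (n : ℕ) (_ : Sy F n) (L : M ≃+ (Fin n → F)) (A : Γ →* Matrix (Fin n) (Fin n) F)
    (hc : Crd e c O ρ b C L A), LocPar T jp iv e c κ A (tra (siso_f2 hc.iso) Y) δ

end crd

section exists_crd

variable {F : Type v} [Field F] [Finite F] [CharP F 2] [Algebra (ZMod 2) F] {M : Type v}
  [AddCommGroup M] [Module F M] [Finite M] {G Γ : Type*} [Group G] [Group Γ] {e : G →* Γ} {c : Γ}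
  {κ : G →* G} {ρ : G → M → M} {b : M →+ M →+ A0} {C : M → M} {S : FSys G} {χ : G → ℤ_[2]}
  {Θ : Set (G × G)} {O : Type*} [CommRing O] [Algebra O F] [Module O M] [IsScalarTower O F M]

/-- COORDINATES EXIST. -/
theorem exists_crd (hsurj : Function.Surjective (algebraMap O F)) (X : Two e c κ)
    (hodd : ∀ g, (2 : ℤ_[2]) ∣ χ g - 1) (h : SDualF S χ κ Θ O ρ b) (hC : InvC κ O ρ b C) :
    ∃ (n : ℕ) (_ : Sy F n) (L : M ≃+ (Fin n → F)) (A : Γ →* Matrix (Fin n) (Fin n) F),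
      Crd e c O ρ b C L A := by
  classical
  have Q := extQ_of X h.act h.lin hC
  obtain ⟨ρq, hρq, Q, hρc⟩ : ∃ ρq : Γ → M → M, ρq = exq e c ρ C ∧ ExtQ e c O ρ b ρq ∧
      ∀ m, ρq c m = C m := ⟨_, rfl, Q, fun m => exq_c X h.act m⟩
  have hfdM : FiniteDimensional F M := Module.Finite.of_finite
  obtain ⟨n, hn⟩ : ∃ n, n = Module.finrank F M := ⟨_, rfl⟩
  obtain ⟨L⟩ : Nonempty (M ≃ₗ[F] (Fin n → F)) := by
    rw [hn]
    exact ⟨(Module.finBasis F M).equivFun⟩
  -- linearity over `F`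
  have hOF : ∀ (a' : O) (m : M), algebraMap O F a' • m = a' • m := fun a' m =>
    algebraMap_smul F a' m
  have linF : ∀ σ (a : F) m, ρq σ (a • m) = a • ρq σ m := by
    intro σ a m
    obtain ⟨a', rfl⟩ := hsurj a
    rw [hOF, Q.lin, hOF]
  have hcc : ∀ m, ρq c (ρq c m) = m := by
    intro m
    rw [← Q.act.mul, X.cc, Q.act.one]
  have hce : ∀ g m, ρq c (ρ g m) = ρ (κ g) (ρq c m) := by
    intro g m
    rw [← Q.res, ← Q.act.mul, c_e X, Q.act.mul, Q.res]
  -- the form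
  obtain ⟨ω, hω⟩ : ∃ ω : M →+ M →+ A0, ∀ x y, ω x y = b x (ρq c y) :=
    ⟨AddMonoidHom.mk' (fun x => AddMonoidHom.mk' (fun y => b x (ρq c y)) (fun y y' => by
      rw [Q.act.add, map_add])) (fun x x' => by
        refine DFunLike.ext _ _ fun y => ?_
        show b (x + x') (ρq c y) = b x (ρq c y) + b x' (ρq c y)
        rw [map_add, AddMonoidHom.add_apply]), fun _ _ => rfl⟩
  obtain ⟨f, hf, hf1, hf2⟩ := exists_form2 (F := F) ω (fun a x y => by
    obtain ⟨a', rfl⟩ := hsurj a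
    rw [hω, hω, hOF, hOF, h.bal, Q.lin]) (fun a x => by
    obtain ⟨a', rfl⟩ := hsurj a
    rw [hω, hOF, Q.alt]) (fun x hx => h.nd x fun m' => by
    have h1 := hx (ρq c m')
    rwa [hω, hcc] at h1)
  have hf' : ∀ x y, ω x y = hfT (f x y) := by
    intro x y
    have := hf 1 x y
    rwa [one_smul, one_mul] at this
  have hωs : ∀ x y, ω x y = ω y x := by
    intro x y
    have h1 : ω (x + y) (x + y) = 0 := by rw [hf', hf1, map_zero]
    have h2 : ∀ z, ω z z = 0 := fun z => by rw [hf', hf1, map_zero]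
    simp only [map_add, AddMonoidHom.add_apply, h2, zero_add, add_zero] at h1
    have h3 : ω y x + ω y x = 0 := by rw [hf', hfT_two]
    have h4 : ω x y = -ω y x := by
      rw [add_comm] at h1
      exact eq_neg_of_add_eq_zero_left h1
    rw [h4]
    exact (eq_neg_of_add_eq_zero_left h3).symm
  let _ : Sy F n := syOf L f hf1 hf2
  have hee : ∀ x y : M, ee (L x) (L y) = f x y := syOf_ee L f hf1 hf2
  have hBU : ∀ x y : M, BU (L x) (L y) = ω x y := by
    intro x y
    rw [BU_apply, hee, hf']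
  -- the matrices
  obtain ⟨A, hA⟩ : ∃ A : Γ →* Matrix (Fin n) (Fin n) F, ∀ σ m, A σ *ᵥ L m = L (ρq σ m) :=
    ⟨mat L Q.act linF, mat_mulVec L Q.act linF⟩
  have hinv : ∀ σ x y, ω (ρq σ x) (ρq σ y) = ω x y := by
    have h1 : ∀ g x y, ω (ρ g x) (ρ g y) = ω x y := by
      intro g x y
      rw [hω, hce, h.eqv, ← hω, hf', KS.smul_hfT (hodd g)]
    have h2 : ∀ x y, ω (ρq c x) (ρq c y) = ω x y := by
      intro x y
      rw [hω, hcc, h.symm, ← hω, hωs]
    intro σ x y
    rcases X.cases σ with ⟨g, rfl⟩ | ⟨g, rfl⟩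
    · rw [Q.res, Q.res, h1]
    · rw [Q.act.mul, Q.act.mul, Q.res, Q.res, h1, h2]
  have hsp : ∀ σ, IsSp (A σ) := by
    intro σ x y
    obtain ⟨x, rfl⟩ := L.surjective x
    obtain ⟨y, rfl⟩ := L.surjective y
    rw [hA, hA, hee, hee, ← sub_eq_zero]
    refine hfT_nondeg fun a => ?_
    rw [mul_sub, map_sub, ← hf, ← hf, ← linF, hinv, sub_self]
  refine ⟨n, inferInstance, L.toAddEquiv, A, ⟨hsurj, fun a m => ?_⟩, hsp, fun g m => ?_, fun m => ?_,
    fun x y => ?_⟩
  · show L (a • m) = algebraMap O F a • L m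
    rw [← hOF, map_smul]
  · show A (e g) *ᵥ L m = L (ρ g m)
    rw [hA, Q.res]
  · show A c *ᵥ L m = L (C m)
    rw [hA, hρc]
  · show b x y = BU (L x) (A c *ᵥ L y)
    rw [hA, hBU, hω, hcc]

end exists_crd

section exists_res

variable {M : Type v} [AddCommGroup M] [Finite M] {G Γ : Type*} [Group G] [Group Γ] {e : G →* Γ}
  {c : Γ} {κ : G →* G} {ρ : G → M → M} {b : M →+ M →+ A0} {C : M → M} {S : FSys G} {χ : G → ℤ_[2]}
  {Θ : Set (G × G)} {O : Type v} [CommRing O] [IsLocalRing O] [Finite (IsLocalRing.ResidueField O)]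
  [Module O M] [CharP (IsLocalRing.ResidueField O) 2]
  [Algebra (ZMod 2) (IsLocalRing.ResidueField O)]

/-- COORDINATES EXIST, over the residue field of a local ring. -/
theorem exists_crd_res (X : Two e c κ) (hodd : ∀ g, (2 : ℤ_[2]) ∣ χ g - 1)
    (hM : ∀ a ∈ IsLocalRing.maximalIdeal O, ∀ m : M, a • m = 0) (h : SDualF S χ κ Θ O ρ b)
    (hC : InvC κ O ρ b C) :
    ∃ (n : ℕ) (_ : Sy (IsLocalRing.ResidueField O) n) (L : M ≃+ (Fin n → IsLocalRing.ResidueField O))
      (A : Γ →* Matrix (Fin n) (Fin n) (IsLocalRing.ResidueField O)), Crd e c O ρ b C L A := by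
  have hM' : Module.IsTorsionBySet O M (IsLocalRing.maximalIdeal O : Set O) := fun m a => hM a a.2 m
  let iM : Module (IsLocalRing.ResidueField O) M :=
    (hM'.module : Module (O ⧸ IsLocalRing.maximalIdeal O) M)
  have hsc : IsScalarTower O (IsLocalRing.ResidueField O) M := by
    have h5 : ∀ (y : O) (m : M), IsLocalRing.residue O y • m = y • m := fun _ _ => rfl
    refine ⟨fun a x m => ?_⟩
    obtain ⟨y, rfl⟩ := IsLocalRing.residue_surjective x
    have e : a • (IsLocalRing.residue O y) = IsLocalRing.residue O (a * y) := by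
      rw [Algebra.smul_def, map_mul]
      rfl
    rw [e, h5, h5, mul_smul]
  exact exists_crd (F := IsLocalRing.ResidueField O) IsLocalRing.residue_surjective X hodd h hC

end exists_res

section par

variable {M : Type v} [AddCommGroup M] [Finite M] {G Γ : Type*} [Group G] [Group Γ] {e : G →* Γ}
  {c : Γ} {κ : G →* G} {ρ : G → M → M} {b : M →+ M →+ A0} {C : M → M} {S : FSys G} {χ : G → ℤ_[2]}
  {Θ : Set (G × G)} {O : Type v} [CommRing O] [IsLocalRing O] [Finite (IsLocalRing.ResidueField O)]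
  [Module O M] [CharP (IsLocalRing.ResidueField O) 2]
  [Algebra (ZMod 2) (IsLocalRing.ResidueField O)]
  {Sq : FSys Γ} {I : Type*} [Fintype I] {D : I → Type*}
  [∀ i, Group (D i)] {SD : ∀ i, FSys (D i)} {j : ∀ i, D i →* Γ} {χq : Γ → ℤ_[2]}
  {inv : ∀ i, (D i → D i → A0) → A0} {tr : ((Γ → Γ → Γ → A0) × (∀ i, D i → D i → A0)) →+ A0}

/-- THE PARITY FOR `M × M` FROM THE LOCAL CONTRIBUTIONS. -/
theorem par_M (H : HQ.{v} Sq SD j χq inv tr)
    (X : Two e c κ) (hχ : ∀ g, χq (e g) = χ g)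
    (up : ∀ W, S.mem W → ∃ W', Sq.mem W' ∧ ∀ σ ∈ W', ∃ g ∈ W, e g = σ)
    (hM : ∀ a ∈ IsLocalRing.maximalIdeal O, ∀ m : M, a • m = 0)
    (h : SDualF S χ κ Θ O ρ b) (hC : InvC κ O ρ b C)
    (hQM : QM Sq χq O (ac2 e c κ ρ) (be2 b) (la2 e c κ ρ b))
    {Y : ∀ i, Submodule O (D i → M × M)}
    (hY : ∀ i, Lag (SD i) (inv i) (fun d => ac2 e c κ ρ (j i d)) (be2 b)
      (fun (a : O) d => la2 e c κ ρ b a (j i d)) (Y i)) {δ : I → ℕ}
    (hloc : ∀ i, LocM (SD i) (j i) (inv i) e c κ (IsLocalRing.ResidueField O) ρ b C (Y i) (δ i)) :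
    EvPow (Nat.card (IsLocalRing.ResidueField O)) (Nat.card (selQ Sq j hQM.act hQM.lin Y) *
      Nat.card (IsLocalRing.ResidueField O) ^ ∑ i, δ i) := by
  obtain ⟨n, iS, L, A, hc⟩ := exists_crd_res X (fun g => by
    rw [← hχ]
    exact H.glob.char.odd _) hM h hC
  have hf := siso_f2 hc.iso
  have hQM' : QM Sq χq (IsLocalRing.ResidueField O) (ac2 e c κ (KT.act (A.comp e))) (be2 (bC A c))
      (la2 e c κ (KT.act (A.comp e)) (bC A c)) :=
    qm_tra hf (fun σ v => hc.act2 X σ v) hc.be (fun a σ v => hc.la X a σ v) hQM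
  have hes : Sm1 Sq (ep e) := by
    obtain ⟨W, hW⟩ := S.ex
    obtain ⟨W', hW', h1⟩ := up W hW
    refine ⟨W', hW', fun g w hw => ?_⟩
    obtain ⟨k, -, rfl⟩ := h1 w hw
    rw [QP.ep_add2 X, QP.ep_e, add_zero]
  have hsm : Smooth Sq (KT.act A) := by
    obtain ⟨W, hW, h1⟩ := h.sm
    obtain ⟨W', hW', h2⟩ := up W hW
    refine ⟨W', hW', fun w hw m => ?_⟩
    obtain ⟨k, hk, rfl⟩ := h2 w hw
    obtain ⟨m, rfl⟩ := L.surjective m
    show A (e k) *ᵥ L m = L m
    rw [hc.ae, h1 k hk]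
  have hY' : ∀ i, Lag (SD i) (inv i) (fun d => ac2 e c κ (KT.act (A.comp e)) (j i d)) (be2 (bC A c))
      (fun (a : IsLocalRing.ResidueField O) d => la2 e c κ (KT.act (A.comp e)) (bC A c) a (j i d))
      (tra hf (Y i)) := fun i =>
    lag_tra hf (fun d v => hc.act2 X (j i d) v) hc.be (fun a d v => hc.la X a (j i d) v) (hY i)
  obtain ⟨hfd, r, hr⟩ := par_of_loc H X hc.sp hsm hes hQM' hY' fun i => hloc i n iS L A hc
  refine ⟨r, ?_⟩
  rw [← card_selQ_tra hf (fun σ v => hc.act2 X σ v) hQM.act hQM.lin hQM'.act hQM'.lin Y,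
    Module.natCard_eq_pow_finrank (K := IsLocalRing.ResidueField O), ← pow_add, hr]
  congr 1
  ring

end par

end Pool.Agent.Work.MP_787500_nt.KI
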