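import Mathlib
import Pool.Agent.Work.MP_787500_nt.KI.Tra
import Pool.Agent.Work.MP_787500_nt.KI.Split
import Pool.Agent.Work.MP_787500_nt.KI.Ram
import Pool.Agent.Work.MP_787500_nt.QS.Qm2
import Pool.Agent.Work.MP_787500_nt.QL.Ram

/-!
# The local contributions for `M × M`

* `PlQ`: a place of the rational numbers.
* `locM_split`: a place that splits; `locM_ram`: a ramified place; `locM_inf`: infinity.
-/

set_option autoImplicit false
set_option linter.unusedSectionVars false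

namespace Pool.Agent.Work.MP_787500_nt.KI

open Matrix
open Pool.Agent.Work.MP_787500_nt.GP (A0 hf smul_hf IsAct d0 tw cup11 EvPow)
open Pool.Agent.Work.MP_787500_nt.KR (FSys Z1 Z2 Sm1 Smooth IsChar LocH LDual LocD d0_Z1 SDualF Pair)
open Pool.Agent.Work.MP_787500_nt.KS (ep hfT)
open Pool.Agent.Work.MP_787500_nt.KT hiding Str Rel Sel KH Ai IsP cc ff TT
open Pool.Agent.Work.MP_787500_nt.QS (Two ac2 be2 la2 Lag HQ selQ QM pB Zq be2_apply pB_apply prY
  mem_prY urY mem_urY qm_two)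
open Pool.Agent.Work.MP_787500_nt.QP (InvC RamPl InfPl c_e)
open Pool.Agent.Work.MP_787500_nt.QL (RamF RamI TrivIn lag_ramF lag_ramI)

universe v

section pl

variable {G Γ : Type*} [Group G] [Group Γ]

/-- A place of the rational numbers. -/
structure PlQ (S : FSys G) (Sq : FSys Γ) (χ : G → ℤ_[2]) (χq : Γ → ℤ_[2]) (e : G →* Γ) (c : Γ)
    (κ : G →* G) {P : Type*} [Group P] (T : FSys P) (jp : P →* Γ) (iv : (P → P → A0) → A0) :
    Prop where
  two : Two e c κ
  chi : ∀ g, χq (e g) = χ g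
  chic : χq c = -1
  mul : ∀ σ τ, χq (σ * τ) = χq σ * χq τ
  up : ∀ W, S.mem W → ∃ W', Sq.mem W' ∧ ∀ σ ∈ W', ∃ g ∈ W, e g = σ
  ks : ∀ W, S.mem W → ∃ W', S.mem W' ∧ ∀ v ∈ W', κ v ∈ W
  js : ∀ W, Sq.mem W → ∃ W', T.mem W' ∧ ∀ w ∈ W', jp w ∈ W
  loc : LocD.{v} T (fun d => χq (jp d)) iv

variable {S : FSys G} {Sq : FSys Γ} {χ : G → ℤ_[2]} {χq : Γ → ℤ_[2]} {e : G →* Γ} {c : Γ}
  {κ : G →* G} {P : Type*} [Group P] {T : FSys P} {jp : P →* Γ} {iv : (P → P → A0) → A0}

theorem PlQ.esm (p : PlQ.{v} S Sq χ χq e c κ T jp iv) : Sm1 T fun d => ep e (jp d) := by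
  obtain ⟨W, hW⟩ := S.ex
  obtain ⟨W', hW', h1⟩ := p.up W hW
  obtain ⟨W'', hW'', h2⟩ := p.js W' hW'
  refine ⟨W'', hW'', fun g w hw => ?_⟩
  obtain ⟨k, -, h3⟩ := h1 _ (h2 w hw)
  beta_reduce
  rw [map_mul, ← h3, QP.ep_add2 p.two, QP.ep_e, add_zero]

variable {F : Type v} [Field F] [Finite F] [CharP F 2] [Algebra (ZMod 2) F] {n : ℕ} {M : Type v}
  [AddCommGroup M] [Finite M] {Θ : Set (G × G)} {O : Type*} [CommRing O]
  [Algebra O F] [Module O M] {ρ : G → M → M} {b : M →+ M →+ A0} {C : M → M}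
  {L : M ≃+ (Fin n → F)} {A : Γ →* Matrix (Fin n) (Fin n) F}

theorem Crd.smooth [Sy F n] (hc : Crd e c O ρ b C L A)
    (up : ∀ W, S.mem W → ∃ W', Sq.mem W' ∧ ∀ σ ∈ W', ∃ g ∈ W, e g = σ) (hs : Smooth S ρ) :
    Smooth Sq (KT.act A) := by
  obtain ⟨W, hW, h1⟩ := hs
  obtain ⟨W', hW', h2⟩ := up W hW
  refine ⟨W', hW', fun w hw m => ?_⟩
  obtain ⟨k, hk, rfl⟩ := h2 w hw
  obtain ⟨m, rfl⟩ := L.surjective m
  show A (e k) *ᵥ L m = L m
  rw [hc.ae, h1 k hk]

theorem PlQ.smA [Sy F n] (p : PlQ.{v} S Sq χ χq e c κ T jp iv) (hc : Crd e c O ρ b C L A)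
    (hs : Smooth S ρ) : Smooth T (KT.act (A.comp jp)) :=
  (hc.smooth p.up hs).comp p.js

theorem PlQ.ldA [Sy F n] (p : PlQ.{v} S Sq χ χq e c κ T jp iv) (hc : Crd e c O ρ b C L A)
    (hs : Smooth S ρ) : LDual T iv (KT.act (A.comp jp)) (KT.act (A.comp jp))
      (BU : (Fin n → F) →+ (Fin n → F) →+ A0) :=
  p.loc.ld (pair_BU p.loc.toLocH.char (fun _ => hc.sp _) (p.smA hc hs))

theorem PlQ.qm (p : PlQ.{v} S Sq χ χq e c κ T jp iv) (h : SDualF S χ κ Θ O ρ b) :
    QM T (fun d => χq (jp d)) O (fun d => ac2 e c κ ρ (jp d)) (be2 b)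
      (fun a d => la2 e c κ ρ b a (jp d)) :=
  (qm_two p.two p.chi p.chic p.mul p.up p.ks h).comp p.js

theorem PlQ.ldM (p : PlQ.{v} S Sq χ χq e c κ T jp iv) (h : SDualF S χ κ Θ O ρ b) :
    LDual T iv (fun d => ac2 e c κ ρ (jp d)) (fun d => ac2 e c κ ρ (jp d)) (pB (be2 b)) :=
  p.loc.ld (p.qm h).pair

/-- two Lagrangian conditions, one contained in the other -/
theorem lag_eq {V : Type*} [AddCommGroup V] [Module O V] {σ : P → V → V} {β : V →+ V →+ A0}
    {l : O → P → V → A0} {Y Y' : Submodule O (P → V)} (h : Lag T iv σ β l Y)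
    (h' : Lag T iv σ β l Y') (hle : Y ≤ Y') : Y = Y' := by
  refine le_antisymm hle fun x hx => ?_
  exact (h.self x (h'.coc x hx)).2 fun y hy => (h'.self x (h'.coc x hx)).1 hx y (hle hy)

end pl

section split

variable {G Γ : Type*} [Group G] [Group Γ]
  {S : FSys G} {Sq : FSys Γ} {χ : G → ℤ_[2]} {χq : Γ → ℤ_[2]} {e : G →* Γ} {c : Γ}
  {κ : G →* G} {P : Type*} [Group P] {T : FSys P} {jj : P →* G} {iv : (P → P → A0) → A0}
  {F : Type v} [Field F] [Finite F] [CharP F 2] [Algebra (ZMod 2) F] {M : Type v}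
  [AddCommGroup M] [Finite M] {Θ : Set (G × G)} {O : Type*} [CommRing O]
  [Algebra O F] [Module O M] {ρ : G → M → M} {b : M →+ M →+ A0} {C : M → M}

/-- THE CONTRIBUTION OF A PLACE THAT SPLITS, for `M × M`. -/
theorem locM_split (p : PlQ.{v} S Sq χ χq e c κ T (e.comp jj) iv) (hs : Smooth S ρ)
    {Λ Λ' : Submodule O (P → M)}
    (hY : Lag T iv (fun d => ac2 e c κ ρ ((e.comp jj) d)) (be2 b)
      (fun (a : O) d => la2 e c κ ρ b a ((e.comp jj) d)) (prY Λ Λ')) {k a r : ℕ}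
    (hnum : Nat.card {x : P → M // Z1 T (fun d => ρ (jj d)) x} =
      Nat.card M ^ k * Nat.card {m : M // ∀ d, ρ (jj d) m = m})
    (hr : Nat.card M = Nat.card F ^ (2 * r)) (hΛ : Nat.card Λ = Nat.card F ^ a) {δ : ℕ}
    (hδ : Even (a + (k + 1) * r + δ)) :
    LocM T (e.comp jj) iv e c κ F ρ b C (prY Λ Λ') δ := by
  intro n iS L A hc
  have hq1 : 1 < Nat.card F := Finite.one_lt_card
  have hn : n = 2 * r := by
    rw [Nat.card_congr L.toEquiv, Module.natCard_eq_pow_finrank (K := F),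
      Module.finrank_fin_fun] at hr
    exact Nat.pow_right_injective hq1 hr
  have hY' : Lag T iv (fun d => ac2 e c κ (KT.act (A.comp e)) ((e.comp jj) d)) (be2 (bC A c))
      (fun (a : F) d => la2 e c κ (KT.act (A.comp e)) (bC A c) a ((e.comp jj) d))
      (prY (tra hc.iso Λ) (tra hc.iso Λ')) :=
    lag_tra (siso_f2 hc.iso) (fun d v => hc.act2 p.two ((e.comp jj) d) v) hc.be
      (fun a d v => hc.la p.two a ((e.comp jj) d) v) hY
  have hsm := p.smA hc hs
  have hld := p.ldA hc hs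
  have hBm : ∀ d m, (A.comp (e.comp jj)) d *ᵥ L m = L (ρ (jj d) m) := fun d m => hc.ae _ m
  have hfin : Finite (cocS T (A.comp (e.comp jj) : P → Matrix (Fin n) (Fin n) F)) := hld.fin
  have hfd : FiniteDimensional F (cocS T (A.comp (e.comp jj) : P → Matrix (Fin n) (Fin n) F)) :=
    Module.Finite.of_finite
  have hc1 : Nat.card {x : P → M // Z1 T (fun d => ρ (jj d)) x} =
      Nat.card (cocS T (A.comp (e.comp jj) : P → Matrix (Fin n) (Fin n) F)) :=
    Nat.card_congr ((fnA L P).subtypeEquiv fun x =>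
      (z1_tra (f := L) (fun d m => (hBm d m).symm)).symm)
  have hc2 : Nat.card {m : M // ∀ d, ρ (jj d) m = m} =
      Nat.card (QP.fixG (A.comp (e.comp jj))) := by
    refine Nat.card_congr (L.toEquiv.subtypeEquiv fun m => ?_)
    show _ ↔ ∀ d, (A.comp (e.comp jj)) d *ᵥ L m = L m
    refine forall_congr' fun d => ?_
    rw [hBm]
    exact ⟨fun h1 => by rw [h1], fun h1 => L.injective h1⟩
  rw [hc1, hc2, hr, Module.natCard_eq_pow_finrank (K := F),
    Module.natCard_eq_pow_finrank (K := F) (V := QP.fixG (A.comp (e.comp jj))), ← pow_mul,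
    ← pow_add] at hnum
  have h2 := Nat.pow_right_injective hq1 hnum
  have h3 := QP.finrank_cobS (A.comp (e.comp jj))
  have h4 : Module.finrank F (cocS T (A.comp (e.comp jj) : P → Matrix (Fin n) (Fin n) F)) +
      Module.finrank F (cobS (A.comp (e.comp jj) : P → Matrix (Fin n) (Fin n) F)) =
      2 * ((k + 1) * r) := by
    have h5 : 2 * ((k + 1) * r) = 2 * r * k + 2 * r := by ring
    have h6 : Module.finrank F (cocS T (A.comp (e.comp jj) : P → Matrix (Fin n) (Fin n) F)) =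
      2 * r * k + Module.finrank F (QP.fixG (A.comp (e.comp jj))) := h2
    omega
  have h7 : Module.finrank F (tra hc.iso Λ) = a := by
    have h8 : Finite (tra hc.iso Λ) := by
      refine Finite.of_injective (fun x : tra hc.iso Λ => (⟨x.1, ?_⟩ :
        cocS T (A.comp (e.comp jj) : P → Matrix (Fin n) (Fin n) F))) fun x y h => Subtype.ext (by
          simpa using h)
      have h9 := hY'.coc (fun d => (x.1 d, 0)) ⟨x.2, (tra hc.iso Λ').zero_mem⟩
      exact ((z1_split p.two).1 h9).1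
    have h10 : FiniteDimensional F (tra hc.iso Λ) := Module.Finite.of_finite
    have h9 := card_tra hc.iso Λ
    rw [hΛ, Module.natCard_eq_pow_finrank (K := F)] at h9
    exact Nat.pow_right_injective hq1 h9
  exact locPar_split p.two p.loc.toLocH hc.sp hsm hld hY' h4 (by rw [h7]; exact hδ)

end split

section ram

variable {G Γ : Type*} [Group G] [Group Γ]
  {S : FSys G} {Sq : FSys Γ} {χ : G → ℤ_[2]} {χq : Γ → ℤ_[2]} {e : G →* Γ} {c : Γ}
  {κ : G →* G} {P : Type*} [Group P] {T : FSys P} {jp : P →* Γ} {iv : (P → P → A0) → A0}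
  {F : Type v} [Field F] [Finite F] [CharP F 2] [Algebra (ZMod 2) F] {M : Type v}
  [AddCommGroup M] [Finite M] {Θ : Set (G × G)} {O : Type*} [CommRing O]
  [Algebra O F] [Module O M] {ρ : G → M → M} {b : M →+ M →+ A0} {C : M → M}
  {In : Set P}

/-- the condition `urY` in coordinates -/
theorem tra_ur {n : ℕ} [Sy F n] {L : M ≃+ (Fin n → F)} {A : Γ →* Matrix (Fin n) (Fin n) F}
    (X : Two e c κ) (hc : Crd e c O ρ b C L A)
    (act : IsAct fun d => ac2 e c κ ρ (jp d))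
    (lin : ∀ (d : P) (a : O) m, ac2 e c κ ρ (jp d) (a • m) = a • ac2 e c κ ρ (jp d) m)
    (act' : IsAct fun d => ac2 e c κ (KT.act (A.comp e)) (jp d))
    (lin' : ∀ (d : P) (a : F) m, ac2 e c κ (KT.act (A.comp e)) (jp d) (a • m) =
      a • ac2 e c κ (KT.act (A.comp e)) (jp d) m) :
    tra (siso_f2 hc.iso) (urY T act lin In) = urY T act' lin' In := by
  ext x
  obtain ⟨x, rfl⟩ : ∃ y : P → M × M, x = fun d => f2 L (y d) :=
    ⟨fun d => (f2 L).symm (x d), funext fun d => ((f2 L).apply_symm_apply _).symm⟩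
  rw [map_tra, mem_urY, mem_urY, z1_tra (f := f2 L) (ρ := fun d => ac2 e c κ ρ (jp d))
    (fun d v => hc.act2 X (jp d) v)]
  refine and_congr Iff.rfl (forall_congr' fun d => forall_congr' fun _ => ?_)
  rw [map_eq_zero_iff _ (f2 L).injective]

/-- THE CONTRIBUTION OF A RAMIFIED PLACE, for `M × M`. -/
theorem locM_ram (p : PlQ.{v} S Sq χ χq e c κ T jp iv) (h : SDualF S χ κ Θ O ρ b) (hC : InvC κ O ρ b C)
    {θ : G} {J : Subgroup P} (R : RamPl T jp iv χq (ep e) In J)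
    (RF : RamF e c T (fun d => χq (jp d)) jp In θ J) (hθ : ∀ m, ρ θ (C m) = m)
    (hJ : ∀ d ∈ J, (∀ g, e g = jp d → ∀ m, ρ g m = m) ∧ ∀ g, e g * c = jp d → ∀ m, ρ g (C m) = m)
    {Y : Submodule O (P → M × M)}
    (hY : Lag T iv (fun d => ac2 e c κ ρ (jp d)) (be2 b)
      (fun (a : O) d => la2 e c κ ρ b a (jp d)) Y) (hIn : ∀ x ∈ Y, ∀ d ∈ In, x d = 0) :
    LocM T jp iv e c κ F ρ b C Y 0 := by
  intro n iS L A hc
  have X := p.two
  have hqm := p.qm h
  have hθC : ∀ m, ρ θ m = C m := fun m => by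
    have h1 := hθ (C m)
    rwa [hC.sq] at h1
  have htriv : TrivIn e κ jp In ρ := by
    intro d hd
    obtain ⟨hd1, g, hg⟩ := (RF.inn d).1 hd
    refine ⟨g, hg, (hJ d hd1).1 g hg, fun m => ?_⟩
    have h1 := hC.kap g m
    rw [(hJ d hd1).1 g hg] at h1
    have h2 := congrArg C h1
    rwa [hC.sq, hC.sq] at h2
  have hur := lag_ramF (act := h.act) (lin := h.lin) X RF p.loc.toLocH h.symm h.bal (fun a m => by
    rw [hθC]
    exact hC.alt a m) htriv hqm (p.ldM h)
  have hle : Y ≤ urY (O := O) T ((X.act h.act).comp jp) (fun d => X.lin h.lin (jp d)) In :=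
    fun x hx => mem_urY.2 ⟨hY.coc x hx, hIn x hx⟩
  have he := lag_eq hY hur hle
  rw [he]
  have hAe : ∀ g m, (KT.act (A.comp e)) g m = A (e g) *ᵥ m := fun _ _ => rfl
  have act0 : IsAct (KT.act (A.comp e : G → Matrix (Fin n) (Fin n) F)) :=
    { one := fun m => by rw [hAe, map_one, map_one, one_mulVec]
      mul := fun g k m => by rw [hAe, hAe, hAe, map_mul, map_mul, mulVec_mulVec]
      add := fun g m m' => by rw [hAe, hAe, hAe, mulVec_add] }
  have lin0 : ∀ g (a : F) m, (KT.act (A.comp e : G → Matrix (Fin n) (Fin n) F)) g (a • m) =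
      a • (KT.act (A.comp e : G → Matrix (Fin n) (Fin n) F)) g m := fun g a m => by
    rw [hAe, hAe, mulVec_smul]
  rw [tra_ur X hc _ _ ((X.act act0).comp jp) (fun d => X.lin lin0 (jp d))]
  refine locPar_ram X p.loc.toLocH hc.sp (p.smA hc h.sm) p.esm R (fun d hd => ?_) _ _ ?_
  · -- inertia acts trivially
    refine QP.mat_ext fun m => ?_
    obtain ⟨m, rfl⟩ := L.surjective m
    rw [one_mulVec]
    rcases X.cases (jp d) with ⟨g, hg⟩ | ⟨g, hg⟩
    · rw [← hg, hc.ae, (hJ d hd).1 g hg]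
    · rw [← hg, map_mul, ← mulVec_mulVec, hc.ac, hc.ae, (hJ d hd).2 g hg]
  · have h1 := lag_tra (l' := fun (a : F) d => la2 e c κ (KT.act (A.comp e)) (bC A c) a (jp d))
      (siso_f2 hc.iso) (fun d v => hc.act2 X (jp d) v) hc.be
      (fun a d v => hc.la X a (jp d) v) hur
    rw [tra_ur X hc _ _ ((X.act act0).comp jp) (fun d => X.lin lin0 (jp d))] at h1
    exact h1

/-- THE CONTRIBUTION OF INFINITY, for `M × M`. -/
theorem locM_inf (p : PlQ.{v} S Sq χ χq e c κ T jp iv) (h : SDualF S χ κ Θ O ρ b) {t₀ : P}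
    (R : InfPl T jp iv χq c In t₀) (RI : RamI c jp In) {Y : Submodule O (P → M × M)}
    (hY : Lag T iv (fun d => ac2 e c κ ρ (jp d)) (be2 b)
      (fun (a : O) d => la2 e c κ ρ b a (jp d)) Y) {r : ℕ}
    (hr : Nat.card M = Nat.card F ^ (2 * r)) :
    LocM T jp iv e c κ F ρ b C Y r := by
  intro n iS L A hc
  have X := p.two
  have hqm := p.qm h
  have hn : n / 2 = r := by
    rw [Nat.card_congr L.toEquiv, Module.natCard_eq_pow_finrank (K := F),
      Module.finrank_fin_fun] at hr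
    have := Nat.pow_right_injective (Finite.one_lt_card : 1 < Nat.card F) hr
    omega
  have hur := lag_ramI (act := h.act) (lin := h.lin) X RI p.loc.toLocH hqm
  have hle : Y ≤ urY (O := O) T ((X.act h.act).comp jp) (fun d => X.lin h.lin (jp d)) In :=
    fun x hx => mem_urY.2 ⟨hY.coc x hx, fun d hd => by
      have h1 := (hY.coc x hx).2 1 1
      rw [mul_one] at h1
      have h2 : ac2 e c κ ρ (jp 1) (x 1) = x 1 := by
        rw [map_one]
        exact (X.act h.act).one _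
      have h3 : x 1 = x 1 + x 1 := h1.trans (congrArg (x 1 + ·) h2)
      rw [RI.inn d hd]
      exact left_eq_add.1 h3⟩
  have he := lag_eq hY hur hle
  rw [he]
  have hAe : ∀ g m, (KT.act (A.comp e)) g m = A (e g) *ᵥ m := fun _ _ => rfl
  have act0 : IsAct (KT.act (A.comp e : G → Matrix (Fin n) (Fin n) F)) :=
    { one := fun m => by rw [hAe, map_one, map_one, one_mulVec]
      mul := fun g k m => by rw [hAe, hAe, hAe, map_mul, map_mul, mulVec_mulVec]
      add := fun g m m' => by rw [hAe, hAe, hAe, mulVec_add] }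
  have lin0 : ∀ g (a : F) m, (KT.act (A.comp e : G → Matrix (Fin n) (Fin n) F)) g (a • m) =
      a • (KT.act (A.comp e : G → Matrix (Fin n) (Fin n) F)) g m := fun g a m => by
    rw [hAe, hAe, mulVec_smul]
  rw [tra_ur X hc _ _ ((X.act act0).comp jp) (fun d => X.lin lin0 (jp d)), ← hn]
  refine locPar_inf X p.loc.toLocH hc.sp (p.smA hc h.sm) p.esm R _ _ ?_
  have h1 := lag_tra (l' := fun (a : F) d => la2 e c κ (KT.act (A.comp e)) (bC A c) a (jp d))
    (siso_f2 hc.iso) (fun d v => hc.act2 X (jp d) v) hc.be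
    (fun a d v => hc.la X a (jp d) v) hur
  rw [tra_ur X hc _ _ ((X.act act0).comp jp) (fun d => X.lin lin0 (jp d))] at h1
  exact h1

end ram

end Pool.Agent.Work.MP_787500_nt.KI
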