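import Mathlib
import Pool.Agent.Work.MP_787500_nt.KI.LocM
import Pool.Agent.Work.MP_787500_nt.QV.App2
import Pool.Agent.Work.MP_787500_nt.QF.Fin2

/-!
# THE LEVEL ONE FOR `V × V`

* `YM`: the reductions of level 1 of a local condition for `V × V`, as a condition for `M × M`, `M = MN T l 1`.
* `hP_of_loc`: THE PARITY at the level 1 from the local contributions (the hypothesis `hP` of `QV.parity_E`).
-/

set_option autoImplicit false
set_option linter.unusedSectionVars false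

namespace Pool.Agent.Work.MP_787500_nt.KI

open Matrix
open Pool.Agent.Work.MP_787500_nt.GP (A0 hf smul_hf IsAct d0 tw cup11 EvPow OE MN actN actQ bN bil Lat
  lamN mq Wq)
open Pool.Agent.Work.MP_787500_nt.KR (FSys Z1 Z2 Sm1 Smooth IsChar LocH LDual LocD d0_Z1 SDualF Pair
  LocRep sdualF_MN)
open Pool.Agent.Work.MP_787500_nt.KT hiding Str Rel Sel KH Ai IsP cc ff TT
open Pool.Agent.Work.MP_787500_nt.QS (Two ac2 be2 la2 Lag HQ selQ QM pB Zq be2_apply pB_apply prY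
  mem_prY urY mem_urY qm_two)
open Pool.Agent.Work.MP_787500_nt.QP (InvC)
open Pool.Agent.Work.MP_787500_nt.QV (QRep T2 J2 blk rho2 beN laN isoN iso_act iso_be iso_la selNQ
  card_selNQ)

universe v

variable {E : Type v} [NormedField E] [NormedAlgebra ℚ_[2] E] {n : ℕ}

/-- the isomorphism of the level 1 -/
theorem siso_iso (T : Submodule (OE E) (Fin n → E)) (l : OE E) :
    SIso (OE E) (OE E) (isoN T l 1).toAddEquiv where
  surj a := ⟨a, rfl⟩
  smul a m := map_smul (isoN T l 1) a m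

/-- the reductions of level 1 of a local condition, as a condition for `M × M` -/
noncomputable def YM (T : Submodule (OE E) (Fin n → E)) (l : OE E) {P : Type*} [Group P]
    (L : Submodule E (P → Fin (n + n) → E)) : Submodule (OE E) (P → MN T l 1 × MN T l 1) :=
  tra (siso_iso T l) (lamN (T2 T) l 1 L)

theorem mem_YM {T : Submodule (OE E) (Fin n → E)} {l : OE E} {P : Type*} [Group P]
    {L : Submodule E (P → Fin (n + n) → E)} {x : P → MN (T2 T) l 1} :
    (fun d => isoN T l 1 (x d)) ∈ YM T l L ↔ x ∈ lamN (T2 T) l 1 L :=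
  map_tra (siso_iso T l)

theorem card_YM {T : Submodule (OE E) (Fin n → E)} {l : OE E} {P : Type*} [Group P]
    {L : Submodule E (P → Fin (n + n) → E)} : Nat.card (YM T l L) = Nat.card (lamN (T2 T) l 1 L) :=
  card_tra (siso_iso T l) _

section lag

variable {G Γ : Type*} [Group G] [Group Γ] {e : G →* Γ} {c : Γ} {κ : G →* G}
  {ρ : G → Matrix (Fin n) (Fin n) E} {S : FSys G} {Sq : FSys Γ} {χ : G → ℤ_[2]} {χq : Γ → ℤ_[2]}
  {l : OE E} {t : E →ₗ[ℚ_[2]] ℚ_[2]} {T : Submodule (OE E) (Fin n → E)}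
  {b : Matrix (Fin n) (Fin n) E} {P : Type*} [Group P] {TP : FSys P} {jp : P →* Γ}
  {iv : (P → P → A0) → A0}

/-- the condition `YM` is Lagrangian -/
theorem lag_YM [FiniteDimensional ℚ_[2] E] (X : Two e c κ) (hχ : ∀ g, χq (e g) = χ g)
    (hc : χq c = -1) (hm : ∀ σ τ, χq (σ * τ) = χq σ * χq τ) (hl : Lat b l t T)
    (hr : LocRep S χ T b ρ (fun g => ρ (κ g))) {Sm J : Matrix (Fin (n + n)) (Fin (n + n)) E}
    (h : QRep Sq χq l t (T2 T) (blk 0 b 0 0) Sm J (rho2 e c κ ρ))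
    {L : Submodule E (P → Fin (n + n) → E)}
    (hY : Lag TP iv (fun d => actN l 1 (rho2 e c κ ρ) h.rep.st (jp d)) (beN h 1)
      (fun a d => laN χq l t (blk 0 b 0 0) (rho2 e c κ ρ) (T2 T) 1 a (jp d))
      (lamN (T2 T) l 1 L)) :
    Lag TP iv (fun d => ac2 e c κ (actN l 1 ρ hr.st) (jp d)) (be2 (bN hl 1))
      (fun (a : OE E) d => la2 e c κ (actN l 1 ρ hr.st) (bN hl 1) a (jp d)) (YM T l L) :=
  lag_tra (l' := fun (a : OE E) d => la2 e c κ (actN l 1 ρ hr.st) (bN hl 1) a (jp d))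
    (siso_iso T l) (fun d m => iso_act X hr.st h.rep.st (jp d) m) (fun v w => iso_be hl h v w)
    (fun a d m => iso_la X hχ hc hm hl hr h a (jp d) m) hY

end lag

section par

variable [FiniteDimensional ℚ_[2] E] [IsLocalRing (OE E)]
  [Finite (IsLocalRing.ResidueField (OE E))] [CharP (IsLocalRing.ResidueField (OE E)) 2]
  [Algebra (ZMod 2) (IsLocalRing.ResidueField (OE E))]
  {G Γ : Type*} [Group G] [Group Γ] {e : G →* Γ} {c : Γ} {κ : G →* G}
  {ρ : G → Matrix (Fin n) (Fin n) E} {S : FSys G} {Sq : FSys Γ} {χ : G → ℤ_[2]} {χq : Γ → ℤ_[2]}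
  {l : OE E} {t : E →ₗ[ℚ_[2]] ℚ_[2]} {T : Submodule (OE E) (Fin n → E)}
  {b : Matrix (Fin n) (Fin n) E} {I : Type*} [Fintype I] {D : I → Type*}
  [∀ i, Group (D i)] {SD : ∀ i, FSys (D i)} {j : ∀ i, D i →* Γ}
  {inv : ∀ i, (D i → D i → A0) → A0} {tr : ((Γ → Γ → Γ → A0) × (∀ i, D i → D i → A0)) →+ A0}

/-- THE PARITY AT THE LEVEL 1, from the local contributions. -/
theorem hP_of_loc (H : HQ.{v} Sq SD j χq inv tr) (X : Two e c κ) (hχ : ∀ g, χq (e g) = χ g)
    (hc : χq c = -1) (up : ∀ W, S.mem W → ∃ W', Sq.mem W' ∧ ∀ σ ∈ W', ∃ g ∈ W, e g = σ)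
    (ks : ∀ W, S.mem W → ∃ W', S.mem W' ∧ ∀ v ∈ W', κ v ∈ W) (hl : Lat b l t T)
    (hr : LocRep S χ T b ρ (fun g => ρ (κ g))) {Sm J : Matrix (Fin (n + n)) (Fin (n + n)) E}
    (h : QRep Sq χq l t (T2 T) (blk 0 b 0 0) Sm J (rho2 e c κ ρ)) {C : MN T l 1 → MN T l 1}
    (hC : InvC κ (OE E) (actN l 1 ρ hr.st) (bN hl 1) C) {L : ∀ i, Submodule E (D i → Fin (n + n) → E)}
    (hlag : ∀ i, Lag (SD i) (inv i) (fun d => actN l 1 (rho2 e c κ ρ) h.rep.st (j i d)) (beN h 1)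
      (fun a d => laN χq l t (blk 0 b 0 0) (rho2 e c κ ρ) (T2 T) 1 a (j i d))
      (lamN (T2 T) l 1 (L i))) {δ : I → ℕ}
    (hloc : ∀ i, LocM (SD i) (j i) (inv i) e c κ (IsLocalRing.ResidueField (OE E)) (actN l 1 ρ hr.st)
      (bN hl 1) C (YM T l (L i)) (δ i)) :
    EvPow (Nat.card (IsLocalRing.ResidueField (OE E)))
      (Nat.card (selNQ Sq j (rho2 e c κ ρ) L h 1) *
        Nat.card (IsLocalRing.ResidueField (OE E)) ^ ∑ i, δ i) := by
  have hfin : Finite (MN T l 1) := GP.MN_finite hl 1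
  have hs : SDualF S χ κ ∅ (OE E) (actN l 1 ρ hr.st) (bN hl 1) :=
    sdualF_MN hl hr (fun p hp => absurd hp (Set.notMem_empty p)) 1
  have hm := H.glob.char.mul
  have hqm := qm_two X hχ hc hm up ks hs
  rw [card_selNQ X hr.st h hqm.act hqm.lin (Y := fun i => YM T l (L i)) fun i x => mem_YM.symm]
  exact par_M H X hχ up (QF.max_MN hl) hs hC hqm
    (fun i => lag_YM X hχ hc hm hl hr h (hlag i)) hloc

end par

end Pool.Agent.Work.MP_787500_nt.KI
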