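import Mathlib
import Pool.Agent.Work.MP_787500_nt.KI.LevQ
import Pool.Agent.Work.MP_787500_nt.QL.RamQ
import Pool.Agent.Work.MP_787500_nt.QU.Inst
import Pool.Agent.Work.MP_787500_nt.QW.Hyp

/-!
# THE LEVEL ONE: the arithmetic family

* `plQ`: the places of the arithmetic instance.
* `locM_infty`: infinity; `locM_pD`: the prime divisors of `D` where `V` is unramified.
* `hP_fam`: THE HYPOTHESIS `hP` of `QW.parity_BK` from the contributions of the places of `T`.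
-/

set_option autoImplicit false
set_option linter.unusedSectionVars false

namespace Pool.Agent.Work.MP_787500_nt.KI

open Matrix NumberField
open Pool.Agent.Work.MP_787500_nt.GP (A0 OE bil Lat inT stabD EvPow actN lamN MN bN mq Wq actQ IsAct)
open Pool.Agent.Work.MP_787500_nt.KR (FSys IsChar ZV zV LocRep LocD fullC fullD fullK fullQ big SDualF
  sdualF_MN)
open Pool.Agent.Work.MP_787500_nt.PA (toE cyc)
open Pool.Agent.Work.MP_787500_nt.HP (IsQ Spl IsP inr stb cyQ)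
open Pool.Agent.Work.MP_787500_nt.KS (iK ep)
open Pool.Agent.Work.MP_787500_nt.QS (Two Lag ac2 be2 la2 prY)
open Pool.Agent.Work.MP_787500_nt.QV (rho2 selNQ QRep T2 J2 blk beN laN isoN iso_one iso_two)
open Pool.Agent.Work.MP_787500_nt.QU (urV Inst)
open Pool.Agent.Work.MP_787500_nt.QW (famL Ari sysQ)
open Pool.Agent.Work.MP_787500_nt.GA (HQ SQ jQ iQ)
open Pool.Agent.Work.MP_787500_nt.QP (InvC)

universe u w

theorem locPar_congr {F : Type*} [Field F] [Finite F] [CharP F 2] [Algebra (ZMod 2) F] {n : ℕ}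
    [KT.Sy F n] {G Γ : Type*} [Group G] [Group Γ] {e : G →* Γ} {c : Γ} {κ : G →* G} {Q : Type*}
    [Group Q] {TQ : FSys Q} {jp : Q →* Γ} {iv : (Q → Q → A0) → A0}
    {A : Γ →* Matrix (Fin n) (Fin n) F} {Y : Submodule F (Q → (Fin n → F) × (Fin n → F))} {δ δ' : ℕ}
    (hd : Even (δ + δ')) (h : LocPar TQ jp iv e c κ A Y δ) : LocPar TQ jp iv e c κ A Y δ' := by
  obtain ⟨Y₀, t, m, h1, h2, h3, h4⟩ := h
  refine ⟨Y₀, t, m, h1, h2, h3, ?_⟩
  obtain ⟨a, ha⟩ := hd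
  obtain ⟨b, hb⟩ := h4
  refine ⟨b + a - δ, ?_⟩
  have ha' : (δ : ℤ) + δ' = a + a := by exact_mod_cast ha
  omega

/-- the contribution matters modulo 2 -/
theorem locM_congr {F : Type*} [Field F] [Finite F] [CharP F 2] [Algebra (ZMod 2) F]
    {G Γ : Type*} [Group G] [Group Γ] {e : G →* Γ} {c : Γ} {κ : G →* G} {Q : Type*}
    [Group Q] {TQ : FSys Q} {jp : Q →* Γ} {iv : (Q → Q → A0) → A0} {O : Type*} [CommRing O]
    [Algebra O F] {M : Type*} [AddCommGroup M] [Module O M] {ρ : G → M → M} {b : M →+ M →+ A0}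
    {C : M → M} {Y : Submodule O (Q → M × M)} {δ δ' : ℕ} (hd : Even (δ + δ'))
    (h : LocM TQ jp iv e c κ F ρ b C Y δ) : LocM TQ jp iv e c κ F ρ b C Y δ' :=
  fun n iS L A hc => locPar_congr hd (h n iS L A hc)

/-- even powers are cancelled -/
theorem evPow_cancel {q x a r : ℕ} (hq : 1 < q) (h : EvPow q (x * q ^ (a + 2 * r))) :
    EvPow q (x * q ^ a) := by
  obtain ⟨k, hk⟩ := h
  have h1 : q ^ (2 * r) ∣ q ^ (2 * k) := ⟨x * q ^ a, by rw [← hk, pow_add]; ring⟩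
  have h2 := (Nat.pow_dvd_pow_iff_le_right hq).1 h1
  refine ⟨k - r, Nat.eq_of_mul_eq_mul_right (pow_pos (by omega : 0 < q) (2 * r)) ?_⟩
  rw [← pow_add, show 2 * (k - r) + 2 * r = 2 * k by omega, ← hk, pow_add]
  ring

theorem evPow_congr {q x a b : ℕ} (hq : 1 < q) (hab : Even (a + b)) (h : EvPow q (x * q ^ a)) :
    EvPow q (x * q ^ b) := by
  refine evPow_cancel (r := a) hq ?_
  obtain ⟨k, hk⟩ := h
  obtain ⟨m, hm⟩ := hab
  refine ⟨k + m, ?_⟩
  rw [show b + 2 * a = a + (a + b) by ring, pow_add, ← mul_assoc, hk, hm, ← pow_add]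
  congr 1
  ring

section triv

variable {E : Type*} [NormedField E] [NormedAlgebra ℚ_[2] E] {n : ℕ}

/-- a matrix that is 1 acts trivially -/
theorem actN_one {G : Type*} {T : Submodule (OE E) (Fin n → E)} {l : OE E} {N : ℕ}
    {ρ : G → Matrix (Fin n) (Fin n) E} (hst : ∀ g, ∀ x ∈ T, ρ g *ᵥ x ∈ T) {g : G} (hg : ρ g = 1)
    (m : MN T l N) : actN l N ρ hst g m = m := by
  apply Subtype.ext
  rw [GP.coe_actN, ← GP.mq_lft (m : Wq T), GP.actQ_mq (hst g), hg, one_mulVec]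

end triv

variable {K : Type u} [Field K] [NumberField K] {D : ℕ} {s : K}
  {c : AlgebraicClosure K ≃+* AlgebraicClosure K} {κ : AbsGal K →* AbsGal K} {T : Finset ℕ}
  {P : ℕ → Ideal (𝓞 (AlgebraicClosure K))} {N₀ : Subgroup (AbsGal K)}
  {iv ivF : ∀ w : Option T, (stb (HP.PP P w) → stb (HP.PP P w) → A0) → A0}
  {tr : (((AlgebraicClosure K ≃+* AlgebraicClosure K) → (AlgebraicClosure K ≃+* AlgebraicClosure K) →
      (AlgebraicClosure K ≃+* AlgebraicClosure K) → A0) ×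
      (∀ i : Option (Option T), HQ c P i → HQ c P i → A0)) →+ A0}

theorem ks_inst (I : Inst.{u, w} s c κ D T P N₀ iv ivF tr) (W : Subgroup (AbsGal K))
    (hW : (big (fullK (K := K) T) N₀).mem W) :
    ∃ W', (big (fullK (K := K) T) N₀).mem W' ∧ ∀ v ∈ W', κ v ∈ W :=
  ⟨_, QF.kap_big I.hc I.hκ I.kN hW, fun _ hv => hv⟩

/-- THE PLACES. -/
theorem plQ (I : Inst.{u, w} s c κ D T P N₀ iv ivF tr) (i : Option (Option T)) :
    PlQ.{w} (big (fullK (K := K) T) N₀) (sysQ T N₀) cyc cyQ (iK K) c κ (SQ c P (N₀.map (iK K)) i)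
      (jQ c P i) (iQ c P ivF i) where
  two := I.isTwo
  chi := Inst.chi
  chic := I.chic
  mul := I.glob.glob.char.mul
  up := fun _ hW => I.up hW
  ks := ks_inst I
  js := I.jsm i
  loc := I.locD i

/-- a representation that is trivial on the inertia group over `K` at a prime divisor of `D` is trivial on its
conjugate -/
theorem unr_kap {R : Type*} [Monoid R] {ρ : AbsGal K →* R} (I : Inst.{u, w} s c κ D T P N₀ iv ivF tr)
    {Q : Ideal (𝓞 (AlgebraicClosure K))} {θ : AbsGal K} (hθ : iK K θ * c ∈ inr Q)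
    (hun : ∀ g : AbsGal K, iK K g ∈ inr Q → ρ g = 1) {g : AbsGal K} (hg : iK K g ∈ inr Q) :
    ρ (κ g) = 1 := by
  have hcc : c * c = 1 := I.isTwo.cc
  have hci : c⁻¹ = c := inv_eq_of_mul_eq_one_left hcc
  have h1 : iK K ((κ θ)⁻¹ * κ g * κ θ) = (iK K θ * c)⁻¹ * iK K g * (iK K θ * c) := by
    rw [map_mul, map_mul, map_inv, I.isTwo.kap, I.isTwo.kap, _root_.mul_inv_rev,
      _root_.mul_inv_rev, _root_.mul_inv_rev, hci]
    calc c * ((iK K θ)⁻¹ * c) * (c * iK K g * c) * (c * iK K θ * c)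
        = c * (iK K θ)⁻¹ * (c * c) * iK K g * (c * c) * iK K θ * c := by simp only [mul_assoc]
      _ = _ := by
        rw [hcc]
        simp only [mul_assoc, mul_one]
  have h2 := hun _ (by
    rw [h1]
    exact mul_mem (mul_mem (inv_mem hθ) hg) hθ)
  rw [map_mul, map_mul] at h2
  have h3 : ρ (κ θ) * ρ (κ θ)⁻¹ = 1 := by rw [← map_mul, mul_inv_cancel, map_one]
  have h4 : ρ (κ θ)⁻¹ * ρ (κ θ) = 1 := by rw [← map_mul, inv_mul_cancel, map_one]
  calc ρ (κ g) = ρ (κ θ) * ρ (κ θ)⁻¹ * ρ (κ g) * (ρ (κ θ) * ρ (κ θ)⁻¹) := by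
        rw [h3, one_mul, mul_one]
    _ = ρ (κ θ) * (ρ (κ θ)⁻¹ * ρ (κ g) * ρ (κ θ)) * ρ (κ θ)⁻¹ := by simp only [mul_assoc]
    _ = 1 := by rw [h2, mul_one, h3]

variable {E : Type w} [NormedField E] [NormedAlgebra ℚ_[2] E] [FiniteDimensional ℚ_[2] E]
  [IsLocalRing (OE E)] [Finite (IsLocalRing.ResidueField (OE E))]
  [CharP (IsLocalRing.ResidueField (OE E)) 2] [Algebra (ZMod 2) (IsLocalRing.ResidueField (OE E))]
  {n : ℕ} {ρ : AbsGal K →* Matrix (Fin n) (Fin n) E} {b : Matrix (Fin n) (Fin n) E}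
  {l : OE E} {t : E →ₗ[ℚ_[2]] ℚ_[2]} {L₀ : Submodule (OE E) (Fin n → E)}

/-- the contribution of a condition at a place of the family -/
abbrev LocF (c : AlgebraicClosure K ≃+* AlgebraicClosure K) (κ : AbsGal K →* AbsGal K)
    (P : ℕ → Ideal (𝓞 (AlgebraicClosure K))) (N₀ : Subgroup (AbsGal K))
    (ivF : ∀ w : Option T, (stb (HP.PP P w) → stb (HP.PP P w) → A0) → A0)
    (hl : Lat b l t L₀) (hst : ∀ g, ∀ x ∈ L₀, ρ g *ᵥ x ∈ L₀) (C : MN L₀ l 1 → MN L₀ l 1)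
    (i : Option (Option T)) (L : Submodule E (HQ c P i → Fin (n + n) → E)) (δ : ℕ) : Prop :=
  LocM (SQ c P (N₀.map (iK K)) i) (jQ c P i) (iQ c P ivF i) (iK K) c κ
    (IsLocalRing.ResidueField (OE E)) (actN l 1 (fun g => ρ g) hst) (bN hl 1) C (YM L₀ l L) δ

section lag

variable {L : Submodule E (stabD (K := K) (P 2) → Fin n → E)}

/-- the conditions of level 1 are Lagrangian -/
theorem lag_fam (I : Inst.{u, w} s c κ D T P N₀ iv ivF tr) (h : Ari s c κ D T P N₀)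
    (hρ : Gn.ConjDual 2 N₀ (inT K T) (Parity.cyclo E) κ ρ b) (hl : Lat b l t L₀)
    (hst : ∀ g, ∀ x ∈ L₀, ρ g *ᵥ x ∈ L₀)
    (hL : L ≤ Parity.cocycles (fun σ : stabD (K := K) (P 2) => ρ σ))
    (hL0 : Parity.coboundaries (fun σ : stabD (K := K) (P 2) => ρ σ) ≤ L)
    (i : Option (Option T)) :
    Lag (SQ c P (N₀.map (iK K)) i) (iQ c P ivF i)
      (fun d => ac2 (iK K) c κ (actN l 1 (fun g => ρ g) hst) (jQ c P i d)) (be2 (bN hl 1))
      (fun (a : OE E) d => la2 (iK K) c κ (actN l 1 (fun g => ρ g) hst) (bN hl 1) a (jQ c P i d))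
      (YM L₀ l (famL c κ T P N₀ ρ b h.h2 L i)) :=
  lag_YM I.isTwo Inst.chi I.chic I.glob.glob.char.mul hl (h.rep hρ hst)
    (h.qrep hρ hl hst I.glob.glob.char.mul)
    (QW.famL_lag h hρ hl hst I.glob.glob.char hL hL0 (fun i => I.locD i) 1 i)

/-- THE CONTRIBUTION OF INFINITY. -/
theorem locM_infty (I : Inst.{u, w} s c κ D T P N₀ iv ivF tr) (h : Ari s c κ D T P N₀)
    (hρ : Gn.ConjDual 2 N₀ (inT K T) (Parity.cyclo E) κ ρ b) (hl : Lat b l t L₀)
    (hst : ∀ g, ∀ x ∈ L₀, ρ g *ᵥ x ∈ L₀) {C : MN L₀ l 1 → MN L₀ l 1}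
    (hL : L ≤ Parity.cocycles (fun σ : stabD (K := K) (P 2) => ρ σ))
    (hL0 : Parity.coboundaries (fun σ : stabD (K := K) (P 2) => ρ σ) ≤ L) {r : ℕ}
    (hr : Nat.card (MN L₀ l 1) = Nat.card (IsLocalRing.ResidueField (OE E)) ^ (2 * r)) :
    LocF c κ P N₀ ivF hl hst C none (famL c κ T P N₀ ρ b h.h2 L none) r := by
  have hfin : Finite (MN L₀ l 1) := GP.MN_finite hl 1
  have hs : SDualF (big (fullK (K := K) T) N₀) cyc κ ∅ (OE E) (actN l 1 (fun g => ρ g) hst)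
      (bN hl 1) := sdualF_MN hl (h.rep hρ hst) (fun p hp => absurd hp (Set.notMem_empty p)) 1
  exact locM_inf (plQ I none) hs I.inf
    (QL.ramI_Q (fun x => I.hc.sq x) fun d hd => absurd hd (Set.notMem_empty d))
    (lag_fam I h hρ hl hst hL hL0 none) hr

/-- THE CONTRIBUTION OF THE PRIME DIVISORS OF `D` where `V` is unramified. -/
theorem locM_pD (I : Inst.{u, w} s c κ D T P N₀ iv ivF tr) (h : Ari s c κ D T P N₀)
    (hρ : Gn.ConjDual 2 N₀ (inT K T) (Parity.cyclo E) κ ρ b) (hl : Lat b l t L₀)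
    (hst : ∀ g, ∀ x ∈ L₀, ρ g *ᵥ x ∈ L₀) {C : MN L₀ l 1 → MN L₀ l 1}
    (hC : InvC κ (OE E) (actN l 1 (fun g => ρ g) hst) (bN hl 1) C)
    (hL : L ≤ Parity.cocycles (fun σ : stabD (K := K) (P 2) => ρ σ))
    (hL0 : Parity.coboundaries (fun σ : stabD (K := K) (P 2) => ρ σ) ≤ L) {p : T} (hp : (p : ℕ) ∣ D)
    {θ : AbsGal K} (hθ : iK K θ * c ∈ inr (P p))
    (hθC : ∀ m, actN l 1 (fun g => ρ g) hst θ (C m) = m)
    (hun : ∀ g : AbsGal K, iK K g ∈ inr (P p) → ρ g = 1) :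
    LocF c κ P N₀ ivF hl hst C (some (some p)) (famL c κ T P N₀ ρ b h.h2 L (some (some p))) 0 := by
  have hfin : Finite (MN L₀ l 1) := GP.MN_finite hl 1
  have hs : SDualF (big (fullK (K := K) T) N₀) cyc κ ∅ (OE E) (actN l 1 (fun g => ρ g) hst)
      (bN hl 1) := sdualF_MN hl (h.rep hρ hst) (fun p hp => absurd hp (Set.notMem_empty p)) 1
  have hpD : (p : ℕ) ∈ D.primeFactors := Nat.mem_primeFactors.2 ⟨I.prime p, hp, I.hK.sqf.ne_zero⟩
  have RF := QL.ramF_Q (α := RingEquiv.refl (AlgebraicClosure K)) (c := c) (HP.alg_closure K) I.hK hpD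
    (I.isPrime p) (I.natMem p) ((N₀.map (iK K)).subgroupOf (stb (P p))) hθ
  have hun' : ∀ g : AbsGal K, iK K g ∈ inr (P p) → ∀ m, actN l 1 (fun g => ρ g) hst g m = m :=
    fun g hg m => actN_one hst (hun g hg) m
  refine locM_ram (plQ I (some (some p))) hs hC (I.ram hp) RF hθC (fun d hd => ⟨fun g hg m => ?_,
    fun g hg m => ?_⟩) (lag_fam I h hρ hl hst hL hL0 (some (some p))) fun x hx d hd => ?_
  · refine hun' g ?_ m
    rw [hg]
    exact hd
  · have h1 : iK K (g * θ⁻¹) ∈ inr (P p) := by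
      have e1 : iK K (g * θ⁻¹) = iK K g * c * (iK K θ * c)⁻¹ := by
        rw [map_mul, map_inv]
        group
      rw [e1, hg]
      exact mul_mem hd (inv_mem hθ)
    have h2 := hun' _ h1 (actN l 1 (fun g => ρ g) hst θ (C m))
    rw [← hs.act.mul, inv_mul_cancel_right, hθC] at h2
    exact h2
  · -- the classes vanish on inertia over `K`
    obtain ⟨y, rfl⟩ : ∃ y : HQ c P (some (some p)) → MN (T2 L₀) l 1,
        x = fun d => isoN L₀ l 1 (y d) :=
      ⟨fun d => (isoN L₀ l 1).symm (x d), funext fun d => ((isoN L₀ l 1).apply_symm_apply _).symm⟩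
    obtain ⟨X, hX, hy⟩ := mem_YM.1 hx
    obtain ⟨hd1, g, hg⟩ := hd
    obtain ⟨-, v, hv⟩ := hX
    have h1 : X d = 0 := by
      have h2 := hv d hd1
      have h3 : rho2 (iK K) c κ (fun g => ρ g) (jQ c P (some (some p)) d) = 1 := by
        refine QV.mat_ext fun v => ?_
        have h4 : jQ c P (some (some p)) d = iK K g := hg.symm
        have h5 : ρ g = 1 := hun g (by rw [hg]; exact hd1)
        have h6 : ρ (κ g) = 1 := unr_kap I hθ hun (by rw [hg]; exact hd1)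
        rw [h4, one_mulVec]
        apply QV.ap_ext
        · rw [QV.v1_rho I.isTwo, h5, one_mulVec]
        · rw [QV.v2_rho I.isTwo, h6, one_mulVec]
      rw [h2]
      show rho2 (iK K) c κ (fun g => ρ g) (jQ c P (some (some p)) d) *ᵥ v - v = 0
      rw [h3, one_mulVec, sub_self]
    show isoN L₀ l 1 (y d) = 0
    have h7 : y d = 0 := Subtype.ext (by rw [hy d, h1]; exact GP.mq_eq_zero.2 (Submodule.zero_mem _))
    rw [h7, map_zero]

/-- the dimension is even -/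
theorem even_n (I : Inst.{u, w} s c κ D T P N₀ iv ivF tr) (h : Ari s c κ D T P N₀)
    (hρ : Gn.ConjDual 2 N₀ (inT K T) (Parity.cyclo E) κ ρ b) (hl : Lat b l t L₀)
    (hst : ∀ g, ∀ x ∈ L₀, ρ g *ᵥ x ∈ L₀) {C : MN L₀ l 1 → MN L₀ l 1}
    (hC : InvC κ (OE E) (actN l 1 (fun g => ρ g) hst) (bN hl 1) C) :
    ∃ r, Nat.card (MN L₀ l 1) = Nat.card (IsLocalRing.ResidueField (OE E)) ^ (2 * r) := by
  have hfin : Finite (MN L₀ l 1) := GP.MN_finite hl 1
  have hs : SDualF (big (fullK (K := K) T) N₀) cyc κ ∅ (OE E) (actN l 1 (fun g => ρ g) hst)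
      (bN hl 1) := sdualF_MN hl (h.rep hρ hst) (fun p hp => absurd hp (Set.notMem_empty p)) 1
  obtain ⟨m, iS, L, A, hc⟩ := exists_crd_res I.isTwo
    (fun g => by
      rw [← Inst.chi]
      exact I.glob.glob.char.odd _) (QF.max_MN hl) hs hC
  obtain ⟨r, hr⟩ := KT.n_even (IsLocalRing.ResidueField (OE E)) m
  refine ⟨r, ?_⟩
  rw [card_of_iso (F := IsLocalRing.ResidueField (OE E)) (Nat.card_congr L.toEquiv), hr]
  congr 1
  ring

/-- THE HYPOTHESIS `hP` of `QW.parity_BK`, from the contributions at 2 and at the places of `T`. -/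
theorem hP_fam0 (I : Inst.{u, w} s c κ D T P N₀ iv ivF tr) (h : Ari s c κ D T P N₀)
    (hρ : Gn.ConjDual 2 N₀ (inT K T) (Parity.cyclo E) κ ρ b) (hl : Lat b l t L₀)
    (hst : ∀ g, ∀ x ∈ L₀, ρ g *ᵥ x ∈ L₀) {C : MN L₀ l 1 → MN L₀ l 1}
    (hC : InvC κ (OE E) (actN l 1 (fun g => ρ g) hst) (bN hl 1) C)
    (hL : L ≤ Parity.cocycles (fun σ : stabD (K := K) (P 2) => ρ σ))
    (hL0 : Parity.coboundaries (fun σ : stabD (K := K) (P 2) => ρ σ) ≤ L)
    (hm : ∀ σ τ : AlgebraicClosure K ≃+* AlgebraicClosure K, cyQ (σ * τ) = cyQ σ * cyQ τ) {d : ℕ}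
    (h2 : ∀ r, Nat.card (MN L₀ l 1) = Nat.card (IsLocalRing.ResidueField (OE E)) ^ (2 * r) →
      LocF c κ P N₀ ivF hl hst C (some none) (famL c κ T P N₀ ρ b h.h2 L (some none)) (d + r))
    {δ : T → ℕ} (hT : ∀ p : T, LocF c κ P N₀ ivF hl hst C (some (some p))
      (famL c κ T P N₀ ρ b h.h2 L (some (some p))) (δ p)) :
    EvPow (Nat.card (IsLocalRing.ResidueField (OE E)))
      (Nat.card (selNQ (sysQ T N₀) (jQ c P) (rho2 (iK K) c κ fun g => ρ g)
        (famL c κ T P N₀ ρ b h.h2 L) (h.qrep hρ hl hst hm) 1) *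
        Nat.card (IsLocalRing.ResidueField (OE E)) ^ (d + ∑ p, δ p)) := by
  obtain ⟨r, hr⟩ := even_n I h hρ hl hst hC
  let δ' : Option (Option T) → ℕ := fun i => match i with
    | none => r
    | some none => d + r
    | some (some p) => δ p
  have h1 := hP_of_loc (δ := δ') I.glob I.isTwo Inst.chi I.chic (fun _ hW => I.up hW) (ks_inst I) hl
    (h.rep hρ hst) (h.qrep hρ hl hst hm) hC
    (L := famL c κ T P N₀ ρ b h.h2 L)
    (QW.famL_lag h hρ hl hst I.glob.glob.char hL hL0 (fun i => I.locD i) 1) (fun i => ?_)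
  · have h3 : ∑ i, δ' i = (d + ∑ p, δ p) + 2 * r := by
      rw [Fintype.sum_option, Fintype.sum_option]
      show r + (d + r + ∑ p, δ p) = _
      ring
    rw [h3] at h1
    exact evPow_cancel Finite.one_lt_card h1
  · match i with
    | none => exact locM_infty I h hρ hl hst hL hL0 hr
    | some none => exact h2 r hr
    | some (some p) => exact hT p

end lag

end Pool.Agent.Work.MP_787500_nt.KI
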