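import Mathlib
import Pool.Agent.Work.MP_787500_nt.KI.LevA
import Pool.Agent.Work.MP_787500_nt.QW.Bk
import Pool.Agent.Work.MP_787500_nt.QU.UrQ
import Pool.Agent.Work.MP_787500_nt.QP.Level
import Pool.Agent.Work.MP_787500_nt.KR.NZero

/-!
# The local contributions at the level one of the conditions for `V × V`

* `locM_cnt`, `cnt_tame`, `cnt_two`: the number of cocycles at a place that splits.
* `urV_pr`: the condition `urV` at a place that splits; `YM_pr`: the reduction of a product condition.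
* `locM_urS`: an odd place that splits; `locM_two`: the place 2; `locM_urR`: a ramified place; `locM_zv`: infinity.
-/

set_option autoImplicit false
set_option linter.unusedSectionVars false

namespace Pool.Agent.Work.MP_787500_nt.KI

open Matrix NumberField
open Pool.Agent.Work.MP_787500_nt.GP (A0 hf smul_hf IsAct d0 tw cup11 EvPow OE MN actN actQ bN bil Lat
  lamN mq Wq)
open Pool.Agent.Work.MP_787500_nt.KR (FSys Z1 Z2 Sm1 Smooth IsChar LocH LDual LocD d0_Z1 SDualF Pair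
  LocRep sdualF_MN ZV zV big fullC)
open Pool.Agent.Work.MP_787500_nt.KT hiding Str Rel Sel KH Ai IsP cc ff TT
open Pool.Agent.Work.MP_787500_nt.QS (Two ac2 be2 la2 Lag HQ selQ QM pB Zq be2_apply pB_apply prY
  mem_prY urY mem_urY qm_two)
open Pool.Agent.Work.MP_787500_nt.QP (InvC RamPl InfPl)
open Pool.Agent.Work.MP_787500_nt.QL (RamF RamI TrivIn)
open Pool.Agent.Work.MP_787500_nt.QV (QRep T2 J2 blk rho2 beN laN isoN iso_act iso_be iso_la selNQ
  card_selNQ prE mem_prE lam_prE spE)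
open Pool.Agent.Work.MP_787500_nt.QU (urV mem_urV)

universe v

section cnt

variable {G Γ : Type*} [Group G] [Group Γ]
  {S : FSys G} {Sq : FSys Γ} {χ : G → ℤ_[2]} {χq : Γ → ℤ_[2]} {e : G →* Γ} {c : Γ}
  {κ : G →* G} {P : Type*} [Group P] {T : FSys P} {jj : P →* G} {iv : (P → P → A0) → A0}
  {F : Type v} [Field F] [Finite F] [CharP F 2] [Algebra (ZMod 2) F] {M : Type v}
  [AddCommGroup M] [Finite M] {Θ : Set (G × G)} {O : Type*} [CommRing O]
  [Algebra O F] [Module O M] {ρ : G → M → M} {b : M →+ M →+ A0} {C : M → M}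

/-- the number of cocycles with values in selfdual modules of exponent 2 -/
def Cnt {P : Type*} [Group P] (T : FSys P) (χp : P → ℤ_[2]) (k : ℕ) : Prop :=
  ∀ (V : Type v) (_ : AddCommGroup V) (_ : Finite V) (υ : P → V → V) (ω : V →+ V →+ A0),
    Pair T χp υ υ ω → (∀ v : V, v + v = 0) →
    Nat.card {x : P → V // Z1 T υ x} = Nat.card V ^ k * Nat.card {m : V // ∀ d, υ d m = m}

/-- THE CONTRIBUTION OF A PLACE THAT SPLITS. -/
theorem locM_cnt (p : PlQ.{v} S Sq χ χq e c κ T (e.comp jj) iv) (hs : Smooth S ρ)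
    {Λ Λ' : Submodule O (P → M)}
    (hY : Lag T iv (fun d => ac2 e c κ ρ ((e.comp jj) d)) (be2 b)
      (fun (a : O) d => la2 e c κ ρ b a ((e.comp jj) d)) (prY Λ Λ')) {k a r : ℕ}
    (hnum : Cnt.{v} T (fun d => χq ((e.comp jj) d)) k)
    (hr : Nat.card M = Nat.card F ^ (2 * r)) (hΛ : Nat.card Λ = Nat.card F ^ a) {δ : ℕ}
    (hδ : Even (a + (k + 1) * r + δ)) :
    LocM T (e.comp jj) iv e c κ F ρ b C (prY Λ Λ') δ := by
  intro n iS L A hc
  have hp : Pair T (fun d => χq ((e.comp jj) d)) (KT.act (A.comp (e.comp jj)))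
      (KT.act (A.comp (e.comp jj))) (BU : (Fin n → F) →+ (Fin n → F) →+ A0) :=
    pair_BU p.loc.toLocH.char (fun _ => hc.sp _) (p.smA hc hs)
  have h1 := hnum (Fin n → F) inferInstance inferInstance _ _ hp fun v => by
    ext i
    exact CharTwo.add_self_eq_zero (v i)
  have hBm : ∀ d m, (A.comp (e.comp jj)) d *ᵥ L m = L (ρ (jj d) m) := fun d m => hc.ae _ m
  have hc1 : Nat.card {x : P → M // Z1 T (fun d => ρ (jj d)) x} =
      Nat.card {x : P → Fin n → F // Z1 T (KT.act (A.comp (e.comp jj))) x} :=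
    Nat.card_congr ((fnA L P).subtypeEquiv fun x =>
      (z1_tra (f := L) (fun d m => (hBm d m).symm)).symm)
  have hc2 : Nat.card {m : M // ∀ d, ρ (jj d) m = m} =
      Nat.card {m : Fin n → F // ∀ d, KT.act (A.comp (e.comp jj)) d m = m} := by
    refine Nat.card_congr (L.toEquiv.subtypeEquiv fun m => ?_)
    show _ ↔ ∀ d, (A.comp (e.comp jj)) d *ᵥ L m = L m
    refine forall_congr' fun d => ?_
    rw [hBm]
    exact ⟨fun h1 => by rw [h1], fun h1 => L.injective h1⟩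
  have hc3 : Nat.card M = Nat.card (Fin n → F) := Nat.card_congr L.toEquiv
  exact locM_split p hs hY (by rw [hc1, hc2, hc3]; exact h1) hr hΛ hδ n iS L A hc

/-- the number of cocycles at an odd place -/
theorem cnt_tame {χp a : P → ℤ_[2]} {s t : P} {l : ℕ} {I : Subgroup P}
    (h : QL.TameF T χp a s t l I) (hL : LocD.{v} T χp iv) : Cnt.{v} T χp 1 :=
  fun _ _ _ _ _ hp _ => QP.card_tame h hL.toLocH hp (hL.ld hp)

end cnt

section two

universe w

open Pool.Agent.Work.MP_787500_nt.HP (stb cyQ fsys Alg)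

variable {Ω : Type w} [Field Ω] [CharZero Ω] [IsAlgClosed Ω]

/-- the number of cocycles at the place 2 -/
theorem cnt_two (halg : Alg Ω) (α : AlgebraicClosure ℚ ≃+* Ω) {Q : Ideal (𝓞 Ω)} (hQ : Q.IsPrime)
    (h2 : (2 : 𝓞 Ω) ∈ Q) {iv ivF : (stb Q → stb Q → A0) → A0}
    (hG : GP.LocH (fsys (stb Q)) (fun d : stb Q => cyQ (d : Ω ≃+* Ω)) iv)
    (hF : RQ.LocF (stb Q) iv ivF) {N : Subgroup (stb Q)} :
    Cnt.{v} (big (fullC (stb Q)) N) (fun d : stb Q => cyQ (d : Ω ≃+* Ω)) 2 := by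
  intro V _ _ υ ω hp h4
  rw [EF.euler_big halg α hQ h2 hG hF hp.act hp.sm h4,
    ← EU.card_fixD (fun g => hF.loc.char.odd g) hp h4]
  rfl

end two

section pr

variable {E : Type v} [NormedField E] [NormedAlgebra ℚ_[2] E] {n : ℕ}
  {G Γ : Type*} [Group G] [Group Γ] {e : G →* Γ} {c : Γ} {κ : G →* G}
  {ρ : G → Matrix (Fin n) (Fin n) E} {P : Type*} [Group P] {TP : FSys P} {jp : P →* Γ} {j : P →* G}

/-- the converse of `QW.zv_pr` -/
theorem zv_split (X : Two e c κ) (hj : ∀ d, jp d = e (j d)) {Y : P → Fin (n + n) → E} :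
    ZV TP (fun d => rho2 e c κ ρ (jp d)) Y ↔
      ZV TP (fun d => ρ (j d)) (fun d => QV.v1 (Y d)) ∧
        ZV TP (fun d => ρ (κ (j d))) (fun d => QV.v2 (Y d)) := by
  constructor
  · rintro ⟨h1, h2⟩
    refine ⟨⟨fun ε hε => ?_, fun s t => ?_⟩, ⟨fun ε hε => ?_, fun s t => ?_⟩⟩
    · obtain ⟨W, hW, k1⟩ := h1 ε hε
      refine ⟨W, hW, fun g w hw => ?_⟩
      have k2 := k1 g w hw
      rw [QV.norm_v, max_lt_iff] at k2
      exact k2.1
    · have k2 := h2 s t
      beta_reduce at k2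
      rw [hj] at k2
      show QV.v1 (Y (s * t)) = _
      rw [k2, QV.v1_add, QV.v1_rho X]
    · obtain ⟨W, hW, k1⟩ := h1 ε hε
      refine ⟨W, hW, fun g w hw => ?_⟩
      have k2 := k1 g w hw
      rw [QV.norm_v, max_lt_iff] at k2
      exact k2.2
    · have k2 := h2 s t
      beta_reduce at k2
      rw [hj] at k2
      show QV.v2 (Y (s * t)) = _
      rw [k2, QV.v2_add, QV.v2_rho X]
  · rintro ⟨h1, h2⟩
    refine ⟨fun ε hε => ?_, fun s t => ?_⟩
    · obtain ⟨W, hW, k1⟩ := h1.1 ε hε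
      obtain ⟨W', hW', k2⟩ := h2.1 ε hε
      refine ⟨W ⊓ W', TP.inf hW hW', fun g w hw => ?_⟩
      rw [QV.norm_v, QV.v1_sub, QV.v2_sub]
      exact max_lt (k1 g w hw.1) (k2 g w hw.2)
    · beta_reduce
      rw [hj]
      apply QV.ap_ext
      · rw [QV.v1_add, QV.v1_rho X]
        exact h1.2 s t
      · rw [QV.v2_add, QV.v2_rho X]
        exact h2.2 s t

/-- the condition `urV` at a place that splits -/
theorem urV_pr (X : Two e c κ) (hj : ∀ d, jp d = e (j d)) (I : Subgroup P) :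
    urV TP I (fun d => rho2 e c κ ρ (jp d)) =
      prE (urV TP I fun d => ρ (j d)) (urV TP I fun d => ρ (κ (j d))) := by
  ext Y
  rw [mem_prE, mem_urV, mem_urV, mem_urV, zv_split X hj]
  constructor
  · rintro ⟨⟨h1, h2⟩, v, hv⟩
    refine ⟨⟨h1, QV.v1 v, fun d hd => ?_⟩, ⟨h2, QV.v2 v, fun d hd => ?_⟩⟩
    · show QV.v1 (Y d) = _
      rw [hv d hd, hj, QV.v1_sub, QV.v1_rho X]
    · show QV.v2 (Y d) = _
      rw [hv d hd, hj, QV.v2_sub, QV.v2_rho X]
  · rintro ⟨⟨h1, v, hv⟩, ⟨h2, w, hw⟩⟩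
    refine ⟨⟨h1, h2⟩, QV.ap v w, fun d hd => ?_⟩
    apply QV.ap_ext
    · rw [hj, QV.v1_sub, QV.v1_rho X, QV.v1_ap]
      exact hv d hd
    · rw [hj, QV.v2_sub, QV.v2_rho X, QV.v2_ap]
      exact hw d hd

/-- the reduction of a product condition -/
theorem YM_pr {T : Submodule (OE E) (Fin n → E)} {l : OE E} (L L' : Submodule E (P → Fin n → E)) :
    YM T l (prE L L') = prY (lamN T l 1 L) (lamN T l 1 L') := by
  ext x
  obtain ⟨x, rfl⟩ : ∃ y : P → MN (T2 T) l 1, x = fun d => isoN T l 1 (y d) :=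
    ⟨fun d => (isoN T l 1).symm (x d), funext fun d => ((isoN T l 1).apply_symm_apply _).symm⟩
  rw [mem_YM]
  exact lam_prE

end pr

section place

variable {E : Type v} [NormedField E] [NormedAlgebra ℚ_[2] E] [FiniteDimensional ℚ_[2] E]
  [IsLocalRing (OE E)]
  [Finite (IsLocalRing.ResidueField (OE E))] [CharP (IsLocalRing.ResidueField (OE E)) 2]
  [Algebra (ZMod 2) (IsLocalRing.ResidueField (OE E))] {n : ℕ}
  {G Γ : Type*} [Group G] [Group Γ] {e : G →* Γ} {c : Γ} {κ : G →* G}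
  {ρ : G → Matrix (Fin n) (Fin n) E} {S : FSys G} {Sq : FSys Γ} {χ : G → ℤ_[2]} {χq : Γ → ℤ_[2]}
  {l : OE E} {t : E →ₗ[ℚ_[2]] ℚ_[2]} {T : Submodule (OE E) (Fin n → E)}
  {b : Matrix (Fin n) (Fin n) E} {P : Type*} [Group P] {TP : FSys P} {jp : P →* Γ}
  {iv : (P → P → A0) → A0}

/-- THE CONTRIBUTION OF A PLACE THAT SPLITS, a product condition. -/
theorem locM_prE (p : PlQ.{v} S Sq χ χq e c κ TP jp iv) {j : P →* G} (hj : ∀ d, jp d = e (j d))
    (hl : Lat b l t T) (hr : LocRep S χ T b ρ (fun g => ρ (κ g)))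
    {Sm J : Matrix (Fin (n + n)) (Fin (n + n)) E}
    (h : QRep Sq χq l t (T2 T) (blk 0 b 0 0) Sm J (rho2 e c κ ρ)) {C : MN T l 1 → MN T l 1}
    {L L' : Submodule E (P → Fin n → E)} (hfd : FiniteDimensional E L)
    (hb : ∀ X ∈ L, ∃ C : ℝ, ∀ d, ‖X d‖ ≤ C)
    (hlag : Lag TP iv (fun d => actN l 1 (rho2 e c κ ρ) h.rep.st (jp d)) (beN h 1)
      (fun a d => laN χq l t (blk 0 b 0 0) (rho2 e c κ ρ) (T2 T) 1 a (jp d))
      (lamN (T2 T) l 1 (prE L L'))) {k r : ℕ} (hnum : Cnt.{v} TP (fun d => χq (jp d)) k)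
    (hn : n = 2 * r) {δ : ℕ} (hδ : Even (Module.finrank E L + (k + 1) * r + δ)) :
    LocM TP jp iv e c κ (IsLocalRing.ResidueField (OE E)) (actN l 1 ρ hr.st) (bN hl 1) C
      (YM T l (prE L L')) δ := by
  obtain rfl : jp = e.comp j := MonoidHom.ext hj
  have hfin : Finite (MN T l 1) := GP.MN_finite hl 1
  have hs : SDualF S χ κ ∅ (OE E) (actN l 1 ρ hr.st) (bN hl 1) :=
    sdualF_MN hl hr (fun p hp => absurd hp (Set.notMem_empty p)) 1
  have hY := lag_YM p.two p.chi p.chic p.mul hl hr h hlag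
  rw [YM_pr] at hY ⊢
  refine locM_cnt p hs.sm hY hnum (r := r) ?_ (GP.card_lamN hl 1 L hb) ?_
  · rw [KR.card_MN hl 1, hn, one_mul]
  · rw [one_mul]
    exact hδ

/-- THE CONTRIBUTION OF AN ODD PLACE THAT SPLITS. -/
theorem locM_urS (p : PlQ.{v} S Sq χ χq e c κ TP jp iv) {j : P →* G} (hj : ∀ d, jp d = e (j d))
    (hl : Lat b l t T) (hr : LocRep S χ T b ρ (fun g => ρ (κ g)))
    {Sm J : Matrix (Fin (n + n)) (Fin (n + n)) E}
    (h : QRep Sq χq l t (T2 T) (blk 0 b 0 0) Sm J (rho2 e c κ ρ)) {C : MN T l 1 → MN T l 1}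
    {I : Subgroup P}
    (hlag : Lag TP iv (fun d => actN l 1 (rho2 e c κ ρ) h.rep.st (jp d)) (beN h 1)
      (fun a d => laN χq l t (blk 0 b 0 0) (rho2 e c κ ρ) (T2 T) 1 a (jp d))
      (lamN (T2 T) l 1 (urV TP I fun d => rho2 e c κ ρ (jp d))))
    (hfd : FiniteDimensional E (urV TP I fun d => ρ (j d)))
    (hdim : Module.finrank E (urV TP I fun d => ρ (j d)) = n)
    (hnum : Cnt.{v} TP (fun d => χq (jp d)) 1) {r : ℕ} (hn : n = 2 * r) :
    LocM TP jp iv e c κ (IsLocalRing.ResidueField (OE E)) (actN l 1 ρ hr.st) (bN hl 1) C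
      (YM T l (urV TP I fun d => rho2 e c κ ρ (jp d))) 0 := by
  rw [urV_pr p.two hj] at hlag ⊢
  refine locM_prE p hj hl hr h (L := urV TP I fun d => ρ (j d)) hfd
    (fun X (hX : X ∈ urV TP I fun d => ρ (j d)) => KR.zv_bdd (mem_urV.1 hX).1) hlag hnum hn ?_
  rw [hdim]
  exact ⟨2 * r, by omega⟩

end place

section odd

universe w

open Pool.Agent.Work.MP_787500_nt.HP (stb cyQ fsys Alg inr basis_K)

variable {Ω : Type w} [Field Ω] [CharZero Ω] [IsAlgClosed Ω]
  {E : Type*} [NormedField E] [NormedAlgebra ℚ_[2] E] [FiniteDimensional ℚ_[2] E] {n : ℕ}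

/-- THE DIMENSION of the condition `urV` at an odd prime, for every representation. -/
theorem finrank_odd (halg : Alg Ω) {l : ℕ} (hl : l.Prime) (h2 : l ≠ 2) {Q : Ideal (𝓞 Ω)}
    (hQ : Q.IsPrime) (hlQ : (l : 𝓞 Ω) ∈ Q) {N : Subgroup (stb Q)} (hN : N.Normal)
    (hNo : KR.Opn (fullC (stb Q)) N) {A : stb Q → Matrix (Fin n) (Fin n) E} (h1 : A 1 = 1)
    (hm : ∀ s t, A (s * t) = A s * A t)
    (hsm : ∀ ε : ℝ, 0 < ε → ∃ W, (big (fullC (stb Q)) N).mem W ∧ ∀ w ∈ W, ∀ x : Fin n → E,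
      ‖A w *ᵥ x - x‖ ≤ ε * ‖x‖) :
    FiniteDimensional E (urV (big (fullC (stb Q)) N) ((inr Q).subgroupOf (stb Q)) A) ∧
    Module.finrank E (urV (big (fullC (stb Q)) N) ((inr Q).subgroupOf (stb Q)) A) = n := by
  obtain ⟨K, iF, iN, C, e, hcl, hiso, hcc, I, a, σ, τ, hI, hX⟩ := QU.exists_model halg hl h2 hQ hlQ
  have hc : CompactSpace C := isCompact_iff_compactSpace.1 hcl.isCompact
  obtain ⟨N', hN'⟩ : ∃ N' : Subgroup C, N' = N.comap e.symm.toMonoidHom := ⟨_, rfl⟩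
  have hN'n : N'.Normal := by
    rw [hN']
    infer_instance
  have hNN : ∀ d, e d ∈ N' ↔ d ∈ N := fun d => by
    rw [hN']
    show e.symm (e d) ∈ N ↔ _
    rw [e.symm_apply_apply]
  have hS : ∀ W : Subgroup C, (big (fullC (stb Q)) N).mem (W.comap e.toMonoidHom) ↔
      (big (KR.fullD C) N').mem W := QF.big_iso e hiso hNN
  have hN'o : IsOpen (N' : Set C) := by
    obtain ⟨W, hW, hWN⟩ := hNo
    obtain ⟨-, -, U, hU, hUW⟩ := QU.mem_symm hiso hW
    refine Subgroup.isOpen_mono (hUW.trans ?_) (hU.preimage continuous_subtype_val)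
    rw [hN']
    exact Subgroup.comap_mono hWN
  have hBig : KR.IsBig N' ∅ (big (KR.fullD C) N') := by
    have h3 := KR.isBig_D (N'.map C.subtype) hcl
    have h4 : (N'.map C.subtype).subgroupOf C = N' :=
      Subgroup.comap_map_eq_self_of_injective C.subtype_injective N'
    rwa [h4] at h3
  have hF := QU.finrank_urV (S := big (KR.fullD C) N') hX (HP.basis_sub (D := C) (basis_K K)) hN'n
    hN'o hBig (QU.proRep_of (A := fun d => A (e.symm d)) hBig (by
      rw [map_one]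
      exact h1) (fun s t => by
      rw [map_mul]
      exact hm _ _) fun ε hε => by
      obtain ⟨W, hW, k1⟩ := hsm ε hε
      exact ⟨_, QU.mem_symm hS hW, fun w hw x => k1 _ hw x⟩)
  obtain ⟨ψ⟩ := QU.finrank_urV_iso hS (A := fun d => A (e.symm d)) (I := I)
  have e1 : (fun g : stb Q => (fun d : C => A (e.symm d)) (e g)) = A := funext fun g => by
    show A (e.symm (e g)) = A g
    rw [e.symm_apply_apply]
  rw [e1, hI] at ψ
  have := hF.1
  exact ⟨LinearEquiv.finiteDimensional ψ.symm, by rw [ψ.finrank_eq, hF.2]⟩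

end odd

section fam

universe u w

open Pool.Agent.Work.MP_787500_nt.GP (stabD inT)
open Pool.Agent.Work.MP_787500_nt.KR (fullK fullD)
open Pool.Agent.Work.MP_787500_nt.PA (cyc)
open Pool.Agent.Work.MP_787500_nt.HP (IsQ Spl IsP inr stb cyQ)
open Pool.Agent.Work.MP_787500_nt.KS (iK ep)
open Pool.Agent.Work.MP_787500_nt.QU (Inst)
open Pool.Agent.Work.MP_787500_nt.QW (famL Ari sysQ eSt eSt_coe eSt_symm)
open Pool.Agent.Work.MP_787500_nt.GA (HQ SQ jQ iQ)

variable {K : Type u} [Field K] [NumberField K] {D : ℕ} {s : K}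
  {c : AlgebraicClosure K ≃+* AlgebraicClosure K} {κ : AbsGal K →* AbsGal K} {T : Finset ℕ}
  {P : ℕ → Ideal (𝓞 (AlgebraicClosure K))} {N₀ : Subgroup (AbsGal K)}
  {iv ivF : ∀ w : Option T, (stb (HP.PP P w) → stb (HP.PP P w) → A0) → A0}
  {tr : (((AlgebraicClosure K ≃+* AlgebraicClosure K) → (AlgebraicClosure K ≃+* AlgebraicClosure K) →
      (AlgebraicClosure K ≃+* AlgebraicClosure K) → A0) ×
      (∀ i : Option (Option T), HQ c P i → HQ c P i → A0)) →+ A0}
  {E : Type w} [NormedField E] [NormedAlgebra ℚ_[2] E] [FiniteDimensional ℚ_[2] E]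
  [IsLocalRing (OE E)] [Finite (IsLocalRing.ResidueField (OE E))]
  [CharP (IsLocalRing.ResidueField (OE E)) 2] [Algebra (ZMod 2) (IsLocalRing.ResidueField (OE E))]
  {n : ℕ} {ρ : AbsGal K →* Matrix (Fin n) (Fin n) E} {b : Matrix (Fin n) (Fin n) E}
  {l : OE E} {t : E →ₗ[ℚ_[2]] ℚ_[2]} {L₀ : Submodule (OE E) (Fin n → E)}
  {L : Submodule E (stabD (K := K) (P 2) → Fin n → E)}

/-- the homomorphism of a decomposition group over the rational numbers to the group of `K` -/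
noncomputable def jS {Q : Ideal (𝓞 (AlgebraicClosure K))} (h : stb Q ≤ (iK K).range) :
    stb Q →* AbsGal K :=
  (stabD (K := K) Q).subtype.comp (eSt h).symm.toMonoidHom

theorem jS_e {Q : Ideal (𝓞 (AlgebraicClosure K))} (h : stb Q ≤ (iK K).range) (d : stb Q) :
    (d : AlgebraicClosure K ≃+* AlgebraicClosure K) = iK K (jS h d) := (eSt_symm h d).symm

theorem jS_cont (h : Ari s c κ D T P N₀) (p : T) (hp : stb (P p) ≤ (iK K).range)
    (W : Subgroup (AbsGal K)) (hW : (big (fullK (K := K) T) N₀).mem W) :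
    ∃ W', (SQ c P (N₀.map (iK K)) (some (some p))).mem W' ∧ ∀ w ∈ W', jS hp w ∈ W := by
  obtain ⟨V, hV, h1⟩ := QW.up h.hK h.hc h.hκ h.hD h.kN hW
  obtain ⟨V', hV', h2⟩ := GA.jsmQ c P (N₀.map (iK K)) (some (some p)) V hV
  refine ⟨V', hV', fun w hw => ?_⟩
  obtain ⟨g, hg, h3⟩ := h1 _ (h2 w hw)
  have h4 : jQ c P (some (some p)) w = iK K (jS hp w) := jS_e hp w
  rw [h4] at h3
  rwa [← HP.emb_inj _ h3]

theorem two_r (hl : Lat b l t L₀) {r : ℕ}
    (hr : Nat.card (MN L₀ l 1) = Nat.card (IsLocalRing.ResidueField (OE E)) ^ (2 * r)) : n = 2 * r := by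
  rw [KR.card_MN hl 1, one_mul] at hr
  exact Nat.pow_right_injective (Finite.one_lt_card : 1 < Nat.card (IsLocalRing.ResidueField (OE E))) hr

/-- THE CONTRIBUTION OF AN ODD PRIME THAT SPLITS. -/
theorem locM_odd (I : Inst.{u, w} s c κ D T P N₀ iv ivF tr) (h : Ari s c κ D T P N₀)
    (hρ : Gn.ConjDual 2 N₀ (inT K T) (Parity.cyclo E) κ ρ b) (hl : Lat b l t L₀)
    (hst : ∀ g, ∀ x ∈ L₀, ρ g *ᵥ x ∈ L₀) {C : MN L₀ l 1 → MN L₀ l 1}
    (hC : InvC κ (OE E) (actN l 1 (fun g => ρ g) hst) (bN hl 1) C)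
    (hL : L ≤ Parity.cocycles (fun σ : stabD (K := K) (P 2) => ρ σ))
    (hL0 : Parity.coboundaries (fun σ : stabD (K := K) (P 2) => ρ σ) ≤ L) {p : T}
    (hp : Spl D p) :
    LocF c κ P N₀ ivF hl hst C (some (some p)) (famL c κ T P N₀ ρ b h.h2 L (some (some p))) 0 := by
  obtain ⟨r, hr⟩ := even_n I h hρ hl hst hC
  have hle : stb (P p) ≤ (iK K).range := fun g hg => I.le_spl hp ⟨g, hg⟩
  have hj : ∀ d, jQ c P (some (some p)) d = iK K (jS hle d) := jS_e hle
  have hR := QV.locRep_j (j := jS hle) (h.rep hρ hst) (jS_cont (c := c) h p hle)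
  have hn := I.norQ
  obtain ⟨hfd, hdim⟩ := finrank_odd (HP.alg_closure K) (I.prime p) (I.odd p) (I.isPrime p) (I.natMem p)
    (inferInstance : ((N₀.map (iK K)).subgroupOf (stb (P p))).Normal) (I.opnL (some p)) hR.one hR.mul
    hR.sm
  obtain ⟨a, σ, τ, hT⟩ := QL.exists_tameQ_big (HP.alg_closure K) (I.prime p) (I.odd p) (I.isPrime p)
    (I.natMem p) ((N₀.map (iK K)).subgroupOf (stb (P p)))
  exact locM_urS (plQ I (some (some p))) hj hl (h.rep hρ hst)
    (h.qrep hρ hl hst I.glob.glob.char.mul)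
    (QW.famL_lag h hρ hl hst I.glob.glob.char hL hL0 (fun i => I.locD i) 1 (some (some p))) hfd hdim
    (cnt_tame hT (I.locD (some (some p)))) (two_r hl hr)

theorem comap_equiv {X X' : Type*} (e : X ≃ X') (L : Submodule E (X → Fin n → E)) :
    Nonempty (L ≃ₗ[E] L.comap (LinearMap.funLeft E (Fin n → E) e)) :=
  ⟨{ toFun := fun Y => ⟨fun d => Y.1 (e.symm d), by
        show (fun d => Y.1 (e.symm (e d))) ∈ L
        simp only [e.symm_apply_apply]
        exact Y.2⟩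
     invFun := fun Y => ⟨fun d => Y.1 (e d), Y.2⟩
     left_inv := fun Y => Subtype.ext (funext fun d => congrArg Y.1 (e.symm_apply_apply d))
     right_inv := fun Y => Subtype.ext (funext fun d => congrArg Y.1 (e.apply_symm_apply d))
     map_add' := fun _ _ => rfl
     map_smul' := fun _ _ => rfl }⟩

/-- THE CONTRIBUTION OF THE PLACE 2. -/
theorem locM_dy (I : Inst.{u, w} s c κ D T P N₀ iv ivF tr) (h : Ari s c κ D T P N₀)
    (hρ : Gn.ConjDual 2 N₀ (inT K T) (Parity.cyclo E) κ ρ b) (hl : Lat b l t L₀)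
    (hst : ∀ g, ∀ x ∈ L₀, ρ g *ᵥ x ∈ L₀) {C : MN L₀ l 1 → MN L₀ l 1}
    (hL : L ≤ Parity.cocycles (fun σ : stabD (K := K) (P 2) => ρ σ))
    (hL0 : Parity.coboundaries (fun σ : stabD (K := K) (P 2) => ρ σ) ≤ L) {r : ℕ}
    (hr : Nat.card (MN L₀ l 1) = Nat.card (IsLocalRing.ResidueField (OE E)) ^ (2 * r)) :
    LocF c κ P N₀ ivF hl hst C (some none) (famL c κ T P N₀ ρ b h.h2 L (some none))
      (Module.finrank E L + r) := by
  have hLz := QW.zv_two h hρ hL
  have hLfd := QW.L_fd h hρ hL (fun i => I.locD i)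
  obtain ⟨α⟩ := GA.exists_ratEquiv (HP.alg_closure K)
  obtain ⟨ψ⟩ : Nonempty (L ≃ₗ[E] L.comap (LinearMap.funLeft E (Fin n → E) (eSt h.h2))) :=
    comap_equiv (eSt h.h2).toEquiv L
  have hfd' : FiniteDimensional E (L.comap (LinearMap.funLeft E (Fin n → E) (eSt h.h2))) :=
    LinearEquiv.finiteDimensional ψ
  have h3 : Even (Module.finrank E (L.comap (LinearMap.funLeft E (Fin n → E) (eSt h.h2))) +
      (2 + 1) * r + (Module.finrank E L + r)) := by
    rw [← ψ.finrank_eq]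
    exact ⟨Module.finrank E L + 2 * r, by ring⟩
  exact locM_prE (L := L.comap (LinearMap.funLeft E (Fin n → E) (eSt h.h2)))
    (plQ I (some none)) (j := QW.j2 h.h2) (QW.j2_e h.h2) hl (h.rep hρ hst)
    (h.qrep hρ hl hst I.glob.glob.char.mul) hfd' (fun X hX => KR.zv_bdd (hLz X hX))
    (QW.famL_lag h hρ hl hst I.glob.glob.char hL hL0 (fun i => I.locD i) 1 (some none))
    (cnt_two (HP.alg_closure K) α I.isPrime2 I.two_mem (I.qdat.loc none) (I.locF none))
    (two_r hl hr) h3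

end fam

end Pool.Agent.Work.MP_787500_nt.KI
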