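import Mathlib
import Pool.Agent.Work.MP_787500_nt.KI.Par
import Pool.Agent.Work.MP_787500_nt.KI.InertC
import Pool.Agent.Work.MP_787500_nt.KI.InertD

/-!
# The contribution of an inert place

`locPar_inert`: the reference condition is the space of the cocycles of `U × U` whose restriction to inertia is a
coboundary; the value at the correction class is the Dickson number of inertia.
-/

set_option autoImplicit false
set_option linter.unusedSectionVars false

namespace Pool.Agent.Work.MP_787500_nt.KI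

open Matrix NumberField
open Pool.Agent.Work.MP_787500_nt.HP (IsP stb inr cyQ QDat fsys Alg)
open Pool.Agent.Work.MP_787500_nt.PA (homs)
open Pool.Agent.Work.MP_787500_nt.RQ (LocF)
open Pool.Agent.Work.MP_787500_nt.GP (A0 hf IsAct d0 d1 d2 tw cup11)
open Pool.Agent.Work.MP_787500_nt.KR (FSys Sm1 Sm2 IsChar Smooth Z1 Z2 B2 LocH Pair LDual GlobH IsTr PP
  big fullC)
open Pool.Agent.Work.MP_787500_nt.KT hiding Str Rel Sel KH Ai IsP cc ff TT
open Pool.Agent.Work.MP_787500_nt.KS (hfT ep)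
open Pool.Agent.Work.MP_787500_nt.QS (Two ac2 be2 la2 Lag HQ selQ QM pB Zq)
open Pool.Agent.Work.MP_787500_nt.QL (TameF zurM mem_zurM mem_zur lag_zur exists_tameQ_big)

universe u

variable {F : Type*} [Field F] [Finite F] [CharP F 2] [Algebra (ZMod 2) F] {n : ℕ} [Sy F n]
  {G Γ : Type*} [Group G] [Group Γ] {e : G →* Γ} {c : Γ} {κ : G →* G}
  {A : Γ →* Matrix (Fin n) (Fin n) F}

theorem la2_zero (X : Two e c κ) {s : Γ} (hs : ep e s = 0) (a : F) (m : (Fin n → F) × (Fin n → F)) :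
    la2 e c κ (KT.act (A.comp e)) (bC A c) a s m = 0 := by
  rcases X.cases s with ⟨g, rfl⟩ | ⟨g, rfl⟩
  · exact X.la_e (bC A c) a g m
  · rw [ep_out X g] at hs
    exact absurd hs one_ne_zero

/-- THE CONDITION AT AN INERT PLACE IS LAGRANGIAN -/
theorem lag_inert (X : Two e c κ) {P : Type*} [Group P] {T : FSys P} {jp : P →* Γ} {χ a : P → ℤ_[2]}
    {σ τ : P} {l : ℕ} {In : Subgroup P} {iv : (P → P → A0) → A0} (h : TameF T χ a σ τ l In)
    (L : LocH T χ iv)
    (hq : QM T χ F (fun d => ac2 e c κ (KT.act (A.comp e)) (jp d)) (be2 (bC A c))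
      (fun (a : F) d => la2 e c κ (KT.act (A.comp e)) (bC A c) a (jp d)))
    (hl : LDual T iv (fun d => ac2 e c κ (KT.act (A.comp e)) (jp d))
      (fun d => ac2 e c κ (KT.act (A.comp e)) (jp d)) (pB (be2 (bC A c))))
    (hIn : ∀ d ∈ In, ep e (jp d) = 0) :
    Lag T iv (fun d => ac2 e c κ (KT.act (A.comp e)) (jp d)) (be2 (bC A c))
      (fun (a : F) d => la2 e c κ (KT.act (A.comp e)) (bC A c) a (jp d))
      (zurM T In hq.act hq.lin) :=
  lag_zur h L hq hl fun a n hn v _ => la2_zero X (hIn n hn) a v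

open scoped Classical in
/-- THE CONTRIBUTION OF AN INERT PLACE. -/
theorem locPar_inert (X : Two e c κ) {P : Type*} [Group P] {T : FSys P} {jp : P →* Γ}
    {χ a : P → ℤ_[2]} {σ τ : P} {l : ℕ} {In : Subgroup P} {iv : (P → P → A0) → A0}
    (h : TameF T χ a σ τ l In) (L : LocH T χ iv) (hsp : ∀ g, IsSp (A g))
    (hsm : Smooth T (KT.act (A.comp jp)))
    (hq : QM T χ F (fun d => ac2 e c κ (KT.act (A.comp e)) (jp d)) (be2 (bC A c))
      (fun (a : F) d => la2 e c κ (KT.act (A.comp e)) (bC A c) a (jp d)))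
    (hl : LDual T iv (fun d => ac2 e c κ (KT.act (A.comp e)) (jp d))
      (fun d => ac2 e c κ (KT.act (A.comp e)) (jp d)) (pB (be2 (bC A c))))
    (hes : Sm1 T fun d => ep e (jp d)) (hIn : ∀ d ∈ In, ep e (jp d) = 0) {ψ : P → ZMod 2}
    (hψ : ∀ g h, ψ (g * h) = ψ g + ψ h) (hψs : Sm1 T ψ) (hψI : ∃ d ∈ In, ψ d = 1)
    (hiv : iv (fun g h => hf (ep e (jp g) * ψ h)) = hf 1)
    {Y : Submodule F (P → (Fin n → F) × (Fin n → F))} {δ : ℕ}
    (hδ : Even ((if ∃ d ∈ In, tauZ (A (jp d)) ≠ 0 then 1 else 0) + Module.finrank F Y +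
      Module.finrank F ↥(Y ⊓ zurM T In hq.act hq.lin) + δ)) :
    LocPar T jp iv e c κ A Y δ := by
  have headd : ∀ g h, ep e (jp (g * h)) = ep e (jp g) + ep e (jp h) := fun g h => by
    rw [map_mul]
    exact QP.ep_add2 X (jp g) (jp h)
  have h1 := LY_zur X (T := T) (A := A) hIn hq.act hq.lin
  refine ⟨zurM T In hq.act hq.lin, (if ∃ d ∈ In, tauZ (A (jp d)) ≠ 0 then 1 else 0), 0,
    lag_inert X h L hq hl hIn, ?_, ?_, ?_⟩
  · rw [h1]
    exact lval_inert h L hsm (fun g => hsp (jp g)) headd hes hIn hψ hψs hψI hiv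
  · rw [h1, R1_eq_Y2 h hsm headd hes hIn, mul_zero, add_zero]
  · rw [zero_add]
    exact_mod_cast hδ

section rat

variable {Ω : Type u} [Field Ω] [CharZero Ω] [IsAlgClosed Ω] {cb : Ω ≃+* Ω} {T : Finset ℕ}
  {P : ℕ → Ideal (𝓞 Ω)} {inv : ∀ w : Option T, (stb (HP.PP P w) → stb (HP.PP P w) → A0) → A0}

open scoped Classical in
/-- THE CONTRIBUTION OF AN INERT PRIME NUMBER. -/
theorem locPar_inertQ (halg : Alg Ω) (hP : IsP T P) (hQ : QDat cb T P inv) (X : Two e c κ) (l : T)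
    {ivF : (stb (P l) → stb (P l) → A0) → A0} (hF : LocF (stb (P l)) (inv (some l)) ivF)
    (N : Subgroup (stb (P l))) {jp : stb (P l) →* Γ} (hsp : ∀ g, IsSp (A g))
    (hsm : Smooth (big (fullC (stb (P l))) N) (KT.act (A.comp jp)))
    (hq : QM (big (fullC (stb (P l))) N) (fun d => cyQ (d : Ω ≃+* Ω)) F
      (fun d => ac2 e c κ (KT.act (A.comp e)) (jp d)) (be2 (bC A c))
      (fun (a : F) d => la2 e c κ (KT.act (A.comp e)) (bC A c) a (jp d)))
    (hl : LDual (big (fullC (stb (P l))) N) ivF (fun d => ac2 e c κ (KT.act (A.comp e)) (jp d))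
      (fun d => ac2 e c κ (KT.act (A.comp e)) (jp d)) (pB (be2 (bC A c))))
    (hε : (fun d => ep e (jp d)) ∈ homs (fsys (stb (P l))) (⊤ : Subgroup (stb (P l))))
    (hεI : ∀ d ∈ (inr (P l)).subgroupOf (stb (P l)), ep e (jp d) = 0) (hε1 : ∃ d, ep e (jp d) ≠ 0)
    {Y : Submodule F (stb (P l) → (Fin n → F) × (Fin n → F))} {δ : ℕ}
    (hδ : Even ((if ∃ d ∈ (inr (P l)).subgroupOf (stb (P l)), tauZ (A (jp d)) ≠ 0 then 1 else 0) +
      Module.finrank F Y + Module.finrank F ↥(Y ⊓ zurM (big (fullC (stb (P l))) N)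
        ((inr (P l)).subgroupOf (stb (P l))) hq.act hq.lin) + δ)) :
    LocPar (big (fullC (stb (P l))) N) jp ivF e c κ A Y δ := by
  obtain ⟨a, σ, τ, h⟩ := exists_tameQ_big halg (hP.prime l l.2) (hP.odd l l.2)
    (hP.isPrime l (Or.inl l.2)) (hP.mem l (Or.inl l.2)) N
  obtain ⟨ψ, hψ, hψI, hv⟩ := exists_psi hQ l hF hε hεI hε1
  exact locPar_inert X h (GA.locH_big hF.loc N) hsp hsm hq hl (homs_sm1 hε N) hεI
    (fun g h => hψ.2.2 g trivial h trivial) (homs_sm1 hψ N) hψI hv hδ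

end rat

end Pool.Agent.Work.MP_787500_nt.KI
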