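import Mathlib
import Pool.Agent.Work.MP_787500_nt.KI.LocInert

/-!
# The Dickson number of inertia

`dick_tau`: it has the parity of the dimension of the space fixed by an element of inertia that generates the 2-part.
`dick_cyc`: if the image of inertia is cyclic, it has the parity of the dimension of the space fixed by inertia.
-/

set_option autoImplicit false
set_option linter.unusedSectionVars false

namespace Pool.Agent.Work.MP_787500_nt.KI

open Matrix NumberField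
open Pool.Agent.Work.MP_787500_nt.HP (IsP stb inr cyQ QDat fsys Alg)
open Pool.Agent.Work.MP_787500_nt.PA (homs)
open Pool.Agent.Work.MP_787500_nt.RQ (LocF)
open Pool.Agent.Work.MP_787500_nt.GP (A0 hf IsAct d0 d1 d2 tw cup11)
open Pool.Agent.Work.MP_787500_nt.KR (FSys Sm1 Sm2 IsChar Smooth Z1 Z2 B2 LocH Pair LDual GlobH IsTr PP
  big fullC)
open Pool.Agent.Work.MP_787500_nt.KT hiding Str Rel Sel KH Ai IsP cc ff TT
open Pool.Agent.Work.MP_787500_nt.KS (hfT ep zmod2_cases)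
open Pool.Agent.Work.MP_787500_nt.QS (Two ac2 be2 la2 Lag HQ selQ QM pB Zq)
open Pool.Agent.Work.MP_787500_nt.QL (TameF zurM mem_zurM mem_zur lag_zur exists_tameQ_big)

universe u

variable {F : Type*} [Field F] [Finite F] [CharP F 2] [Algebra (ZMod 2) F] {n : ℕ} [Sy F n]

section loc

variable {D : Type*} [Group D] {S : FSys D} {χ a : D → ℤ_[2]} {σ τ : D} {l : ℕ} {I : Subgroup D}
  {A : D →* Matrix (Fin n) (Fin n) F}

/-- the space fixed by a subgroup -/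
def fixS (A : D →* Matrix (Fin n) (Fin n) F) (I : Subgroup D) : Submodule F (Fin n → F) where
  carrier := {m | ∀ d ∈ I, A d *ᵥ m = m}
  add_mem' := fun h h' d hd => by rw [mulVec_add, h d hd, h' d hd]
  zero_mem' := fun d _ => mulVec_zero _
  smul_mem' := fun c m h d hd => by rw [mulVec_smul, h d hd]

theorem mem_fixS {m : Fin n → F} : m ∈ fixS A I ↔ ∀ d ∈ I, A d *ᵥ m = m := Iff.rfl

theorem tau_hom (hA : ∀ g, IsSp (A g)) {v : Fin n → F} (hv : ∀ d ∈ I, kk (A d) = A d *ᵥ v + v) :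
    ∀ g ∈ I, ∀ k ∈ I, tauZ (A (g * k)) = tauZ (A g) + tauZ (A k) := by
  intro g hg k hk
  exact tauZ_mul (A := A.comp I.subtype) (fun g => hA g) (v := v) (fun g => hv g g.2) ⟨g, hg⟩
    ⟨k, hk⟩

theorem tau_sm (hs : Smooth S (KT.act (A : D → Matrix (Fin n) (Fin n) F))) :
    Sm1 S (fun g => tauZ (A g)) := by
  obtain ⟨V, hV, h3⟩ := smooth_A hs
  exact ⟨V, hV, fun g w hw => by
    beta_reduce
    rw [map_mul, h3 w hw, mul_one]⟩

theorem ev_of_iff {p : Prop} [Decidable p] {x : ℕ} (h : p ↔ (x : ZMod 2) ≠ 0) :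
    Even ((if p then 1 else 0) + x) := by
  by_cases hp : p
  · rw [if_pos hp]
    have h1 := (h.1 hp)
    rcases Nat.even_or_odd x with hx | hx
    · exact absurd ((ZMod.natCast_eq_zero_iff_even).2 hx) h1
    · rw [add_comm]
      exact hx.add_one
  · rw [if_neg hp, zero_add]
    by_contra hx
    rw [Nat.not_even_iff_odd] at hx
    exact hp (h.2 (by rw [(ZMod.natCast_eq_one_iff_odd).2 hx]; exact one_ne_zero))

open scoped Classical in
/-- THE DICKSON NUMBER OF INERTIA. -/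
theorem dick_tau (h : TameF S χ a σ τ l I)
    (hs : Smooth S (KT.act (A : D → Matrix (Fin n) (Fin n) F))) (hA : ∀ g, IsSp (A g))
    {v : Fin n → F} (hv : ∀ d ∈ I, kk (A d) = A d *ᵥ v + v) {τ' : D} (hτ' : τ' ∈ I)
    (hodd : PadicInt.toZMod (a τ') = 1) :
    Even ((if ∃ d ∈ I, tauZ (A d) ≠ 0 then 1 else 0) + Module.finrank F (fixv (A τ'))) := by
  have e1 := hom_I h (y := fun g => tauZ (A g)) (tau_hom hA hv) (tau_sm hs)
  refine ev_of_iff ⟨?_, fun h0 => ⟨τ', hτ', h0⟩⟩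
  rintro ⟨d, hd, h0⟩ h2
  have h3 := e1 τ' hτ'
  rw [hodd, one_mul] at h3
  refine h0 ?_
  rw [e1 d hd, ← h3]
  show _ * tauZ (A τ') = 0
  unfold tauZ
  rw [h2, mul_zero]

open scoped Classical in
/-- THE DICKSON NUMBER OF INERTIA, the image is cyclic. -/
theorem dick_cyc (hA : ∀ g, IsSp (A g)) {d₀ : D} (hd₀ : d₀ ∈ I)
    (hcyc : ∀ d ∈ I, ∃ i : ℕ, A d = A d₀ ^ i) :
    Even ((if ∃ d ∈ I, tauZ (A d) ≠ 0 then 1 else 0) + Module.finrank F (fixS A I)) := by
  obtain ⟨v, hv⟩ := kk_cob_cyclic (A := A.comp I.subtype) (fun g => hA g) ⟨d₀, hd₀⟩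
    (fun g => hcyc g g.2)
  have hv' : ∀ d ∈ I, kk (A d) = A d *ᵥ v + v := fun d hd => hv ⟨d, hd⟩
  have ht := tau_hom hA hv'
  have hfix : fixS A I = fixv (A d₀) := by
    ext m
    constructor
    · exact fun h => h d₀ hd₀
    · intro h d hd
      obtain ⟨i, hi⟩ := hcyc d hd
      have h' : A d₀ *ᵥ m = m := h
      rw [hi]
      clear hi
      induction i with
      | zero => rw [pow_zero, one_mulVec]
      | succ i ih => rw [pow_succ, ← mulVec_mulVec, h', ih]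
  have hpow : ∀ i : ℕ, tauZ (A (d₀ ^ i)) = (i : ZMod 2) * tauZ (A d₀) := by
    intro i
    induction i with
    | zero => rw [pow_zero, map_one, QP.tauZ_one, Nat.cast_zero, zero_mul]
    | succ i ih => rw [pow_succ, ht _ (I.pow_mem hd₀ i) _ hd₀, ih, Nat.cast_succ, add_mul, one_mul]
  rw [hfix]
  refine ev_of_iff ⟨?_, fun h0 => ⟨d₀, hd₀, h0⟩⟩
  rintro ⟨d, hd, h0⟩ h2
  refine h0 ?_
  obtain ⟨i, hi⟩ := hcyc d hd
  rw [hi, ← map_pow, hpow]
  unfold tauZ
  rw [h2, mul_zero]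

end loc

section two

variable {G Γ : Type*} [Group G] [Group Γ] {e : G →* Γ} {c : Γ} {κ : G →* G}
  {A : Γ →* Matrix (Fin n) (Fin n) F}

/-- THE CONTRIBUTION OF AN INERT PLACE, any inertia image. -/
theorem locPar_inertT (X : Two e c κ) {P : Type*} [Group P] {T : FSys P} {jp : P →* Γ}
    {χq : Γ → ℤ_[2]} {a : P → ℤ_[2]} {σ τ : P} {l : ℕ} {In : Subgroup P} {iv : (P → P → A0) → A0}
    (h : TameF T (fun d => χq (jp d)) a σ τ l In) (L : LocH T (fun d => χq (jp d)) iv)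
    (hsp : ∀ g, IsSp (A g)) (hsm : Smooth T (KT.act (A.comp jp)))
    (ld : LDual T iv (KT.act (A.comp jp)) (KT.act (A.comp jp)) BU)
    (hq : QM T (fun d => χq (jp d)) F (fun d => ac2 e c κ (KT.act (A.comp e)) (jp d))
      (be2 (bC A c)) (fun (a : F) d => la2 e c κ (KT.act (A.comp e)) (bC A c) a (jp d)))
    (hl : LDual T iv (fun d => ac2 e c κ (KT.act (A.comp e)) (jp d))
      (fun d => ac2 e c κ (KT.act (A.comp e)) (jp d)) (pB (be2 (bC A c))))
    (hes : Sm1 T fun d => ep e (jp d)) (hIn : ∀ d ∈ In, ep e (jp d) = 0) {ψ : P → ZMod 2}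
    (hψ : ∀ g h, ψ (g * h) = ψ g + ψ h) (hψs : Sm1 T ψ) (hψI : ∃ d ∈ In, ψ d = 1)
    (hiv : iv (fun g h => hf (ep e (jp g) * ψ h)) = hf 1) {τ' : P} (hτ' : τ' ∈ In)
    (hodd : PadicInt.toZMod (a τ') = 1)
    {Y : Submodule F (P → (Fin n → F) × (Fin n → F))} {δ : ℕ}
    (hδ : Even (Module.finrank F (fixv (A (jp τ'))) + Module.finrank F Y +
      Module.finrank F ↥(Y ⊓ zurM T In hq.act hq.lin) + δ)) :
    LocPar T jp iv e c κ A Y δ := by
  classical
  obtain ⟨b, hb⟩ := (lkr_of_lag X L hsp hsm hes ld (lag_inert X h L hq hl hIn)).kmem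
  rw [LY_zur X hIn hq.act hq.lin] at hb
  obtain ⟨-, -, -, -, v, hv⟩ := hb
  have h1 := dick_tau (A := A.comp jp) h hsm (fun g => hsp (jp g)) hv hτ' hodd
  refine locPar_inert X h L hsp hsm hq hl hes hIn hψ hψs hψI hiv ?_
  obtain ⟨r, hr⟩ := h1
  obtain ⟨s, hs⟩ := hδ
  have h2 : Module.finrank F (fixv ((A.comp jp) τ')) = Module.finrank F (fixv (A (jp τ'))) := rfl
  rw [h2] at hr
  have h3 : (if ∃ d ∈ In, tauZ ((A.comp jp) d) ≠ 0 then 1 else 0) =
    (if ∃ d ∈ In, tauZ (A (jp d)) ≠ 0 then 1 else 0) := rfl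
  rw [h3] at hr
  refine ⟨r + s - Module.finrank F (fixv (A (jp τ'))), ?_⟩
  omega

/-- THE CONTRIBUTION OF AN INERT PLACE, the image of inertia is cyclic. -/
theorem locPar_inertC (X : Two e c κ) {P : Type*} [Group P] {T : FSys P} {jp : P →* Γ}
    {χ a : P → ℤ_[2]} {σ τ : P} {l : ℕ} {In : Subgroup P} {iv : (P → P → A0) → A0}
    (h : TameF T χ a σ τ l In) (L : LocH T χ iv) (hsp : ∀ g, IsSp (A g))
    (hsm : Smooth T (KT.act (A.comp jp)))
    (hq : QM T χ F (fun d => ac2 e c κ (KT.act (A.comp e)) (jp d)) (be2 (bC A c))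
      (fun (a : F) d => la2 e c κ (KT.act (A.comp e)) (bC A c) a (jp d)))
    (hl : LDual T iv (fun d => ac2 e c κ (KT.act (A.comp e)) (jp d))
      (fun d => ac2 e c κ (KT.act (A.comp e)) (jp d)) (pB (be2 (bC A c))))
    (hes : Sm1 T fun d => ep e (jp d)) (hIn : ∀ d ∈ In, ep e (jp d) = 0) {ψ : P → ZMod 2}
    (hψ : ∀ g h, ψ (g * h) = ψ g + ψ h) (hψs : Sm1 T ψ) (hψI : ∃ d ∈ In, ψ d = 1)
    (hiv : iv (fun g h => hf (ep e (jp g) * ψ h)) = hf 1) {d₀ : P} (hd₀ : d₀ ∈ In)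
    (hcyc : ∀ d ∈ In, ∃ i : ℕ, A (jp d) = A (jp d₀) ^ i)
    {Y : Submodule F (P → (Fin n → F) × (Fin n → F))} {δ : ℕ}
    (hδ : Even (Module.finrank F (fixS (A.comp jp) In) + Module.finrank F Y +
      Module.finrank F ↥(Y ⊓ zurM T In hq.act hq.lin) + δ)) :
    LocPar T jp iv e c κ A Y δ := by
  classical
  have h1 := dick_cyc (A := A.comp jp) (fun g => hsp (jp g)) hd₀ hcyc
  refine locPar_inert X h L hsp hsm hq hl hes hIn hψ hψs hψI hiv ?_
  obtain ⟨r, hr⟩ := h1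
  obtain ⟨s, hs⟩ := hδ
  have h3 : (if ∃ d ∈ In, tauZ ((A.comp jp) d) ≠ 0 then 1 else 0) =
    (if ∃ d ∈ In, tauZ (A (jp d)) ≠ 0 then 1 else 0) := rfl
  rw [h3] at hr
  refine ⟨r + s - Module.finrank F (fixS (A.comp jp) In), ?_⟩
  omega

end two

end Pool.Agent.Work.MP_787500_nt.KI
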