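import Mathlib
import Pool.Agent.Work.MP_787500_nt.KI.LevA
import Pool.Agent.Work.MP_787500_nt.KI.Dick
import Pool.Agent.Work.MP_787500_nt.EV.InertQ

/-!
# THE LEVEL ONE: the inert places

* `locM_inert`: an inert place, for `M × M`.
* `locM_inr`: THE CONTRIBUTION OF AN INERT PRIME NUMBER of the arithmetic family.
-/

set_option autoImplicit false
set_option linter.unusedSectionVars false

namespace Pool.Agent.Work.MP_787500_nt.KI

open Matrix NumberField
open Pool.Agent.Work.MP_787500_nt.GP (A0 OE bil Lat inT stabD EvPow actN lamN MN bN mq Wq actQ IsAct hf d0)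
open Pool.Agent.Work.MP_787500_nt.KR (FSys Sm1 IsChar Smooth Z1 ZV zV LocRep LocD fullC fullD fullK fullQ big
  SDualF sdualF_MN)
open Pool.Agent.Work.MP_787500_nt.KT hiding Str Rel Sel KH Ai IsP cc ff TT
open Pool.Agent.Work.MP_787500_nt.PA (toE cyc)
open Pool.Agent.Work.MP_787500_nt.HP (IsQ Spl IsP inr stb cyQ)
open Pool.Agent.Work.MP_787500_nt.KS (iK ep ep_zero)
open Pool.Agent.Work.MP_787500_nt.QS (Two Lag QM ac2 be2 la2 prY)
open Pool.Agent.Work.MP_787500_nt.QV (rho2 selNQ QRep T2 J2 blk beN laN isoN iso_one iso_two iso_act)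
open Pool.Agent.Work.MP_787500_nt.QU (urV Inst)
open Pool.Agent.Work.MP_787500_nt.QW (famL Ari sysQ)
open Pool.Agent.Work.MP_787500_nt.GA (HQ SQ jQ iQ Inr)
open Pool.Agent.Work.MP_787500_nt.QP (InvC)
open Pool.Agent.Work.MP_787500_nt.QL (TameF zur zurM mem_zurM mem_zur)

universe u v w

section zur

variable {O F : Type*} [CommRing O] [CommRing F] [Algebra O F] {V V' : Type*} [AddCommGroup V]
  [Module O V] [AddCommGroup V'] [Module F V'] {f : V ≃+ V'} {P : Type*} [Group P] {T : FSys P}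
  {In : Subgroup P} {ρ : P → V → V} {ρ' : P → V' → V'}

/-- transport of the condition `zur` -/
theorem zur_tra (hact : ∀ g v, f (ρ g v) = ρ' g (f v)) (act : IsAct ρ) (act' : IsAct ρ') (x : P → V) :
    (fun d => f (x d)) ∈ zur T In act' ↔ x ∈ zur T In act := by
  rw [mem_zur, mem_zur, z1_tra hact]
  refine and_congr Iff.rfl ⟨?_, ?_⟩
  · rintro ⟨m, hm⟩
    refine ⟨f.symm m, fun i hi => f.injective ?_⟩
    rw [hm i hi, d0, d0, map_sub, hact, f.apply_symm_apply]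
  · rintro ⟨m, hm⟩
    refine ⟨f m, fun i hi => ?_⟩
    show f (x i) = _
    rw [hm i hi, d0, d0, map_sub, hact]

theorem card_zur_tra (hf : SIso O F f) (hact : ∀ g v, f (ρ g v) = ρ' g (f v)) (act : IsAct ρ)
    (lin : ∀ g (a : O) m, ρ g (a • m) = a • ρ g m) (act' : IsAct ρ')
    (lin' : ∀ g (a : F) m, ρ' g (a • m) = a • ρ' g m) (Y : Submodule O (P → V)) :
    Nat.card ↥(tra hf Y ⊓ zurM T In act' lin') = Nat.card ↥(Y ⊓ zurM T In act lin) := by
  refine (Nat.card_congr ((fnA f P).subtypeEquiv fun x => ?_)).symm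
  show (x ∈ Y ∧ x ∈ zur T In act) ↔ ((fun d => f (x d)) ∈ tra hf Y ∧ (fun d => f (x d)) ∈ zur T In act')
  rw [map_tra, zur_tra hact act act']

end zur

section inert

variable {G Γ : Type*} [Group G] [Group Γ]
  {S : FSys G} {Sq : FSys Γ} {χ : G → ℤ_[2]} {χq : Γ → ℤ_[2]} {e : G →* Γ} {c : Γ}
  {κ : G →* G} {P : Type*} [Group P] {T : FSys P} {jp : P →* Γ} {iv : (P → P → A0) → A0}
  {F : Type v} [Field F] [Finite F] [CharP F 2] [Algebra (ZMod 2) F] {M : Type v}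
  [AddCommGroup M] [Finite M] {Θ : Set (G × G)} {O : Type*} [CommRing O]
  [Algebra O F] [Module O M] {ρ : G → M → M} {b : M →+ M →+ A0} {C : M → M}
  {In : Subgroup P}

/-- the fixed elements in coordinates -/
theorem card_fix {n : ℕ} [Sy F n] {L : M ≃+ (Fin n → F)} {A : Γ →* Matrix (Fin n) (Fin n) F}
    (hc : Crd e c O ρ b C L A) (hI : ∀ i ∈ In, ∃ g, e g = jp i) :
    Nat.card {m : M | ∀ g, (∃ i ∈ In, e g = jp i) → ρ g m = m} = Nat.card (fixS (A.comp jp) In) := by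
  refine Nat.card_congr (L.toEquiv.subtypeEquiv fun m => ?_)
  show (∀ g, (∃ i ∈ In, e g = jp i) → ρ g m = m) ↔ ∀ d ∈ In, A (jp d) *ᵥ L m = L m
  constructor
  · intro h d hd
    obtain ⟨g, hg⟩ := hI d hd
    rw [← hg, hc.ae, h g ⟨d, hd, hg⟩]
  · rintro h g ⟨d, hd, hg⟩
    refine L.injective ?_
    rw [← hc.ae, hg, h d hd]

/-- THE CONTRIBUTION OF AN INERT PLACE, for `M × M`. -/
theorem locM_inert (p : PlQ.{v} S Sq χ χq e c κ T jp iv) (h : SDualF S χ κ Θ O ρ b)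
    {a : P → ℤ_[2]} {σ τ : P} {q : ℕ} (hT : TameF T (fun d => χq (jp d)) a σ τ q In)
    (hI : ∀ i ∈ In, ∃ g, e g = jp i) {ψ : P → ZMod 2}
    (hψ : ∀ g h, ψ (g * h) = ψ g + ψ h) (hψs : Sm1 T ψ) (hψI : ∃ d ∈ In, ψ d = 1)
    (hiv : iv (fun g h => hf (ep e (jp g) * ψ h)) = hf 1) {τ' : P} (hτ' : τ' ∈ In)
    (hodd : PadicInt.toZMod (a τ') = 1)
    (act : IsAct fun d => ac2 e c κ ρ (jp d))
    (lin : ∀ (d : P) (a : O) m, ac2 e c κ ρ (jp d) (a • m) = a • ac2 e c κ ρ (jp d) m)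
    {Y : Submodule O (P → M × M)} (hfin : Finite Y) {r v : ℕ}
    (hr : Nat.card ↥(Y ⊓ zurM T In act lin) * r = Nat.card Y)
    (hev : EvPow (Nat.card F) (r * Nat.card {m : M | ∀ g, (∃ i ∈ In, e g = jp i) → ρ g m = m} *
      Nat.card F ^ v)) {δ : ℕ}
    (hδ : ∀ (n : ℕ) (_ : Sy F n) (L : M ≃+ (Fin n → F)) (A : Γ →* Matrix (Fin n) (Fin n) F),
      Crd e c O ρ b C L A → Even (Module.finrank F (fixv (A (jp τ'))) +
        Module.finrank F (fixS (A.comp jp) In) + v + δ)) :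
    LocM T jp iv e c κ F ρ b C Y δ := by
  intro n iS L A hc
  have X := p.two
  have hq1 : 1 < Nat.card F := Finite.one_lt_card
  have hIn : ∀ d ∈ In, ep e (jp d) = 0 := fun d hd => by
    obtain ⟨g, hg⟩ := hI d hd
    rw [← hg, QP.ep_e]
  have hq := p.qm h
  have hq' : QM T (fun d => χq (jp d)) F (fun d => ac2 e c κ (KT.act (A.comp e)) (jp d))
      (be2 (bC A c)) (fun (a : F) d => la2 e c κ (KT.act (A.comp e)) (bC A c) a (jp d)) :=
    qm_tra (siso_f2 hc.iso) (fun d v => hc.act2 X (jp d) v) hc.be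
      (fun a d v => hc.la X a (jp d) v) hq
  have hsm := p.smA hc h.sm
  refine locPar_inertT X hT p.loc.toLocH hc.sp hsm (p.ldA hc h.sm) hq' (p.loc.ld hq'.pair) p.esm hIn
    hψ hψs hψI hiv hτ' hodd ?_
  -- the numbers
  have e1 := card_tra (siso_f2 hc.iso) Y
  have e2 := card_zur_tra (T := T) (In := In) (siso_f2 hc.iso) (fun d v => hc.act2 X (jp d) v) act lin
    hq'.act hq'.lin Y
  have hf1 : Finite (tra (siso_f2 hc.iso) Y) := by
    refine Nat.finite_of_card_ne_zero ?_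
    rw [e1]
    exact Nat.card_pos.ne'
  have hfd : FiniteDimensional F (tra (siso_f2 hc.iso) Y) := Module.Finite.of_finite
  have hf2 : Finite ↥(tra (siso_f2 hc.iso) Y ⊓ zurM T In hq'.act hq'.lin) :=
    Finite.of_injective (fun x => (⟨x.1, x.2.1⟩ : tra (siso_f2 hc.iso) Y)) fun x y hxy =>
      Subtype.ext (congrArg (fun z : tra (siso_f2 hc.iso) Y => z.1) hxy)
  have hfd2 : FiniteDimensional F ↥(tra (siso_f2 hc.iso) Y ⊓ zurM T In hq'.act hq'.lin) :=
    Module.Finite.of_finite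
  rw [← e1, ← e2, Module.natCard_eq_pow_finrank (K := F),
    Module.natCard_eq_pow_finrank (K := F) (V := tra (siso_f2 hc.iso) Y)] at hr
  obtain ⟨m, hm⟩ := hev
  have hffix : FiniteDimensional F (fixS (A.comp jp) In) := inferInstance
  rw [card_fix hc hI, Module.natCard_eq_pow_finrank (K := F), mul_assoc, ← pow_add] at hm
  obtain ⟨x, hx⟩ : ∃ x, x = Module.finrank F (tra (siso_f2 hc.iso) Y) := ⟨_, rfl⟩
  obtain ⟨y, hy⟩ : ∃ y, y = Module.finrank F
    ↥(tra (siso_f2 hc.iso) Y ⊓ zurM T In hq'.act hq'.lin) := ⟨_, rfl⟩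
  obtain ⟨z, hz⟩ : ∃ z, z = Module.finrank F (fixS (A.comp jp) In) := ⟨_, rfl⟩
  obtain ⟨f, hf⟩ : ∃ f, f = Module.finrank F (fixv (A (jp τ'))) := ⟨_, rfl⟩
  have h0 := hδ n iS L A hc
  rw [← hz, ← hf] at h0
  rw [← hx, ← hy] at hr
  rw [← hz] at hm
  rw [← hf, ← hx, ← hy]
  have h1 : Nat.card F ^ (y + 2 * m) = Nat.card F ^ (x + (z + v)) := by
    rw [pow_add, ← hm, pow_add _ x, ← hr]
    ring
  have h2 := Nat.pow_right_injective hq1 h1
  beta_reduce at h2
  obtain ⟨k, hk⟩ := h0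
  refine ⟨k + x - m, ?_⟩
  have h3 : y + 2 * m = x + (z + v) := h2
  omega

end inert

section rat

variable {K : Type u} [Field K] [NumberField K] {D : ℕ} {s : K}
  {c : AlgebraicClosure K ≃+* AlgebraicClosure K} {κ : AbsGal K →* AbsGal K} {T : Finset ℕ}
  {P : ℕ → Ideal (𝓞 (AlgebraicClosure K))} {N₀ : Subgroup (AbsGal K)}
  {iv ivF : ∀ w : Option T, (stb (HP.PP P w) → stb (HP.PP P w) → A0) → A0}
  {tr : (((AlgebraicClosure K ≃+* AlgebraicClosure K) → (AlgebraicClosure K ≃+* AlgebraicClosure K) →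
      (AlgebraicClosure K ≃+* AlgebraicClosure K) → A0) ×
      (∀ i : Option (Option T), HQ c P i → HQ c P i → A0)) →+ A0}
  {E : Type w} [NormedField E] [NormedAlgebra ℚ_[2] E] [FiniteDimensional ℚ_[2] E]
  [IsLocalRing (OE E)] [Finite (IsLocalRing.ResidueField (OE E))]
  [CharP (IsLocalRing.ResidueField (OE E)) 2] [Algebra (ZMod 2) (IsLocalRing.ResidueField (OE E))]
  {n : ℕ} {ρ : AbsGal K →* Matrix (Fin n) (Fin n) E} {b : Matrix (Fin n) (Fin n) E}
  {l : OE E} {t : E →ₗ[ℚ_[2]] ℚ_[2]} {L₀ : Submodule (OE E) (Fin n → E)}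
  {L : Submodule E (stabD (K := K) (P 2) → Fin n → E)}

theorem rel_card {V : Type*} [AddCommGroup V] (A B : AddSubgroup V) :
    Nat.card ↥(B ⊓ A) * (A ⊓ B).relIndex B = Nat.card B := by
  have h1 := ((A ⊓ B).addSubgroupOf B).card_mul_index
  rw [inf_comm B A, ← h1, AddSubgroup.relIndex]
  congr 1
  exact (Nat.card_congr (AddSubgroup.addSubgroupOfEquivOfLe inf_le_right).toEquiv).symm

/-- THE CONTRIBUTION OF AN INERT PRIME NUMBER. -/
theorem locM_inr (I : Inst.{u, w} s c κ D T P N₀ iv ivF tr) (h : Ari s c κ D T P N₀)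
    (hρ : Gn.ConjDual 2 N₀ (inT K T) (Parity.cyclo E) κ ρ b) (hl : Lat b l t L₀)
    (hst : ∀ g, ∀ x ∈ L₀, ρ g *ᵥ x ∈ L₀) {C : MN L₀ l 1 → MN L₀ l 1}
    (hL : L ≤ Parity.cocycles (fun σ : stabD (K := K) (P 2) => ρ σ))
    (hL0 : Parity.coboundaries (fun σ : stabD (K := K) (P 2) => ρ σ) ≤ L) {p : T} (hp : Inr D p)
    {δ : ℕ}
    (hδ : ∀ (m : ℕ) (_ : Sy (IsLocalRing.ResidueField (OE E)) m)
      (Lc : MN L₀ l 1 ≃+ (Fin m → IsLocalRing.ResidueField (OE E)))
      (A : (AlgebraicClosure K ≃+* AlgebraicClosure K) →*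
        Matrix (Fin m) (Fin m) (IsLocalRing.ResidueField (OE E))),
      Crd (iK K) c (OE E) (actN l 1 (fun g => ρ g) hst) (bN hl 1) C Lc A →
      ∀ (a : stb (P p) → ℤ_[2]) (σ τ τ' : stb (P p)),
        TameF (big (fullC (stb (P p))) ((N₀.map (iK K)).subgroupOf (stb (P p))))
          (fun d : stb (P p) => cyQ (d : AlgebraicClosure K ≃+* AlgebraicClosure K)) a σ τ p
          ((inr (P p)).subgroupOf (stb (P p))) →
        τ' ∈ (inr (P p)).subgroupOf (stb (P p)) → PadicInt.toZMod (a τ') = 1 →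
        Even (Module.finrank (IsLocalRing.ResidueField (OE E)) (fixv (A τ')) +
          Module.finrank (IsLocalRing.ResidueField (OE E))
            (fixS (A.comp (stb (P p)).subtype) ((inr (P p)).subgroupOf (stb (P p)))) +
          Module.finrank E (EV.VI (iK K) (stb (P p)).subtype ((inr (P p)).subgroupOf (stb (P p)))
            (fun g => ρ g)) + δ)) :
    LocF c κ P N₀ ivF hl hst C (some (some p)) (famL c κ T P N₀ ρ b h.h2 L (some (some p))) δ := by
  have hfin : Finite (MN L₀ l 1) := GP.MN_finite hl 1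
  have hs : SDualF (big (fullK (K := K) T) N₀) cyc κ ∅ (OE E) (actN l 1 (fun g => ρ g) hst)
      (bN hl 1) := sdualF_MN hl (h.rep hρ hst) (fun p hp => absurd hp (Set.notMem_empty p)) 1
  have hpl := plQ I (some (some p))
  have hlag := lag_fam I h hρ hl hst hL hL0 (some (some p))
  have hN := I.norQ
  have hNn : ((N₀.map (iK K)).subgroupOf (stb (P p))).Normal := inferInstance
  obtain ⟨a, σ, τ, hT⟩ := QL.exists_tameQ_big (HP.alg_closure K) (I.prime p) (I.odd p) (I.isPrime p)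
    (I.natMem p) ((N₀.map (iK K)).subgroupOf (stb (P p)))
  have hI : ∀ i ∈ (inr (P p)).subgroupOf (stb (P p)), ∃ g, iK K g = (stb (P p)).subtype i :=
    fun i hi => I.le_inr hp.2.2.1 hi
  have hεI : ∀ d ∈ (inr (P p)).subgroupOf (stb (P p)), ep (iK K) ((stb (P p)).subtype d) = 0 :=
    fun d hd => I.e_inr hp.2.2.1 hd
  obtain ⟨d₁, hd₁⟩ := I.e_inert hp
  obtain ⟨ψ, hψ, hψI, hv⟩ := exists_psi I.qdat p (I.locF (some p)) (I.ehoms' (stb (P p))) hεI
    ⟨d₁, by rw [show ep (iK K) (d₁ : AlgebraicClosure K ≃+* AlgebraicClosure K) = 1 from hd₁]; exact one_ne_zero⟩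
  have hq := h.qrep hρ hl hst I.glob.glob.char.mul
  have hr := QW.locRep_res hq.rep (GA.jsmQ c P (N₀.map (iK K)) (some (some p)))
  -- the action on the level one
  have hqm := hpl.qm hs
  have hact0 : ∀ (d : stb (P p)) (m : MN (T2 L₀) l 1),
      (isoN L₀ l 1).toAddEquiv (actN l 1 (fun d : stb (P p) => rho2 (iK K) c κ (fun g => ρ g) d)
        hr.st d m) = ac2 (iK K) c κ (actN l 1 (fun g => ρ g) hst) d ((isoN L₀ l 1).toAddEquiv m) :=
    fun d m => iso_act I.isTwo hst hq.rep.st _ m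
  have hqN := (QV.qm_N hq I.glob.glob.char 1).comp (GA.jsmQ c P (N₀.map (iK K)) (some (some p)))
  have act0 : IsAct (actN l 1 (fun d : stb (P p) => rho2 (iK K) c κ (fun g => ρ g) d) hr.st) :=
    hqN.act
  have lin0 : ∀ (g : stb (P p)) (a : OE E) (m : MN (T2 L₀) l 1),
      actN l 1 (fun d : stb (P p) => rho2 (iK K) c κ (fun g => ρ g) d) hr.st g (a • m) =
        a • actN l 1 (fun d : stb (P p) => rho2 (iK K) c κ (fun g => ρ g) d) hr.st g m :=
    hqN.lin
  obtain ⟨W, hW, hW1⟩ := GA.jsmQ c P (N₀.map (iK K)) (some (some p)) _ I.memQ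
  have hinQ := EV.inert_Q (e := iK K) (κ := κ) (c := c) (HP.alg_closure K) (I.prime p) (I.odd p)
    (I.isPrime p) (I.natMem p) hNn (I.opnL (some p)) I.isTwo hl hst hr hI hW (fun d hd => by
      obtain ⟨g, -, hg⟩ := hW1 d hd
      exact ⟨g, hg⟩) ⟨d₁, fun h1 => by
        exact one_ne_zero (hd₁.symm.trans ((ep_zero _).2 h1))⟩ act0
  have hfinY : Finite (YM L₀ l (famL c κ T P N₀ ρ b h.h2 L (some (some p)))) := by
    have h1 := (hpl.ldM hs).fin
    exact Finite.of_injective (fun x => (⟨x.1, hlag.coc _ x.2⟩ : {x // Z1 _ _ x}))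
      fun x y hxy => Subtype.ext (congrArg (fun z => z.1) hxy)
  have e1 := card_zur_tra (T := big (fullC (stb (P p))) ((N₀.map (iK K)).subgroupOf (stb (P p))))
    (In := (inr (P p)).subgroupOf (stb (P p))) (siso_iso L₀ l) hact0 act0 lin0 hqm.act hqm.lin
    (lamN (T2 L₀) l 1 (famL c κ T P N₀ ρ b h.h2 L (some (some p))))
  have e2 := rel_card (zur (big (fullC (stb (P p))) ((N₀.map (iK K)).subgroupOf (stb (P p))))
    ((inr (P p)).subgroupOf (stb (P p))) act0)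
    (lamN (T2 L₀) l 1 (famL c κ T P N₀ ρ b h.h2 L (some (some p)))).toAddSubgroup
  refine locM_inert hpl hs hT hI (fun g h => hψ.2.2 g trivial h trivial) (homs_sm1 hψ _) hψI hv hT.τI
    (by rw [hT.τa, map_one]) hqm.act hqm.lin hfinY ?_ hinQ fun m iS Lc A hc =>
      hδ m iS Lc A hc a σ τ τ hT hT.τI (by rw [hT.τa, map_one])
  rw [card_YM]
  exact (congrArg (· * _) e1).trans e2

end rat

end Pool.Agent.Work.MP_787500_nt.KI
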