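import Mathlib
import Pool.Agent.Work.MP_787500_nt.KT.Alg

/-!
# Fixed spaces of commuting symplectic matrices in characteristic 2

`par_comm`: if `s` of 2-power order and finitely many elements of odd order in the symplectic group commute, then the
space fixed by `s` and the space fixed by all of them have dimensions of the same parity.
`odd_comm`: two elements of a group of odd order in `SL_2` commute.
-/

set_option autoImplicit false
set_option linter.unusedSectionVars false

namespace Pool.Agent.Work.MP_787500_nt.KI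

open Matrix
open Pool.Agent.Work.MP_787500_nt.KS (alt_even)
open Pool.Agent.Work.MP_787500_nt.KT

variable {F : Type*} [Field F] [CharP F 2] {n : ℕ}

section lin

variable [Sy F n]

/-- the kernel of a matrix -/
def kerM (M : Matrix (Fin n) (Fin n) F) : Submodule F (Fin n → F) :=
  LinearMap.ker (Matrix.mulVecLin M)

theorem mem_kerM {M : Matrix (Fin n) (Fin n) F} {x : Fin n → F} : x ∈ kerM M ↔ M *ᵥ x = 0 := by
  rw [kerM, LinearMap.mem_ker, Matrix.mulVecLin_apply]

/-- `ee x (M y)` is alternating -/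
def IsAl (M : Matrix (Fin n) (Fin n) F) : Prop := ∀ x, ee x (M *ᵥ x) = 0

variable {M P Q E e s o : Matrix (Fin n) (Fin n) F}

theorem IsAl.symm (h : IsAl M) (x y : Fin n → F) : ee x (M *ᵥ y) = ee y (M *ᵥ x) := by
  have h1 := h (x + y)
  rw [mulVec_add, ee_add_left, ee_add_right, ee_add_right, h x, h y, zero_add, add_zero] at h1
  exact CharTwo.add_eq_zero.1 h1

theorem IsAl.add (h : IsAl P) (h' : IsAl Q) : IsAl (P + Q) := fun x => by
  rw [add_mulVec, ee_add_right, h x, h' x, add_zero]

theorem IsAl.even (h : IsAl M) : Even (Module.finrank F (kerM M)) := by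
  obtain ⟨m, hm⟩ := alt_even
    ((Sy.e : (Fin n → F) →ₗ[F] (Fin n → F) →ₗ[F] F).compl₂ (Matrix.mulVecLin M)) (fun x => h x)
  have h1 : LinearMap.ker ((Sy.e : (Fin n → F) →ₗ[F] (Fin n → F) →ₗ[F] F).compl₂
      (Matrix.mulVecLin M)) = kerM M := by
    ext x
    rw [LinearMap.mem_ker, mem_kerM]
    constructor
    · intro h2
      refine ee_nondeg fun y => ?_
      rw [ee_comm, ← h.symm]
      exact LinearMap.congr_fun h2 y
    · intro h2
      refine LinearMap.ext fun y => ?_
      show ee x (M *ᵥ y) = 0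
      rw [h.symm, h2, ee_zero_right]
  rw [h1, Module.finrank_fin_fun] at hm
  obtain ⟨r, hr⟩ := n_even F n
  rw [Nat.even_iff]
  omega

/-- a selfadjoint idempotent -/
structure IsPj (E : Matrix (Fin n) (Fin n) F) : Prop where
  idem : E * E = E
  adj : ∀ x y, ee (E *ᵥ x) y = ee x (E *ᵥ y)

theorem IsPj.sq (h : IsPj E) (x : Fin n → F) : E *ᵥ (E *ᵥ x) = E *ᵥ x := by
  rw [mulVec_mulVec, h.idem]

theorem IsPj.al (h : IsPj E) : IsAl E := fun x => by
  rw [← h.sq, ← h.adj, ee_self]

theorem al_mul (hP : IsPj P) (hQ : IsAl Q) (hc : P * Q = Q * P) : IsAl (P * Q) := fun x => by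
  have h1 : P * Q = P * (Q * P) := by rw [← hc, ← mul_assoc, hP.idem]
  rw [h1, ← mulVec_mulVec, ← hP.adj, ← mulVec_mulVec]
  exact hQ _

/-- `P` commutes with `Q`: the part of the kernel of `Q` in the image of `P` has even dimension -/
theorem even_pq (hP : IsPj P) (hQ : IsAl Q) (hc : P * Q = Q * P) :
    Even (Module.finrank F (fixv P ⊓ kerM Q : Submodule F (Fin n → F))) := by
  have h1 := (al_mul hP hQ hc).even
  have h2 := hP.al.even
  have h3 : kerM P ⊔ (fixv P ⊓ kerM Q) = kerM (P * Q) := by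
    apply le_antisymm
    · refine sup_le ?_ ?_
      · intro x hx
        rw [mem_kerM] at hx ⊢
        rw [hc, ← mulVec_mulVec, hx, mulVec_zero]
      · rintro x ⟨hx1, hx2⟩
        rw [mem_kerM, ← mulVec_mulVec, mem_kerM.1 hx2, mulVec_zero]
    · intro x hx
      rw [mem_kerM] at hx
      refine Submodule.mem_sup.2 ⟨x + P *ᵥ x, ?_, P *ᵥ x, ⟨?_, ?_⟩, ?_⟩
      · rw [mem_kerM, mulVec_add, hP.sq, U_add_self]
      · exact hP.sq x
      · show P *ᵥ x ∈ kerM Q
        rw [mem_kerM, mulVec_mulVec, ← hc, hx]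
      · rw [add_assoc, U_add_self, add_zero]
  have h4 : kerM P ⊓ (fixv P ⊓ kerM Q) = ⊥ := by
    rw [eq_bot_iff]
    rintro x ⟨hx1, hx2, -⟩
    rw [Submodule.mem_bot]
    have h5 : P *ᵥ x = x := hx2
    rw [← h5]
    exact mem_kerM.1 hx1
  have h5 := Submodule.finrank_sup_add_finrank_inf_eq (kerM P) (fixv P ⊓ kerM Q)
  rw [h3, h4, finrank_bot, add_zero] at h5
  rw [h5] at h1
  obtain ⟨a, ha⟩ := h1
  obtain ⟨b, hb⟩ := h2
  rw [Nat.even_iff]
  omega

theorem M_add_self (M : Matrix (Fin n) (Fin n) F) : M + M = 0 := by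
  ext i j
  exact add_self (M i j)

/-- the splitting of a fixed space by an idempotent -/
theorem fin_split (hE : E * E = E) (he : e * e = e) (hc : E * e = e * E) (hs : s * e = e * s) :
    Module.finrank F (fixv s ⊓ fixv E : Submodule F (Fin n → F)) =
      Module.finrank F (fixv s ⊓ fixv (E * e) : Submodule F (Fin n → F)) +
      Module.finrank F (fixv s ⊓ fixv (E * (1 + e)) : Submodule F (Fin n → F)) := by
  have h3 : (fixv s ⊓ fixv (E * e)) ⊔ (fixv s ⊓ fixv (E * (1 + e))) = fixv s ⊓ fixv E := by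
    apply le_antisymm
    · refine sup_le ?_ ?_
      · rintro x ⟨hx1, hx2⟩
        refine ⟨hx1, ?_⟩
        have h5 : (E * e) *ᵥ x = x := hx2
        show E *ᵥ x = x
        rw [← h5, mulVec_mulVec, ← mul_assoc, hE]
      · rintro x ⟨hx1, hx2⟩
        refine ⟨hx1, ?_⟩
        have h5 : (E * (1 + e)) *ᵥ x = x := hx2
        show E *ᵥ x = x
        rw [← h5, mulVec_mulVec, ← mul_assoc, hE]
    · rintro x ⟨hx1, hx2⟩
      have k1 : s *ᵥ x = x := hx1
      have k2 : E *ᵥ x = x := hx2
      have k3 : s *ᵥ (e *ᵥ x) = e *ᵥ x := by rw [mulVec_mulVec, hs, ← mulVec_mulVec, k1]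
      refine Submodule.mem_sup.2 ⟨e *ᵥ x, ⟨k3, ?_⟩, x + e *ᵥ x, ⟨?_, ?_⟩, ?_⟩
      · show (E * e) *ᵥ (e *ᵥ x) = e *ᵥ x
        rw [mulVec_mulVec, mul_assoc, he, hc, ← mulVec_mulVec, k2]
      · show s *ᵥ (x + e *ᵥ x) = x + e *ᵥ x
        rw [mulVec_add, k1, k3]
      · show (E * (1 + e)) *ᵥ (x + e *ᵥ x) = x + e *ᵥ x
        have k4 : (1 + e) *ᵥ (x + e *ᵥ x) = x + e *ᵥ x := by
          rw [add_mulVec, one_mulVec, mulVec_add, mulVec_mulVec, he]
          have := U_add_self (e *ᵥ x)
          rw [this, add_zero]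
        rw [← mulVec_mulVec, k4, mulVec_add, k2, mulVec_mulVec, hc, ← mulVec_mulVec, k2]
      · rw [add_comm x, ← add_assoc, U_add_self, zero_add]
  have h4 : (fixv s ⊓ fixv (E * e)) ⊓ (fixv s ⊓ fixv (E * (1 + e))) = ⊥ := by
    rw [eq_bot_iff]
    rintro x ⟨⟨-, hx1⟩, -, hx2⟩
    rw [Submodule.mem_bot]
    have k1 : (E * e) *ᵥ x = x := hx1
    have k2 : (E * (1 + e)) *ᵥ x = x := hx2
    have k3 : e * (E * (1 + e)) = 0 := by
      rw [← mul_assoc, ← hc, mul_assoc, mul_add, mul_one, he, M_add_self, mul_zero]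
    have k4 : e *ᵥ x = 0 := by
      rw [← k2, mulVec_mulVec, k3, zero_mulVec]
    rw [← k1, ← mulVec_mulVec, k4, mulVec_zero]
  have h5 := Submodule.finrank_sup_add_finrank_inf_eq (fixv s ⊓ fixv (E * e))
    (fixv s ⊓ fixv (E * (1 + e)))
  rw [h3, h4, finrank_bot, add_zero] at h5
  exact h5

/-! ## The mean over the powers of an element of odd order -/

/-- the sum of the powers of `o` -/
def avg (o : Matrix (Fin n) (Fin n) F) (m : ℕ) : Matrix (Fin n) (Fin n) F :=
  ∑ i ∈ Finset.range m, o ^ i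

variable {m : ℕ}

theorem o_avg (h : o ^ m = 1) : o * avg o m = avg o m := by
  have h1 := mul_geom_sum o m
  rw [h, sub_self, sub_mul, one_mul, sub_eq_zero] at h1
  exact h1

theorem pow_avg (h : o ^ m = 1) (i : ℕ) : o ^ i * avg o m = avg o m := by
  induction i with
  | zero => rw [pow_zero, one_mul]
  | succ i ih => rw [pow_succ, mul_assoc, o_avg h, ih]

theorem odd_nsmul (hm : Odd m) (x : Fin n → F) : m • x = x := by
  obtain ⟨k, rfl⟩ := hm
  rw [add_smul, one_smul, mul_comm, mul_smul, two_smul, U_add_self, smul_zero, zero_add]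

theorem fix_avg (hm : Odd m) (h : o ^ m = 1) {x : Fin n → F} :
    avg o m *ᵥ x = x ↔ o *ᵥ x = x := by
  constructor
  · intro h1
    rw [← h1, mulVec_mulVec, o_avg h]
  · intro h1
    have h2 : ∀ i : ℕ, (o ^ i) *ᵥ x = x := by
      intro i
      induction i with
      | zero => rw [pow_zero, one_mulVec]
      | succ i ih => rw [pow_succ, ← mulVec_mulVec, h1, ih]
    unfold avg
    rw [sum_mulVec, Finset.sum_congr rfl fun i _ => h2 i, Finset.sum_const, Finset.card_range,
      odd_nsmul hm]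

theorem avg_idem (hm : Odd m) (h : o ^ m = 1) : avg o m * avg o m = avg o m := by
  have h1 : avg o m * avg o m = ∑ i ∈ Finset.range m, o ^ i * avg o m := by
    conv_lhs =>
      enter [1]
      unfold avg
    rw [Finset.sum_mul]
  rw [h1, Finset.sum_congr rfl fun i _ => pow_avg h i, Finset.sum_const, Finset.card_range]
  obtain ⟨k, rfl⟩ := hm
  rw [add_smul, one_smul, mul_comm, mul_smul, two_smul, M_add_self, smul_zero, zero_add]

theorem avg_adj (hm : Odd m) (h : o ^ m = 1) (ho : IsSp o) (x y : Fin n → F) :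
    ee (avg o m *ᵥ x) y = ee x (avg o m *ᵥ y) := by
  have h1 : ∀ x y : Fin n → F, ee (avg o m *ᵥ x) y = ee (avg o m *ᵥ x) (avg o m *ᵥ y) := by
    intro x y
    have h2 : ∀ i : ℕ, ee (avg o m *ᵥ x) ((o ^ i) *ᵥ y) = ee (avg o m *ᵥ x) y := by
      intro i
      rw [← pow_avg h i, ← mulVec_mulVec, ee_mulVec (isSp_pow ho i), mulVec_mulVec, pow_avg h i]
    have h3 : ee (avg o m *ᵥ x) (avg o m *ᵥ y) =
        ∑ i ∈ Finset.range m, ee (avg o m *ᵥ x) ((o ^ i) *ᵥ y) := by
      conv_lhs =>
        enter [2]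
        unfold avg
      rw [sum_mulVec]
      exact map_sum (Sy.e (avg o m *ᵥ x)) _ _
    rw [h3, Finset.sum_congr rfl fun i _ => h2 i, Finset.sum_const, Finset.card_range]
    obtain ⟨k, rfl⟩ := hm
    rw [add_smul, one_smul, mul_comm, mul_smul, two_smul, add_self, smul_zero, zero_add]
  rw [h1, ee_comm x, h1 y x, ee_comm]

theorem avg_pj (hm : Odd m) (h : o ^ m = 1) (ho : IsSp o) : IsPj (avg o m) :=
  ⟨avg_idem hm h, avg_adj hm h ho⟩

theorem avg_comm {g : Matrix (Fin n) (Fin n) F} (h : g * o = o * g) : g * avg o m = avg o m * g := by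
  unfold avg
  rw [Finset.mul_sum, Finset.sum_mul]
  exact Finset.sum_congr rfl fun i _ => (Commute.pow_right (show Commute g o from h) i).eq

theorem IsPj.compl (h : IsPj e) : IsPj (1 + e) where
  idem := by
    rw [mul_add, mul_one, add_mul, one_mul, h.idem, M_add_self, add_zero]
  adj x y := by
    rw [add_mulVec, add_mulVec, one_mulVec, one_mulVec, ee_add_left, ee_add_right, h.adj]

theorem IsPj.mul (h : IsPj E) (h' : IsPj e) (hc : E * e = e * E) : IsPj (E * e) where
  idem := by
    rw [mul_assoc, ← mul_assoc e, ← hc, mul_assoc E e e, h'.idem, ← mul_assoc, h.idem]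
  adj x y := by
    rw [← mulVec_mulVec, h.adj, h'.adj, mulVec_mulVec, hc]

theorem isPj_one : IsPj (1 : Matrix (Fin n) (Fin n) F) :=
  ⟨one_mul 1, fun x y => by rw [one_mulVec, one_mulVec]⟩

/-! ## The alternating form -/

/-- `g + g⁻¹` is alternating -/
theorem al_inv {g g' : Matrix (Fin n) (Fin n) F} (hg : IsSp g) (h : g * g' = 1) :
    IsAl (g + g') := fun x => by
  rw [add_mulVec, ee_add_right]
  have h1 : ee x (g' *ᵥ x) = ee x (g *ᵥ x) := by
    rw [← ee_mulVec hg x, mulVec_mulVec, h, one_mulVec, ee_comm]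
  rw [h1, add_self]

/-- the part of the space fixed by `s` where the mean over `o` vanishes -/
theorem even_part {k : ℕ} (hs : IsSp s) (ho : IsSp o) (hE : IsPj E) (hsk : s ^ 2 ^ k = 1)
    (hm : Odd m) (hom : o ^ m = 1) (hso : s * o = o * s) (hsE : s * E = E * s)
    (hoE : o * E = E * o) :
    Even (Module.finrank F (fixv s ⊓ fixv (E * (1 + avg o m)) : Submodule F (Fin n → F))) := by
  -- inverses
  obtain ⟨s', hs'⟩ : ∃ s', s' = s ^ (2 ^ k - 1) := ⟨_, rfl⟩
  obtain ⟨o', ho'⟩ : ∃ o', o' = o ^ (m - 1) := ⟨_, rfl⟩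
  have k1 : s * s' = 1 := by
    rw [hs', ← pow_succ', Nat.sub_add_cancel (Nat.one_le_two_pow), hsk]
  have k2 : o * o' = 1 := by
    rw [ho', ← pow_succ', Nat.sub_add_cancel hm.pos, hom]
  have c1 : Commute s o := hso
  have c2 : Commute s' o := by rw [hs']; exact c1.pow_left _
  have c3 : Commute s o' := by rw [ho']; exact c1.pow_right _
  have c4 : Commute s' o' := by rw [ho']; exact c2.pow_right _
  have c5 : Commute s s' := by rw [hs']; exact (Commute.refl s).pow_right _
  have c6 : Commute o o' := by rw [ho']; exact (Commute.refl o).pow_right _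
  have k1' : s' * s = 1 := by rw [← c5.eq, k1]
  have k2' : o' * o = 1 := by rw [← c6.eq, k2]
  have d1 : Commute s E := hsE
  have d2 : Commute o E := hoE
  have d3 : Commute s' E := by rw [hs']; exact d1.pow_left _
  have d4 : Commute o' E := by rw [ho']; exact d2.pow_left _
  obtain ⟨e, he⟩ : ∃ e, e = avg o m := ⟨_, rfl⟩
  have hpj : IsPj e := by rw [he]; exact avg_pj hm hom ho
  have e1 : Commute s e := by rw [he]; exact avg_comm c1
  have e2 : Commute o e := by rw [he]; exact avg_comm (Commute.refl o)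
  have e3 : Commute s' e := by rw [hs']; exact e1.pow_left _
  have e4 : Commute o' e := by rw [ho']; exact e2.pow_left _
  have e5 : Commute E e := by rw [he]; exact avg_comm d2.symm
  rw [← he]
  obtain ⟨P, hP⟩ : ∃ P, P = E * (1 + e) := ⟨_, rfl⟩
  have hPj : IsPj P := by
    rw [hP]
    refine hE.mul hpj.compl ?_
    rw [mul_add, add_mul, mul_one, one_mul, e5.eq]
  have fP : ∀ g, Commute g E → Commute g e → Commute g P := fun g h1 h2 => by
    rw [hP]
    exact h1.mul_right ((Commute.one_right g).add_right h2)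
  have f1 := fP s d1 e1
  have f2 := fP o d2 e2
  have f3 := fP s' d3 e3
  have f4 := fP o' d4 e4
  rw [← hP]
  -- the operator
  obtain ⟨Q, hQ⟩ : ∃ Q, Q = (o * s + o' * s') + (o + o') := ⟨_, rfl⟩
  have hQa : IsAl Q := by
    rw [hQ]
    refine (al_inv (isSp_mul ho hs) ?_).add (al_inv ho k2)
    rw [mul_assoc, ← mul_assoc s, c3.eq, mul_assoc o', k1, mul_one, k2]
  have hPQ : P * Q = Q * P := by
    rw [hQ]
    refine Commute.eq ?_
    exact ((f2.symm.mul_right f1.symm).add_right (f4.symm.mul_right f3.symm)).add_right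
      (f2.symm.add_right f4.symm)
  have hev := even_pq hPj hQa hPQ
  have hker : fixv P ⊓ kerM Q = fixv s ⊓ fixv P := by
    ext x
    constructor
    · rintro ⟨hx1, hx2⟩
      refine ⟨?_, hx1⟩
      have hx3 := mem_kerM.1 hx2
      have hPx : P *ᵥ x = x := hx1
      obtain ⟨y, hy⟩ : ∃ y, y = s *ᵥ x + x := ⟨_, rfl⟩
      have hPy : P *ᵥ y = y := by
        rw [hy, mulVec_add, mulVec_mulVec, ← f1.eq, ← mulVec_mulVec, hPx]
      have g1 : Q = (o + o' * s') * (s + 1) := by
        rw [hQ, add_mul, mul_add, mul_add, mul_one, mul_one, mul_assoc o', k1', mul_one]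
        abel
      have g2 : (o + o' * s') *ᵥ y = 0 := by
        rw [hy, ← hx3, g1, ← mulVec_mulVec, add_mulVec s, one_mulVec]
      have g3 : (s * o * o) *ᵥ y = y := by
        have g4 : (s * o) *ᵥ ((o + o' * s') *ᵥ y) = 0 := by rw [g2, mulVec_zero]
        have g5 : s * o * (o' * s') = 1 := by
          rw [mul_assoc, ← mul_assoc o, k2, one_mul, k1]
        rw [mulVec_mulVec, mul_add, g5, add_mulVec, one_mulVec] at g4
        have g6 := U_cancel g4
        rwa [add_zero] at g6
      have g4 : ∀ i : ℕ, ((s * o * o) ^ i) *ᵥ y = y := by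
        intro i
        induction i with
        | zero => rw [pow_zero, one_mulVec]
        | succ i ih => rw [pow_succ, ← mulVec_mulVec, g3, ih]
      have g5 : (s * o * o) ^ 2 ^ k = o ^ (2 * 2 ^ k) := by
        rw [mul_assoc, ← sq, (c1.pow_right 2).mul_pow, hsk, one_mul, ← pow_mul]
      have g6 : (o ^ (2 * 2 ^ k)) *ᵥ y = y := by
        rw [← g5]
        exact g4 _
      have g7 : ∀ i : ℕ, ((o ^ (2 * 2 ^ k)) ^ i) *ᵥ y = y := by
        intro i
        induction i with
        | zero => rw [pow_zero, one_mulVec]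
        | succ i ih => rw [pow_succ, ← mulVec_mulVec, g6, ih]
      have hcop : Nat.Coprime (2 * 2 ^ k) m := by
        rw [← pow_succ']
        exact Nat.Coprime.pow_left _ ((Nat.coprime_two_left).2 hm)
      have g8 : o *ᵥ y = y := by
        rcases Nat.lt_or_ge 1 m with hm1 | hm1
        · obtain ⟨i, hi⟩ := Nat.exists_mul_mod_eq_one_of_coprime hcop hm1
          have g9 := g7 i
          rw [← pow_mul] at g9
          have g10 : o ^ (2 * 2 ^ k * i) = o := by
            conv_lhs => rw [← Nat.div_add_mod (2 * 2 ^ k * i) m]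
            rw [hi.2, pow_add, pow_mul, hom, one_pow, one_mul, pow_one]
          rwa [g10] at g9
        · have hm2 : m = 1 := le_antisymm hm1 hm.pos
          rw [hm2, pow_one] at hom
          rw [hom, one_mulVec]
      have g9 : e *ᵥ y = y := by
        rw [he]
        exact (fix_avg hm hom).2 g8
      have g10 : y = 0 := by
        have g11 : e * P = 0 := by
          rw [hP, ← mul_assoc, ← e5.eq, mul_assoc, mul_add, mul_one, hpj.idem, M_add_self, mul_zero]
        rw [← g9, ← hPy, mulVec_mulVec, g11, zero_mulVec]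
      rw [hy] at g10
      have g11 := U_cancel g10
      rwa [add_zero] at g11
    · rintro ⟨hx1, hx2⟩
      refine ⟨hx2, ?_⟩
      have hx3 : s *ᵥ x = x := hx1
      have hx4 : s' *ᵥ x = x := by
        conv_lhs => rw [← hx3]
        rw [mulVec_mulVec, k1', one_mulVec]
      show x ∈ kerM Q
      rw [mem_kerM, hQ, add_mulVec, add_mulVec, add_mulVec, ← mulVec_mulVec, ← mulVec_mulVec, hx3,
        hx4, U_add_self]
  rw [← hker]
  exact hev

/-- THE PARITY. `B` is a commutative set of symplectic matrices, `s` an element of 2-power order, `L` a finite set of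
elements of odd order. -/
theorem par_comm {B : Set (Matrix (Fin n) (Fin n) F)} (hB : ∀ g ∈ B, IsSp g)
    (hc : ∀ g ∈ B, ∀ h ∈ B, g * h = h * g) (hsB : s ∈ B) {k : ℕ} (hsk : s ^ 2 ^ k = 1)
    {L : Set (Matrix (Fin n) (Fin n) F)} (hL : L.Finite) (hLB : L ⊆ B)
    (hodd : ∀ o ∈ L, ∃ m, Odd m ∧ o ^ m = 1) {W : Submodule F (Fin n → F)}
    (hW : ∀ x, x ∈ W ↔ s *ᵥ x = x ∧ ∀ o ∈ L, o *ᵥ x = x) :
    Even (Module.finrank F (fixv s) + Module.finrank F W) := by
  have key : ∃ E : Matrix (Fin n) (Fin n) F, IsPj E ∧ (∀ g ∈ B, g * E = E * g) ∧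
      (∀ x, E *ᵥ x = x ↔ ∀ o ∈ L, o *ᵥ x = x) ∧
      Even (Module.finrank F (fixv s) + Module.finrank F (fixv s ⊓ fixv E : Submodule F _)) := by
    induction L, hL using Set.Finite.induction_on generalizing W with
    | empty =>
      refine ⟨1, isPj_one, fun g _ => by rw [mul_one, one_mul], fun x => ?_, ?_⟩
      · rw [one_mulVec]
        exact ⟨fun _ o ho => absurd ho (Set.notMem_empty o), fun _ => rfl⟩
      · have h1 : fixv s ⊓ fixv (1 : Matrix (Fin n) (Fin n) F) = fixv s := by
          refine inf_eq_left.2 fun x _ => ?_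
          show (1 : Matrix (Fin n) (Fin n) F) *ᵥ x = x
          rw [one_mulVec]
        rw [h1]
        exact ⟨_, rfl⟩
    | @insert o L ho hL ih =>
      obtain ⟨E, hE, hcE, hfE, hev⟩ := ih (fun x hx => hLB (Set.mem_insert_of_mem o hx))
        (fun x hx => hodd x (Set.mem_insert_of_mem o hx))
        (W := fixv s ⊓ ⨅ x ∈ L, fixv x) (fun x => by
          rw [Submodule.mem_inf]
          simp only [Submodule.mem_iInf]
          exact Iff.rfl)
      have hoB := hLB (Set.mem_insert o L)
      obtain ⟨m, hm, hom⟩ := hodd o (Set.mem_insert o L)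
      have hpj := avg_pj hm hom (hB o hoB)
      have hce : E * avg o m = avg o m * E := avg_comm (hcE o hoB).symm
      refine ⟨E * avg o m, hE.mul hpj hce, fun g hg => ?_, fun x => ?_, ?_⟩
      · rw [← mul_assoc, hcE g hg, mul_assoc, avg_comm (hc g hg o hoB), mul_assoc]
      · constructor
        · intro hx
          have h1 : E *ᵥ x = x := by
            rw [← hx, mulVec_mulVec, ← mul_assoc, hE.idem]
          have h2 : avg o m *ᵥ x = x := by
            rw [← hx, mulVec_mulVec, hce, ← mul_assoc, hpj.idem]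
          intro y hy
          rcases (Set.mem_insert_iff.1 hy) with rfl | hy
          · exact (fix_avg hm hom).1 h2
          · exact (hfE x).1 h1 y hy
        · intro hx
          rw [← mulVec_mulVec, (fix_avg hm hom).2 (hx o (Set.mem_insert o L))]
          exact (hfE x).2 fun y hy => hx y (Set.mem_insert_of_mem o hy)
      · have h1 := fin_split hE.idem hpj.idem hce (avg_comm (hc s hsB o hoB) : s * avg o m = _)
        have h2 := even_part (hB s hsB) (hB o hoB) hE hsk hm hom (hc s hsB o hoB) (hcE s hsB)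
          (hcE o hoB)
        obtain ⟨a, ha⟩ := hev
        obtain ⟨b, hb⟩ := h2
        rw [Nat.even_iff]
        omega
  obtain ⟨E, -, -, hfE, hev⟩ := key
  have h1 : W = fixv s ⊓ fixv E := by
    ext x
    rw [hW, Submodule.mem_inf]
    exact and_congr Iff.rfl (hfE x).symm
  rw [h1]
  exact hev

end lin

end Pool.Agent.Work.MP_787500_nt.KI
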