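import Mathlib

/-!
# Groups of 2 by 2 matrices over a finite field of characteristic 2

`odd_comm`: a subgroup of `SL_2` all of whose elements have odd order is commutative.
`odd_of_fix`: an element of `SL_2` without nonzero fixed vectors has odd order.
`comm_of_fix`: two elements of `SL_2` that fix the same nonzero vector commute.
-/

set_option autoImplicit false
set_option linter.unusedSectionVars false

namespace Pool.Agent.Work.MP_787500_nt.KI

open Matrix

/-- an involutive endomorphism of a finite group without nontrivial fixed elements is the inversion -/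
theorem inv_aut {G : Type*} [Group G] [Finite G] (H : Subgroup G) (φ : G →* G)
    (hH : ∀ x ∈ H, φ x ∈ H) (h2 : ∀ x ∈ H, φ (φ x) = x) (hf : ∀ x ∈ H, φ x = x → x = 1) :
    ∀ y ∈ H, φ y = y⁻¹ := by
  have hinj : Function.Injective (fun x : H => (⟨(x : G)⁻¹ * φ x, H.mul_mem (H.inv_mem x.2)
      (hH x x.2)⟩ : H)) := by
    intro x z hxz
    have h1 : (x : G)⁻¹ * φ x = (z : G)⁻¹ * φ z := congrArg Subtype.val hxz
    have h3 : φ ((z : G) * (x : G)⁻¹) = (z : G) * (x : G)⁻¹ := by
      rw [map_mul, map_inv]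
      have h4 : φ (z : G) = (z : G) * ((x : G)⁻¹ * φ x) := by rw [h1, mul_inv_cancel_left]
      rw [h4]
      group
    have h4 := hf _ (H.mul_mem z.2 (H.inv_mem x.2)) h3
    exact Subtype.ext (mul_inv_eq_one.1 h4).symm
  intro y hy
  obtain ⟨x, hx⟩ := Finite.surjective_of_injective hinj ⟨y, hy⟩
  have h1 : (x : G)⁻¹ * φ x = y := congrArg Subtype.val hx
  rw [← h1, map_mul, map_inv, h2 x x.2, _root_.mul_inv_rev, inv_inv]

/-- an element of odd order with square 1 -/
theorem one_of_sq {M : Type*} [Monoid M] {x : M} (h2 : x * x = 1) {r : ℕ} (hr : Odd r)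
    (h : x ^ r = 1) : x = 1 := by
  obtain ⟨k, rfl⟩ := hr
  rw [pow_succ, pow_mul, pow_two, h2, one_pow, one_mul] at h
  exact h

variable {F : Type*} [Field F] [CharP F 2]

theorem two_zero : (2 : F) = 0 := by
  have := CharP.cast_eq_zero F 2
  exact_mod_cast this

section id

variable (X Y : Matrix (Fin 2) (Fin 2) F)

/-- the polarized Cayley-Hamilton identity -/
theorem pol : X * Y + Y * X = trace X • Y + trace Y • X +
    (trace (X * Y) + trace X * trace Y) • (1 : Matrix (Fin 2) (Fin 2) F) := by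
  have h2 : (2 : F) = 0 := two_zero
  ext i j
  fin_cases i <;> fin_cases j
  · simp [Matrix.mul_apply, Fin.sum_univ_two, Matrix.trace_fin_two, Matrix.add_apply,
      Matrix.smul_apply]
    linear_combination (-(X 0 0 * Y 0 0) - X 0 0 * Y 1 1 - Y 0 0 * X 1 1 - X 1 1 * Y 1 1) * h2
  · simp [Matrix.mul_apply, Fin.sum_univ_two, Matrix.trace_fin_two, Matrix.add_apply,
      Matrix.smul_apply]
    ring
  · simp [Matrix.mul_apply, Fin.sum_univ_two, Matrix.trace_fin_two, Matrix.add_apply,
      Matrix.smul_apply]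
    ring
  · simp [Matrix.mul_apply, Fin.sum_univ_two, Matrix.trace_fin_two, Matrix.add_apply,
      Matrix.smul_apply]
    linear_combination (-(X 0 0 * Y 0 0) - X 0 0 * Y 1 1 - Y 0 0 * X 1 1 - X 1 1 * Y 1 1) * h2

/-- the Cayley-Hamilton identity -/
theorem ch : X * X = trace X • X + det X • (1 : Matrix (Fin 2) (Fin 2) F) := by
  have h2 : (2 : F) = 0 := two_zero
  ext i j
  fin_cases i <;> fin_cases j
  · simp [Matrix.mul_apply, Fin.sum_univ_two, Matrix.trace_fin_two, Matrix.add_apply,
      Matrix.smul_apply, Matrix.det_fin_two]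
    linear_combination (X 0 1 * X 1 0 - X 0 0 * X 1 1) * h2
  · simp [Matrix.mul_apply, Fin.sum_univ_two, Matrix.trace_fin_two, Matrix.add_apply,
      Matrix.smul_apply, Matrix.det_fin_two]
    ring
  · simp [Matrix.mul_apply, Fin.sum_univ_two, Matrix.trace_fin_two, Matrix.add_apply,
      Matrix.smul_apply, Matrix.det_fin_two]
    ring
  · simp [Matrix.mul_apply, Fin.sum_univ_two, Matrix.trace_fin_two, Matrix.add_apply,
      Matrix.smul_apply, Matrix.det_fin_two]
    linear_combination (X 0 1 * X 1 0 - X 0 0 * X 1 1) * h2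

theorem det_one_add : det (X + 1) = det X + trace X + 1 := by
  rw [Matrix.det_fin_two, Matrix.det_fin_two, Matrix.trace_fin_two]
  simp [Matrix.add_apply]
  ring

variable {X Y}

theorem X_add_self (X : Matrix (Fin 2) (Fin 2) F) : X + X = 0 := by
  ext i j
  exact CharTwo.add_self_eq_zero _

theorem det_add_one_eq (hX : det X = 1) : det (X + 1) = trace X := by
  rw [det_one_add, hX]
  linear_combination (two_zero : (2 : F) = 0)

theorem sq_one (hX : det X = 1) (ht : trace X = 0) : X * X = 1 := by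
  rw [ch, hX, ht, zero_smul, one_smul, zero_add]

theorem trace_of_fix (hX : det X = 1) {w : Fin 2 → F} (hw : w ≠ 0) (h : X *ᵥ w = w) :
    trace X = 0 := by
  rw [← det_add_one_eq hX]
  refine Matrix.exists_mulVec_eq_zero_iff.1 ⟨w, hw, ?_⟩
  rw [add_mulVec, one_mulVec, h]
  funext i
  exact CharTwo.add_self_eq_zero _

/-- TWO ELEMENTS THAT FIX THE SAME NONZERO VECTOR commute -/
theorem comm_of_fix (hX : det X = 1) (hY : det Y = 1) {w : Fin 2 → F} (hw : w ≠ 0)
    (h1 : X *ᵥ w = w) (h2 : Y *ᵥ w = w) : X * Y = Y * X := by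
  have hXY : det (X * Y) = 1 := by rw [det_mul, hX, hY, one_mul]
  have e1 := trace_of_fix hX hw h1
  have e2 := trace_of_fix hY hw h2
  have e3 := trace_of_fix hXY hw (by rw [← mulVec_mulVec, h2, h1])
  have h := pol X Y
  rw [e1, e2, e3, zero_smul, zero_smul, mul_zero, add_zero, add_zero, zero_smul, add_zero] at h
  have h4 := X_add_self (Y * X)
  calc X * Y = X * Y + (Y * X + Y * X) := by rw [h4, add_zero]
    _ = (X * Y + Y * X) + Y * X := by rw [add_assoc]
    _ = Y * X := by rw [h, zero_add]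

/-- AN ELEMENT WITHOUT FIXED VECTORS has odd order -/
theorem odd_of_fix (hX : det X = 1) (h : ∀ w : Fin 2 → F, X *ᵥ w = w → w = 0) {k m : ℕ}
    (hk : X ^ (2 ^ k * m) = 1) : X ^ m = 1 := by
  obtain ⟨s, hs⟩ : ∃ s, s = X ^ m := ⟨_, rfl⟩
  obtain ⟨N, hN⟩ : ∃ N, N = s + 1 := ⟨_, rfl⟩
  have hds : det s = 1 := by rw [hs, det_pow, hX, one_pow]
  have h1 : N ^ 2 ^ k = 0 := by
    rw [hN, add_pow_char_pow_of_commute 2 k (Commute.one_right s), one_pow, hs, ← pow_mul,
      mul_comm m, hk, X_add_self]
  have h2 : det N = 0 := by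
    have e := congrArg det h1
    rw [det_pow, det_zero] at e
    exact pow_eq_zero_iff (pow_ne_zero k two_ne_zero) |>.1 e
  have h3 : trace s = 0 := by rw [← det_add_one_eq hds, ← hN, h2]
  have h4 : trace N = 0 := by
    rw [hN, trace_add, h3, trace_one, Fintype.card_fin, zero_add]
    exact_mod_cast (two_zero : (2 : F) = 0)
  have h5 : trace X ≠ 0 := by
    rw [← det_add_one_eq hX]
    intro h0
    obtain ⟨w, hw, h6⟩ := Matrix.exists_mulVec_eq_zero_iff.2 h0
    rw [add_mulVec, one_mulVec] at h6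
    refine hw (h w ?_)
    calc X *ᵥ w = X *ᵥ w + w + w := by
          rw [add_assoc]
          have : w + w = 0 := by
            funext i
            exact CharTwo.add_self_eq_zero _
          rw [this, add_zero]
      _ = w := by rw [h6, zero_add]
  have hcm : X * N = N * X := by
    rw [hN, hs, mul_add, add_mul, mul_one, one_mul, (Commute.pow_self X m).eq]
  have h7 := pol X N
  rw [hcm, X_add_self, h4, zero_smul, add_zero, mul_zero, add_zero] at h7
  -- `N` is scalar
  have h8 : N = (-((trace X)⁻¹ * trace (N * X))) • (1 : Matrix (Fin 2) (Fin 2) F) := by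
    have e := congrArg (fun Z => (trace X)⁻¹ • Z) h7
    simp only [smul_zero, smul_add, smul_smul, inv_mul_cancel₀ h5, one_smul] at e
    rw [neg_smul]
    exact eq_neg_of_add_eq_zero_left e.symm
  have h9 : N = 0 := by
    rw [h8, det_smul, det_one, mul_one, Fintype.card_fin] at h2
    rw [h8, pow_eq_zero_iff two_ne_zero |>.1 h2, zero_smul]
  rw [← hs]
  have e := X_add_self (1 : Matrix (Fin 2) (Fin 2) F)
  calc s = s + (1 + 1) := by rw [e, add_zero]
    _ = N + 1 := by rw [hN, add_assoc]
    _ = 1 := by rw [h9, zero_add]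

theorem conj_J (hX : det X = 1) (Y : Matrix (Fin 2) (Fin 2) F) :
    X * (X * Y + Y * X) * X = X * Y + Y * X := by
  have h1 : X * X = trace X • X + 1 := by rw [ch, hX, one_smul]
  calc X * (X * Y + Y * X) * X = (X * X) * (Y * X) + X * Y * (X * X) := by
        simp only [mul_add, add_mul, mul_assoc]
    _ = (trace X • X + 1) * (Y * X) + X * Y * (trace X • X + 1) := by rw [h1]
    _ = (trace X • (X * Y * X) + trace X • (X * Y * X)) + (X * Y + Y * X) := by
        rw [add_mul, mul_add, smul_mul_assoc, mul_smul_comm, one_mul, mul_one, ← mul_assoc]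
        abel
    _ = X * Y + Y * X := by rw [X_add_self, zero_add]

end id

/-- A GROUP OF ODD ORDER in `SL_2` is commutative. -/
theorem odd_comm [Finite F] {x y : (Matrix (Fin 2) (Fin 2) F)ˣ}
    (hd : ∀ z ∈ Subgroup.closure {x, y}, det (z : Matrix (Fin 2) (Fin 2) F) = 1 ∧
      ∃ r, Odd r ∧ z ^ r = 1) : x * y = y * x := by
  classical
  obtain ⟨H, hH⟩ : ∃ H, H = Subgroup.closure {x, y} := ⟨_, rfl⟩
  have hx : x ∈ H := by
    rw [hH]
    exact Subgroup.subset_closure (Set.mem_insert _ _)
  have hy : y ∈ H := by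
    rw [hH]
    exact Subgroup.subset_closure (Set.mem_insert_of_mem _ rfl)
  rw [← hH] at hd
  obtain ⟨J, hJ⟩ : ∃ J : Matrix (Fin 2) (Fin 2) F, J = x * y + y * x := ⟨_, rfl⟩
  have hJt : trace J = 0 := by
    rw [hJ, trace_add, trace_mul_comm (y : Matrix (Fin 2) (Fin 2) F)]
    exact CharTwo.add_self_eq_zero _
  by_cases h0 : det J = 0
  · -- the commutator has trace 0
    obtain ⟨c, hc⟩ : ∃ c, c = x * y * x⁻¹ * y⁻¹ := ⟨_, rfl⟩
    have hcH : c ∈ H := by
      rw [hc]
      exact H.mul_mem (H.mul_mem (H.mul_mem hx hy) (H.inv_mem hx)) (H.inv_mem hy)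
    obtain ⟨hcd, r, hr, hcr⟩ := hd c hcH
    have e1 : c * (y * x) = x * y := by
      rw [hc]
      group
    have e2 : (c : Matrix (Fin 2) (Fin 2) F) * (y * x) = x * y := by
      rw [← Units.val_mul, ← Units.val_mul, ← Units.val_mul, e1]
    have e3 : J = (c + 1) * (y * x) := by
      rw [add_mul, one_mul, e2, hJ]
    have e4 : trace (c : Matrix (Fin 2) (Fin 2) F) = 0 := by
      rw [e3, det_mul, det_mul, (hd y hy).1, (hd x hx).1, mul_one, mul_one] at h0
      rw [← det_add_one_eq hcd, h0]
    have e5 : c * c = 1 := Units.ext (by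
      rw [Units.val_mul, Units.val_one]
      exact sq_one hcd e4)
    have e6 := one_of_sq e5 hr hcr
    rw [e6, one_mul] at e1
    exact e1.symm
  · exfalso
    obtain ⟨j, hj⟩ : ∃ j : (Matrix (Fin 2) (Fin 2) F)ˣ, (j : Matrix (Fin 2) (Fin 2) F) = J :=
      (Matrix.isUnit_iff_isUnit_det J).2 (isUnit_iff_ne_zero.2 h0)
    have hxj : x * j * x = j := Units.ext (by
      rw [Units.val_mul, Units.val_mul, hj, hJ]
      exact conj_J (hd x hx).1 _)
    have hyj : y * j * y = j := Units.ext (by
      rw [Units.val_mul, Units.val_mul, hj, hJ, add_comm]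
      exact conj_J (hd y hy).1 _)
    have hjj : ∀ z : (Matrix (Fin 2) (Fin 2) F)ˣ, j * j * z = z * (j * j) := fun z =>
      Units.ext (by
        simp only [Units.val_mul, hj]
        rw [ch J, hJt, zero_smul, zero_add, smul_mul_assoc, mul_smul_comm, one_mul, mul_one])
    -- the conjugation
    obtain ⟨φ, hφ⟩ : ∃ φ : (Matrix (Fin 2) (Fin 2) F)ˣ →* (Matrix (Fin 2) (Fin 2) F)ˣ,
        ∀ z, φ z = j * z * j⁻¹ := ⟨(MulAut.conj j).toMonoidHom, fun z => rfl⟩
    have hφx : φ x = x⁻¹ := by
      rw [hφ, mul_inv_eq_iff_eq_mul, eq_inv_mul_iff_mul_eq, ← mul_assoc]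
      exact hxj
    have hφy : φ y = y⁻¹ := by
      rw [hφ, mul_inv_eq_iff_eq_mul, eq_inv_mul_iff_mul_eq, ← mul_assoc]
      exact hyj
    have hφH : ∀ z ∈ H, φ z ∈ H := by
      have h1 : H ≤ H.comap φ := by
        conv_lhs => rw [hH]
        rw [Subgroup.closure_le]
        rintro z (rfl | rfl)
        · show φ z ∈ H
          rw [hφx]
          exact H.inv_mem hx
        · show φ z ∈ H
          rw [hφy]
          exact H.inv_mem hy
      exact fun z hz => h1 hz
    have hφ2 : ∀ z ∈ H, φ (φ z) = z := fun z _ => by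
      rw [hφ, hφ]
      calc j * (j * z * j⁻¹) * j⁻¹ = j * j * z * (j * j)⁻¹ := by group
        _ = z := by rw [hjj, mul_inv_cancel_right]
    have hx1 : x ≠ 1 := fun h1 => h0 (by
      rw [hJ, h1, Units.val_one, one_mul, mul_one, X_add_self, det_zero])
    have hφf : ∀ z ∈ H, φ z = z → z = 1 := by
      intro z hz hzf
      rw [hφ, mul_inv_eq_iff_eq_mul] at hzf
      have h1 : J * (z : Matrix (Fin 2) (Fin 2) F) = z * J := by
        rw [← hj, ← Units.val_mul, hzf, Units.val_mul]
      obtain ⟨hzd, r, hr, hzr⟩ := hd z hz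
      by_cases ht : trace (z : Matrix (Fin 2) (Fin 2) F) = 0
      · exact one_of_sq (Units.ext (by
          rw [Units.val_mul, Units.val_one]
          exact sq_one hzd ht)) hr hzr
      · exfalso
        have h7 := pol (z : Matrix (Fin 2) (Fin 2) F) J
        rw [← h1, X_add_self, hJt, zero_smul, add_zero, mul_zero, add_zero] at h7
        obtain ⟨s, hs⟩ : ∃ s : F, J = s • (1 : Matrix (Fin 2) (Fin 2) F) := by
          refine ⟨-((trace (z : Matrix (Fin 2) (Fin 2) F))⁻¹ *
            trace (J * (z : Matrix (Fin 2) (Fin 2) F))), ?_⟩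
          have e := congrArg (fun Z => (trace (z : Matrix (Fin 2) (Fin 2) F))⁻¹ • Z) h7
          simp only [smul_zero, smul_add, smul_smul, inv_mul_cancel₀ ht, one_smul] at e
          rw [neg_smul]
          exact eq_neg_of_add_eq_zero_left e.symm
        have hs0 : s ≠ 0 := fun h => h0 (by rw [hs, h, zero_smul, det_zero])
        have h2 : (x : Matrix (Fin 2) (Fin 2) F) * x = 1 := by
          have e := congrArg (fun Z : (Matrix (Fin 2) (Fin 2) F)ˣ =>
            (Z : Matrix (Fin 2) (Fin 2) F)) hxj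
          simp only [Units.val_mul, hj, hs] at e
          rw [mul_smul_comm, mul_one, smul_mul_assoc] at e
          exact smul_right_injective _ hs0 e
        obtain ⟨-, r', hr', hxr⟩ := hd x hx
        exact hx1 (one_of_sq (Units.ext (by
          rw [Units.val_mul, Units.val_one]
          exact h2)) hr' hxr)
    have key := inv_aut H φ hφH hφ2 hφf
    have h1 := key _ (H.mul_mem hx hy)
    rw [map_mul, hφx, hφy, _root_.mul_inv_rev] at h1
    have h2 : x * y = y * x := by
      have h3 := congrArg (fun z => z⁻¹) h1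
      simp only [_root_.mul_inv_rev, inv_inv] at h3
      exact h3.symm
    apply h0
    have h4 : (x : Matrix (Fin 2) (Fin 2) F) * y = y * x := by
      rw [← Units.val_mul, h2, Units.val_mul]
    rw [hJ, h4, X_add_self, det_zero]

end Pool.Agent.Work.MP_787500_nt.KI
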