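import Mathlib
import Pool.Agent.Work.MP_787500_nt.KI.Dick
import Pool.Agent.Work.MP_787500_nt.KI.CondL
import Pool.Agent.Work.MP_787500_nt.KI.Odd2

/-!
# The space fixed by inertia, commutative image or dimension 2

`fix_par`: let `τ'` be an element of inertia that generates the 2-part. If inertia acts by commuting matrices, the
space fixed by `τ'` and the space fixed by inertia have dimensions of the same parity. If the dimension is 2 and
inertia does not act by commuting matrices, they have dimensions 1 and 0.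
`tau_par`: the same with the Dickson number of inertia.
-/

set_option autoImplicit false
set_option linter.unusedSectionVars false

namespace Pool.Agent.Work.MP_787500_nt.KI

open Matrix NumberField
open Pool.Agent.Work.MP_787500_nt.KR (FSys Sm1 Smooth IsChar)
open Pool.Agent.Work.MP_787500_nt.KT hiding Str Rel Sel KH Ai IsP cc ff TT
open Pool.Agent.Work.MP_787500_nt.KS (pad_mod zmod2_cases)
open Pool.Agent.Work.MP_787500_nt.QL (TameF)

section grp

/-- a power of `x` of 2-power order and a power of odd order with product `x` -/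
theorem split_pow {M : Type*} [Monoid M] {x : M} {k : ℕ} (hk : k ≠ 0) (hx : x ^ k = 1) :
    ∃ u v e m : ℕ, Odd m ∧ (x ^ u) ^ 2 ^ e = 1 ∧ (x ^ v) ^ m = 1 ∧ x ^ u * x ^ v = x := by
  obtain ⟨e, m, hm, rfl⟩ := Nat.exists_eq_two_pow_mul_odd hk
  have hco : Nat.Coprime (2 ^ e) m := Nat.Coprime.pow_left e (Nat.coprime_two_left.2 hm)
  obtain ⟨u, hu1, hu2⟩ := Nat.chineseRemainder hco 1 0
  obtain ⟨v, hv1, hv2⟩ := Nat.chineseRemainder hco 0 1
  have hu : m ∣ u := (Nat.modEq_zero_iff_dvd).1 hu2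
  have hv : 2 ^ e ∣ v := (Nat.modEq_zero_iff_dvd).1 hv1
  refine ⟨u, v, e, m, hm, ?_, ?_, ?_⟩
  · obtain ⟨w, rfl⟩ := hu
    rw [← pow_mul, show m * w * 2 ^ e = 2 ^ e * m * w by ring, pow_mul, hx, one_pow]
  · obtain ⟨w, rfl⟩ := hv
    rw [← pow_mul, show 2 ^ e * w * m = 2 ^ e * m * w by ring, pow_mul, hx, one_pow]
  · have h1 : u + v ≡ 1 [MOD 2 ^ e * m] :=
      (Nat.modEq_and_modEq_iff_modEq_mul hco).1 ⟨hu1.add hv1, hu2.add hv2⟩
    rw [← pow_add, pow_eq_pow_mod _ hx, show (u + v) % (2 ^ e * m) = 1 % (2 ^ e * m) from h1,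
      ← pow_eq_pow_mod _ hx, pow_one]

end grp

variable {D : Type*} [Group D] {S : FSys D} {χ a : D → ℤ_[2]} {σ τ : D} {l : ℕ} {I : Subgroup D}

/-- the powers of an element of inertia -/
theorem pow_I (h : TameF S χ a σ τ l I) {t : D} (ht : t ∈ I) (j : ℕ) : a (t ^ j) = j * a t := by
  induction j with
  | zero => rw [pow_zero, h.pr.a_one, Nat.cast_zero, zero_mul]
  | succ j ih =>
    rw [pow_succ, h.coc, ih, h.Iχ _ (I.pow_mem ht j)]
    push_cast
    ring

/-- the elements of `P` have odd order modulo `W` -/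
theorem P_pow (h : TameF S χ a σ τ l I) {W : Subgroup D} (hW : S.mem W) {p : D} (hp : p ∈ h.P) :
    ∃ r : ℕ, Odd r ∧ p ^ r ∈ W := by
  have hPn := h.P_normal
  have hWn := S.normal hW
  refine ⟨_, h.odd_quot hW, ?_⟩
  have h1 : ((⟨p, hp⟩ : h.P) : h.P ⧸ W.subgroupOf h.P) ^
      Nat.card (h.P ⧸ W.subgroupOf h.P) = 1 := pow_card_eq_one'
  rw [← QuotientGroup.mk_pow, QuotientGroup.eq_one_iff, Subgroup.mem_subgroupOf] at h1
  exact h1

/-- THE DECOMPOSITION of an element of inertia -/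
theorem dec_I (h : TameF S χ a σ τ l I) {t : D} (ht : t ∈ I) (hodd : PadicInt.toZMod (a t) = 1)
    {W : Subgroup D} (hW : S.mem W) {g : D} (hg : g ∈ I) :
    ∃ (j : ℕ) (p : D), p ∈ h.P ∧ p⁻¹ * ((t ^ j)⁻¹ * g) ∈ W ∧
      PadicInt.toZMod (a g) = (j : ZMod 2) := by
  obtain ⟨N, hN⟩ := h.sep W hW
  have hu : IsUnit (a t) := LB.unit_of_odd ((pad_mod _).1 (by rw [map_sub, hodd, map_one, sub_self]))
  obtain ⟨v, hv⟩ := hu.exists_right_inv
  obtain ⟨j, hj⟩ := GP.g1_nat (v * a g) (N + 1)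
  have hgI : (t ^ j)⁻¹ * g ∈ I := I.mul_mem (I.inv_mem (I.pow_mem ht j)) hg
  have e2 : a ((t ^ j)⁻¹ * g) = a t * (v * a g - j) := by
    have e := congrArg a (mul_inv_cancel_left (t ^ j) g)
    rw [h.coc, h.Iχ _ (I.pow_mem ht j), pow_I h ht, one_mul] at e
    linear_combination e - a g * hv
  obtain ⟨p, hp1, hp2, hp3⟩ := hN ((t ^ j)⁻¹ * g) (by
    rw [h.Iχ _ hgI, sub_self]
    exact dvd_zero _) (by
    rw [e2]
    exact ((pow_dvd_pow _ (Nat.le_succ N)).trans hj).mul_left _)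
  refine ⟨j, p, ⟨hp1, hp2⟩, hp3, ?_⟩
  have e3 : a t * (v * a g - j) = a g - a t * j := by linear_combination a g * hv
  have h7 : (2 : ℤ_[2]) ∣ a g - a t * j := by
    rw [← e3]
    exact ((dvd_pow_self _ (Nat.succ_ne_zero N)).trans hj).mul_left _
  rw [← pad_mod, map_sub, map_mul, map_natCast, hodd, one_mul, sub_eq_zero] at h7
  exact h7

variable {F : Type*} [Field F] [Finite F] [CharP F 2] [Algebra (ZMod 2) F] {n : ℕ}
  {A : D →* Matrix (Fin n) (Fin n) F}

/-- two elements in the same coset of a kernel -/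
theorem map_coset {W : Subgroup D} (hAW : ∀ w ∈ W, A w = 1) {x y : D} (h : x⁻¹ * y ∈ W) :
    A y = A x := by
  have h1 := hAW _ h
  calc A y = A (x * (x⁻¹ * y)) := by rw [mul_inv_cancel_left]
    _ = A x := by rw [map_mul, h1, mul_one]

/-- the order of the image of an element -/
theorem exists_order {W : Subgroup D} (hWn : W.Normal) (hWi : W.index ≠ 0)
    (hAW : ∀ w ∈ W, A w = 1) (t : D) : ∃ k, k ≠ 0 ∧ A t ^ k = 1 :=
  ⟨W.index, hWi, by
    rw [← map_pow]
    exact hAW _ (Subgroup.pow_index_mem W t)⟩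

/-- if the image of `t` has odd order, the images of the elements of inertia have odd order -/
theorem odd_I (h : TameF S χ a σ τ l I) {t : D} (ht : t ∈ I) (hodd : PadicInt.toZMod (a t) = 1)
    {W : Subgroup D} (hW : S.mem W) (hAW : ∀ w ∈ W, A w = 1) {m : ℕ} (hm : Odd m)
    (htm : A t ^ m = 1) {g : D} (hg : g ∈ I) : ∃ r, Odd r ∧ A g ^ r = 1 := by
  obtain ⟨j, p, hp, h1, -⟩ := dec_I h ht hodd hW hg
  have hPn := h.P_normal
  have h2 : A g = A (t ^ j * p) := map_coset hAW (by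
    rw [_root_.mul_inv_rev, mul_assoc]
    exact h1)
  -- modulo `P`
  have h3 : ((t ^ j) ^ m)⁻¹ * (t ^ j * p) ^ m ∈ h.P := by
    have e : ((t ^ j : D) : D ⧸ h.P) = ((t ^ j * p : D) : D ⧸ h.P) := by
      rw [QuotientGroup.eq, inv_mul_cancel_left]
      exact hp
    have e2 : ((((t ^ j) ^ m : D)) : D ⧸ h.P) = (((t ^ j * p) ^ m : D) : D ⧸ h.P) := by
      show ((t ^ j : D) : D ⧸ h.P) ^ m = ((t ^ j * p : D) : D ⧸ h.P) ^ m
      rw [e]
    exact QuotientGroup.eq.1 e2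
  obtain ⟨r, hr, h4⟩ := P_pow h hW h3
  refine ⟨m * r, hm.mul hr, ?_⟩
  have h5 : A ((t ^ j) ^ m) = 1 := by
    rw [← pow_mul, mul_comm, pow_mul, map_pow, map_pow, htm, one_pow]
  have h6 : A ((t ^ j * p) ^ m) = A (((t ^ j) ^ m)⁻¹ * (t ^ j * p) ^ m) := by
    have e := congrArg A (mul_inv_cancel_left ((t ^ j) ^ m) ((t ^ j * p) ^ m))
    rw [map_mul, h5, one_mul] at e
    exact e.symm
  rw [h2, pow_mul, ← map_pow, h6, ← map_pow]
  exact hAW _ h4

section sp

variable [Sy F n]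

/-- COMMUTING MATRICES. -/
theorem fix_comm (h : TameF S χ a σ τ l I)
    (hs : Smooth S (KT.act (A : D → Matrix (Fin n) (Fin n) F))) (hA : ∀ g, IsSp (A g))
    (hc : ∀ g ∈ I, ∀ k ∈ I, A g * A k = A k * A g) {t : D} (ht : t ∈ I)
    (hodd : PadicInt.toZMod (a t) = 1) :
    Even (Module.finrank F (fixv (A t)) + Module.finrank F (fixS A I)) := by
  classical
  obtain ⟨W, hW, -, hAW⟩ : ∃ W, S.mem W ∧ True ∧ ∀ w ∈ W, A w = 1 := by
    obtain ⟨V, hV, h3⟩ := smooth_A hs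
    exact ⟨V, hV, trivial, fun w hw => h3 w hw⟩
  obtain ⟨k, hk, htk⟩ := exists_order (S.normal hW) (S.index hW) hAW t
  obtain ⟨u, v, e, m, hm, h1, h2, h3⟩ := split_pow hk htk
  obtain ⟨B, hB⟩ : ∃ B : Set (Matrix (Fin n) (Fin n) F), ∀ g, g ∈ B ↔ ∃ d ∈ I, A d = g :=
    ⟨{g | ∃ d ∈ I, A d = g}, fun g => Iff.rfl⟩
  have hBsp : ∀ g ∈ B, IsSp g := by
    intro g hg
    obtain ⟨d, -, rfl⟩ := (hB g).1 hg
    exact hA d
  have hBc : ∀ g ∈ B, ∀ k ∈ B, g * k = k * g := by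
    intro g hg k hk
    obtain ⟨d, hd, rfl⟩ := (hB g).1 hg
    obtain ⟨d', hd', rfl⟩ := (hB k).1 hk
    exact hc d hd d' hd'
  have hsB : A t ^ u ∈ B := (hB _).2 ⟨t ^ u, I.pow_mem ht u, map_pow A t u⟩
  have hoB : A t ^ v ∈ B := (hB _).2 ⟨t ^ v, I.pow_mem ht v, map_pow A t v⟩
  have hfp : ∀ (x : Fin n → F) (j : ℕ), A t *ᵥ x = x → (A t ^ j) *ᵥ x = x := by
    intro x j hx
    induction j with
    | zero => rw [pow_zero, one_mulVec]
    | succ j ih => rw [pow_succ, ← mulVec_mulVec, hx, ih]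
  have k1 := par_comm hBsp hBc hsB h1 (L := {A t ^ v}) (Set.finite_singleton _)
    (by rintro x rfl; exact hoB) (by rintro x rfl; exact ⟨m, hm, h2⟩) (W := fixv (A t)) (by
      intro x
      constructor
      · intro hx
        exact ⟨hfp x u hx, by rintro o rfl; exact hfp x v hx⟩
      · rintro ⟨hx1, hx2⟩
        show A t *ᵥ x = x
        rw [← h3, ← mulVec_mulVec, hx2 _ rfl, hx1])
  obtain ⟨L, hL⟩ : ∃ L : Set (Matrix (Fin n) (Fin n) F), ∀ g, g ∈ L ↔ g ∈ B ∧ ∃ m, Odd m ∧ g ^ m = 1 :=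
    ⟨{g | g ∈ B ∧ ∃ m, Odd m ∧ g ^ m = 1}, fun g => Iff.rfl⟩
  have k2 := par_comm hBsp hBc hsB h1 (L := L) (Set.toFinite L) (fun x hx => ((hL x).1 hx).1)
    (fun x hx => ((hL x).1 hx).2) (W := fixS A I) (by
      intro x
      constructor
      · intro hx
        refine ⟨hfp x u (hx t ht), fun o ho => ?_⟩
        obtain ⟨d, hd, rfl⟩ := (hB o).1 ((hL o).1 ho).1
        exact hx d hd
      · rintro ⟨hx1, hx2⟩ d hd
        have ht1 : A t *ᵥ x = x := by
          rw [← h3, ← mulVec_mulVec, hx2 _ ((hL _).2 ⟨hoB, m, hm, h2⟩), hx1]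
        obtain ⟨j, p, hp, h4, -⟩ := dec_I h ht hodd hW hd
        have hdI : (t ^ j)⁻¹ * d ∈ I := I.mul_mem (I.inv_mem (I.pow_mem ht j)) hd
        have h5 : A ((t ^ j)⁻¹ * d) = A p := map_coset hAW h4
        obtain ⟨r, hr, h6⟩ := P_pow h hW hp
        have h7 : A p *ᵥ x = x := hx2 _ ((hL _).2 ⟨(hB _).2 ⟨_, hdI, h5⟩, r, hr, by
          rw [← map_pow]
          exact hAW _ h6⟩)
        have h8 : A d = A t ^ j * A p := by
          rw [← h5, ← map_pow, ← map_mul, mul_inv_cancel_left]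
        rw [h8, ← mulVec_mulVec, h7, hfp x j ht1])
  obtain ⟨x, hx⟩ := k1
  obtain ⟨y, hy⟩ := k2
  rw [Nat.even_iff]
  omega

/-- the square of a symplectic matrix fixes a space of even dimension -/
theorem even_sq {g g' : Matrix (Fin n) (Fin n) F} (hg : IsSp g) (h : g * g' = 1) :
    Even (Module.finrank F (fixv (g * g))) := by
  have h' : g' * g = 1 := mul_eq_one_comm.1 h
  have h1 : fixv (g * g) = kerM (g + g') := by
    ext x
    rw [mem_kerM, add_mulVec]
    constructor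
    · intro hx
      have hx1 : (g * g) *ᵥ x = x := hx
      have h2 : g *ᵥ x = g' *ᵥ x := by
        conv_rhs => rw [← hx1]
        rw [mulVec_mulVec, ← mul_assoc, h', one_mul]
      rw [h2, U_add_self]
    · intro hx
      have h2 : g *ᵥ x = g' *ᵥ x := by
        calc g *ᵥ x = g *ᵥ x + (g' *ᵥ x + g' *ᵥ x) := by rw [U_add_self, add_zero]
          _ = g' *ᵥ x := by rw [← add_assoc, hx, zero_add]
      show (g * g) *ᵥ x = x
      rw [← mulVec_mulVec, h2, mulVec_mulVec, h, one_mulVec]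
  rw [h1]
  exact (al_inv hg h).even

/-- the elements of inertia at which the cocycle is even -/
theorem tau_even (h : TameF S χ a σ τ l I)
    (hs : Smooth S (KT.act (A : D → Matrix (Fin n) (Fin n) F))) (hA : ∀ g, IsSp (A g))
    (hc : ∀ g ∈ I, ∀ k ∈ I, A g * A k = A k * A g) {d : D} (hd : d ∈ I)
    (h0 : PadicInt.toZMod (a d) = 0) : Even (Module.finrank F (fixv (A d))) := by
  classical
  obtain ⟨W, hW, -, hAW⟩ : ∃ W, S.mem W ∧ True ∧ ∀ w ∈ W, A w = 1 := by
    obtain ⟨V, hV, h3⟩ := smooth_A hs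
    exact ⟨V, hV, trivial, fun w hw => h3 w hw⟩
  obtain ⟨k, hk, htk⟩ := exists_order (S.normal hW) (S.index hW) hAW d
  obtain ⟨u, v, e, m, hm, h1, h2, h3⟩ := split_pow hk htk
  obtain ⟨B, hB⟩ : ∃ B : Set (Matrix (Fin n) (Fin n) F), ∀ g, g ∈ B ↔ ∃ d ∈ I, A d = g :=
    ⟨{g | ∃ d ∈ I, A d = g}, fun g => Iff.rfl⟩
  have hBsp : ∀ g ∈ B, IsSp g := by
    intro g hg
    obtain ⟨d, -, rfl⟩ := (hB g).1 hg
    exact hA d
  have hBc : ∀ g ∈ B, ∀ k ∈ B, g * k = k * g := by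
    intro g hg k hk
    obtain ⟨d, hd, rfl⟩ := (hB g).1 hg
    obtain ⟨d', hd', rfl⟩ := (hB k).1 hk
    exact hc d hd d' hd'
  have hsB : A d ^ u ∈ B := (hB _).2 ⟨d ^ u, I.pow_mem hd u, map_pow A d u⟩
  have hoB : A d ^ v ∈ B := (hB _).2 ⟨d ^ v, I.pow_mem hd v, map_pow A d v⟩
  have hfp : ∀ (x : Fin n → F) (j : ℕ), A d *ᵥ x = x → (A d ^ j) *ᵥ x = x := by
    intro x j hx
    induction j with
    | zero => rw [pow_zero, one_mulVec]
    | succ j ih => rw [pow_succ, ← mulVec_mulVec, hx, ih]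
  have k1 := par_comm hBsp hBc hsB h1 (L := {A d ^ v}) (Set.finite_singleton _)
    (by rintro x rfl; exact hoB) (by rintro x rfl; exact ⟨m, hm, h2⟩) (W := fixv (A d)) (by
      intro x
      constructor
      · intro hx
        exact ⟨hfp x u hx, by rintro o rfl; exact hfp x v hx⟩
      · rintro ⟨hx1, hx2⟩
        show A d *ᵥ x = x
        rw [← h3, ← mulVec_mulVec, hx2 _ rfl, hx1])
  -- the 2-part is a square
  have hdu : d ^ u ∈ I := I.pow_mem hd u
  obtain ⟨j, p, hp, h4, h5⟩ := dec_I h h.τI (by rw [h.τa, map_one]) hW hdu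
  rw [pow_I h hd, map_mul, h0, mul_zero] at h5
  obtain ⟨i, rfl⟩ : ∃ i, j = 2 * i := ((ZMod.natCast_eq_zero_iff_even).1 h5.symm).exists_two_nsmul.imp
    fun i hi => by rw [hi, smul_eq_mul]
  obtain ⟨r, hr, h6⟩ := P_pow h hW hp
  have hτI : τ ^ (2 * i) ∈ I := I.pow_mem h.τI _
  have hdI : (τ ^ (2 * i))⁻¹ * d ^ u ∈ I := I.mul_mem (I.inv_mem hτI) hdu
  have h7 : A ((τ ^ (2 * i))⁻¹ * d ^ u) = A p := map_coset hAW h4
  have h8 : A (d ^ u) = A (τ ^ (2 * i)) * A p := by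
    rw [← h7, ← map_mul, mul_inv_cancel_left]
  have h9 : A (d ^ u) ^ r = A (τ ^ (2 * i)) ^ r := by
    have hcm : Commute (A (τ ^ (2 * i))) (A p) := by
      rw [← h7]
      exact hc _ hτI _ hdI
    rw [h8, hcm.mul_pow, ← map_pow A p r, hAW _ h6, mul_one]
  obtain ⟨q, hq⟩ : ∃ q, (A (d ^ u) ^ r) ^ q = A (d ^ u) := by
    have hco : Nat.Coprime r (2 ^ e) := (Nat.Coprime.pow_left e (Nat.coprime_two_left.2 hr)).symm
    obtain ⟨q, hq1, hq2⟩ := Nat.chineseRemainder hco 0 1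
    obtain ⟨q', rfl⟩ := (Nat.modEq_zero_iff_dvd).1 hq1
    have hx : A (d ^ u) ^ 2 ^ e = 1 := by
      rw [map_pow]
      exact h1
    refine ⟨q', ?_⟩
    rw [← pow_mul, pow_eq_pow_mod _ hx, show (r * q') % 2 ^ e = 1 % 2 ^ e from hq2,
      ← pow_eq_pow_mod _ hx, pow_one]
  have h10 : A d ^ u = A (τ ^ (i * r * q)) * A (τ ^ (i * r * q)) := by
    rw [← map_pow A d u, ← hq, h9, ← pow_mul, ← map_pow, ← map_mul, ← pow_mul, ← pow_add]
    congr 2
    ring
  have h11 : A (τ ^ (i * r * q)) * A (τ ^ (i * r * q))⁻¹ = 1 := by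
    rw [← map_mul, mul_inv_cancel, map_one]
  have h12 := even_sq (hA (τ ^ (i * r * q))) h11
  rw [← h10] at h12
  obtain ⟨x, hx⟩ := k1
  obtain ⟨y, hy⟩ := h12
  rw [Nat.even_iff]
  omega

end sp

section two

variable {A : D →* Matrix (Fin 2) (Fin 2) F} [Sy F 2]

/-- the determinant of a symplectic matrix -/
theorem det_sp {g : Matrix (Fin 2) (Fin 2) F} (hg : IsSp g) : det g = 1 := by
  have hb : ∀ x : Fin 2 → F, x = x 0 • Pi.single 0 1 + x 1 • Pi.single 1 1 := by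
    intro x
    funext i
    fin_cases i <;> simp
  obtain ⟨w, hw⟩ : ∃ w : F, w = ee (Pi.single (0 : Fin 2) (1 : F)) (Pi.single (1 : Fin 2) (1 : F)) :=
    ⟨_, rfl⟩
  have hform : ∀ x y : Fin 2 → F, ee x y = (x 0 * y 1 - x 1 * y 0) * w := by
    intro x y
    have h10 : ee (Pi.single (1 : Fin 2) (1 : F)) (Pi.single (0 : Fin 2) (1 : F)) = w := by
      rw [ee_comm, hw]
    rw [hb x, hb y]
    simp only [ee_add_left, ee_add_right, ee_smul_left, ee_smul_right, ee_self, ← hw, h10]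
    simp
    linear_combination (x 1 * y 0 * w) * (two_zero : (2 : F) = 0)
  have hw0 : w ≠ 0 := by
    intro h0
    have h1 : (Pi.single (0 : Fin 2) (1 : F) : Fin 2 → F) = 0 := ee_nondeg fun y => by
      rw [hform, h0, mul_zero]
    have h2 := congrFun h1 0
    simp at h2
  have h1 := hg (Pi.single 0 1) (Pi.single 1 1)
  rw [hform, hform] at h1
  have h2 := mul_right_cancel₀ hw0 h1
  simp [Matrix.mulVec, dotProduct, Fin.sum_univ_two] at h2
  rw [Matrix.det_fin_two]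
  linear_combination h2

/-- DIMENSION 2. -/
theorem fix_two (h : TameF S χ a σ τ l I)
    (hs : Smooth S (KT.act (A : D → Matrix (Fin 2) (Fin 2) F))) (hA : ∀ g, IsSp (A g))
    (hc : ¬ ∀ g ∈ I, ∀ k ∈ I, A g * A k = A k * A g) {t : D} (ht : t ∈ I)
    (hodd : PadicInt.toZMod (a t) = 1) :
    Module.finrank F (fixv (A t)) = 1 ∧ Module.finrank F (fixS A I) = 0 := by
  classical
  obtain ⟨W, hW, -, hAW⟩ : ∃ W, S.mem W ∧ True ∧ ∀ w ∈ W, A w = 1 := by
    obtain ⟨V, hV, h3⟩ := smooth_A hs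
    exact ⟨V, hV, trivial, fun w hw => h3 w hw⟩
  have hd : ∀ g, det (A g) = 1 := fun g => det_sp (hA g)
  constructor
  · -- the order of the image of `t` is even
    have key : ∀ m, Odd m → A t ^ m = 1 → False := by
      intro m hm htm
      apply hc
      intro g hg k hk
      obtain ⟨x, hx⟩ : ∃ x, x = A.toHomUnits g := ⟨_, rfl⟩
      obtain ⟨y, hy⟩ : ∃ y, y = A.toHomUnits k := ⟨_, rfl⟩
      have h1 : x * y = y * x := by
        refine odd_comm fun z hz => ?_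
        have h2 : Subgroup.closure {x, y} ≤ I.map A.toHomUnits := by
          rw [Subgroup.closure_le]
          rintro z (rfl | rfl)
          · exact ⟨g, hg, hx.symm⟩
          · exact ⟨k, hk, hy.symm⟩
        obtain ⟨d, hd1, rfl⟩ := h2 hz
        obtain ⟨r, hr, h3⟩ := odd_I h ht hodd hW hAW hm htm hd1
        refine ⟨hd d, r, hr, Units.ext ?_⟩
        rw [Units.val_pow_eq_pow_val, Units.val_one]
        exact h3
      have h2 := congrArg (fun z : (Matrix (Fin 2) (Fin 2) F)ˣ => (z : Matrix (Fin 2) (Fin 2) F)) h1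
      rw [hx, hy] at h2
      exact h2
    have hle : Module.finrank F (fixv (A t)) ≤ 2 := by
      have := Submodule.finrank_le (fixv (A t))
      rwa [Module.finrank_fin_fun] at this
    have h0 : Module.finrank F (fixv (A t)) ≠ 0 := by
      intro h0
      have h1 : fixv (A t) = ⊥ := Submodule.finrank_eq_zero.1 h0
      obtain ⟨k, hk, htk⟩ := exists_order (S.normal hW) (S.index hW) hAW t
      obtain ⟨e, m, hm, rfl⟩ := Nat.exists_eq_two_pow_mul_odd hk
      refine key m hm (odd_of_fix (hd t) (fun w hw => ?_) htk)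
      have h2 : w ∈ fixv (A t) := hw
      rwa [h1, Submodule.mem_bot] at h2
    have h2 : Module.finrank F (fixv (A t)) ≠ 2 := by
      intro h2
      have h1 : fixv (A t) = ⊤ := Submodule.eq_top_of_finrank_eq (by rw [h2, Module.finrank_fin_fun])
      refine key 1 odd_one ?_
      rw [pow_one]
      refine Matrix.toLin'.injective (LinearMap.ext fun w => ?_)
      rw [Matrix.toLin'_apply, Matrix.toLin'_apply, one_mulVec]
      have h3 : w ∈ fixv (A t) := h1 ▸ Submodule.mem_top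
      exact h3
    omega
  · rw [Submodule.finrank_eq_zero, Submodule.eq_bot_iff]
    intro w hw
    by_contra h0
    exact hc fun g hg k hk => comm_of_fix (hd g) (hd k) h0 (hw g hg) (hw k hk)

end two

variable [Sy F n]

open scoped Classical in
/-- THE PARITY. -/
theorem fix_par (h : TameF S χ a σ τ l I)
    (hs : Smooth S (KT.act (A : D → Matrix (Fin n) (Fin n) F))) (hA : ∀ g, IsSp (A g))
    (hc : (∀ g ∈ I, ∀ k ∈ I, A g * A k = A k * A g) ∨ n = 2) {t : D} (ht : t ∈ I)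
    (hodd : PadicInt.toZMod (a t) = 1) :
    Even (Module.finrank F (fixv (A t)) + Module.finrank F (fixS A I) +
      if ∀ g ∈ I, ∀ k ∈ I, A g * A k = A k * A g then 0 else 1) := by
  by_cases h1 : ∀ g ∈ I, ∀ k ∈ I, A g * A k = A k * A g
  · rw [if_pos h1, add_zero]
    exact fix_comm h hs hA h1 ht hodd
  · rw [if_neg h1]
    rcases hc with hc | hc
    · exact absurd hc h1
    · subst hc
      obtain ⟨h2, h3⟩ := fix_two h hs hA h1 ht hodd
      rw [h2, h3]
      exact ⟨1, rfl⟩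

open scoped Classical in
/-- THE PARITY with the Dickson number. -/
theorem tau_par (h : TameF S χ a σ τ l I)
    (hs : Smooth S (KT.act (A : D → Matrix (Fin n) (Fin n) F))) (hA : ∀ g, IsSp (A g))
    (hc : (∀ g ∈ I, ∀ k ∈ I, A g * A k = A k * A g) ∨ n = 2) :
    Even ((if ∃ d ∈ I, tauZ (A d) ≠ 0 then 1 else 0) + Module.finrank F (fixS A I) +
      if ∀ g ∈ I, ∀ k ∈ I, A g * A k = A k * A g then 0 else 1) := by
  have hτ : PadicInt.toZMod (a τ) = 1 := by rw [h.τa, map_one]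
  by_cases h1 : ∀ g ∈ I, ∀ k ∈ I, A g * A k = A k * A g
  · rw [if_pos h1, add_zero]
    refine ev_of_iff ⟨?_, fun h0 => ⟨τ, h.τI, fun h2 => h0 ?_⟩⟩
    · rintro ⟨d, hd, h0⟩ h2
      rcases zmod2_cases (PadicInt.toZMod (a d)) with h3 | h3
      · exact h0 ((ZMod.natCast_eq_zero_iff_even).2 (tau_even h hs hA h1 hd h3))
      · have h4 := (ZMod.natCast_eq_zero_iff_even (n := _)).2 (fix_comm h hs hA h1 hd h3)
        rw [Nat.cast_add, h2, add_zero] at h4
        exact h0 h4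
    · have h4 := (ZMod.natCast_eq_zero_iff_even (n := _)).2 (fix_comm h hs hA h1 h.τI hτ)
      have h5 : (Module.finrank F (fixv (A τ)) : ZMod 2) = 0 := h2
      rw [Nat.cast_add, h5, zero_add] at h4
      exact h4
  · rw [if_neg h1]
    rcases hc with hc | hc
    · exact absurd hc h1
    · subst hc
      obtain ⟨h2, h3⟩ := fix_two h hs hA h1 h.τI hτ
      have h4 : ∃ d ∈ I, tauZ (A d) ≠ 0 := ⟨τ, h.τI, by
        show (Module.finrank F (fixv (A τ)) : ZMod 2) ≠ 0
        rw [h2, Nat.cast_one]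
        exact one_ne_zero⟩
      rw [if_pos h4, h3]
      exact ⟨1, rfl⟩

end Pool.Agent.Work.MP_787500_nt.KI
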