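import Mathlib
import Pool.Agent.Work.MP_787500_nt.KR.LDefs
import Pool.Agent.Work.MP_787500_nt.KI.CondA

/-!
# Inertia acts by commuting matrices on `E ^ n` iff it does so modulo the maximal ideal

`eq_one_of_tr`: a matrix that is trivial on the vectors killed by `l ^ N` modulo `T` for all `N` is 1.
`comm_lift`: if the elements of inertia commute on the vectors killed by `l` modulo `T`, they commute.
-/

set_option autoImplicit false
set_option linter.unusedSectionVars false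

namespace Pool.Agent.Work.MP_787500_nt.KI

open Matrix NumberField
open Pool.Agent.Work.MP_787500_nt.GP (OE Lat MN Wq mq mq_eq mq_eq_zero mq_smul mq_lft actN actQ coe_actN
  actQ_mq mem_OE)
open Pool.Agent.Work.MP_787500_nt.KR (FSys Sm1 Smooth IsChar LocRep)
open Pool.Agent.Work.MP_787500_nt.QL (TameF)

variable {E : Type*} [NormedField E] [NormedAlgebra ℚ_[2] E] {n : ℕ}

/-- trivial on the vectors killed by `l ^ N` modulo `T` -/
def Trv (T : Submodule (OE E) (Fin n → E)) (l : OE E) (N : ℕ) (X : Matrix (Fin n) (Fin n) E) : Prop :=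
  ∀ x : Fin n → E, (l : E) ^ N • x ∈ T → X *ᵥ x - x ∈ T

variable {b : Matrix (Fin n) (Fin n) E} {l : OE E} {t : E →ₗ[ℚ_[2]] ℚ_[2]}
  {T : Submodule (OE E) (Fin n → E)} {X : Matrix (Fin n) (Fin n) E}

theorem smul_T {x : Fin n → E} (hx : x ∈ T) (a : OE E) : (a : E) • x ∈ T := T.smul_mem a hx

theorem pow_st (hst : ∀ x ∈ T, X *ᵥ x ∈ T) (j : ℕ) : ∀ x ∈ T, (X ^ j) *ᵥ x ∈ T := by
  induction j with
  | zero =>
    intro x hx
    rw [pow_zero, one_mulVec]
    exact hx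
  | succ j ih =>
    intro x hx
    rw [pow_succ, ← mulVec_mulVec]
    exact ih _ (hst x hx)

theorem Trv.pow {N : ℕ} (hst : ∀ x ∈ T, X *ᵥ x ∈ T) (h : Trv T l N X) (j : ℕ) :
    Trv T l N (X ^ j) := by
  induction j with
  | zero =>
    intro x _
    rw [pow_zero, one_mulVec, sub_self]
    exact T.zero_mem
  | succ j ih =>
    intro x hx
    have e : (X ^ (j + 1)) *ᵥ x - x = X *ᵥ ((X ^ j) *ᵥ x - x) + (X *ᵥ x - x) := by
      rw [pow_succ', ← mulVec_mulVec, mulVec_sub]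
      abel
    rw [e]
    exact T.add_mem (hst _ (ih x hx)) (h x hx)

theorem Trv.mono {N M : ℕ} (hNM : N ≤ M) (h : Trv T l M X) : Trv T l N X := by
  intro x hx
  refine h x ?_
  obtain ⟨k, rfl⟩ := Nat.exists_eq_add_of_le hNM
  have h1 := smul_T hx (l ^ k)
  rw [SubmonoidClass.coe_pow, smul_smul, ← pow_add, add_comm] at h1
  exact h1

theorem two_smul_T (hl : Lat b l t T) {y : Fin n → E} (hy : (l : E) • y ∈ T) : (2 : E) • y ∈ T := by
  have h2 : ‖(2 : E)‖ < 1 := by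
    have h3 : ‖(2 : E)‖ = ‖(2 : ℚ_[2])‖ := by
      rw [← norm_algebraMap' E (2 : ℚ_[2]), map_ofNat]
    rw [h3]
    have h4 := Padic.norm_p_lt_one (p := 2)
    exact_mod_cast h4
  have h3 : ‖(2 : E) / l‖ ≤ 1 := by
    rw [norm_div]
    exact div_le_one_of_le₀ (hl.lmax _ h2) (norm_nonneg _)
  have h4 := smul_T hy ⟨(2 : E) / l, h3⟩
  rw [smul_smul] at h4
  have h5 : (2 : E) / l * l = 2 := div_mul_cancel₀ _ hl.lne
  rw [show ((⟨(2 : E) / l, h3⟩ : OE E) : E) * l = 2 from h5] at h4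
  exact h4

theorem Trv.sq (hl : Lat b l t T) {N : ℕ} (hN : 1 ≤ N) (h : Trv T l N X) : Trv T l (N + 1) (X * X) := by
  intro x hx
  obtain ⟨y, hy⟩ : ∃ y, y = X *ᵥ x - x := ⟨_, rfl⟩
  have h1 : (l : E) • y ∈ T := by
    have h2 := h ((l : E) • x) (by
      rw [smul_smul, ← pow_succ]
      exact hx)
    rw [mulVec_smul, ← smul_sub, ← hy] at h2
    exact h2
  have h3 : (l : E) ^ N • y ∈ T := by
    obtain ⟨k, rfl⟩ := Nat.exists_eq_add_of_le hN
    have h4 := smul_T h1 (l ^ k)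
    rw [SubmonoidClass.coe_pow, smul_smul, ← pow_succ, add_comm] at h4
    exact h4
  have e : (X * X) *ᵥ x - x = (X *ᵥ y - y) + (2 : E) • y := by
    rw [← mulVec_mulVec, two_smul]
    have e1 : X *ᵥ x = y + x := by rw [hy, sub_add_cancel]
    rw [e1, mulVec_add, e1]
    abel
  rw [e]
  exact T.add_mem (h y h3) (two_smul_T hl h1)

theorem Trv.two_pow (hl : Lat b l t T) (h : Trv T l 1 X) (k : ℕ) : Trv T l (k + 1) (X ^ 2 ^ k) := by
  induction k with
  | zero =>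
    rw [pow_zero, pow_one]
    exact h
  | succ k ih =>
    have e : X ^ 2 ^ (k + 1) = X ^ 2 ^ k * X ^ 2 ^ k := by
      rw [← pow_add]
      congr 1
      ring
    rw [e]
    exact ih.sq hl (by omega)

/-- an odd power and a power by a power of 2 -/
theorem Trv.of_odd (hst : ∀ x ∈ T, X *ᵥ x ∈ T) {N r k : ℕ} (hr : Odd r) (h : Trv T l N (X ^ r))
    (h2 : Trv T l N (X ^ 2 ^ k)) : Trv T l N X := by
  have hco : Nat.Coprime r (2 ^ k) := (Nat.Coprime.pow_left k (Nat.coprime_two_left.2 hr)).symm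
  obtain ⟨q, hq1, hq2⟩ := Nat.chineseRemainder hco 0 1
  obtain ⟨u, hu⟩ := (Nat.modEq_zero_iff_dvd).1 hq1
  rcases Nat.eq_zero_or_pos q with hq | hq
  · -- the power of 2 is 1
    have h3 : 2 ^ k = 1 := by
      rw [hq] at hq2
      have h4 := (Nat.modEq_iff_dvd' (Nat.zero_le 1)).1 hq2
      exact Nat.dvd_one.1 h4
    rw [h3, pow_one] at h2
    exact h2
  · obtain ⟨v, hv⟩ := (Nat.modEq_iff_dvd' hq).1 hq2.symm
    have hq3 : r * u = 1 + 2 ^ k * v := by omega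
    intro x hx
    have h3 := h.pow (pow_st hst r) u x hx
    have h4 := h2.pow (pow_st hst _) v x hx
    rw [← pow_mul, hq3, pow_add, pow_one, pow_mul, ← mulVec_mulVec] at h3
    have h5 := T.sub_mem h3 (hst _ h4)
    have e : X *ᵥ ((X ^ 2 ^ k) ^ v) *ᵥ x - x - X *ᵥ (((X ^ 2 ^ k) ^ v) *ᵥ x - x) = X *ᵥ x - x := by
      rw [mulVec_sub]
      abel
    rw [e] at h5
    exact h5

/-- A MATRIX THAT IS TRIVIAL AT ALL LEVELS is 1. -/
theorem eq_one_of_tr (hl : Lat b l t T) (h : ∀ N, Trv T l N X) : X = 1 := by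
  obtain ⟨R, hR⟩ := hl.bdd
  obtain ⟨r, hr, hrT⟩ := hl.opn
  -- all vectors
  have h1 : ∀ x : Fin n → E, X *ᵥ x - x ∈ T := by
    intro x
    obtain ⟨N, hN⟩ : ∃ N : ℕ, ‖(l : E)‖ ^ N * ‖x‖ < r := by
      have h2 : Filter.Tendsto (fun N : ℕ => ‖(l : E)‖ ^ N * ‖x‖) Filter.atTop (nhds (0 * ‖x‖)) :=
        (tendsto_pow_atTop_nhds_zero_of_lt_one (norm_nonneg _) hl.llt).mul_const _
      rw [zero_mul] at h2
      exact (h2.eventually (gt_mem_nhds hr)).exists
    refine h N x (hrT _ ?_)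
    rw [norm_smul, norm_pow]
    exact hN
  have h2 : ∀ x : Fin n → E, X *ᵥ x - x = 0 := by
    intro x
    by_contra h0
    have h3 : 0 < ‖X *ᵥ x - x‖ := norm_pos_iff.2 h0
    -- scale by a negative power of `l`
    have hl0 : 0 < ‖(l : E)‖ := norm_pos_iff.2 hl.lne
    obtain ⟨N, hN⟩ : ∃ N : ℕ, ‖(l : E)‖ ^ N * (|R| + 1) < ‖X *ᵥ x - x‖ := by
      have h2 : Filter.Tendsto (fun N : ℕ => ‖(l : E)‖ ^ N * (|R| + 1)) Filter.atTop
          (nhds (0 * (|R| + 1))) :=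
        (tendsto_pow_atTop_nhds_zero_of_lt_one (norm_nonneg _) hl.llt).mul_const _
      rw [zero_mul] at h2
      exact (h2.eventually (gt_mem_nhds h3)).exists
    have h4 := hR _ (h1 (((l : E) ^ N)⁻¹ • x))
    rw [mulVec_smul, ← smul_sub, norm_smul, norm_inv, norm_pow] at h4
    have h5 : 0 < ‖(l : E)‖ ^ N := pow_pos hl0 N
    rw [inv_mul_le_iff₀ h5] at h4
    have h6 : R ≤ |R| + 1 := (le_abs_self R).trans (by linarith)
    have h7 : ‖(l : E)‖ ^ N * R ≤ ‖(l : E)‖ ^ N * (|R| + 1) := mul_le_mul_of_nonneg_left h6 h5.le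
    linarith
  refine Matrix.toLin'.injective (LinearMap.ext fun w => ?_)
  rw [Matrix.toLin'_apply, Matrix.toLin'_apply, one_mulVec]
  exact sub_eq_zero.1 (h2 w)

/-- a matrix close to 1 is trivial at the level `N` -/
theorem exists_small (hl : Lat b l t T) (N : ℕ) : ∃ ε : ℝ, 0 < ε ∧
    ∀ X : Matrix (Fin n) (Fin n) E, (∀ x, ‖X *ᵥ x - x‖ ≤ ε * ‖x‖) → Trv T l N X := by
  obtain ⟨R, hR⟩ := hl.bdd
  obtain ⟨r, hr, hrT⟩ := hl.opn
  have hl0 : 0 < ‖(l : E)‖ := norm_pos_iff.2 hl.lne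
  have h5 : 0 < ‖(l : E)‖ ^ N := pow_pos hl0 N
  have hR1 : 0 < |R| + 1 := by positivity
  refine ⟨r * ‖(l : E)‖ ^ N / (2 * (|R| + 1)), by positivity, fun X hX x hx => hrT _ ?_⟩
  have h1 := hR _ hx
  rw [norm_smul, norm_pow] at h1
  have h2 : ‖(l : E)‖ ^ N * ‖x‖ ≤ |R| + 1 := h1.trans ((le_abs_self R).trans (by linarith))
  refine (hX x).trans_lt ?_
  calc r * ‖(l : E)‖ ^ N / (2 * (|R| + 1)) * ‖x‖ = r * (‖(l : E)‖ ^ N * ‖x‖) / (2 * (|R| + 1)) := by
        ring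
    _ ≤ r * (|R| + 1) / (2 * (|R| + 1)) := by gcongr
    _ = r / 2 := by field_simp
    _ < r := by linarith

section act

variable {G : Type*} {ρ : G → Matrix (Fin n) (Fin n) E}

/-- an element that acts trivially on the vectors killed by `l` -/
theorem trv_of_actN {hst : ∀ g, ∀ x ∈ T, ρ g *ᵥ x ∈ T} {g : G}
    (h : ∀ m : MN T l 1, actN l 1 ρ hst g m = m) : Trv T l 1 (ρ g) := by
  intro x hx
  have h1 : mq T x ∈ Submodule.torsionBy (OE E) (Wq T) (l ^ 1) := by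
    rw [Submodule.mem_torsionBy_iff, ← mq_smul, mq_eq_zero]
    simpa using hx
  have h2 := congrArg (fun m : MN T l 1 => (m : Wq T)) (h ⟨mq T x, h1⟩)
  simp only [coe_actN] at h2
  rw [actQ_mq (hst g)] at h2
  exact mq_eq.1 h2

/-- the action depends only on the matrix -/
theorem actN_congr {hst : ∀ g, ∀ x ∈ T, ρ g *ᵥ x ∈ T} {g g' : G} (h : ρ g = ρ g') (m : MN T l 1) :
    actN l 1 ρ hst g m = actN l 1 ρ hst g' m := by
  apply Subtype.ext
  rw [coe_actN, coe_actN, h]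

end act

section main

variable {D : Type*} [Group D] {S : FSys D} {χ a : D → ℤ_[2]} {σ τ : D} {q : ℕ} {I : Subgroup D}
  {F : Type*} [Field F] {m : ℕ} {G Γ : Type*} [Group G] [Group Γ] {e : G →* Γ} {jp : D →* Γ}
  {ρ : G →* Matrix (Fin n) (Fin n) E} {A : Γ →* Matrix (Fin m) (Fin m) F}

/-- COMMUTING MATRICES modulo the maximal ideal and over `E`. -/
theorem comm_lift (h : TameF S χ a σ τ q I) (hl : Lat b l t T)
    (hI : ∀ i ∈ I, ∃ g, e g = jp i) {hst : ∀ g, ∀ x ∈ T, ρ g *ᵥ x ∈ T}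
    (hsm : ∀ N, ∃ W, S.mem W ∧ ∀ w ∈ W, ∀ g, e g = jp w → Trv T l N (ρ g))
    {L : MN T l 1 ≃+ (Fin m → F)}
    (ae : ∀ g x, A (e g) *ᵥ L x = L (actN l 1 (fun g => ρ g) hst g x)) :
    (∀ i ∈ I, ∀ k ∈ I, A (jp i) * A (jp k) = A (jp k) * A (jp i)) ↔
      ∀ g g', (∃ i ∈ I, e g = jp i) → (∃ i ∈ I, e g' = jp i) → ρ g * ρ g' = ρ g' * ρ g := by
  constructor
  · rintro hc g g' ⟨i, hi, hgi⟩ ⟨k, hk, hgk⟩
    obtain ⟨c, hcg⟩ : ∃ c, c = g * g' * g⁻¹ * g'⁻¹ := ⟨_, rfl⟩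
    obtain ⟨d, hd⟩ : ∃ d, d = i * k * i⁻¹ * k⁻¹ := ⟨_, rfl⟩
    have hcd : e c = jp d := by
      rw [hcg, hd, map_mul, map_mul, map_mul, map_mul, map_mul, map_mul, map_inv, map_inv, map_inv,
        map_inv, hgi, hgk]
    have hA : A (e c) = 1 := by
      have h1 : A (jp i) * A (jp i)⁻¹ = 1 := by rw [← map_mul, mul_inv_cancel, map_one]
      have h2 : A (jp k) * A (jp k)⁻¹ = 1 := by rw [← map_mul, mul_inv_cancel, map_one]
      have h3 : jp d = jp i * jp k * (jp i)⁻¹ * (jp k)⁻¹ := by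
        rw [hd, map_mul, map_mul, map_mul, map_inv, map_inv]
      rw [hcd, h3, map_mul, map_mul, map_mul, hc i hi k hk, mul_assoc (A (jp k)), h1, mul_one, h2]
    have hdI : d ∈ I := by
      rw [hd]
      exact I.mul_mem (I.mul_mem (I.mul_mem hi hk) (I.inv_mem hi)) (I.inv_mem hk)
    have hdP : d ∈ h.P := by
      refine ⟨h.Iχ d hdI, ?_⟩
      have a1 := h.coc i i⁻¹
      have a2 := h.coc k k⁻¹
      rw [mul_inv_cancel, h.pr.a_one, h.Iχ i hi, one_mul] at a1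
      rw [mul_inv_cancel, h.pr.a_one, h.Iχ k hk, one_mul] at a2
      rw [hd, h.coc, h.coc, h.coc, h.Iχ i hi, h.Iχ _ (I.mul_mem hi hk),
        h.Iχ _ (I.mul_mem (I.mul_mem hi hk) (I.inv_mem hi)), one_mul, one_mul, one_mul]
      linear_combination -a1 - a2
    -- trivial at the level 1
    have hact : ∀ x : MN T l 1, actN l 1 (fun g => ρ g) hst c x = x := by
      intro x
      apply L.injective
      rw [← ae c x, hA, one_mulVec]
    have h1 : Trv T l 1 (ρ c) := trv_of_actN (ρ := fun g => ρ g) hact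
    have key : ρ c = 1 := by
      refine eq_one_of_tr hl fun N => ?_
      obtain ⟨W, hW, hWT⟩ := hsm N
      obtain ⟨r, hr, hrW⟩ := P_pow h hW hdP
      refine Trv.of_odd (hst c) hr (k := N) ?_ ((h1.two_pow hl N).mono (Nat.le_succ N))
      rw [← map_pow]
      exact hWT _ hrW _ (by rw [map_pow, hcd, map_pow])
    have h2 : c * (g' * g) = g * g' := by
      rw [hcg]
      group
    have h3 := congrArg ρ h2
    rw [map_mul, key, one_mul, map_mul, map_mul] at h3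
    exact h3.symm
  · intro hc i hi k hk
    obtain ⟨g, hg⟩ := hI i hi
    obtain ⟨g', hg'⟩ := hI k hk
    have h1 := hc g g' ⟨i, hi, hg⟩ ⟨k, hk, hg'⟩
    rw [← hg, ← hg', ← map_mul, ← map_mul, ← map_mul, ← map_mul]
    refine Matrix.toLin'.injective (LinearMap.ext fun w => ?_)
    rw [Matrix.toLin'_apply, Matrix.toLin'_apply]
    obtain ⟨x, rfl⟩ := L.surjective w
    rw [ae, ae]
    exact congrArg L (actN_congr (ρ := fun g => ρ g) (by
      show ρ (g * g') = ρ (g' * g)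
      rw [map_mul, map_mul, h1]) x)

end main

end Pool.Agent.Work.MP_787500_nt.KI
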